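import Pool.Agent.GD.FDefs
import Pool.Agent.MP_1fb45e.Setup

set_option autoImplicit false

/-! Module FA: (S1) a good set gives a good alternating circuit. -/

namespace Pool.Agent.GD

open Pool.Agent.MP_1fb45e

variable {V : Type}

/-- handshake: on an even graph `E`, a function agreeing at all vertices different from `w`
agrees at `w` if `w` has exactly two `E`-edges -/
lemma agree_of_two [Finite V] (E : Set (Sym2 V)) (hE : ∀ v, s(v, v) ∉ E)
    (hev : ∀ v, Even {a | s(v, a) ∈ E}.ncard) (w : V) (h2 : {a | s(w, a) ∈ E}.ncard ≤ 2)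
    (κ : Sym2 V → Prop) (h : ∀ v, v ≠ w → AgreeOn E κ v) : AgreeOn E κ w := by
  classical
  have : Fintype V := Fintype.ofFinite V
  let G' : SimpleGraph V :=
    { Adj := fun a b => s(a, b) ∈ E ∧ κ s(a, b)
      symm := ⟨fun a b h => by rw [Sym2.eq_swap]; exact h⟩
      loopless := ⟨fun a h => hE a h.1⟩ }
  have hdeg : ∀ v, G'.degree v = (G'.neighborSet v).ncard := by
    intro v
    rw [Set.ncard_eq_toFinset_card', ← SimpleGraph.card_neighborFinset_eq_degree]
    rfl
  have hother : ∀ v, v ≠ w → Even (G'.neighborSet v).ncard := by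
    intro v hv
    by_cases hk : ∃ a, s(v, a) ∈ E ∧ κ s(v, a)
    · obtain ⟨a, ha, hka⟩ := hk
      have : G'.neighborSet v = {a | s(v, a) ∈ E} := by
        ext b
        constructor
        · exact fun h => h.1
        · intro hb
          exact ⟨hb, (h v hv a b ha hb).1 hka⟩
      rw [this]
      exact hev v
    · have : G'.neighborSet v = ∅ := by
        ext b
        simp only [SimpleGraph.mem_neighborSet, Set.mem_empty_iff_false, iff_false]
        intro hb
        exact hk ⟨b, hb.1, hb.2⟩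
      rw [this]
      simp
  have hwe : Even (G'.neighborSet w).ncard := by
    by_contra hodd
    rw [Nat.not_even_iff_odd, ← hdeg] at hodd
    obtain ⟨u, hu, hu'⟩ := G'.exists_ne_odd_degree_of_exists_odd_degree w hodd
    rw [hdeg] at hu'
    exact (Nat.not_even_iff_odd.mpr hu') (hother u hu)
  have key : ∀ a b, s(w, a) ∈ E → s(w, b) ∈ E → κ s(w, a) → κ s(w, b) := by
    intro a b ha hb hka
    have hsub : G'.neighborSet w ⊆ {a | s(w, a) ∈ E} := fun b h => h.1
    have hpos : 0 < (G'.neighborSet w).ncard := by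
      rw [Set.ncard_pos (Set.toFinite _)]
      exact ⟨a, ha, hka⟩
    have h2' : 2 ≤ (G'.neighborSet w).ncard := by
      rcases hwe with ⟨k, hk⟩
      omega
    have heq : G'.neighborSet w = {a | s(w, a) ∈ E} :=
      Set.eq_of_subset_of_ncard_le hsub (le_trans h2 h2') (Set.toFinite _)
    have hb' : b ∈ G'.neighborSet w := by
      rw [heq]
      exact hb
    exact hb'.2
  intro a b ha hb
  exact ⟨key a b ha hb, key b a hb ha⟩

lemma fa_deg4 [Finite V] {H : SimpleGraph V} {red : Set (Sym2 V)} (h2 : TwoReg H red) (v : V) :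
    {a | s(v, a) ∈ H.edgeSet}.ncard = 4 := by
  have h : {a | s(v, a) ∈ H.edgeSet} =
      {w | H.Adj v w ∧ s(v, w) ∈ red} ∪ {w | H.Adj v w ∧ s(v, w) ∉ red} := by
    ext a
    simp only [Set.mem_ofPred_eq, Set.mem_union, SimpleGraph.mem_edgeSet]
    tauto
  rw [h, Set.ncard_union_eq _ (Set.toFinite _) (Set.toFinite _), h2.r2, h2.b2]
  rw [Set.disjoint_left]
  rintro a ⟨_, h1⟩ ⟨_, h3⟩
  exact h3 h1

lemma fa_degQ [Finite V] {H : SimpleGraph V} {red Q : Set (Sym2 V)} (hQ : AltSet H red Q)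
    (v : V) (hv : OnQ Q v) : {a | s(v, a) ∈ Q}.ncard = 2 := by
  obtain ⟨a, b, hab, h, -⟩ := hQ.deg v hv
  have : {a | s(v, a) ∈ Q} = {a, b} := by
    ext c
    simp only [Set.mem_ofPred_eq, Set.mem_insert_iff, Set.mem_singleton_iff]
    exact h c
  rw [this]
  exact Set.ncard_pair hab

lemma fa_degR [Finite V] {H : SimpleGraph V} {red Q : Set (Sym2 V)} (h2 : TwoReg H red)
    (hQ : AltSet H red Q) (v : V) :
    {a | s(v, a) ∈ H.edgeSet \ Q}.ncard + {a | s(v, a) ∈ Q}.ncard = 4 := by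
  have h4 := fa_deg4 h2 v
  have h : {a | s(v, a) ∈ H.edgeSet} = {a | s(v, a) ∈ H.edgeSet \ Q} ∪ {a | s(v, a) ∈ Q} := by
    ext a
    simp only [Set.mem_ofPred_eq, Set.mem_union, Set.mem_diff]
    have : s(v, a) ∈ Q → s(v, a) ∈ H.edgeSet := fun h => hQ.sub h
    tauto
  rw [h, Set.ncard_union_eq _ (Set.toFinite _) (Set.toFinite _)] at h4
  · exact h4
  rw [Set.disjoint_left]
  rintro a ⟨_, h1⟩ h3
  exact h1 h3

lemma fa_degR' [Finite V] {H : SimpleGraph V} {red Q : Set (Sym2 V)} (h2 : TwoReg H red)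
    (hQ : AltSet H red Q) (v : V) :
    ({a | s(v, a) ∈ H.edgeSet \ Q}.ncard = 4 ∧ ¬ OnQ Q v) ∨
      ({a | s(v, a) ∈ H.edgeSet \ Q}.ncard = 2 ∧ OnQ Q v) := by
  have h := fa_degR h2 hQ v
  by_cases hv : OnQ Q v
  · right
    rw [fa_degQ hQ v hv] at h
    exact ⟨by omega, hv⟩
  · left
    have h0 : {a | s(v, a) ∈ Q} = ∅ := by
      ext a
      simp only [Set.mem_ofPred_eq, Set.mem_empty_iff_false, iff_false]
      exact fun ha => hv ⟨a, ha⟩
    rw [h0, Set.ncard_empty] at h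
    exact ⟨by omega, hv⟩

/-- removing some of the circuits of a good set leaves a graph without cut vertex -/
lemma fa_nocut [Finite V] {H : SimpleGraph V} {red Q : Set (Sym2 V)} (h2 : TwoReg H red)
    (hQ : AltSet H red Q) (hs : Solid H Q) (Q₁ : Set (Sym2 V)) (h1 : Q₁ ⊆ Q) (w : V) :
    ¬ CutVertex (H.deleteEdges Q₁) w := by
  rintro ⟨a, b, haw, hbw, hr, hall⟩
  set L := H.deleteEdges Q₁ with hLdef
  have hLadj : ∀ z z', L.Adj z z' ↔ H.Adj z z' ∧ s(z, z') ∉ Q₁ := by
    intro z z'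
    rw [hLdef, SimpleGraph.deleteEdges_adj]
  have hRL : ∀ z z', s(z, z') ∈ H.edgeSet \ Q → L.Adj z z' := by
    rintro z z' ⟨h, h'⟩
    rw [hLadj]
    exact ⟨h, fun h'' => h' (h1 h'')⟩
  set A : Set V := {z | ∃ p : L.Walk a z, w ∉ p.support} with hA
  have haA : a ∈ A := ⟨SimpleGraph.Walk.nil, by simpa using haw.symm⟩
  have hbA : b ∉ A := fun ⟨p, hp⟩ => hp (hall p)
  have hclL : ∀ z ∈ A, ∀ z', L.Adj z z' → z' ≠ w → z' ∈ A := by
    rintro z ⟨p, hp⟩ z' h hz'
    refine ⟨p.concat h, ?_⟩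
    rw [SimpleGraph.Walk.support_concat, List.mem_append,
      List.mem_singleton, not_or]
    exact ⟨hp, hz'.symm⟩
  let κ : Sym2 V → Prop := fun e => ∃ y ∈ e, y ∈ A
  have hin : ∀ v ∈ A, ∀ x, κ s(v, x) := fun v hv x => ⟨v, Sym2.mem_mk_left v x, hv⟩
  have hout : ∀ v, v ∉ A → v ≠ w → ∀ x, s(v, x) ∈ H.edgeSet \ Q → ¬ κ s(v, x) := by
    rintro v hv hvw x hx ⟨y, hy, hyA⟩
    rcases Sym2.mem_iff.1 hy with h | h
    · rw [h] at hyA
      exact hv hyA
    · rw [h] at hyA
      exact hv (hclL x hyA v (hRL v x hx).symm hvw)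
  have hag : ∀ v, v ≠ w → AgreeOn (H.edgeSet \ Q) κ v := by
    intro v hv x y hx hy
    by_cases hvA : v ∈ A
    · exact ⟨fun _ => hin v hvA y, fun _ => hin v hvA x⟩
    · exact ⟨fun h => absurd h (hout v hvA hv x hx), fun h => absurd h (hout v hvA hv y hy)⟩
  have hconst : ConstOn (H.edgeSet \ Q) κ := by
    refine hs w κ ?_
    rintro v (hv | hv)
    · exact hag v hv
    · by_cases hvw : v = w
      · subst hvw
        refine agree_of_two (H.edgeSet \ Q) ?_ ?_ v ?_ κ hag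
        · intro u hu
          exact H.loopless.irrefl u hu.1
        · intro u
          rcases fa_degR' h2 hQ u with ⟨h, -⟩ | ⟨h, -⟩
          · rw [h]
            exact ⟨2, rfl⟩
          · rw [h]
            exact ⟨1, rfl⟩
        · rcases fa_degR' h2 hQ v with ⟨-, h⟩ | ⟨h, -⟩
          · exact absurd hv h
          · exact h.le
      · exact hag v hvw
  have hne : ∀ v, ∃ x, s(v, x) ∈ H.edgeSet \ Q := by
    intro v
    have : 0 < {a | s(v, a) ∈ H.edgeSet \ Q}.ncard := by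
      rcases fa_degR' h2 hQ v with ⟨h, -⟩ | ⟨h, -⟩ <;> omega
    rw [Set.ncard_pos (Set.toFinite _)] at this
    exact this
  obtain ⟨x, hx⟩ := hne a
  obtain ⟨y, hy⟩ := hne b
  exact hout b hbA hbw y hy ((hconst _ hx _ hy).1 (hin a haA x))

/-- (S1) -/
theorem circuit_of_good [Fintype V] {H : SimpleGraph V} {x : V} (C : H.Walk x x)
    (h2 : TwoReg H {e | e ∈ C.edges}) (hg : HasGood H {e | e ∈ C.edges}) :
    ∃ (u : V) (D : H.Walk u u), IsAlternatingCircuit C D ∧
      ∀ w, ¬ IsCutVertex (H.deleteEdges {e | e ∈ D.edges}) w := by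
  classical
  obtain ⟨Q, hQ, hs⟩ := hg
  let c : Sym2 V → Fin 3 := fun e => if e ∈ Q then 0 else 1
  have hc : ∀ e, c e = 0 ↔ e ∈ Q := by
    intro e
    simp only [c]
    split_ifs with h
    · exact ⟨fun _ => h, fun _ => rfl⟩
    · exact ⟨fun h' => absurd h' (by decide), fun h' => absurd h' h⟩
  have hadj : ∀ v w, (CG H c 0).Adj v w ↔ s(v, w) ∈ Q := by
    intro v w
    rw [CG_adj, hc]
    exact ⟨fun h => h.2, fun h => ⟨hQ.sub h, h⟩⟩
  obtain ⟨e, he⟩ := hQ.ne
  induction e using Sym2.ind with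
  | _ a b =>
  let D : Cls H c := ⟨0, (CG H c 0).connectedComponentMk a⟩
  have hD : D ∈ NT H c := ⟨a, ⟨b, (hadj a b).2 he⟩, rfl⟩
  have hon : ∀ v, Inc H c v D → OnQ Q v := by
    rintro v ⟨⟨w, hw⟩, -⟩
    exact ⟨w, (hadj v w).1 hw⟩
  have hnb : ∀ v, (CG H c D.1).neighborSet v = {a | s(v, a) ∈ Q} := by
    intro v
    ext w
    exact hadj v w
  obtain ⟨u, p, hp1, -, hp2⟩ := finish C D hD
    (fun v hv => by rw [hnb]; exact fa_degQ hQ v (hon v hv))
    (fun v hv w w' hw hw' hne => by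
      have hw1 : s(v, w) ∈ Q := (hadj v w).1 hw
      have hw2 : s(v, w') ∈ Q := (hadj v w').1 hw'
      obtain ⟨a', b', hab, h, hcol⟩ := hQ.deg v (hon v hv)
      rcases (h w).1 hw1 with h3 | h3 <;> rcases (h w').1 hw2 with h4 | h4
      · exact absurd (h3.trans h4.symm) hne
      · rw [h3, h4]
        exact hcol
      · rw [h3, h4]
        tauto
      · exact absurd (h3.trans h4.symm) hne)
    (fun _ => True)
    (fun w _ => fa_nocut h2 hQ hs _ (by
      intro e he
      induction e using Sym2.ind with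
      | _ y z =>
        rw [SimpleGraph.mem_edgeSet] at he
        exact (hadj y z).1 he.1) w)
  exact ⟨u, p, hp1, fun w => hp2 w trivial⟩

end Pool.Agent.GD
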