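import Pool.Agent.GD.FDefs

set_option autoImplicit false

/-! Module FB: basic facts on frames; propagation of `κ` along the trails. -/

namespace Pool.Agent.GD.Frame

variable {V : Type} {H : SimpleGraph V} {red : Set (Sym2 V)} (F : Frame H red)

/-- the `i`-th edge of the first trail -/
def gd (i : ℕ) : Sym2 V := s(F.d i, F.d (i + 1))

/-- the `i`-th edge of the second trail -/
def gf (i : ℕ) : Sym2 V := s(F.f i, F.f (i + 1))

/-- `Q` given by sets of positions -/
def QI (I K : Set ℕ) : Set (Sym2 V) :=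
  {e | (∃ i < F.l, i ∈ I ∧ e = F.gd i) ∨ (∃ i < F.m, i ∈ K ∧ e = F.gf i)}

lemma gd_mem_QI {I K : Set ℕ} {i : ℕ} (hi : i < F.l) : F.gd i ∈ F.QI I K ↔ i ∈ I := by
  constructor
  · rintro (⟨j, hj, hjI, he⟩ | ⟨j, hj, hjK, he⟩)
    · rw [F.edd i hi j hj he]; exact hjI
    · exact absurd he (F.edf i hi j hj)
  · intro h
    exact Or.inl ⟨i, hi, h, rfl⟩

lemma gf_mem_QI {I K : Set ℕ} {i : ℕ} (hi : i < F.m) : F.gf i ∈ F.QI I K ↔ i ∈ K := by
  constructor
  · rintro (⟨j, hj, hjI, he⟩ | ⟨j, hj, hjK, he⟩)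
    · exact absurd he.symm (F.edf j hj i hi)
    · rw [F.eff i hi j hj he]; exact hjK
  · intro h
    exact Or.inr ⟨i, hi, h, rfl⟩

lemma QI_sub {I K : Set ℕ} : F.QI I K ⊆ H.edgeSet := by
  rintro e (⟨j, hj, _, rfl⟩ | ⟨j, hj, _, rfl⟩)
  · exact F.adjd j hj
  · exact F.adjf j hj

/-- the edges of the trails at an interior vertex -/
lemma edges_at {v a : V} : (s(v, a) ∈ F.ED → F.IntD v → s(v, a) = F.gd (F.pd v - 1) ∨
    s(v, a) = F.gd (F.pd v)) ∧ (s(v, a) ∈ F.EF → F.IntF v → s(v, a) = F.gf (F.pf v - 1) ∨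
    s(v, a) = F.gf (F.pf v)) := by
  constructor
  · rintro ⟨i, hi, he⟩ ⟨h0, h1, h2⟩
    have hd := F.d0D (F.pd v) h0 h1
    rw [h2] at hd
    rcases Sym2.eq_iff.mp he with ⟨hv, ha⟩ | ⟨hv, ha⟩
    · right
      rcases Nat.eq_zero_or_pos i with hi0 | hi0
      · rw [hi0] at hv; exact absurd hv hd.1
      · have := F.hpd i hi0 hi
        rw [← hv] at this
        rw [this]; exact he
    · left
      rcases Nat.lt_or_ge (i + 1) F.l with hi1 | hi1
      · have := F.hpd (i + 1) (by omega) hi1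
        rw [← hv] at this
        rw [this]; exact he
      · have : i + 1 = F.l := by omega
        rw [this] at hv
        exact absurd hv hd.2.1
  · rintro ⟨i, hi, he⟩ ⟨h0, h1, h2⟩
    have hd := F.f0F (F.pf v) h0 h1
    rw [h2] at hd
    rcases Sym2.eq_iff.mp he with ⟨hv, ha⟩ | ⟨hv, ha⟩
    · right
      rcases Nat.eq_zero_or_pos i with hi0 | hi0
      · rw [hi0] at hv; exact absurd hv hd.2.2.1
      · have := F.hpf i hi0 hi
        rw [← hv] at this
        rw [this]; exact he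
    · left
      rcases Nat.lt_or_ge (i + 1) F.m with hi1 | hi1
      · have := F.hpf (i + 1) (by omega) hi1
        rw [← hv] at this
        rw [this]; exact he
      · have : i + 1 = F.m := by omega
        rw [this] at hv
        exact absurd hv hd.2.2.2

/-- a trail edge at a vertex which is not interior is an end edge -/
lemma edges_at_end {v a : V} (h1 : ¬ F.IntD v) :
    s(v, a) ∈ F.ED → (s(v, a) = F.ed0 ∧ v = F.d 0) ∨ (s(v, a) = F.edl ∧ v = F.d F.l) := by
  rintro ⟨i, hi, he⟩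
  rcases Sym2.eq_iff.mp he with ⟨hv, ha⟩ | ⟨hv, ha⟩
  · rcases Nat.eq_zero_or_pos i with hi0 | hi0
    · left
      subst hi0
      exact ⟨he, hv⟩
    · refine absurd ?_ h1
      have := F.hpd i hi0 hi
      rw [← hv] at this
      exact ⟨by rw [this]; exact hi0, by rw [this]; exact hi, by rw [this]; exact hv.symm⟩
  · rcases Nat.lt_or_ge (i + 1) F.l with hi1 | hi1
    · refine absurd ?_ h1
      have := F.hpd (i + 1) (by omega) hi1
      rw [← hv] at this
      exact ⟨by rw [this]; omega, by rw [this]; exact hi1, by rw [this]; exact hv.symm⟩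
    · right
      have h2 : i + 1 = F.l := by omega
      have h3 : F.l - 1 = i := by omega
      rw [h2] at he hv
      refine ⟨?_, hv⟩
      rw [he, edl, h3]

lemma edges_at_end' {v a : V} (h1 : ¬ F.IntF v) :
    s(v, a) ∈ F.EF → (s(v, a) = F.ef0 ∧ v = F.f 0) ∨ (s(v, a) = F.efm ∧ v = F.f F.m) := by
  rintro ⟨i, hi, he⟩
  rcases Sym2.eq_iff.mp he with ⟨hv, ha⟩ | ⟨hv, ha⟩
  · rcases Nat.eq_zero_or_pos i with hi0 | hi0
    · left
      subst hi0
      exact ⟨he, hv⟩
    · refine absurd ?_ h1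
      have := F.hpf i hi0 hi
      rw [← hv] at this
      exact ⟨by rw [this]; exact hi0, by rw [this]; exact hi, by rw [this]; exact hv.symm⟩
  · rcases Nat.lt_or_ge (i + 1) F.m with hi1 | hi1
    · refine absurd ?_ h1
      have := F.hpf (i + 1) (by omega) hi1
      rw [← hv] at this
      exact ⟨by rw [this]; omega, by rw [this]; exact hi1, by rw [this]; exact hv.symm⟩
    · right
      have h2 : i + 1 = F.m := by omega
      have h3 : F.m - 1 = i := by omega
      rw [h2] at he hv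
      refine ⟨?_, hv⟩
      rw [he, efm, h3]

lemma fb_ed0 : F.ed0 = F.gd 0 := rfl

lemma fb_ef0 : F.ef0 = F.gf 0 := rfl

lemma fb_edl : F.edl = F.gd (F.l - 1) := by
  have := F.hl
  have h : F.l - 1 + 1 = F.l := by omega
  rw [edl, gd, h]

lemma fb_efm : F.efm = F.gf (F.m - 1) := by
  have := F.hm
  have h : F.m - 1 + 1 = F.m := by omega
  rw [efm, gf, h]

/-- the outer edges are not in `Q` -/
lemma fb_out_sub {I K : Set ℕ} (h0 : 0 ∉ I) (hl : F.l - 1 ∉ I) (h0' : 0 ∉ K) (hm : F.m - 1 ∉ K) :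
    F.Out ⊆ H.edgeSet \ F.QI I K := by
  have hl2 := F.hl
  have hm2 := F.hm
  rintro e ⟨heH, he⟩
  refine ⟨heH, fun heQ => ?_⟩
  rcases he with ⟨h1, h2⟩ | h | h | h | h
  · rcases heQ with ⟨i, hi, _, rfl⟩ | ⟨i, hi, _, rfl⟩
    · exact h1 ⟨i, hi, rfl⟩
    · exact h2 ⟨i, hi, rfl⟩
  · rw [h, fb_ed0, gd_mem_QI F (by omega)] at heQ
    exact h0 heQ
  · rw [h, fb_edl, gd_mem_QI F (by omega)] at heQ
    exact hl heQ
  · rw [h, fb_ef0, gf_mem_QI F (by omega)] at heQ
    exact h0' heQ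
  · rw [h, fb_efm, gf_mem_QI F (by omega)] at heQ
    exact hm heQ

/-- the restriction of `κ` to the outer edges agrees, if the end edges are not in `Q` -/
lemma out_agree {I K : Set ℕ} (h0 : 0 ∉ I) (hl : F.l - 1 ∉ I) (h0' : 0 ∉ K) (hm : F.m - 1 ∉ K)
    {κ : Sym2 V → Prop} {v : V} (h : AgreeOn (H.edgeSet \ F.QI I K) κ v) :
    AgreeOn F.Out κ v := by
  intro a b ha hb
  exact h a b (F.fb_out_sub h0 hl h0' hm ha) (F.fb_out_sub h0 hl h0' hm hb)

/-- propagation along the first trail: the edges number `i` and `j` have the same value if the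
exceptional vertex `w` is not strictly between them and no edge between them is in `Q` -/
lemma prop_d {I K : Set ℕ} {κ : Sym2 V → Prop} {w : V}
    (h : ∀ v, v ≠ w ∨ OnQ (F.QI I K) v → AgreeOn (H.edgeSet \ F.QI I K) κ v)
    {i j : ℕ} (hij : i ≤ j) (hj : j < F.l) (hI : ∀ t, i ≤ t → t ≤ j → t ∉ I)
    (hw : ∀ t, i < t → t ≤ j → F.d t = w → OnQ (F.QI I K) w) : (κ (F.gd i) ↔ κ (F.gd j)) := by
  induction j, hij using Nat.le_induction with
  | base => exact Iff.rfl
  | succ j hij ih =>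
    refine (ih (by omega) (fun t h1 h2 => hI t h1 (by omega))
      (fun t h1 h2 => hw t h1 (by omega))).trans ?_
    have hag : AgreeOn (H.edgeSet \ F.QI I K) κ (F.d (j + 1)) := by
      apply h
      by_cases hc : F.d (j + 1) = w
      · right
        rw [hc]
        exact hw (j + 1) (by omega) le_rfl hc
      · left; exact hc
    have e1 : F.gd j = s(F.d (j + 1), F.d j) := Sym2.eq_swap
    have e2 : F.gd (j + 1) = s(F.d (j + 1), F.d (j + 1 + 1)) := rfl
    rw [e1, e2]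
    apply hag
    · rw [← e1]
      refine ⟨F.adjd j (by omega), ?_⟩
      rw [gd_mem_QI F (by omega)]
      exact hI j hij (by omega)
    · rw [← e2]
      refine ⟨F.adjd (j + 1) hj, ?_⟩
      rw [gd_mem_QI F hj]
      exact hI (j + 1) (by omega) le_rfl

lemma prop_f {I K : Set ℕ} {κ : Sym2 V → Prop} {w : V}
    (h : ∀ v, v ≠ w ∨ OnQ (F.QI I K) v → AgreeOn (H.edgeSet \ F.QI I K) κ v)
    {i j : ℕ} (hij : i ≤ j) (hj : j < F.m) (hK : ∀ t, i ≤ t → t ≤ j → t ∉ K)
    (hw : ∀ t, i < t → t ≤ j → F.f t = w → OnQ (F.QI I K) w) : (κ (F.gf i) ↔ κ (F.gf j)) := by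
  induction j, hij using Nat.le_induction with
  | base => exact Iff.rfl
  | succ j hij ih =>
    refine (ih (by omega) (fun t h1 h2 => hK t h1 (by omega))
      (fun t h1 h2 => hw t h1 (by omega))).trans ?_
    have hag : AgreeOn (H.edgeSet \ F.QI I K) κ (F.f (j + 1)) := by
      apply h
      by_cases hc : F.f (j + 1) = w
      · right
        rw [hc]
        exact hw (j + 1) (by omega) le_rfl hc
      · left; exact hc
    have e1 : F.gf j = s(F.f (j + 1), F.f j) := Sym2.eq_swap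
    have e2 : F.gf (j + 1) = s(F.f (j + 1), F.f (j + 1 + 1)) := rfl
    rw [e1, e2]
    apply hag
    · rw [← e1]
      refine ⟨F.adjf j (by omega), ?_⟩
      rw [gf_mem_QI F (by omega)]
      exact hK j hij (by omega)
    · rw [← e2]
      refine ⟨F.adjf (j + 1) hj, ?_⟩
      rw [gf_mem_QI F hj]
      exact hK (j + 1) (by omega) le_rfl

/-- the `D`-neighbours of an interior vertex -/
lemma fb_before_d {v : V} (h : F.IntD v) : s(v, F.d (F.pd v - 1)) = F.gd (F.pd v - 1) := by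
  obtain ⟨h0, h1, h2⟩ := h
  have h3 : F.pd v - 1 + 1 = F.pd v := by omega
  rw [gd, h3, h2]
  exact Sym2.eq_swap

lemma fb_after_d {v : V} (h : F.IntD v) : s(v, F.d (F.pd v + 1)) = F.gd (F.pd v) := by
  obtain ⟨h0, h1, h2⟩ := h
  rw [gd, h2]

lemma fb_before_f {v : V} (h : F.IntF v) : s(v, F.f (F.pf v - 1)) = F.gf (F.pf v - 1) := by
  obtain ⟨h0, h1, h2⟩ := h
  have h3 : F.pf v - 1 + 1 = F.pf v := by omega
  rw [gf, h3, h2]
  exact Sym2.eq_swap

lemma fb_after_f {v : V} (h : F.IntF v) : s(v, F.f (F.pf v + 1)) = F.gf (F.pf v) := by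
  obtain ⟨h0, h1, h2⟩ := h
  rw [gf, h2]

lemma fb_right_inj {v a b : V} (h : s(v, a) = s(v, b)) : a = b := by
  rcases Sym2.eq_iff.mp h with ⟨_, h⟩ | ⟨h1, h2⟩
  · exact h
  · rw [h2, h1]

/-- the edges of `Q` at a vertex -/
lemma fb_mem_QI {I K : Set ℕ} (h0 : 0 ∉ I) (hl : F.l - 1 ∉ I) (h0' : 0 ∉ K) (hm : F.m - 1 ∉ K)
    {v c : V} : s(v, c) ∈ F.QI I K ↔
      (F.IntD v ∧ ((F.pd v - 1 ∈ I ∧ c = F.d (F.pd v - 1)) ∨ (F.pd v ∈ I ∧ c = F.d (F.pd v + 1)))) ∨
      (F.IntF v ∧ ((F.pf v - 1 ∈ K ∧ c = F.f (F.pf v - 1)) ∨ (F.pf v ∈ K ∧ c = F.f (F.pf v + 1))))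
      := by
  have hl2 := F.hl
  have hm2 := F.hm
  constructor
  · intro hQ
    have hor : s(v, c) ∈ F.ED ∨ s(v, c) ∈ F.EF := by
      rcases hQ with ⟨i, hi, _, he⟩ | ⟨i, hi, _, he⟩
      · left; exact ⟨i, hi, he⟩
      · right; exact ⟨i, hi, he⟩
    rcases hor with hD | hF
    · left
      by_cases hv : F.IntD v
      · refine ⟨hv, ?_⟩
        rcases F.edges_at.1 hD hv with h | h
        · left
          have h2 := hQ
          rw [h, gd_mem_QI F (by have := hv.2.1; omega)] at h2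
          rw [← F.fb_before_d hv] at h
          exact ⟨h2, fb_right_inj h⟩
        · right
          have h2 := hQ
          rw [h, gd_mem_QI F hv.2.1] at h2
          rw [← F.fb_after_d hv] at h
          exact ⟨h2, fb_right_inj h⟩
      · exfalso
        rcases F.edges_at_end hv hD with ⟨h, _⟩ | ⟨h, _⟩
        · rw [h, fb_ed0, gd_mem_QI F (by omega)] at hQ
          exact h0 hQ
        · rw [h, fb_edl, gd_mem_QI F (by omega)] at hQ
          exact hl hQ
    · right
      by_cases hv : F.IntF v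
      · refine ⟨hv, ?_⟩
        rcases F.edges_at.2 hF hv with h | h
        · left
          have h2 := hQ
          rw [h, gf_mem_QI F (by have := hv.2.1; omega)] at h2
          rw [← F.fb_before_f hv] at h
          exact ⟨h2, fb_right_inj h⟩
        · right
          have h2 := hQ
          rw [h, gf_mem_QI F hv.2.1] at h2
          rw [← F.fb_after_f hv] at h
          exact ⟨h2, fb_right_inj h⟩
      · exfalso
        rcases F.edges_at_end' hv hF with ⟨h, _⟩ | ⟨h, _⟩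
        · rw [h, fb_ef0, gf_mem_QI F (by omega)] at hQ
          exact h0' hQ
        · rw [h, fb_efm, gf_mem_QI F (by omega)] at hQ
          exact hm hQ
  · rintro (⟨hv, h⟩ | ⟨hv, h⟩)
    · have := hv.2.1
      rcases h with ⟨h1, rfl⟩ | ⟨h1, rfl⟩
      · rw [F.fb_before_d hv, gd_mem_QI F (by omega)]; exact h1
      · rw [F.fb_after_d hv, gd_mem_QI F hv.2.1]; exact h1
    · have := hv.2.1
      rcases h with ⟨h1, rfl⟩ | ⟨h1, rfl⟩
      · rw [F.fb_before_f hv, gf_mem_QI F (by omega)]; exact h1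
      · rw [F.fb_after_f hv, gf_mem_QI F hv.2.1]; exact h1

lemma fb_ne_dd {v : V} (hv : F.IntD v) : F.d (F.pd v - 1) ≠ F.d (F.pd v + 1) := by
  intro h
  have h1 : F.gd (F.pd v - 1) = F.gd (F.pd v) := by
    rw [← F.fb_before_d hv, ← F.fb_after_d hv, h]
  have h2 := hv.1
  have h3 := hv.2.1
  have := F.edd _ (by omega) _ h3 h1
  omega

lemma fb_ne_ff {v : V} (hv : F.IntF v) : F.f (F.pf v - 1) ≠ F.f (F.pf v + 1) := by
  intro h
  have h1 : F.gf (F.pf v - 1) = F.gf (F.pf v) := by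
    rw [← F.fb_before_f hv, ← F.fb_after_f hv, h]
  have h2 := hv.1
  have h3 := hv.2.1
  have := F.eff _ (by omega) _ h3 h1
  omega

lemma fb_ne_df {v a b : V} {i j : ℕ} (hi : i < F.l) (hj : j < F.m) (ha : s(v, a) = F.gd i)
    (hb : s(v, b) = F.gf j) : a ≠ b := by
  intro h
  rw [h, hb] at ha
  exact F.edf i hi j hj ha.symm

lemma fb_alt_d {v : V} (hv : F.IntD v) :
    (s(v, F.d (F.pd v - 1)) ∈ red ↔ s(v, F.d (F.pd v + 1)) ∉ red) := by
  have h := F.altd (F.pd v) hv.1 hv.2.1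
  rw [hv.2.2] at h
  rw [Sym2.eq_swap]
  exact h

lemma fb_alt_f {v : V} (hv : F.IntF v) :
    (s(v, F.f (F.pf v - 1)) ∈ red ↔ s(v, F.f (F.pf v + 1)) ∉ red) := by
  have h := F.altf (F.pf v) hv.1 hv.2.1
  rw [hv.2.2] at h
  rw [Sym2.eq_swap]
  exact h

lemma fb_sg {v : V} (hd : F.IntD v) (hf : F.IntF v) :
    (F.sg v ↔ (s(v, F.d (F.pd v - 1)) ∈ red ↔ s(v, F.f (F.pf v - 1)) ∈ red)) := by
  rw [sg, hd.2.2, hf.2.2, Sym2.eq_swap (a := F.d (F.pd v - 1)), Sym2.eq_swap (a := F.f (F.pf v - 1))]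

lemma fb_prop1 {A B C D S : Prop} (c1 : A ↔ ¬ B) (c2 : C ↔ ¬ D) (c3 : S ↔ (A ↔ C)) :
    (S → (A ↔ ¬ D)) ∧ (S → (B ↔ ¬ C)) ∧ (¬ S → (A ↔ ¬ C)) ∧ (¬ S → (B ↔ ¬ D)) := by
  by_cases A <;> by_cases B <;> by_cases C <;> by_cases D <;> simp_all

/-- `QI` is an alternating set if every interior vertex has no or exactly two edges in it, of
different colours -/
lemma altSet_QI {I K : Set ℕ} (hne : (F.QI I K).Nonempty) (h0 : 0 ∉ I) (hl : F.l - 1 ∉ I)
    (h0' : 0 ∉ K) (hm : F.m - 1 ∉ K) (hfull : F.Full)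
    (h1 : ∀ v, F.IntD v → ¬ F.IntF v → (F.pd v - 1 ∈ I ↔ F.pd v ∈ I))
    (h2 : ∀ v, F.IntF v → ¬ F.IntD v → (F.pf v - 1 ∈ K ↔ F.pf v ∈ K))
    (h3 : ∀ v ∈ F.P,
      ((F.pd v - 1 ∈ I ↔ F.pd v ∈ I) ∧ (F.pf v - 1 ∈ K ↔ F.pf v ∈ K) ∧
        ¬ (F.pd v ∈ I ∧ F.pf v ∈ K)) ∨
      ((F.pd v - 1 ∈ I ↔ F.pd v ∉ I) ∧ (F.pf v - 1 ∈ K ↔ F.pf v ∉ K) ∧
        (F.sg v ↔ (F.pd v - 1 ∈ I ↔ F.pf v ∈ K)))) :
    AltSet H red (F.QI I K) := by
  clear hfull
  refine ⟨F.QI_sub, hne, ?_⟩
  rintro v ⟨a, ha⟩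
  have key : ∀ c, s(v, c) ∈ F.QI I K ↔ _ := fun c => F.fb_mem_QI h0 hl h0' hm
  rw [key a] at ha
  by_cases hd : F.IntD v
  · by_cases hf : F.IntF v
    · have hdl := hd.2.1
      have hfm := hf.2.1
      have hd0 := hd.1
      have hf0 := hf.1
      obtain ⟨s1, s2, s3, s4⟩ := fb_prop1 (F.fb_alt_d hd) (F.fb_alt_f hf) (F.fb_sg hd hf)
      rcases h3 v ⟨hd, hf⟩ with ⟨p1, p2, p3⟩ | ⟨p1, p2, p3⟩
      · by_cases q1 : F.pd v ∈ I
        · have q2 : F.pf v ∉ K := fun h => p3 ⟨q1, h⟩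
          have q3 : F.pd v - 1 ∈ I := p1.mpr q1
          have q4 : F.pf v - 1 ∉ K := fun h => q2 (p2.mp h)
          refine ⟨F.d (F.pd v - 1), F.d (F.pd v + 1), F.fb_ne_dd hd, fun c => ?_, F.fb_alt_d hd⟩
          rw [key c]
          simp only [hd, hf, q1, q2, q3, q4, true_and, false_and, or_false]
        · have q3 : F.pd v - 1 ∉ I := fun h => q1 (p1.mp h)
          by_cases q2 : F.pf v ∈ K
          · have q4 : F.pf v - 1 ∈ K := p2.mpr q2
            refine ⟨F.f (F.pf v - 1), F.f (F.pf v + 1), F.fb_ne_ff hf, fun c => ?_, F.fb_alt_f hf⟩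
            rw [key c]
            simp only [hd, hf, q1, q2, q3, q4, true_and, false_and, or_false, false_or]
          · have q4 : F.pf v - 1 ∉ K := fun h => q2 (p2.mp h)
            exfalso
            simp only [q1, q2, q3, q4, false_and, or_false, and_false] at ha
      · by_cases q1 : F.pd v ∈ I
        · have q3 : F.pd v - 1 ∉ I := fun h => (p1.mp h) q1
          by_cases q2 : F.pf v ∈ K
          · have q4 : F.pf v - 1 ∉ K := fun h => (p2.mp h) q2
            refine ⟨F.d (F.pd v + 1), F.f (F.pf v + 1), F.fb_ne_df (by omega) (by omega)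
              (F.fb_after_d hd) (F.fb_after_f hf), fun c => ?_, s4 (fun h => q3 ((p3.mp h).mpr q2))⟩
            rw [key c]
            simp only [hd, hf, q1, q2, q3, q4, true_and, false_and, false_or]
          · have q4 : F.pf v - 1 ∈ K := p2.mpr q2
            refine ⟨F.d (F.pd v + 1), F.f (F.pf v - 1), F.fb_ne_df (by omega) (by omega)
              (F.fb_after_d hd) (F.fb_before_f hf), fun c => ?_, s2 (p3.mpr ⟨fun h => absurd h q3,
                fun h => absurd h q2⟩)⟩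
            rw [key c]
            simp only [hd, hf, q1, q2, q3, q4, true_and, false_and, or_false, false_or]
        · have q3 : F.pd v - 1 ∈ I := p1.mpr q1
          by_cases q2 : F.pf v ∈ K
          · have q4 : F.pf v - 1 ∉ K := fun h => (p2.mp h) q2
            refine ⟨F.d (F.pd v - 1), F.f (F.pf v + 1), F.fb_ne_df (by omega) (by omega)
              (F.fb_before_d hd) (F.fb_after_f hf), fun c => ?_, s1 (p3.mpr ⟨fun _ => q2, fun _ => q3⟩)⟩
            rw [key c]
            simp only [hd, hf, q1, q2, q3, q4, true_and, false_and, or_false, false_or]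
          · have q4 : F.pf v - 1 ∈ K := p2.mpr q2
            refine ⟨F.d (F.pd v - 1), F.f (F.pf v - 1), F.fb_ne_df (by omega) (by omega)
              (F.fb_before_d hd) (F.fb_before_f hf), fun c => ?_, s3 (fun h => q2 ((p3.mp h).mp q3))⟩
            rw [key c]
            simp only [hd, hf, q1, q2, q3, q4, true_and, false_and, or_false]
    · have p1 := h1 v hd hf
      simp only [hd, hf, p1, true_and, false_and, or_false] at ha
      have q : F.pd v ∈ I := ha.elim (fun h => h.1) (fun h => h.1)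
      refine ⟨F.d (F.pd v - 1), F.d (F.pd v + 1), F.fb_ne_dd hd, fun c => ?_, F.fb_alt_d hd⟩
      rw [key c]
      simp only [hd, hf, p1, q, true_and, false_and, or_false]
  · by_cases hf : F.IntF v
    · have p1 := h2 v hf hd
      simp only [hd, hf, p1, true_and, false_and, false_or] at ha
      have q : F.pf v ∈ K := ha.elim (fun h => h.1) (fun h => h.1)
      refine ⟨F.f (F.pf v - 1), F.f (F.pf v + 1), F.fb_ne_ff hf, fun c => ?_, F.fb_alt_f hf⟩
      rw [key c]
      simp only [hd, hf, p1, q, true_and, false_and, false_or]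
    · exfalso
      simp only [hd, hf, false_and, or_false] at ha

end Pool.Agent.GD.Frame
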