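import Pool.Agent.GD.TDefs

set_option autoImplicit false

/-! Module TA: pairs, quadruples, hub and twin computations. -/

namespace Pool.Agent.GD

variable {V Z : Type} {G : SimpleGraph V} {s : V → Prop}

lemma ta_even_insert {x : V} {S : Set V} {P : V → Prop} (hS : S.Finite) (hx : x ∉ S) :
    Even {j ∈ insert x S | P j}.ncard ↔ (P x ↔ ¬ Even {j ∈ S | P j}.ncard) := by
  have hf : {j ∈ S | P j}.Finite := hS.subset (fun j hj => hj.1)
  by_cases h : P x
  · have h1 : {j ∈ insert x S | P j} = insert x {j ∈ S | P j} := by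
      ext j
      constructor
      · rintro ⟨hj | hj, hj'⟩
        · exact Or.inl hj
        · exact Or.inr ⟨hj, hj'⟩
      · rintro (hj | hj)
        · exact ⟨Or.inl hj, by rw [hj]; exact h⟩
        · exact ⟨Or.inr hj.1, hj.2⟩
    rw [h1, Set.ncard_insert_of_notMem (fun hh => hx hh.1) hf, Nat.even_add_one]
    simp [h]
  · have h1 : {j ∈ insert x S | P j} = {j ∈ S | P j} := by
      ext j
      constructor
      · rintro ⟨hj | hj, hj'⟩
        · exact absurd (by rw [← hj]; exact hj') h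
        · exact ⟨hj, hj'⟩
      · rintro hj
        exact ⟨Or.inr hj.1, hj.2⟩
    rw [h1]
    simp [h]

lemma ta_even_pair {p q : V} {P : V → Prop} (h : p ≠ q) :
    Even {j ∈ ({p, q} : Set V) | P j}.ncard ↔ (P p ↔ P q) := by
  rw [ta_even_insert (Set.finite_singleton q) (by simpa using h),
    ← insert_empty_eq, ta_even_insert Set.finite_empty (by simp)]
  have : {j ∈ (∅ : Set V) | P j} = ∅ := by
    ext j
    simp
  rw [this]
  simp

lemma ta_even_quad {b1 a1 a2 b2 : V} {P : V → Prop} (h1 : b1 ≠ a1) (h2 : b1 ≠ a2) (h3 : b1 ≠ b2)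
    (h4 : a1 ≠ a2) (h5 : a1 ≠ b2) (h6 : a2 ≠ b2) :
    Even {j ∈ ({b1, a1, a2, b2} : Set V) | P j}.ncard ↔ ((P b1 ↔ P a1) ↔ (P a2 ↔ P b2)) := by
  rw [ta_even_insert (Set.toFinite _) (by simp [h1, h2, h3]),
    ta_even_insert (Set.toFinite _) (by simp [h4, h5]), ta_even_pair h6]
  tauto

lemma hub_pair {p q y : V} (h : p ≠ q) :
    Hub G {p, q} y ↔ y ≠ p ∧ y ≠ q ∧ (G.Adj y p ↔ G.Adj y q) := by
  unfold Hub
  rw [ta_even_pair h]
  simp only [Set.mem_insert_iff, Set.mem_singleton_iff, not_or]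
  tauto

lemma hubO_pair {e : V → Z → Prop} {p q : V} (h : p ≠ q) (y : Z) :
    HubO e {p, q} y ↔ (e p y ↔ e q y) := by
  unfold HubO
  rw [ta_even_pair (P := fun j => e j y) h]

/-- even number of true statements among four -/
lemma hub_quad {b1 a1 a2 b2 y : V} (h1 : b1 ≠ a1) (h2 : b1 ≠ a2) (h3 : b1 ≠ b2) (h4 : a1 ≠ a2)
    (h5 : a1 ≠ b2) (h6 : a2 ≠ b2) :
    Hub G {b1, a1, a2, b2} y ↔ y ≠ b1 ∧ y ≠ a1 ∧ y ≠ a2 ∧ y ≠ b2 ∧
      ((G.Adj y b1 ↔ G.Adj y a1) ↔ (G.Adj y a2 ↔ G.Adj y b2)) := by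
  unfold Hub
  rw [ta_even_quad h1 h2 h3 h4 h5 h6]
  simp only [Set.mem_insert_iff, Set.mem_singleton_iff, not_or]
  tauto

lemma hubO_quad {e : V → Z → Prop} {b1 a1 a2 b2 : V} (h1 : b1 ≠ a1) (h2 : b1 ≠ a2) (h3 : b1 ≠ b2)
    (h4 : a1 ≠ a2) (h5 : a1 ≠ b2) (h6 : a2 ≠ b2) (y : Z) :
    HubO e {b1, a1, a2, b2} y ↔ ((e b1 y ↔ e a1 y) ↔ (e a2 y ↔ e b2 y)) := by
  unfold HubO
  rw [ta_even_quad (P := fun j => e j y) h1 h2 h3 h4 h5 h6]

/-- twins with respect to a pair of kind Z -/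
lemma tw_Z {p q k : V} (hpq : p ≠ q) (hp : ¬ s p) (hq : ¬ s q) (h : ¬ G.Adj p q) :
    (∃ j, Tw G s {p, q} j k) ↔ k ≠ p ∧ k ≠ q ∧ ¬ G.Adj k p ∧ ¬ G.Adj k q := by
  have h' : ¬ G.Adj q p := fun hh => h hh.symm
  constructor
  · rintro ⟨j, hj, hk, h1, h2⟩
    simp only [Set.mem_insert_iff, Set.mem_singleton_iff, not_or] at hk
    refine ⟨hk.1, hk.2, ?_⟩
    rcases hj with rfl | hj
    · have h3 := h2 q (by simp) hpq.symm
      tauto
    · rw [Set.mem_singleton_iff] at hj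
      subst hj
      have h3 := h2 p (by simp) hpq
      tauto
  · rintro ⟨h1, h2, h3, h4⟩
    refine ⟨p, by simp, by simp [h1, h2], by tauto, ?_⟩
    rintro i (rfl | hi) hne
    · exact absurd rfl hne
    · rw [Set.mem_singleton_iff] at hi
      subst hi
      tauto

/-- twins with respect to a pair of kind O -/
lemma tw_O {p q k : V} (hpq : p ≠ q) (hp : s p) (hq : s q) (h : G.Adj p q) :
    (∃ j, Tw G s {p, q} j k) ↔ k ≠ p ∧ k ≠ q ∧ G.Adj k p ∧ G.Adj k q := by
  have h' : G.Adj q p := h.symm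
  constructor
  · rintro ⟨j, hj, hk, h1, h2⟩
    simp only [Set.mem_insert_iff, Set.mem_singleton_iff, not_or] at hk
    refine ⟨hk.1, hk.2, ?_⟩
    rcases hj with rfl | hj
    · have h3 := h2 q (by simp) hpq.symm
      tauto
    · rw [Set.mem_singleton_iff] at hj
      subst hj
      have h3 := h2 p (by simp) hpq
      tauto
  · rintro ⟨h1, h2, h3, h4⟩
    refine ⟨p, by simp, by simp [h1, h2], by tauto, ?_⟩
    rintro i (rfl | hi) hne
    · exact absurd rfl hne
    · rw [Set.mem_singleton_iff] at hi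
      subst hi
      tauto

/-- detached sets for a pair of kind Z -/
lemma det_Z {W : Set V} {e : V → Z → Prop} {p q : V} {K : Set V} (hpq : p ≠ q) (hp : ¬ s p)
    (hq : ¬ s q) (h : ¬ G.Adj p q) :
    Det G s W e {p, q} K ↔ K.Nonempty ∧ K ⊆ W ∧ (∀ k ∈ K, k ≠ p ∧ k ≠ q ∧ ¬ G.Adj k p ∧ ¬ G.Adj k q) ∧
      (∀ k ∈ K, ∀ y ∈ W, y ∉ K → y ≠ p → y ≠ q → (G.Adj y p ↔ G.Adj y q) →
        (G.Adj k y ↔ G.Adj p y)) ∧
      (∀ k ∈ K, ∀ y, (e p y ↔ e q y) → (e k y ↔ e p y)) := by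
  unfold Det
  constructor
  · rintro ⟨h1, h2, h3⟩
    refine ⟨h1, h2, fun k hk => ?_, fun k hk y hy hyK hyp hyq hpq' => ?_, fun k hk y hy => ?_⟩
    · obtain ⟨j, hj, -⟩ := h3 k hk
      exact (tw_Z hpq hp hq h).1 ⟨j, hj⟩
    · obtain ⟨j, hj, h4, -⟩ := h3 k hk
      have h5 := h4 y hy hyK ((hub_pair hpq).2 ⟨hyp, hyq, hpq'⟩)
      rw [G.adj_comm y p, G.adj_comm y q] at hpq'
      rcases hj.1 with rfl | hj
      · exact h5
      · rw [Set.mem_singleton_iff] at hj
        subst hj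
        tauto
    · obtain ⟨j, hj, -, h4⟩ := h3 k hk
      have h5 := h4 y ((hubO_pair hpq y).2 hy)
      rcases hj.1 with rfl | hj
      · exact h5
      · rw [Set.mem_singleton_iff] at hj
        subst hj
        tauto
  · rintro ⟨h1, h2, h3, h4, h5⟩
    refine ⟨h1, h2, fun k hk => ⟨p, ?_, ?_, ?_⟩⟩
    · obtain ⟨h6, h7, h8, h9⟩ := h3 k hk
      refine ⟨by simp, by simp [h6, h7], by tauto, ?_⟩
      rintro i (rfl | hi) hne
      · exact absurd rfl hne
      · rw [Set.mem_singleton_iff] at hi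
        subst hi
        tauto
    · intro y hy hyK hh
      rw [hub_pair hpq] at hh
      exact h4 k hk y hy hyK hh.1 hh.2.1 hh.2.2
    · intro y hy
      rw [hubO_pair hpq] at hy
      exact h5 k hk y hy

/-- detached sets for a pair of kind O -/
lemma det_O {W : Set V} {e : V → Z → Prop} {p q : V} {K : Set V} (hpq : p ≠ q) (hp : s p)
    (hq : s q) (h : G.Adj p q) :
    Det G s W e {p, q} K ↔ K.Nonempty ∧ K ⊆ W ∧ (∀ k ∈ K, k ≠ p ∧ k ≠ q ∧ G.Adj k p ∧ G.Adj k q) ∧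
      (∀ k ∈ K, ∀ y ∈ W, y ∉ K → y ≠ p → y ≠ q → (G.Adj y p ↔ G.Adj y q) →
        (G.Adj k y ↔ G.Adj p y)) ∧
      (∀ k ∈ K, ∀ y, (e p y ↔ e q y) → (e k y ↔ e p y)) := by
  unfold Det
  constructor
  · rintro ⟨h1, h2, h3⟩
    refine ⟨h1, h2, fun k hk => ?_, fun k hk y hy hyK hyp hyq hpq' => ?_, fun k hk y hy => ?_⟩
    · obtain ⟨j, hj, -⟩ := h3 k hk
      exact (tw_O hpq hp hq h).1 ⟨j, hj⟩
    · obtain ⟨j, hj, h4, -⟩ := h3 k hk
      have h5 := h4 y hy hyK ((hub_pair hpq).2 ⟨hyp, hyq, hpq'⟩)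
      rw [G.adj_comm y p, G.adj_comm y q] at hpq'
      rcases hj.1 with rfl | hj
      · exact h5
      · rw [Set.mem_singleton_iff] at hj
        subst hj
        tauto
    · obtain ⟨j, hj, -, h4⟩ := h3 k hk
      have h5 := h4 y ((hubO_pair hpq y).2 hy)
      rcases hj.1 with rfl | hj
      · exact h5
      · rw [Set.mem_singleton_iff] at hj
        subst hj
        tauto
  · rintro ⟨h1, h2, h3, h4, h5⟩
    refine ⟨h1, h2, fun k hk => ⟨p, ?_, ?_, ?_⟩⟩
    · obtain ⟨h6, h7, h8, h9⟩ := h3 k hk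
      refine ⟨by simp, by simp [h6, h7], by tauto, ?_⟩
      rintro i (rfl | hi) hne
      · exact absurd rfl hne
      · rw [Set.mem_singleton_iff] at hi
        subst hi
        tauto
    · intro y hy hyK hh
      rw [hub_pair hpq] at hh
      exact h4 k hk y hy hyK hh.1 hh.2.1 hh.2.2
    · intro y hy
      rw [hubO_pair hpq] at hy
      exact h5 k hk y hy

/-- a common neighbour links a pair of kind Z -/
lemma linked_Z {W : Set V} {p q : V} (hpq : p ≠ q) (hp : ¬ s p) (hq : ¬ s q) (h : ¬ G.Adj p q) :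
    Linked G s W {p, q} ↔ ∃ y ∈ W, G.Adj y p ∧ G.Adj y q := by
  unfold Linked
  constructor
  · rintro ⟨y, hy, h1, h2⟩
    have h3 := fun hh => (not_exists.2 h2) ((tw_Z hpq hp hq h).2 hh)
    rw [hub_pair hpq] at h1
    exact ⟨y, hy, by tauto⟩
  · rintro ⟨y, hy, h1, h2⟩
    refine ⟨y, hy, (hub_pair hpq).2 ⟨h1.ne, h2.ne, by tauto⟩, fun j hj => ?_⟩
    have h3 := (tw_Z hpq hp hq h).1 ⟨j, hj⟩
    tauto

/-- a common non-neighbour links a pair of kind O -/
lemma linked_O {W : Set V} {p q : V} (hpq : p ≠ q) (hp : s p) (hq : s q) (h : G.Adj p q) :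
    Linked G s W {p, q} ↔ ∃ y ∈ W, y ≠ p ∧ y ≠ q ∧ ¬ G.Adj y p ∧ ¬ G.Adj y q := by
  unfold Linked
  constructor
  · rintro ⟨y, hy, h1, h2⟩
    have h3 := fun hh => (not_exists.2 h2) ((tw_O hpq hp hq h).2 hh)
    rw [hub_pair hpq] at h1
    exact ⟨y, hy, by tauto⟩
  · rintro ⟨y, hy, h0, h0', h1, h2⟩
    refine ⟨y, hy, (hub_pair hpq).2 ⟨h0, h0', by tauto⟩, fun j hj => ?_⟩
    have h3 := (tw_O hpq hp hq h).1 ⟨j, hj⟩
    tauto

/-- the degree condition inside an allowed set -/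
lemma isK_deg {W : Set V} {k : Kd} {J : Set V} (h : IsK G s W k J) {j : V} (hj : j ∈ J) :
    Even {i ∈ J | G.Adj j i}.ncard ↔ ¬ s j := by
  have hirr : ∀ v, ¬ G.Adj v v := fun v => G.irrefl
  cases k with
  | Z =>
    obtain ⟨p, q, -, -, hpq, hp, hq, hadj, rfl⟩ := h
    have h' : ¬ G.Adj q p := fun hh => hadj hh.symm
    rw [ta_even_pair hpq]
    rcases hj with rfl | hj
    · have := hirr j
      tauto
    · rw [Set.mem_singleton_iff] at hj
      subst hj
      have := hirr j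
      tauto
  | O =>
    obtain ⟨p, q, -, -, hpq, hp, hq, hadj, rfl⟩ := h
    have h' : G.Adj q p := hadj.symm
    rw [ta_even_pair hpq]
    rcases hj with rfl | hj
    · have := hirr j
      tauto
    · rw [Set.mem_singleton_iff] at hj
      subst hj
      have := hirr j
      tauto
  | P =>
    obtain ⟨b1, a1, a2, b2, -, -, -, -, s1, s2, s3, s4, hbb, haa, e1, e2, e3, n1, n2, n3, rfl⟩ := h
    have d1 : b1 ≠ a1 := e1.ne
    have d2 : b1 ≠ a2 := fun hh => s4 (hh ▸ s1)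
    have d5 : a1 ≠ b2 := fun hh => s3 (hh ▸ s2)
    have d6 : a2 ≠ b2 := e3.ne
    rw [ta_even_quad d1 d2 hbb haa d5 d6]
    have e1' := e1.symm
    have e2' := e2.symm
    have e3' := e3.symm
    have n1' : ¬ G.Adj a2 b1 := fun hh => n1 hh.symm
    have n2' : ¬ G.Adj b2 b1 := fun hh => n2 hh.symm
    have n3' : ¬ G.Adj b2 a1 := fun hh => n3 hh.symm
    rcases hj with rfl | rfl | rfl | hj
    · have := hirr j
      tauto
    · have := hirr j
      tauto
    · have := hirr j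
      tauto
    · rw [Set.mem_singleton_iff] at hj
      subst hj
      have := hirr j
      tauto

/-- an allowed set is a finite subset of the ground set with an even number of elements -/
lemma isK_basic {W : Set V} {k : Kd} {J : Set V} (h : IsK G s W k J) :
    J ⊆ W ∧ J.Finite ∧ Even J.ncard ∧ J.Nonempty := by
  cases k with
  | Z =>
    obtain ⟨p, q, h1, h2, hpq, hp, hq, hadj, rfl⟩ := h
    refine ⟨?_, Set.toFinite _, ?_, ⟨p, by simp⟩⟩
    · rintro x (rfl | hx)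
      · exact h1
      · rw [Set.mem_singleton_iff] at hx
        subst hx
        exact h2
    · rw [Set.ncard_pair hpq]
      exact even_two
  | O =>
    obtain ⟨p, q, h1, h2, hpq, hp, hq, hadj, rfl⟩ := h
    refine ⟨?_, Set.toFinite _, ?_, ⟨p, by simp⟩⟩
    · rintro x (rfl | hx)
      · exact h1
      · rw [Set.mem_singleton_iff] at hx
        subst hx
        exact h2
    · rw [Set.ncard_pair hpq]
      exact even_two
  | P =>
    obtain ⟨b1, a1, a2, b2, w1, w2, w3, w4, s1, s2, s3, s4, hbb, haa, e1, e2, e3, n1, n2, n3,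
      rfl⟩ := h
    have d1 : b1 ≠ a1 := e1.ne
    have d2 : b1 ≠ a2 := fun hh => s4 (hh ▸ s1)
    have d5 : a1 ≠ b2 := fun hh => s3 (hh ▸ s2)
    have d6 : a2 ≠ b2 := e3.ne
    refine ⟨?_, Set.toFinite _, ?_, ⟨b1, by simp⟩⟩
    · rintro x (rfl | rfl | rfl | hx)
      · exact w1
      · exact w2
      · exact w3
      · rw [Set.mem_singleton_iff] at hx
        subst hx
        exact w4
    · have h1 := ta_even_quad (P := fun _ => True) d1 d2 hbb haa d5 d6
      have h2 : {j ∈ ({b1, a1, a2, b2} : Set V) | True} = {b1, a1, a2, b2} := by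
        ext j
        exact ⟨fun hh => hh.1, fun hh => ⟨hh, trivial⟩⟩
      rw [h2] at h1
      exact h1.2 (by simp)

/-- twins are hub vertices -/
lemma tw_hub {W : Set V} {k : Kd} {J : Set V} (h : IsK G s W k J) {j y : V} (ht : Tw G s J j y) :
    Hub G J y := by
  obtain ⟨hj, hy, h1, h2⟩ := ht
  refine ⟨hy, ?_⟩
  have hfin := (isK_basic h).2.1
  have hJ : J = insert j (J \ {j}) := by
    rw [Set.insert_sdiff_singleton, Set.insert_eq_of_mem hj]
  have h3 : Even {i ∈ insert j (J \ {j}) | G.Adj y i}.ncard := by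
    rw [ta_even_insert (hfin.subset (fun i hi => hi.1)) (by simp)]
    have h4 : {i ∈ J \ {j} | G.Adj y i} = {i ∈ J | G.Adj j i} := by
      ext i
      constructor
      · rintro ⟨⟨hi, hij⟩, hi'⟩
        exact ⟨hi, (h2 i hi hij).1 hi'⟩
      · rintro ⟨hi, hi'⟩
        exact ⟨⟨hi, hi'.ne'⟩, (h2 i hi hi'.ne').2 hi'⟩
    rw [h4, isK_deg h hj]
    tauto
  rwa [← hJ] at h3

/-- a vertex which is complete or anticomplete to an allowed set is a hub vertex -/
lemma hub_of_hom {W : Set V} {k : Kd} {J : Set V} (h : IsK G s W k J) {y : V} (hy : y ∉ J)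
    (hom : (∀ j ∈ J, G.Adj y j) ∨ (∀ j ∈ J, ¬ G.Adj y j)) : Hub G J y := by
  refine ⟨hy, ?_⟩
  rcases hom with hom | hom
  · have h1 : {j ∈ J | G.Adj y j} = J := by
      ext j
      exact ⟨fun hh => hh.1, fun hh => ⟨hh, hom j hh⟩⟩
    rw [h1]
    exact (isK_basic h).2.2.1
  · have h1 : {j ∈ J | G.Adj y j} = ∅ := by
      ext j
      exact ⟨fun hh => hom j hh.1 hh.2, fun hh => absurd hh (Set.notMem_empty _)⟩
    rw [h1]
    simp

/-- if all observers agree on `J` they are hub observers -/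
lemma hubO_of_const {W : Set V} {e : V → Z → Prop} {k : Kd} {J : Set V} (h : IsK G s W k J) {y : Z}
    (hom : (∀ j ∈ J, e j y) ∨ (∀ j ∈ J, ¬ e j y)) : HubO e J y := by
  unfold HubO
  rcases hom with hom | hom
  · have h1 : {j ∈ J | e j y} = J := by
      ext j
      exact ⟨fun hh => hh.1, fun hh => ⟨hh, hom j hh⟩⟩
    rw [h1]
    exact (isK_basic h).2.2.1
  · have h1 : {j ∈ J | e j y} = ∅ := by
      ext j
      exact ⟨fun hh => hom j hh.1 hh.2, fun hh => absurd hh (Set.notMem_empty _)⟩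
    rw [h1]
    simp

/-- a twin which is homogeneous to `J`: kind Z and anticomplete or kind O and complete -/
lemma tw_hom {W : Set V} {k : Kd} {J : Set V} (h : IsK G s W k J) {j y : V} (ht : Tw G s J j y)
    (hom : (∀ j ∈ J, G.Adj y j) ∨ (∀ j ∈ J, ¬ G.Adj y j)) :
    (k = Kd.Z ∧ ∀ j ∈ J, ¬ G.Adj y j) ∨ (k = Kd.O ∧ ∀ j ∈ J, G.Adj y j) := by
  obtain ⟨hj, hy, h1, h2⟩ := ht
  cases k with
  | Z =>
    obtain ⟨p, q, -, -, hpq, hp, hq, hadj, rfl⟩ := h
    left
    refine ⟨rfl, ?_⟩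
    rcases hom with hom | hom
    · exfalso
      have h3 := h1.1 (hom j hj)
      rcases hj with rfl | hj
      · exact hp h3
      · rw [Set.mem_singleton_iff] at hj
        subst hj
        exact hq h3
    · exact hom
  | O =>
    obtain ⟨p, q, -, -, hpq, hp, hq, hadj, rfl⟩ := h
    right
    refine ⟨rfl, ?_⟩
    rcases hom with hom | hom
    · exact hom
    · exfalso
      apply hom j hj
      apply h1.2
      rcases hj with rfl | hj
      · exact hp
      · rw [Set.mem_singleton_iff] at hj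
        subst hj
        exact hq
  | P =>
    exfalso
    obtain ⟨b1, a1, a2, b2, -, -, -, -, s1, s2, s3, s4, hbb, haa, e1, e2, e3, n1, n2, n3, rfl⟩ := h
    have d1 : b1 ≠ a1 := e1.ne
    have d2 : b1 ≠ a2 := fun hh => s4 (hh ▸ s1)
    have d5 : a1 ≠ b2 := fun hh => s3 (hh ▸ s2)
    have d6 : a2 ≠ b2 := e3.ne
    have m1 : b1 ∈ ({b1, a1, a2, b2} : Set V) := by simp
    have m2 : a1 ∈ ({b1, a1, a2, b2} : Set V) := by simp
    have m3 : a2 ∈ ({b1, a1, a2, b2} : Set V) := by simp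
    have m4 : b2 ∈ ({b1, a1, a2, b2} : Set V) := by simp
    have k1 : (G.Adj y b1 ∧ G.Adj y a1 ∧ G.Adj y a2 ∧ G.Adj y b2) ∨
        (¬ G.Adj y b1 ∧ ¬ G.Adj y a1 ∧ ¬ G.Adj y a2 ∧ ¬ G.Adj y b2) := by
      rcases hom with hom | hom
      · exact Or.inl ⟨hom _ m1, hom _ m2, hom _ m3, hom _ m4⟩
      · exact Or.inr ⟨hom _ m1, hom _ m2, hom _ m3, hom _ m4⟩
    rcases hj with rfl | rfl | rfl | hj
    · have h3 := h2 a2 m3 d2.symm
      tauto
    · have h3 := h2 b1 m1 d1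
      have := e1.symm
      tauto
    · have h3 := h2 b2 m4 d6.symm
      tauto
    · rw [Set.mem_singleton_iff] at hj
      subst hj
      have h3 := h2 a1 m2 d5
      have : ¬ G.Adj j a1 := fun hh => n3 hh.symm
      tauto

end Pool.Agent.GD
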