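import Pool.Agent.GD.FB
import Pool.Agent.GD.TA

set_option autoImplicit false

/-! Auxiliary facts shared by FC and FD. -/

namespace Pool.Agent.GD.Frame

variable {V : Type} {H : SimpleGraph V} {red : Set (Sym2 V)}

lemma fcore_pd_ne (F : Frame H red) {u v : V} (hu : F.IntD u) (hv : F.IntD v) (h : u ≠ v) :
    F.pd u ≠ F.pd v := by
  intro e
  apply h
  rw [← hu.2.2, ← hv.2.2, e]

lemma fcore_pf_ne (F : Frame H red) {u v : V} (hu : F.IntF u) (hv : F.IntF v) (h : u ≠ v) :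
    F.pf u ≠ F.pf v := by
  intro e
  apply h
  rw [← hu.2.2, ← hv.2.2, e]

lemma fcore_adj (F : Frame H red) {u v : V} (hu : u ∈ F.P) (hv : v ∈ F.P) (h : u ≠ v) :
    F.G.Adj u v ↔ ¬ (F.pd u < F.pd v ↔ F.pf u < F.pf v) := by
  have h1 := F.fcore_pd_ne hu.1 hv.1 h
  have h2 := F.fcore_pf_ne hu.2 hv.2 h
  have h3 : F.G.Adj u v ↔ u ∈ F.P ∧ v ∈ F.P ∧
    ((F.pd u < F.pd v ∧ F.pf v < F.pf u) ∨ (F.pd v < F.pd u ∧ F.pf u < F.pf v)) := Iff.rfl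
  rw [h3]
  constructor
  · rintro ⟨-, -, h4⟩
    omega
  · intro h4
    refine ⟨hu, hv, ?_⟩
    omega

lemma fcore_obD (F : Frame H red) (v z : V) :
    F.ob v (z, true) ↔ F.IntD z ∧ ¬ F.IntF z ∧ F.pd v < F.pd z := by
  simp [ob]

lemma fcore_obF (F : Frame H red) (v z : V) :
    F.ob v (z, false) ↔ F.IntF z ∧ ¬ F.IntD z ∧ F.pf v < F.pf z := by
  simp [ob]

/-- a set `J` with the sets of positions of the edges in `Q` -/
structure FCfg (F : Frame H red) (J : Set V) (I K : Set ℕ) : Prop where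
  JP : J ⊆ F.P
  i0 : 0 ∉ I
  il : F.l - 1 ∉ I
  k0 : 0 ∉ K
  km : F.m - 1 ∉ K
  ne : ∃ j ∈ J, F.pd j ∈ I
  sD : ∀ v, F.IntD v → v ∉ J → (F.pd v - 1 ∈ I ↔ F.pd v ∈ I)
  sF : ∀ v, F.IntF v → v ∉ J → (F.pf v - 1 ∈ K ↔ F.pf v ∈ K)
  jD : ∀ v ∈ J, (F.pd v - 1 ∈ I ↔ F.pd v ∉ I)
  jF : ∀ v ∈ J, (F.pf v - 1 ∈ K ↔ F.pf v ∉ K)
  js : ∀ v ∈ J, (F.sg v ↔ (F.pd v - 1 ∈ I ↔ F.pf v ∈ K))
  hub : ∀ y ∈ F.P, Hub F.G J y → (F.pd y ∈ I ↔ F.pf y ∈ K)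
  obD : ∀ z, F.IntD z → ¬ F.IntF z → HubO F.ob J (z, true) → F.pd z ∉ I
  obF : ∀ z, F.IntF z → ¬ F.IntD z → HubO F.ob J (z, false) → F.pf z ∉ K
  int : ∀ k ∈ F.P, k ∉ J → F.pd k ∈ I → F.pf k ∈ K → ∃ j, Tw F.G F.sg J j k ∧
    (∀ y, F.IntD y → y ∉ J → F.pd y ∉ I → (F.pd k < F.pd y ↔ F.pd j < F.pd y)) ∧
    (∀ y, F.IntF y → y ∉ J → F.pf y ∉ K → (F.pf k < F.pf y ↔ F.pf j < F.pf y))

variable {F : Frame H red} {J : Set V} {I K : Set ℕ}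

/-- no vertex is internal -/
lemma fcore_noint (c : FCfg F J I K) (hg : ∀ K0, ¬ Det F.G F.sg F.P F.ob J K0) :
    ∀ v ∈ F.P, v ∉ J → ¬ (F.pd v ∈ I ∧ F.pf v ∈ K) := by
  rintro v hv hvJ ⟨hv1, hv2⟩
  apply hg {k | k ∈ F.P ∧ k ∉ J ∧ F.pd k ∈ I ∧ F.pf k ∈ K}
  refine ⟨⟨v, hv, hvJ, hv1, hv2⟩, fun k hk => hk.1, ?_⟩
  rintro k ⟨hk, hkJ, hk1, hk2⟩
  obtain ⟨j, hj, hjD, hjF⟩ := c.int k hk hkJ hk1 hk2
  have hjP : j ∈ F.P := c.JP hj.1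
  refine ⟨j, hj, fun y hy hyK hyh => ?_, ?_⟩
  · have hyJ : y ∉ J := hyh.1
    have h1 := c.hub y hy hyh
    have h2 : F.pd y ∉ I := fun h => hyK ⟨hy, hyJ, h, h1.1 h⟩
    have h3 : F.pf y ∉ K := fun h => h2 (h1.2 h)
    have hyk : k ≠ y := by
      rintro rfl
      exact h2 hk1
    have hyj : j ≠ y := by
      rintro rfl
      exact hyJ hj.1
    rw [F.fcore_adj hk hy hyk, F.fcore_adj hjP hy hyj, hjD y hy.1 hyJ h2, hjF y hy.2 hyJ h3]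
  · rintro ⟨z, b⟩ hz
    cases b
    · rw [F.fcore_obF, F.fcore_obF]
      by_cases h1 : F.IntF z ∧ ¬ F.IntD z
      · have h2 := c.obF z h1.1 h1.2 hz
        have hzJ : z ∉ J := fun h => h1.2 (c.JP h).1
        rw [hjF z h1.1 hzJ h2]
      · constructor
        · rintro ⟨a1, a2, -⟩
          exact absurd ⟨a1, a2⟩ h1
        · rintro ⟨a1, a2, -⟩
          exact absurd ⟨a1, a2⟩ h1
    · rw [F.fcore_obD, F.fcore_obD]
      by_cases h1 : F.IntD z ∧ ¬ F.IntF z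
      · have h2 := c.obD z h1.1 h1.2 hz
        have hzJ : z ∉ J := fun h => h1.2 (c.JP h).2
        rw [hjD z h1.1 hzJ h2]
      · constructor
        · rintro ⟨a1, a2, -⟩
          exact absurd ⟨a1, a2⟩ h1
        · rintro ⟨a1, a2, -⟩
          exact absurd ⟨a1, a2⟩ h1

lemma fcore_alt (c : FCfg F J I K) (hfull : F.Full)
    (hg : ∀ K0, ¬ Det F.G F.sg F.P F.ob J K0) : AltSet H red (F.QI I K) := by
  have hno := fcore_noint c hg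
  apply F.altSet_QI _ c.i0 c.il c.k0 c.km hfull
  · intro v h1 h2
    exact c.sD v h1 fun h => h2 (c.JP h).2
  · intro v h1 h2
    exact c.sF v h1 fun h => h2 (c.JP h).1
  · intro v hv
    by_cases hvJ : v ∈ J
    · right
      exact ⟨c.jD v hvJ, c.jF v hvJ, c.js v hvJ⟩
    · left
      exact ⟨c.sD v hv.1 hvJ, c.sF v hv.2 hvJ, hno v hv hvJ⟩
  · obtain ⟨j, hj, hjI⟩ := c.ne
    exact ⟨F.gd (F.pd j), (F.gd_mem_QI (c.JP hj).1.2.1).2 hjI⟩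

lemma fcore_gd_mem {i : ℕ} (hi : i < F.l) (hI : i ∉ I) : F.gd i ∈ H.edgeSet \ F.QI I K :=
  ⟨F.adjd i hi, fun h => hI ((F.gd_mem_QI hi).1 h)⟩

lemma fcore_gf_mem {i : ℕ} (hi : i < F.m) (hK : i ∉ K) : F.gf i ∈ H.edgeSet \ F.QI I K :=
  ⟨F.adjf i hi, fun h => hK ((F.gf_mem_QI hi).1 h)⟩

lemma fcore_gd_at {v : V} (hv : F.IntD v) : F.gd (F.pd v) = s(v, F.d (F.pd v + 1)) ∧
    F.gd (F.pd v - 1) = s(v, F.d (F.pd v - 1)) := by
  obtain ⟨h1, h2, h3⟩ := hv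
  constructor
  · unfold gd
    rw [h3]
  · unfold gd
    have e : F.pd v - 1 + 1 = F.pd v := by omega
    rw [e, h3]
    exact Sym2.eq_swap

lemma fcore_gf_at {v : V} (hv : F.IntF v) : F.gf (F.pf v) = s(v, F.f (F.pf v + 1)) ∧
    F.gf (F.pf v - 1) = s(v, F.f (F.pf v - 1)) := by
  obtain ⟨h1, h2, h3⟩ := hv
  constructor
  · unfold gf
    rw [h3]
  · unfold gf
    have e : F.pf v - 1 + 1 = F.pf v := by omega
    rw [e, h3]
    exact Sym2.eq_swap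

lemma fcore_gd_at' {v : V} (hv : F.IntD v) {i : ℕ} (hi : i = F.pd v ∨ i = F.pd v - 1)
    (hI : i ∉ I) : ∃ a, F.gd i = s(v, a) ∧ s(v, a) ∈ H.edgeSet \ F.QI I K := by
  have h := fcore_gd_at hv
  have hl : i < F.l := by
    have := hv.2.1
    omega
  rcases hi with rfl | rfl
  · exact ⟨_, h.1, h.1 ▸ fcore_gd_mem hl hI⟩
  · exact ⟨_, h.2, h.2 ▸ fcore_gd_mem hl hI⟩

lemma fcore_gf_at' {v : V} (hv : F.IntF v) {i : ℕ} (hi : i = F.pf v ∨ i = F.pf v - 1)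
    (hK : i ∉ K) : ∃ a, F.gf i = s(v, a) ∧ s(v, a) ∈ H.edgeSet \ F.QI I K := by
  have h := fcore_gf_at hv
  have hl : i < F.m := by
    have := hv.2.1
    omega
  rcases hi with rfl | rfl
  · exact ⟨_, h.1, h.1 ▸ fcore_gf_mem hl hK⟩
  · exact ⟨_, h.2, h.2 ▸ fcore_gf_mem hl hK⟩

variable {κ : Sym2 V → Prop}

lemma fcore_df {v : V} (hv : v ∈ F.P) (ha : AgreeOn (H.edgeSet \ F.QI I K) κ v) {i j : ℕ}
    (hi : i = F.pd v ∨ i = F.pd v - 1) (hj : j = F.pf v ∨ j = F.pf v - 1) (hI : i ∉ I)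
    (hK : j ∉ K) : κ (F.gd i) ↔ κ (F.gf j) := by
  obtain ⟨a, e1, m1⟩ := fcore_gd_at' (K := K) hv.1 hi hI
  obtain ⟨b, e2, m2⟩ := fcore_gf_at' (I := I) hv.2 hj hK
  rw [e1, e2]
  exact ha a b m1 m2

lemma fcore_dd {v : V} (hv : F.IntD v) (ha : AgreeOn (H.edgeSet \ F.QI I K) κ v)
    (h1 : F.pd v - 1 ∉ I) (h2 : F.pd v ∉ I) : κ (F.gd (F.pd v - 1)) ↔ κ (F.gd (F.pd v)) := by
  obtain ⟨a, e1, m1⟩ := fcore_gd_at' (K := K) hv (Or.inr rfl) h1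
  obtain ⟨b, e2, m2⟩ := fcore_gd_at' (K := K) hv (Or.inl rfl) h2
  rw [e1, e2]
  exact ha a b m1 m2

lemma fcore_ff {v : V} (hv : F.IntF v) (ha : AgreeOn (H.edgeSet \ F.QI I K) κ v)
    (h1 : F.pf v - 1 ∉ K) (h2 : F.pf v ∉ K) : κ (F.gf (F.pf v - 1)) ↔ κ (F.gf (F.pf v)) := by
  obtain ⟨a, e1, m1⟩ := fcore_gf_at' (I := I) hv (Or.inr rfl) h1
  obtain ⟨b, e2, m2⟩ := fcore_gf_at' (I := I) hv (Or.inl rfl) h2
  rw [e1, e2]
  exact ha a b m1 m2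

lemma fcore_const {γ : Prop} (hO : ∀ e ∈ F.Out, (κ e ↔ γ))
    (hD : ∀ i < F.l, i ∉ I → (κ (F.gd i) ↔ γ)) (hF : ∀ i < F.m, i ∉ K → (κ (F.gf i) ↔ γ)) :
    ConstOn (H.edgeSet \ F.QI I K) κ := by
  have key : ∀ e ∈ H.edgeSet \ F.QI I K, (κ e ↔ γ) := by
    rintro e ⟨he, heQ⟩
    by_cases h1 : e ∈ F.ED
    · obtain ⟨i, hi, rfl⟩ := h1
      exact hD i hi fun h => heQ ((F.gd_mem_QI hi).2 h)
    by_cases h2 : e ∈ F.EF
    · obtain ⟨i, hi, rfl⟩ := h2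
      exact hF i hi fun h => heQ ((F.gf_mem_QI hi).2 h)
    exact hO e ⟨he, Or.inl ⟨h1, h2⟩⟩
  intro e he e' he'
  rw [key e he, key e' he']

lemma fcore_ends (F : Frame H red) : F.ed0 ∈ F.Out ∧ F.edl ∈ F.Out ∧ F.ef0 ∈ F.Out ∧
    F.efm ∈ F.Out := by
  have hl := F.hl
  have hm := F.hm
  refine ⟨⟨F.adjd 0 (by omega), by simp⟩, ⟨?_, by simp⟩, ⟨F.adjf 0 (by omega), by simp⟩,
    ⟨?_, by simp⟩⟩
  · have := F.adjd (F.l - 1) (by omega)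
    have e : F.l - 1 + 1 = F.l := by omega
    rw [e] at this
    exact this
  · have := F.adjf (F.m - 1) (by omega)
    have e : F.m - 1 + 1 = F.m := by omega
    rw [e] at this
    exact this

lemma fcore_end_gd (F : Frame H red) : F.ed0 = F.gd 0 ∧ F.edl = F.gd (F.l - 1) ∧
    F.ef0 = F.gf 0 ∧ F.efm = F.gf (F.m - 1) := by
  have hl := F.hl
  have hm := F.hm
  refine ⟨rfl, ?_, rfl, ?_⟩
  · unfold edl gd
    have e : F.l - 1 + 1 = F.l := by omega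
    rw [e]
  · unfold efm gf
    have e : F.m - 1 + 1 = F.m := by omega
    rw [e]

/-- a lobe with a different value makes `{w}` detached -/
lemma fcore_lobe (c : FCfg F J I K)
    (hno : ∀ v ∈ F.P, v ∉ J → ¬ (F.pd v ∈ I ∧ F.pf v ∈ K)) (hmark : F.Marked) {w j : V}
    (hw : w ∈ F.P) (hj : Tw F.G F.sg J j w)
    (ha : ∀ v, v ≠ w → AgreeOn (H.edgeSet \ F.QI I K) κ v) {γ : Prop}
    (hO : ∀ e ∈ F.Out, (κ e ↔ γ))
    (hD : ∀ i < F.l, i ∉ I → ((κ (F.gd i) ↔ γ) ↔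
      ¬ ((F.pd w ≤ i ∧ i < F.pd j) ∨ (F.pd j ≤ i ∧ i < F.pd w))))
    (hF : ∀ i < F.m, i ∉ K → ((κ (F.gf i) ↔ γ) ↔
      ¬ ((F.pf w ≤ i ∧ i < F.pf j) ∨ (F.pf j ≤ i ∧ i < F.pf w))))
    (hDI : ∀ i, (F.pd w ≤ i ∧ i < F.pd j) ∨ (F.pd j ≤ i ∧ i < F.pd w) → i ∉ I)
    (hFK : ∀ i, (F.pf w ≤ i ∧ i < F.pf j) ∨ (F.pf j ≤ i ∧ i < F.pf w) → i ∉ K) :
    Det F.G F.sg F.P F.ob J {w} := by
  have hjP : j ∈ F.P := c.JP hj.1
  have hwJ : w ∉ J := hj.2.1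
  refine ⟨⟨w, rfl⟩, by rintro x rfl; exact hw, ?_⟩
  rintro x rfl
  refine ⟨j, hj, fun y hy hyK hyh => ?_, ?_⟩
  · have hyJ : y ∉ J := hyh.1
    have hyx : y ≠ x := fun h => hyK h
    have hyj : y ≠ j := by
      rintro rfl
      exact hyJ hj.1
    have h1 := c.hub y hy hyh
    have h2 := hno y hy hyJ
    have h3 : F.pd y ∉ I := fun h => h2 ⟨h, h1.1 h⟩
    have h4 : F.pf y ∉ K := fun h => h3 (h1.2 h)
    have h5 := fcore_df hy (ha y hyx) (Or.inl rfl) (Or.inl rfl) h3 h4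
    have h6 := hD _ hy.1.2.1 h3
    have h7 := hF _ hy.2.2.1 h4
    rw [h5] at h6
    have n1 := F.fcore_pd_ne hy.1 hw.1 hyx
    have n2 := F.fcore_pd_ne hy.1 hjP.1 hyj
    have n3 := F.fcore_pf_ne hy.2 hw.2 hyx
    have n4 := F.fcore_pf_ne hy.2 hjP.2 hyj
    rw [F.fcore_adj hw hy hyx.symm, F.fcore_adj hjP hy hyj.symm]
    rw [h6] at h7
    omega
  · rintro ⟨z, b⟩ -
    cases b
    · rw [F.fcore_obF, F.fcore_obF]
      by_cases h1 : F.IntF z ∧ ¬ F.IntD z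
      · obtain ⟨a, ha1, ha2, ha3⟩ := hmark.2 z h1.1 h1.2
        have hzx : z ≠ x := by
          rintro rfl
          exact h1.2 hw.1
        have hzj : z ≠ j := by
          rintro rfl
          exact h1.2 hjP.1
        have n1 := F.fcore_pf_ne h1.1 hw.2 hzx
        have n2 := F.fcore_pf_ne h1.1 hjP.2 hzj
        have hR : s(z, a) ∈ H.edgeSet \ F.QI I K := by
          refine ⟨ha1, ?_⟩
          rintro (⟨i, hi, -, e⟩ | ⟨i, hi, -, e⟩)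
          · exact ha2 ⟨i, hi, e⟩
          · exact ha3 ⟨i, hi, e⟩
        have hOut : κ s(z, a) ↔ γ := hO _ ⟨ha1, Or.inl ⟨ha2, ha3⟩⟩
        by_cases h2 : (F.pf x ≤ F.pf z ∧ F.pf z < F.pf j) ∨ (F.pf j ≤ F.pf z ∧ F.pf z < F.pf x)
        · exfalso
          have h3 := hFK _ h2
          obtain ⟨b, e1, m1⟩ := fcore_gf_at' (I := I) h1.1 (Or.inl rfl) h3
          have h4 := hF _ h1.1.2.1 h3
          rw [e1, ha z hzx b a m1 hR] at h4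
          exact (h4.1 hOut) h2
        · constructor
          · rintro ⟨a1, a2, a3⟩
            exact ⟨a1, a2, by omega⟩
          · rintro ⟨a1, a2, a3⟩
            exact ⟨a1, a2, by omega⟩
      · constructor
        · rintro ⟨a1, a2, -⟩
          exact absurd ⟨a1, a2⟩ h1
        · rintro ⟨a1, a2, -⟩
          exact absurd ⟨a1, a2⟩ h1
    · rw [F.fcore_obD, F.fcore_obD]
      by_cases h1 : F.IntD z ∧ ¬ F.IntF z
      · obtain ⟨a, ha1, ha2, ha3⟩ := hmark.1 z h1.1 h1.2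
        have hzx : z ≠ x := by
          rintro rfl
          exact h1.2 hw.2
        have hzj : z ≠ j := by
          rintro rfl
          exact h1.2 hjP.2
        have n1 := F.fcore_pd_ne h1.1 hw.1 hzx
        have n2 := F.fcore_pd_ne h1.1 hjP.1 hzj
        have hR : s(z, a) ∈ H.edgeSet \ F.QI I K := by
          refine ⟨ha1, ?_⟩
          rintro (⟨i, hi, -, e⟩ | ⟨i, hi, -, e⟩)
          · exact ha2 ⟨i, hi, e⟩
          · exact ha3 ⟨i, hi, e⟩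
        have hOut : κ s(z, a) ↔ γ := hO _ ⟨ha1, Or.inl ⟨ha2, ha3⟩⟩
        by_cases h2 : (F.pd x ≤ F.pd z ∧ F.pd z < F.pd j) ∨ (F.pd j ≤ F.pd z ∧ F.pd z < F.pd x)
        · exfalso
          have h3 := hDI _ h2
          obtain ⟨b, e1, m1⟩ := fcore_gd_at' (K := K) h1.1 (Or.inl rfl) h3
          have h4 := hD _ h1.1.2.1 h3
          rw [e1, ha z hzx b a m1 hR] at h4
          exact (h4.1 hOut) h2
        · constructor
          · rintro ⟨a1, a2, a3⟩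
            exact ⟨a1, a2, by omega⟩
          · rintro ⟨a1, a2, a3⟩
            exact ⟨a1, a2, by omega⟩
      · constructor
        · rintro ⟨a1, a2, -⟩
          exact absurd ⟨a1, a2⟩ h1
        · rintro ⟨a1, a2, -⟩
          exact absurd ⟨a1, a2⟩ h1

end Pool.Agent.GD.Frame
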