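import Pool.Agent.GD.FB
import Pool.Agent.GD.TA
import Pool.Agent.GD.FCore

set_option autoImplicit false

/-! Module FC: kind Z. -/

namespace Pool.Agent.GD.Frame

variable {V : Type} {H : SimpleGraph V} {red : Set (Sym2 V)}

lemma fc_cfg (F : Frame H red) {p q : V} (hp : p ∈ F.P) (hq : q ∈ F.P) (hpq : p ≠ q)
    (sp : ¬ F.sg p) (sq : ¬ F.sg q) (hlt : F.pd p < F.pd q) (hlt' : F.pf p < F.pf q) :
    FCfg F {p, q} {i | F.pd p ≤ i ∧ i < F.pd q} {i | F.pf p ≤ i ∧ i < F.pf q} := by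
  have hp1 := hp.1
  have hp2 := hp.2
  have hq1 := hq.1
  have hq2 := hq.2
  obtain ⟨a1, a2, a3⟩ := hp.1
  obtain ⟨b1, b2, b3⟩ := hp.2
  obtain ⟨c1, c2, c3⟩ := hq.1
  obtain ⟨e1, e2, e3⟩ := hq.2
  refine ⟨?_, ?_, ?_, ?_, ?_, ?_, ?_, ?_, ?_, ?_, ?_, ?_, ?_, ?_, ?_⟩
  · rintro x (rfl | rfl)
    · exact hp
    · exact hq
  · show ¬ (F.pd p ≤ 0 ∧ 0 < F.pd q)
    omega
  · show ¬ (F.pd p ≤ F.l - 1 ∧ F.l - 1 < F.pd q)
    omega
  · show ¬ (F.pf p ≤ 0 ∧ 0 < F.pf q)
    omega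
  · show ¬ (F.pf p ≤ F.m - 1 ∧ F.m - 1 < F.pf q)
    omega
  · exact ⟨p, Or.inl rfl, le_rfl, hlt⟩
  · intro v hv hvJ
    have n1 := F.fcore_pd_ne hv hp1 (fun e => hvJ (Or.inl e))
    have n2 := F.fcore_pd_ne hv hq1 (fun e => hvJ (Or.inr e))
    show (F.pd p ≤ F.pd v - 1 ∧ F.pd v - 1 < F.pd q) ↔ (F.pd p ≤ F.pd v ∧ F.pd v < F.pd q)
    omega
  · intro v hv hvJ
    have n1 := F.fcore_pf_ne hv hp2 (fun e => hvJ (Or.inl e))
    have n2 := F.fcore_pf_ne hv hq2 (fun e => hvJ (Or.inr e))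
    show (F.pf p ≤ F.pf v - 1 ∧ F.pf v - 1 < F.pf q) ↔ (F.pf p ≤ F.pf v ∧ F.pf v < F.pf q)
    omega
  · rintro v (rfl | rfl)
    · show (F.pd v ≤ F.pd v - 1 ∧ F.pd v - 1 < F.pd q) ↔ ¬ (F.pd v ≤ F.pd v ∧ F.pd v < F.pd q)
      omega
    · show (F.pd p ≤ F.pd v - 1 ∧ F.pd v - 1 < F.pd v) ↔ ¬ (F.pd p ≤ F.pd v ∧ F.pd v < F.pd v)
      omega
  · rintro v (rfl | rfl)
    · show (F.pf v ≤ F.pf v - 1 ∧ F.pf v - 1 < F.pf q) ↔ ¬ (F.pf v ≤ F.pf v ∧ F.pf v < F.pf q)
      omega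
    · show (F.pf p ≤ F.pf v - 1 ∧ F.pf v - 1 < F.pf v) ↔ ¬ (F.pf p ≤ F.pf v ∧ F.pf v < F.pf v)
      omega
  · rintro v (rfl | rfl)
    · refine iff_of_false sp ?_
      show ¬ ((F.pd v ≤ F.pd v - 1 ∧ F.pd v - 1 < F.pd q) ↔ (F.pf v ≤ F.pf v ∧ F.pf v < F.pf q))
      omega
    · refine iff_of_false sq ?_
      show ¬ ((F.pd p ≤ F.pd v - 1 ∧ F.pd v - 1 < F.pd v) ↔ (F.pf p ≤ F.pf v ∧ F.pf v < F.pf v))
      omega
  · intro y hy hh
    rw [hub_pair hpq] at hh
    obtain ⟨h1, h2, h3⟩ := hh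
    rw [F.fcore_adj hy hp h1, F.fcore_adj hy hq h2] at h3
    have n1 := F.fcore_pd_ne hy.1 hp1 h1
    have n2 := F.fcore_pd_ne hy.1 hq1 h2
    have n3 := F.fcore_pf_ne hy.2 hp2 h1
    have n4 := F.fcore_pf_ne hy.2 hq2 h2
    show (F.pd p ≤ F.pd y ∧ F.pd y < F.pd q) ↔ (F.pf p ≤ F.pf y ∧ F.pf y < F.pf q)
    omega
  · intro z hz1 hz2 hh
    rw [hubO_pair hpq, F.fcore_obD, F.fcore_obD] at hh
    have n1 := F.fcore_pd_ne hz1 hp1 (by rintro rfl; exact hz2 hp2)
    show ¬ (F.pd p ≤ F.pd z ∧ F.pd z < F.pd q)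
    rintro ⟨h1, h2⟩
    have h3 := (hh.1 ⟨hz1, hz2, by omega⟩).2.2
    omega
  · intro z hz1 hz2 hh
    rw [hubO_pair hpq, F.fcore_obF, F.fcore_obF] at hh
    have n1 := F.fcore_pf_ne hz1 hp2 (by rintro rfl; exact hz2 hp1)
    show ¬ (F.pf p ≤ F.pf z ∧ F.pf z < F.pf q)
    rintro ⟨h1, h2⟩
    have h3 := (hh.1 ⟨hz1, hz2, by omega⟩).2.2
    omega
  · rintro k hk hkJ ⟨h1, h2⟩ ⟨h3, h4⟩
    have hkp : k ≠ p := fun e => hkJ (Or.inl e)
    have hkq : k ≠ q := fun e => hkJ (Or.inr e)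
    have n1 := F.fcore_pd_ne hk.1 hp1 hkp
    have n2 := F.fcore_pf_ne hk.2 hp2 hkp
    refine ⟨p, ⟨Or.inl rfl, hkJ, ?_, ?_⟩, ?_, ?_⟩
    · refine iff_of_false ?_ sp
      rw [F.fcore_adj hk hp hkp]
      omega
    · rintro i (rfl | rfl) hi
      · exact absurd rfl hi
      · rw [F.fcore_adj hk hq hkq, F.fcore_adj hp hq hpq]
        omega
    · intro y hy hyJ hyI
      have m1 := F.fcore_pd_ne hy hp1 (fun e => hyJ (Or.inl e))
      have m2 := F.fcore_pd_ne hy hq1 (fun e => hyJ (Or.inr e))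
      have hyI' : ¬ (F.pd p ≤ F.pd y ∧ F.pd y < F.pd q) := hyI
      omega
    · intro y hy hyJ hyI
      have m1 := F.fcore_pf_ne hy hp2 (fun e => hyJ (Or.inl e))
      have m2 := F.fcore_pf_ne hy hq2 (fun e => hyJ (Or.inr e))
      have hyI' : ¬ (F.pf p ≤ F.pf y ∧ F.pf y < F.pf q) := hyI
      omega

lemma fc_link {y p q y' p' q' : ℕ} (h1 : y ≠ p) (h2 : y ≠ q) (h3 : y' ≠ p') (h4 : y' ≠ q')
    (h5 : ¬ (y < p ↔ y' < p')) (h6 : ¬ (y < q ↔ y' < q')) (h7 : p < q) (h8 : p' < q') :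
    (y < p ∧ q' < y') ∨ (q < y ∧ y' < p') := by
  omega

lemma fc_ctxZ (F : Frame H red) (hk : F.CtxK Kd.Z) {w : V} (hw1 : ¬ F.IntD w)
    (hw2 : ¬ F.IntF w) {κ : Sym2 V → Prop} (h : ∀ v, v ≠ w → AgreeOn F.Out κ v)
    (e1 : κ F.ed0 ↔ κ F.ef0) (e2 : κ F.edl ↔ κ F.efm) : ConstOn F.Out κ :=
  hk w hw1 hw2 κ h e1 e2

lemma fc_ctxL (F : Frame H red) (hL : F.CtxL) {w : V} (hw1 : ¬ F.IntD w)
    (hw2 : ¬ F.IntF w) {κ : Sym2 V → Prop} (h : ∀ v, v ≠ w → AgreeOn F.Out κ v)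
    (e1 : κ F.ed0 ↔ κ F.ef0) (e2 : κ F.edl ↔ κ F.efm)
    (e3 : (κ F.ed0 ↔ κ F.efm) ∨ (κ F.edl ↔ κ F.ef0)) : ConstOn F.Out κ := by
  have e4 : κ F.ed0 ↔ κ F.edl := by tauto
  have e5 : κ F.ef0 ↔ κ F.efm := by tauto
  exact hL w hw1 hw2 κ h e4 e5 e1

lemma fc_main [Finite V] (F : Frame H red) (hfull : F.Full)
    (hmark : F.Marked) (h1 : F.Ctx1) (hL : F.CtxL) {p q : V} (hp : p ∈ F.P) (hq : q ∈ F.P)
    (hpq : p ≠ q) (sp : ¬ F.sg p) (sq : ¬ F.sg q) (hn : ¬ F.G.Adj p q)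
    (hlt : F.pd p < F.pd q) (hg : ∀ K0, ¬ Det F.G F.sg F.P F.ob {p, q} K0)
    (hk : Linked F.G F.sg F.P {p, q} ∨ F.CtxK Kd.Z) : HasGood H red := by
  have hnp := F.fcore_pf_ne hp.2 hq.2 hpq
  have hlt' : F.pf p < F.pf q := by
    rw [F.fcore_adj hp hq hpq] at hn
    omega
  have c := fc_cfg F hp hq hpq sp sq hlt hlt'
  set I : Set ℕ := {i | F.pd p ≤ i ∧ i < F.pd q} with hI
  set K : Set ℕ := {i | F.pf p ≤ i ∧ i < F.pf q} with hK
  have hno := fcore_noint c hg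
  have memI : ∀ i, i ∉ I ↔ i < F.pd p ∨ F.pd q ≤ i := fun i => by
    show ¬ (F.pd p ≤ i ∧ i < F.pd q) ↔ _
    omega
  have memK : ∀ i, i ∉ K ↔ i < F.pf p ∨ F.pf q ≤ i := fun i => by
    show ¬ (F.pf p ≤ i ∧ i < F.pf q) ↔ _
    omega
  obtain ⟨a1, a2, a3⟩ := hp.1
  obtain ⟨b1, b2, b3⟩ := hp.2
  obtain ⟨c1, c2, c3⟩ := hq.1
  obtain ⟨d1, d2, d3⟩ := hq.2
  have onp : OnQ (F.QI I K) p := ⟨_, by
    rw [← (fcore_gd_at hp.1).1]
    exact (F.gd_mem_QI a2).2 ⟨le_rfl, hlt⟩⟩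
  have onq : OnQ (F.QI I K) q := ⟨_, by
    rw [← (fcore_gd_at hq.1).2]
    refine (F.gd_mem_QI (by omega)).2 ⟨?_, ?_⟩
    · omega
    · omega⟩
  refine ⟨F.QI I K, fcore_alt c hfull hg, ?_⟩
  intro w κ h
  obtain ⟨o1, o2, o3, o4⟩ := F.fcore_ends
  obtain ⟨g1, g2, g3, g4⟩ := F.fcore_end_gd
  have hout : ∀ v, v ≠ w ∨ OnQ (F.QI I K) v → AgreeOn F.Out κ v := fun v hv =>
    F.out_agree c.i0 c.il c.k0 c.km (h v hv)
  -- the values at the two junctions
  have jp : κ (F.gd (F.pd p - 1)) ↔ κ (F.gf (F.pf p - 1)) :=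
    fcore_df hp (h p (Or.inr onp)) (Or.inr rfl) (Or.inr rfl) ((memI _).2 (by omega))
      ((memK _).2 (by omega))
  have jq : κ (F.gd (F.pd q)) ↔ κ (F.gf (F.pf q)) :=
    fcore_df hq (h q (Or.inr onq)) (Or.inl rfl) (Or.inl rfl) ((memI _).2 (by omega))
      ((memK _).2 (by omega))
  -- propagation
  have pD : ∀ i j, i ≤ j → j < F.l → (j < F.pd p ∨ F.pd q ≤ i) →
      (OnQ (F.QI I K) w ∨ ¬ (F.IntD w ∧ i < F.pd w ∧ F.pd w ≤ j)) →
      (κ (F.gd i) ↔ κ (F.gd j)) := by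
    intro i j hij hj hr hw
    refine F.prop_d h hij hj (fun t h1 h2 => (memI t).2 (by omega)) ?_
    intro t h1 h2 h3
    rcases hw with hw | hw
    · exact hw
    · exfalso
      apply hw
      have h4 := F.hpd t (by omega) (by omega)
      rw [h3] at h4
      exact ⟨⟨by omega, by omega, by rw [h4, h3]⟩, by omega, by omega⟩
  have pF : ∀ i j, i ≤ j → j < F.m → (j < F.pf p ∨ F.pf q ≤ i) →
      (OnQ (F.QI I K) w ∨ ¬ (F.IntF w ∧ i < F.pf w ∧ F.pf w ≤ j)) →
      (κ (F.gf i) ↔ κ (F.gf j)) := by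
    intro i j hij hj hr hw
    refine F.prop_f h hij hj (fun t h1 h2 => (memK t).2 (by omega)) ?_
    intro t h1 h2 h3
    rcases hw with hw | hw
    · exact hw
    · exfalso
      apply hw
      have h4 := F.hpf t (by omega) (by omega)
      rw [h3] at h4
      exact ⟨⟨by omega, by omega, by rw [h4, h3]⟩, by omega, by omega⟩
  by_cases hfree : OnQ (F.QI I K) w ∨ (¬ F.IntD w ∧ ¬ F.IntF w)
  · -- `w` does not matter
    have hwD : ∀ i j, OnQ (F.QI I K) w ∨ ¬ (F.IntD w ∧ i < F.pd w ∧ F.pd w ≤ j) := by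
      intro i j
      rcases hfree with h | h
      · exact Or.inl h
      · exact Or.inr fun h' => h.1 h'.1
    have hwF : ∀ i j, OnQ (F.QI I K) w ∨ ¬ (F.IntF w ∧ i < F.pf w ∧ F.pf w ≤ j) := by
      intro i j
      rcases hfree with h | h
      · exact Or.inl h
      · exact Or.inr fun h' => h.2 h'.1
    have D1 : ∀ i, i < F.pd p → (κ (F.gd i) ↔ κ F.ed0) := fun i hi => by
      rw [g1]
      exact (pD 0 i (by omega) (by omega) (Or.inl hi) (hwD _ _)).symm
    have D2 : ∀ i, F.pd q ≤ i → i < F.l → (κ (F.gd i) ↔ κ F.edl) := fun i hi hil => by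
      rw [g2]
      exact pD i (F.l - 1) (by omega) (by omega) (Or.inr hi) (hwD _ _)
    have F1 : ∀ i, i < F.pf p → (κ (F.gf i) ↔ κ F.ef0) := fun i hi => by
      rw [g3]
      exact (pF 0 i (by omega) (by omega) (Or.inl hi) (hwF _ _)).symm
    have F2 : ∀ i, F.pf q ≤ i → i < F.m → (κ (F.gf i) ↔ κ F.efm) := fun i hi hil => by
      rw [g4]
      exact pF i (F.m - 1) (by omega) (by omega) (Or.inr hi) (hwF _ _)
    have e1 : κ F.ed0 ↔ κ F.ef0 :=
      (D1 (F.pd p - 1) (by omega)).symm.trans (jp.trans (F1 (F.pf p - 1) (by omega)))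
    have e2 : κ F.edl ↔ κ F.efm :=
      (D2 (F.pd q) le_rfl c2).symm.trans (jq.trans (F2 (F.pf q) le_rfl (by omega)))
    have hO : ConstOn F.Out κ := by
      by_cases hwQ : OnQ (F.QI I K) w
      · refine h1 p (Or.inl hp.1) κ fun v _ => hout v ?_
        by_cases hvw : v = w
        · right; rw [hvw]; exact hwQ
        · exact Or.inl hvw
      · obtain ⟨hw1, hw2⟩ := hfree.resolve_left hwQ
        rcases hk with hk | hk
        · rw [linked_Z hpq sp sq hn] at hk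
          obtain ⟨y, hy, hyp, hyq⟩ := hk
          have n1 : y ≠ p := hyp.ne
          have n2 : y ≠ q := hyq.ne
          have hyw : y ≠ w := by
            rintro rfl
            exact hw1 hy.1
          have hpos := fc_link (F.fcore_pd_ne hy.1 hp.1 n1) (F.fcore_pd_ne hy.1 hq.1 n2)
            (F.fcore_pf_ne hy.2 hp.2 n1) (F.fcore_pf_ne hy.2 hq.2 n2)
            ((F.fcore_adj hy hp n1).1 hyp) ((F.fcore_adj hy hq n2).1 hyq) hlt hlt'
          have l1 := hy.1.2.1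
          have l2 := hy.2.2.1
          have e3 : (κ F.ed0 ↔ κ F.efm) ∨ (κ F.edl ↔ κ F.ef0) := by
            rcases hpos with ⟨w1, w2⟩ | ⟨w1, w2⟩
            · have hdf := fcore_df hy (h y (Or.inl hyw)) (Or.inl rfl) (Or.inl rfl)
                ((memI (F.pd y)).2 (Or.inl w1)) ((memK (F.pf y)).2 (Or.inr w2.le))
              left
              exact (D1 (F.pd y) w1).symm.trans (hdf.trans (F2 (F.pf y) w2.le l2))
            · have hdf := fcore_df hy (h y (Or.inl hyw)) (Or.inl rfl) (Or.inl rfl)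
                ((memI (F.pd y)).2 (Or.inr w1.le)) ((memK (F.pf y)).2 (Or.inl w2))
              right
              exact (D2 (F.pd y) w1.le l1).symm.trans (hdf.trans (F1 (F.pf y) w2))
          exact fc_ctxL F hL hw1 hw2 (fun v hv => hout v (Or.inl hv)) e1 e2 e3
        · exact fc_ctxZ F hk hw1 hw2 (fun v hv => hout v (Or.inl hv)) e1 e2
    refine fcore_const (γ := κ F.ed0) (fun e he => hO e he _ o1) (fun i hi hiI => ?_)
      (fun i hi hiK => ?_)
    · rcases (memI i).1 hiI with hc | hc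
      · exact D1 i hc
      · exact (D2 i hc hi).trans (hO _ o2 _ o1)
    · rcases (memK i).1 hiK with hc | hc
      · exact (F1 i hc).trans (hO _ o3 _ o1)
      · exact (F2 i hc hi).trans (hO _ o4 _ o1)
  · -- `w` is interior and not on `Q`
    rw [not_or] at hfree
    obtain ⟨hwQ, hwint⟩ := hfree
    have hwint' : F.IntD w ∨ F.IntF w := by tauto
    have hO : ConstOn F.Out κ := h1 w hwint' κ fun v hv => hout v (Or.inl hv)
    have hO' : ∀ e ∈ F.Out, (κ e ↔ κ F.ed0) := fun e he => hO e he _ o1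
    have hwp : w ≠ p := by rintro rfl; exact hwQ onp
    have hwq : w ≠ q := by rintro rfl; exact hwQ onq
    -- values on the four segments
    have D1 : ∀ i, i < F.pd p → ¬ (F.IntD w ∧ F.pd w ≤ i) → (κ (F.gd i) ↔ κ F.ed0) :=
      fun i hi hn => by
        rw [g1]
        exact (pD 0 i (by omega) (by omega) (Or.inl hi) (Or.inr fun h' => hn ⟨h'.1, h'.2.2⟩)).symm
    have D1' : ∀ i, i < F.pd p → F.pd w ≤ i → (κ (F.gd i) ↔ κ (F.gd (F.pd p - 1))) :=
      fun i hi hn => pD i (F.pd p - 1) (by omega) (by omega) (Or.inl (by omega))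
        (Or.inr fun h' => by omega)
    have D2 : ∀ i, F.pd q ≤ i → i < F.l → ¬ (F.IntD w ∧ i < F.pd w) →
        (κ (F.gd i) ↔ κ F.edl) := fun i hi hil hn => by
        rw [g2]
        exact pD i (F.l - 1) (by omega) (by omega) (Or.inr hi)
          (Or.inr fun h' => hn ⟨h'.1, h'.2.1⟩)
    have D2' : ∀ i, F.pd q ≤ i → i < F.l → i < F.pd w → (κ (F.gd i) ↔ κ (F.gd (F.pd q))) :=
      fun i hi hil hn => (pD (F.pd q) i (by omega) (by omega) (Or.inr le_rfl)
        (Or.inr fun h' => by omega)).symm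
    have F1 : ∀ i, i < F.pf p → ¬ (F.IntF w ∧ F.pf w ≤ i) → (κ (F.gf i) ↔ κ F.ef0) :=
      fun i hi hn => by
        rw [g3]
        exact (pF 0 i (by omega) (by omega) (Or.inl hi) (Or.inr fun h' => hn ⟨h'.1, h'.2.2⟩)).symm
    have F1' : ∀ i, i < F.pf p → F.pf w ≤ i → (κ (F.gf i) ↔ κ (F.gf (F.pf p - 1))) :=
      fun i hi hn => pF i (F.pf p - 1) (by omega) (by omega) (Or.inl (by omega))
        (Or.inr fun h' => by omega)
    have F2 : ∀ i, F.pf q ≤ i → i < F.m → ¬ (F.IntF w ∧ i < F.pf w) →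
        (κ (F.gf i) ↔ κ F.efm) := fun i hi hil hn => by
        rw [g4]
        exact pF i (F.m - 1) (by omega) (by omega) (Or.inr hi)
          (Or.inr fun h' => hn ⟨h'.1, h'.2.1⟩)
    have F2' : ∀ i, F.pf q ≤ i → i < F.m → i < F.pf w → (κ (F.gf i) ↔ κ (F.gf (F.pf q))) :=
      fun i hi hil hn => (pF (F.pf q) i (by omega) (by omega) (Or.inr le_rfl)
        (Or.inr fun h' => by omega)).symm
    have hel := hO' _ o2
    have hef := hO' _ o3
    have hem := hO' _ o4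
    -- the value at `p`
    have vp : κ (F.gd (F.pd p - 1)) ↔ κ F.ed0 := by
      by_contra hcon
      have hw1 : F.IntD w ∧ F.pd w < F.pd p := by
        by_contra h'
        exact hcon (D1 (F.pd p - 1) (by omega) fun h'' => h' ⟨h''.1, by omega⟩)
      have hw2 : F.IntF w ∧ F.pf w < F.pf p := by
        by_contra h'
        exact hcon (jp.trans ((F1 (F.pf p - 1) (by omega) fun h'' =>
          h' ⟨h''.1, by omega⟩).trans hef))
      have hwP : w ∈ F.P := ⟨hw1.1, hw2.1⟩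
      refine hg {w} (fcore_lobe c hno hmark (κ := κ) (γ := κ F.ed0) hwP (j := p)
        ⟨Or.inl rfl, ?_, ?_, ?_⟩ (fun v hv => h v (Or.inl hv)) hO' ?_ ?_ ?_ ?_)
      · rintro (e | e)
        · exact hwp e
        · exact hwq e
      · refine iff_of_false ?_ sp
        rw [F.fcore_adj hwP hp hwp]
        omega
      · rintro i (rfl | rfl) hi
        · exact absurd rfl hi
        · rw [F.fcore_adj hwP hq hwq, F.fcore_adj hp hq hpq]
          omega
      · intro i hi hiI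
        rcases (memI i).1 hiI with hc | hc
        · by_cases hc' : F.pd w ≤ i
          · exact iff_of_false (fun h' => hcon ((D1' i hc hc').symm.trans h'))
              (fun h' => h' (Or.inl ⟨hc', hc⟩))
          · exact iff_of_true (D1 i hc fun h' => hc' h'.2) (by omega)
        · exact iff_of_true ((D2 i hc hi (fun h' => by omega)).trans hel) (by omega)
      · intro i hi hiI
        rcases (memK i).1 hiI with hc | hc
        · by_cases hc' : F.pf w ≤ i
          · exact iff_of_false (fun h' => hcon (jp.trans ((F1' i hc hc').symm.trans h')))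
              (fun h' => h' (Or.inl ⟨hc', hc⟩))
          · exact iff_of_true ((F1 i hc fun h' => hc' h'.2).trans hef) (by omega)
        · exact iff_of_true ((F2 i hc hi (fun h' => by omega)).trans hem) (by omega)
      · intro i hi
        exact (memI i).2 (by omega)
      · intro i hi
        exact (memK i).2 (by omega)
    -- the value at `q`
    have vq : κ (F.gd (F.pd q)) ↔ κ F.ed0 := by
      by_contra hcon
      have hw1 : F.IntD w ∧ F.pd q < F.pd w := by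
        by_contra h'
        exact hcon ((D2 (F.pd q) le_rfl c2 fun h'' => h' ⟨h''.1, by omega⟩).trans hel)
      have hw2 : F.IntF w ∧ F.pf q < F.pf w := by
        by_contra h'
        exact hcon (jq.trans ((F2 (F.pf q) le_rfl (by omega) fun h'' =>
          h' ⟨h''.1, by omega⟩).trans hem))
      have hwP : w ∈ F.P := ⟨hw1.1, hw2.1⟩
      refine hg {w} (fcore_lobe c hno hmark (κ := κ) (γ := κ F.ed0) hwP (j := q)
        ⟨Or.inr rfl, ?_, ?_, ?_⟩ (fun v hv => h v (Or.inl hv)) hO' ?_ ?_ ?_ ?_)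
      · rintro (e | e)
        · exact hwp e
        · exact hwq e
      · refine iff_of_false ?_ sq
        rw [F.fcore_adj hwP hq hwq]
        omega
      · rintro i (rfl | rfl) hi
        · rw [F.fcore_adj hwP hp hwp, F.fcore_adj hq hp hpq.symm]
          omega
        · exact absurd rfl hi
      · intro i hi hiI
        rcases (memI i).1 hiI with hc | hc
        · exact iff_of_true (D1 i hc fun h' => by omega) (by omega)
        · by_cases hc' : i < F.pd w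
          · exact iff_of_false (fun h' => hcon ((D2' i hc hi hc').symm.trans h'))
              (fun h' => h' (Or.inr ⟨hc, hc'⟩))
          · exact iff_of_true ((D2 i hc hi (fun h' => hc' h'.2)).trans hel) (by omega)
      · intro i hi hiI
        rcases (memK i).1 hiI with hc | hc
        · exact iff_of_true ((F1 i hc fun h' => by omega).trans hef) (by omega)
        · by_cases hc' : i < F.pf w
          · exact iff_of_false (fun h' => hcon (jq.trans ((F2' i hc hi hc').symm.trans h')))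
              (fun h' => h' (Or.inr ⟨hc, hc'⟩))
          · exact iff_of_true ((F2 i hc hi (fun h' => hc' h'.2)).trans hem) (by omega)
      · intro i hi
        exact (memI i).2 (by omega)
      · intro i hi
        exact (memK i).2 (by omega)
    refine fcore_const (γ := κ F.ed0) hO' (fun i hi hiI => ?_) (fun i hi hiK => ?_)
    · rcases (memI i).1 hiI with hc | hc
      · by_cases hc' : F.IntD w ∧ F.pd w ≤ i
        · exact (D1' i hc hc'.2).trans vp
        · exact D1 i hc hc'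
      · by_cases hc' : F.IntD w ∧ i < F.pd w
        · exact (D2' i hc hi hc'.2).trans vq
        · exact (D2 i hc hi hc').trans hel
    · rcases (memK i).1 hiK with hc | hc
      · by_cases hc' : F.IntF w ∧ F.pf w ≤ i
        · exact (F1' i hc hc'.2).trans (jp.symm.trans vp)
        · exact (F1 i hc hc').trans hef
      · by_cases hc' : F.IntF w ∧ i < F.pf w
        · exact (F2' i hc hi hc'.2).trans (jq.symm.trans vq)
        · exact (F2 i hc hi hc').trans hem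

/-- FT for kind Z -/
theorem frame_Z [Finite V] (h2 : TwoReg H red) (F : Frame H red) (hfull : F.Full)
    (hmark : F.Marked) (h1 : F.Ctx1) (hL : F.CtxL) {J : Set V}
    (hJ : Good F.G F.sg F.P F.ob Kd.Z J) (hk : Linked F.G F.sg F.P J ∨ F.CtxK Kd.Z) :
    HasGood H red := by
  obtain ⟨⟨p, q, hp, hq, hpq, sp, sq, hn, rfl⟩, hg⟩ := hJ
  rcases lt_or_gt_of_ne (F.fcore_pd_ne hp.1 hq.1 hpq) with hlt | hlt
  · exact fc_main F hfull hmark h1 hL hp hq hpq sp sq hn hlt hg hk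
  · rw [Set.pair_comm] at hg hk
    exact fc_main F hfull hmark h1 hL hq hp hpq.symm sq sp (fun h => hn h.symm) hlt hg hk

end Pool.Agent.GD.Frame
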