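import Pool.Agent.GD.FB
import Pool.Agent.GD.TA
import Pool.Agent.GD.FCore

set_option autoImplicit false

/-! Module FD: kind P, pattern I. -/

namespace Pool.Agent.GD.Frame

variable {V : Type} {H : SimpleGraph V} {red : Set (Sym2 V)}

/-- the positions of the four vertices -/
structure FDPos (F : Frame H red) (b1 a1 a2 b2 : V) : Prop where
  hb1 : b1 ∈ F.P
  ha1 : a1 ∈ F.P
  ha2 : a2 ∈ F.P
  hb2 : b2 ∈ F.P
  s1 : F.sg b1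
  s2 : F.sg b2
  s3 : ¬ F.sg a1
  s4 : ¬ F.sg a2
  d1 : F.pd a1 < F.pd b1
  d2 : F.pd b1 < F.pd b2
  d3 : F.pd b2 < F.pd a2
  f1 : F.pf b1 < F.pf a2
  f2 : F.pf a2 < F.pf a1
  f3 : F.pf a1 < F.pf b2

/-- removed positions on the first trail -/
def fdI (F : Frame H red) (b1 a1 a2 b2 : V) : Set ℕ :=
  {i | (F.pd a1 ≤ i ∧ i < F.pd b1) ∨ (F.pd b2 ≤ i ∧ i < F.pd a2)}

/-- removed positions on the second trail -/
def fdK (F : Frame H red) (b1 a1 a2 b2 : V) : Set ℕ :=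
  {i | (F.pf b1 ≤ i ∧ i < F.pf a2) ∨ (F.pf a1 ≤ i ∧ i < F.pf b2)}

section

/-- values on the six segments -/
structure FDTab (A1 B1 B2 A2 l β1 α2 α1 β2 m pw qw : ℕ) (iD iF : Prop) (vD vF : ℕ → Prop)
    (x1 x2 y1 y2 : Prop) : Prop where
  D1a : ∀ i, i < A1 → ¬ (iD ∧ pw ≤ i) → vD i
  D1b : ∀ i, i < A1 → ¬ (iD ∧ i < pw ∧ pw < A1) → (vD i ↔ x1)
  D2a : ∀ i, B1 ≤ i → i < B2 → ¬ (iD ∧ B1 < pw ∧ pw ≤ i) → (vD i ↔ y1)
  D2b : ∀ i, B1 ≤ i → i < B2 → ¬ (iD ∧ i < pw ∧ pw < B2) → (vD i ↔ y2)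
  D3a : ∀ i, A2 ≤ i → i < l → ¬ (iD ∧ A2 < pw ∧ pw ≤ i) → (vD i ↔ x2)
  D3b : ∀ i, A2 ≤ i → i < l → ¬ (iD ∧ i < pw) → vD i
  F1a : ∀ i, i < β1 → ¬ (iF ∧ qw ≤ i) → vF i
  F1b : ∀ i, i < β1 → ¬ (iF ∧ i < qw ∧ qw < β1) → (vF i ↔ y1)
  F2a : ∀ i, α2 ≤ i → i < α1 → ¬ (iF ∧ α2 < qw ∧ qw ≤ i) → (vF i ↔ x2)
  F2b : ∀ i, α2 ≤ i → i < α1 → ¬ (iF ∧ i < qw ∧ qw < α1) → (vF i ↔ x1)
  F3a : ∀ i, β2 ≤ i → i < m → ¬ (iF ∧ β2 < qw ∧ qw ≤ i) → (vF i ↔ y2)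
  F3b : ∀ i, β2 ≤ i → i < m → ¬ (iF ∧ i < qw) → vF i
  d0 : 0 < A1
  d1 : A1 < B1
  d2 : B1 < B2
  d3 : B2 < A2
  d4 : A2 < l
  f0 : 0 < β1
  f1 : β1 < α2
  f2 : α2 < α1
  f3 : α1 < β2
  f4 : β2 < m

variable {A1 B1 B2 A2 l β1 α2 α1 β2 m pw qw : ℕ} {iD iF : Prop} {vD vF : ℕ → Prop}
    {x1 x2 y1 y2 : Prop}

lemma fd_tab_base (T : FDTab A1 B1 B2 A2 l β1 α2 α1 β2 m pw qw iD iF vD vF x1 x2 y1 y2) :
    (¬ (iD ∧ pw < A1) → x1) ∧ (¬ (iD ∧ A2 < pw) → x2) ∧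
    (¬ (iD ∧ B1 < pw ∧ pw < B2) → (y1 ↔ y2)) ∧ (¬ (iF ∧ qw < β1) → y1) ∧
    (¬ (iF ∧ β2 < qw) → y2) ∧ (¬ (iF ∧ α2 < qw ∧ qw < α1) → (x1 ↔ x2)) := by
  have d0 := T.d0
  have d1 := T.d1
  have d2 := T.d2
  have d3 := T.d3
  have d4 := T.d4
  have f0 := T.f0
  have f1 := T.f1
  have f2 := T.f2
  have f3 := T.f3
  have f4 := T.f4
  refine ⟨fun h => ?_, fun h => ?_, fun h => ?_, fun h => ?_, fun h => ?_, fun h => ?_⟩
  · exact (T.D1b (A1 - 1) (by omega) (fun h' => by omega)).1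
      (T.D1a (A1 - 1) (by omega) (fun h' => h ⟨h'.1, by omega⟩))
  · exact (T.D3a A2 le_rfl (by omega) (fun h' => by omega)).1
      (T.D3b A2 le_rfl (by omega) (fun h' => h ⟨h'.1, by omega⟩))
  · exact (T.D2a B1 le_rfl (by omega) (fun h' => by omega)).symm.trans
      (T.D2b B1 le_rfl (by omega) (fun h' => h ⟨h'.1, by omega⟩))
  · exact (T.F1b (β1 - 1) (by omega) (fun h' => by omega)).1
      (T.F1a (β1 - 1) (by omega) (fun h' => h ⟨h'.1, by omega⟩))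
  · exact (T.F3a β2 le_rfl (by omega) (fun h' => by omega)).1
      (T.F3b β2 le_rfl (by omega) (fun h' => h ⟨h'.1, by omega⟩))
  · exact (T.F2b α2 le_rfl (by omega) (fun h' => h ⟨h'.1, by omega⟩)).symm.trans
      (T.F2a α2 le_rfl (by omega) (fun h' => by omega))

lemma fd_tab_a1 (T : FDTab A1 B1 B2 A2 l β1 α2 α1 β2 m pw qw iD iF vD vF x1 x2 y1 y2)
    (hx : ¬ x1) : (iD ∧ pw < A1) ∧ (iF ∧ α2 < qw ∧ qw < α1) ∧ x2 ∧ y1 ∧ y2 := by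
  obtain ⟨e1, e2, e3, e4, e5, e6⟩ := fd_tab_base T
  have d1 := T.d1
  have d2 := T.d2
  have d3 := T.d3
  have f1 := T.f1
  have f2 := T.f2
  have f3 := T.f3
  have h1 : iD ∧ pw < A1 := by
    by_contra hc
    exact hx (e1 hc)
  have h2 : x2 := e2 (fun h => by omega)
  have h3 : iF ∧ α2 < qw ∧ qw < α1 := by
    by_contra hc
    exact hx ((e6 hc).2 h2)
  exact ⟨h1, h3, h2, e4 (fun h => by omega), e5 (fun h => by omega)⟩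

lemma fd_tab_a2 (T : FDTab A1 B1 B2 A2 l β1 α2 α1 β2 m pw qw iD iF vD vF x1 x2 y1 y2)
    (hx : ¬ x2) : (iD ∧ A2 < pw) ∧ (iF ∧ α2 < qw ∧ qw < α1) ∧ x1 ∧ y1 ∧ y2 := by
  obtain ⟨e1, e2, e3, e4, e5, e6⟩ := fd_tab_base T
  have d1 := T.d1
  have d2 := T.d2
  have d3 := T.d3
  have f1 := T.f1
  have f2 := T.f2
  have f3 := T.f3
  have h1 : iD ∧ A2 < pw := by
    by_contra hc
    exact hx (e2 hc)
  have h2 : x1 := e1 (fun h => by omega)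
  have h3 : iF ∧ α2 < qw ∧ qw < α1 := by
    by_contra hc
    exact hx ((e6 hc).1 h2)
  exact ⟨h1, h3, h2, e4 (fun h => by omega), e5 (fun h => by omega)⟩

lemma fd_tab_b1 (T : FDTab A1 B1 B2 A2 l β1 α2 α1 β2 m pw qw iD iF vD vF x1 x2 y1 y2)
    (hx : ¬ y1) : (iD ∧ B1 < pw ∧ pw < B2) ∧ (iF ∧ qw < β1) ∧ x1 ∧ x2 ∧ y2 := by
  obtain ⟨e1, e2, e3, e4, e5, e6⟩ := fd_tab_base T
  have d1 := T.d1
  have d2 := T.d2
  have d3 := T.d3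
  have f1 := T.f1
  have f2 := T.f2
  have f3 := T.f3
  have h1 : iF ∧ qw < β1 := by
    by_contra hc
    exact hx (e4 hc)
  have h2 : y2 := e5 (fun h => by omega)
  have h3 : iD ∧ B1 < pw ∧ pw < B2 := by
    by_contra hc
    exact hx ((e3 hc).2 h2)
  exact ⟨h3, h1, e1 (fun h => by omega), e2 (fun h => by omega), h2⟩

lemma fd_tab_b2 (T : FDTab A1 B1 B2 A2 l β1 α2 α1 β2 m pw qw iD iF vD vF x1 x2 y1 y2)
    (hx : ¬ y2) : (iD ∧ B1 < pw ∧ pw < B2) ∧ (iF ∧ β2 < qw) ∧ x1 ∧ x2 ∧ y1 := by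
  obtain ⟨e1, e2, e3, e4, e5, e6⟩ := fd_tab_base T
  have d1 := T.d1
  have d2 := T.d2
  have d3 := T.d3
  have f1 := T.f1
  have f2 := T.f2
  have f3 := T.f3
  have h1 : iF ∧ β2 < qw := by
    by_contra hc
    exact hx (e5 hc)
  have h2 : y1 := e4 (fun h => by omega)
  have h3 : iD ∧ B1 < pw ∧ pw < B2 := by
    by_contra hc
    exact hx ((e3 hc).1 h2)
  exact ⟨h3, h1, e1 (fun h => by omega), e2 (fun h => by omega), h2⟩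

/-- if all junctions have the right value, all values are right -/
lemma fd_tab_all (T : FDTab A1 B1 B2 A2 l β1 α2 α1 β2 m pw qw iD iF vD vF x1 x2 y1 y2)
    (hx1 : x1) (hx2 : x2) (hy1 : y1) (hy2 : y2) :
    (∀ i, i < l → (i < A1 ∨ (B1 ≤ i ∧ i < B2) ∨ A2 ≤ i) → vD i) ∧
    (∀ i, i < m → (i < β1 ∨ (α2 ≤ i ∧ i < α1) ∨ β2 ≤ i) → vF i) := by
  constructor
  · rintro i hi (hc | ⟨hc1, hc2⟩ | hc)
    · by_cases h : iD ∧ pw ≤ i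
      · exact (T.D1b i hc (fun h' => by omega)).2 hx1
      · exact T.D1a i hc h
    · by_cases h : iD ∧ B1 < pw ∧ pw ≤ i
      · exact (T.D2b i hc1 hc2 (fun h' => by omega)).2 hy2
      · exact (T.D2a i hc1 hc2 h).2 hy1
    · by_cases h : iD ∧ i < pw
      · exact (T.D3a i hc hi (fun h' => by omega)).2 hx2
      · exact T.D3b i hc hi h
  · rintro i hi (hc | ⟨hc1, hc2⟩ | hc)
    · by_cases h : iF ∧ qw ≤ i
      · exact (T.F1b i hc (fun h' => by omega)).2 hy1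
      · exact T.F1a i hc h
    · by_cases h : iF ∧ α2 < qw ∧ qw ≤ i
      · exact (T.F2b i hc1 hc2 (fun h' => by omega)).2 hx1
      · exact (T.F2a i hc1 hc2 h).2 hx2
    · by_cases h : iF ∧ i < qw
      · exact (T.F3a i hc hi (fun h' => by omega)).2 hy2
      · exact T.F3b i hc hi h

/-- the lobe at `a1` -/
lemma fd_tab_la1 (T : FDTab A1 B1 B2 A2 l β1 α2 α1 β2 m pw qw iD iF vD vF x1 x2 y1 y2)
    (hx : ¬ x1) :
    (∀ i, i < l → (i < A1 ∨ (B1 ≤ i ∧ i < B2) ∨ A2 ≤ i) →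
      (vD i ↔ ¬ ((pw ≤ i ∧ i < A1) ∨ (A1 ≤ i ∧ i < pw)))) ∧
    (∀ i, i < m → (i < β1 ∨ (α2 ≤ i ∧ i < α1) ∨ β2 ≤ i) →
      (vF i ↔ ¬ ((qw ≤ i ∧ i < α1) ∨ (α1 ≤ i ∧ i < qw)))) := by
  obtain ⟨⟨h1, h2⟩, ⟨h3, h4, h5⟩, hx2, hy1, hy2⟩ := fd_tab_a1 T hx
  have d1 := T.d1
  have d2 := T.d2
  have d3 := T.d3
  have f1 := T.f1
  have f2 := T.f2
  have f3 := T.f3
  constructor
  · rintro i hi (hc | ⟨hc1, hc2⟩ | hc)
    · by_cases h : pw ≤ i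
      · exact iff_of_false (fun h' => hx ((T.D1b i hc (fun h' => by omega)).1 h')) (by omega)
      · exact iff_of_true (T.D1a i hc (fun h' => by omega)) (by omega)
    · exact iff_of_true ((T.D2a i hc1 hc2 (fun h' => by omega)).2 hy1) (by omega)
    · exact iff_of_true ((T.D3a i hc hi (fun h' => by omega)).2 hx2) (by omega)
  · rintro i hi (hc | ⟨hc1, hc2⟩ | hc)
    · exact iff_of_true ((T.F1b i hc (fun h' => by omega)).2 hy1) (by omega)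
    · by_cases h : qw ≤ i
      · exact iff_of_false (fun h' => hx ((T.F2b i hc1 hc2 (fun h' => by omega)).1 h')) (by omega)
      · exact iff_of_true ((T.F2a i hc1 hc2 (fun h' => by omega)).2 hx2) (by omega)
    · exact iff_of_true ((T.F3a i hc hi (fun h' => by omega)).2 hy2) (by omega)

/-- the lobe at `a2` -/
lemma fd_tab_la2 (T : FDTab A1 B1 B2 A2 l β1 α2 α1 β2 m pw qw iD iF vD vF x1 x2 y1 y2)
    (hx : ¬ x2) :
    (∀ i, i < l → (i < A1 ∨ (B1 ≤ i ∧ i < B2) ∨ A2 ≤ i) →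
      (vD i ↔ ¬ ((pw ≤ i ∧ i < A2) ∨ (A2 ≤ i ∧ i < pw)))) ∧
    (∀ i, i < m → (i < β1 ∨ (α2 ≤ i ∧ i < α1) ∨ β2 ≤ i) →
      (vF i ↔ ¬ ((qw ≤ i ∧ i < α2) ∨ (α2 ≤ i ∧ i < qw)))) := by
  obtain ⟨⟨h1, h2⟩, ⟨h3, h4, h5⟩, hx1, hy1, hy2⟩ := fd_tab_a2 T hx
  have d1 := T.d1
  have d2 := T.d2
  have d3 := T.d3
  have f1 := T.f1
  have f2 := T.f2
  have f3 := T.f3
  constructor
  · rintro i hi (hc | ⟨hc1, hc2⟩ | hc)
    · exact iff_of_true ((T.D1b i hc (fun h' => by omega)).2 hx1) (by omega)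
    · exact iff_of_true ((T.D2a i hc1 hc2 (fun h' => by omega)).2 hy1) (by omega)
    · by_cases h : i < pw
      · exact iff_of_false (fun h' => hx ((T.D3a i hc hi (fun h' => by omega)).1 h')) (by omega)
      · exact iff_of_true (T.D3b i hc hi (fun h' => by omega)) (by omega)
  · rintro i hi (hc | ⟨hc1, hc2⟩ | hc)
    · exact iff_of_true ((T.F1b i hc (fun h' => by omega)).2 hy1) (by omega)
    · by_cases h : i < qw
      · exact iff_of_false (fun h' => hx ((T.F2a i hc1 hc2 (fun h' => by omega)).1 h')) (by omega)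
      · exact iff_of_true ((T.F2b i hc1 hc2 (fun h' => by omega)).2 hx1) (by omega)
    · exact iff_of_true ((T.F3a i hc hi (fun h' => by omega)).2 hy2) (by omega)

/-- the lobe at `b1` -/
lemma fd_tab_lb1 (T : FDTab A1 B1 B2 A2 l β1 α2 α1 β2 m pw qw iD iF vD vF x1 x2 y1 y2)
    (hx : ¬ y1) :
    (∀ i, i < l → (i < A1 ∨ (B1 ≤ i ∧ i < B2) ∨ A2 ≤ i) →
      (vD i ↔ ¬ ((pw ≤ i ∧ i < B1) ∨ (B1 ≤ i ∧ i < pw)))) ∧
    (∀ i, i < m → (i < β1 ∨ (α2 ≤ i ∧ i < α1) ∨ β2 ≤ i) →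
      (vF i ↔ ¬ ((qw ≤ i ∧ i < β1) ∨ (β1 ≤ i ∧ i < qw)))) := by
  obtain ⟨⟨h1, h2, h2'⟩, ⟨h3, h4⟩, hx1, hx2, hy2⟩ := fd_tab_b1 T hx
  have d1 := T.d1
  have d2 := T.d2
  have d3 := T.d3
  have f1 := T.f1
  have f2 := T.f2
  have f3 := T.f3
  constructor
  · rintro i hi (hc | ⟨hc1, hc2⟩ | hc)
    · exact iff_of_true ((T.D1b i hc (fun h' => by omega)).2 hx1) (by omega)
    · by_cases h : i < pw
      · exact iff_of_false (fun h' => hx ((T.D2a i hc1 hc2 (fun h' => by omega)).1 h')) (by omega)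
      · exact iff_of_true ((T.D2b i hc1 hc2 (fun h' => by omega)).2 hy2) (by omega)
    · exact iff_of_true ((T.D3a i hc hi (fun h' => by omega)).2 hx2) (by omega)
  · rintro i hi (hc | ⟨hc1, hc2⟩ | hc)
    · by_cases h : qw ≤ i
      · exact iff_of_false (fun h' => hx ((T.F1b i hc (fun h' => by omega)).1 h')) (by omega)
      · exact iff_of_true (T.F1a i hc (fun h' => by omega)) (by omega)
    · exact iff_of_true ((T.F2b i hc1 hc2 (fun h' => by omega)).2 hx1) (by omega)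
    · exact iff_of_true ((T.F3a i hc hi (fun h' => by omega)).2 hy2) (by omega)

/-- the lobe at `b2` -/
lemma fd_tab_lb2 (T : FDTab A1 B1 B2 A2 l β1 α2 α1 β2 m pw qw iD iF vD vF x1 x2 y1 y2)
    (hx : ¬ y2) :
    (∀ i, i < l → (i < A1 ∨ (B1 ≤ i ∧ i < B2) ∨ A2 ≤ i) →
      (vD i ↔ ¬ ((pw ≤ i ∧ i < B2) ∨ (B2 ≤ i ∧ i < pw)))) ∧
    (∀ i, i < m → (i < β1 ∨ (α2 ≤ i ∧ i < α1) ∨ β2 ≤ i) →
      (vF i ↔ ¬ ((qw ≤ i ∧ i < β2) ∨ (β2 ≤ i ∧ i < qw)))) := by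
  obtain ⟨⟨h1, h2, h2'⟩, ⟨h3, h4⟩, hx1, hx2, hy1⟩ := fd_tab_b2 T hx
  have d1 := T.d1
  have d2 := T.d2
  have d3 := T.d3
  have f1 := T.f1
  have f2 := T.f2
  have f3 := T.f3
  constructor
  · rintro i hi (hc | ⟨hc1, hc2⟩ | hc)
    · exact iff_of_true ((T.D1b i hc (fun h' => by omega)).2 hx1) (by omega)
    · by_cases h : pw ≤ i
      · exact iff_of_false (fun h' => hx ((T.D2b i hc1 hc2 (fun h' => by omega)).1 h')) (by omega)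
      · exact iff_of_true ((T.D2a i hc1 hc2 (fun h' => by omega)).2 hy1) (by omega)
    · exact iff_of_true ((T.D3a i hc hi (fun h' => by omega)).2 hx2) (by omega)
  · rintro i hi (hc | ⟨hc1, hc2⟩ | hc)
    · exact iff_of_true ((T.F1b i hc (fun h' => by omega)).2 hy1) (by omega)
    · exact iff_of_true ((T.F2b i hc1 hc2 (fun h' => by omega)).2 hx1) (by omega)
    · by_cases h : i < qw
      · exact iff_of_false (fun h' => hx ((T.F3a i hc hi (fun h' => by omega)).1 h')) (by omega)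
      · exact iff_of_true (T.F3b i hc hi (fun h' => by omega)) (by omega)

end

variable {F : Frame H red} {b1 a1 a2 b2 : V}

lemma fd_ne (P : FDPos F b1 a1 a2 b2) :
    b1 ≠ a1 ∧ b1 ≠ a2 ∧ b1 ≠ b2 ∧ a1 ≠ a2 ∧ a1 ≠ b2 ∧ a2 ≠ b2 := by
  obtain ⟨-, -, -, -, -, -, -, -, h1, h2, h3, -, -, -⟩ := P
  refine ⟨?_, ?_, ?_, ?_, ?_, ?_⟩ <;> rintro rfl <;> omega

lemma fd_ends (P : FDPos F b1 a1 a2 b2) : 0 < F.pd a1 ∧ F.pd a2 < F.l ∧ 0 < F.pf b1 ∧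
    F.pf b2 < F.m := ⟨P.ha1.1.1, P.ha2.1.2.1, P.hb1.2.1, P.hb2.2.2.1⟩

lemma fd_out (k : V) (hk : k ∉ ({b1, a1, a2, b2} : Set V)) :
    k ≠ b1 ∧ k ≠ a1 ∧ k ≠ a2 ∧ k ≠ b2 := by
  refine ⟨?_, ?_, ?_, ?_⟩ <;> rintro rfl <;> exact hk (by simp)

lemma fd_neD (P : FDPos F b1 a1 a2 b2) {k : V} (hk : F.IntD k)
    (hkJ : k ∉ ({b1, a1, a2, b2} : Set V)) :
    F.pd k ≠ F.pd b1 ∧ F.pd k ≠ F.pd a1 ∧ F.pd k ≠ F.pd a2 ∧ F.pd k ≠ F.pd b2 := by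
  obtain ⟨h1, h2, h3, h4⟩ := fd_out k hkJ
  exact ⟨F.fcore_pd_ne hk P.hb1.1 h1, F.fcore_pd_ne hk P.ha1.1 h2,
    F.fcore_pd_ne hk P.ha2.1 h3, F.fcore_pd_ne hk P.hb2.1 h4⟩

lemma fd_neF (P : FDPos F b1 a1 a2 b2) {k : V} (hk : F.IntF k)
    (hkJ : k ∉ ({b1, a1, a2, b2} : Set V)) :
    F.pf k ≠ F.pf b1 ∧ F.pf k ≠ F.pf a1 ∧ F.pf k ≠ F.pf a2 ∧ F.pf k ≠ F.pf b2 := by
  obtain ⟨h1, h2, h3, h4⟩ := fd_out k hkJ
  exact ⟨F.fcore_pf_ne hk P.hb1.2 h1, F.fcore_pf_ne hk P.ha1.2 h2,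
    F.fcore_pf_ne hk P.ha2.2 h3, F.fcore_pf_ne hk P.hb2.2 h4⟩

/-- adjacency to the four vertices -/
lemma fd_adj4 (P : FDPos F b1 a1 a2 b2) {k : V} (hk : k ∈ F.P)
    (hkJ : k ∉ ({b1, a1, a2, b2} : Set V)) :
    (F.G.Adj k b1 ↔ ¬ (F.pd k < F.pd b1 ↔ F.pf k < F.pf b1)) ∧
    (F.G.Adj k a1 ↔ ¬ (F.pd k < F.pd a1 ↔ F.pf k < F.pf a1)) ∧
    (F.G.Adj k a2 ↔ ¬ (F.pd k < F.pd a2 ↔ F.pf k < F.pf a2)) ∧
    (F.G.Adj k b2 ↔ ¬ (F.pd k < F.pd b2 ↔ F.pf k < F.pf b2)) := by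
  obtain ⟨h1, h2, h3, h4⟩ := fd_out k hkJ
  exact ⟨F.fcore_adj hk P.hb1 h1, F.fcore_adj hk P.ha1 h2, F.fcore_adj hk P.ha2 h3,
    F.fcore_adj hk P.hb2 h4⟩

/-- adjacencies among the four vertices -/
lemma fd_adjJ (P : FDPos F b1 a1 a2 b2) :
    F.G.Adj b1 a1 ∧ F.G.Adj a1 a2 ∧ F.G.Adj a2 b2 ∧ ¬ F.G.Adj b1 a2 ∧ ¬ F.G.Adj b1 b2 ∧
      ¬ F.G.Adj a1 b2 := by
  obtain ⟨n1, n2, n3, n4, n5, n6⟩ := fd_ne P
  rw [F.fcore_adj P.hb1 P.ha1 n1, F.fcore_adj P.ha1 P.ha2 n4, F.fcore_adj P.ha2 P.hb2 n6,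
    F.fcore_adj P.hb1 P.ha2 n2, F.fcore_adj P.hb1 P.hb2 n3, F.fcore_adj P.ha1 P.hb2 n5]
  have h1 := P.d1
  have h2 := P.d2
  have h3 := P.d3
  have h4 := P.f1
  have h5 := P.f2
  have h6 := P.f3
  omega

lemma fd_tw_b1 (P : FDPos F b1 a1 a2 b2) {k : V} (hk : k ∈ F.P)
    (hkJ : k ∉ ({b1, a1, a2, b2} : Set V)) (h1 : ¬ (F.pd k < F.pd b1 ↔ F.pf k < F.pf b1))
    (h2 : F.pd a1 < F.pd k) (h3 : F.pd k < F.pd b2) (h4 : F.pf k < F.pf a2) :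
    Tw F.G F.sg {b1, a1, a2, b2} b1 k := by
  obtain ⟨x1, x2, x3, x4⟩ := fd_adj4 P hk hkJ
  obtain ⟨y1, y2, y3, y4, y5, y6⟩ := fd_adjJ P
  have k3 := P.d3
  have k5 := P.f2
  have k6 := P.f3
  refine ⟨by simp, hkJ, iff_of_true (x1.2 h1) P.s1, ?_⟩
  rintro i (rfl | rfl | rfl | rfl) hi
  · exact absurd rfl hi
  · exact iff_of_true (x2.2 (by omega)) y1
  · exact iff_of_false (fun h => (x3.1 h) (by omega)) y4
  · exact iff_of_false (fun h => (x4.1 h) (by omega)) y5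

lemma fd_tw_a1 (P : FDPos F b1 a1 a2 b2) {k : V} (hk : k ∈ F.P)
    (hkJ : k ∉ ({b1, a1, a2, b2} : Set V)) (h1 : (F.pd k < F.pd a1 ↔ F.pf k < F.pf a1))
    (h2 : F.pd k < F.pd b1) (h3 : F.pf a2 < F.pf k) (h4 : F.pf k < F.pf b2) :
    Tw F.G F.sg {b1, a1, a2, b2} a1 k := by
  obtain ⟨x1, x2, x3, x4⟩ := fd_adj4 P hk hkJ
  obtain ⟨y1, y2, y3, y4, y5, y6⟩ := fd_adjJ P
  have k2 := P.d2
  have k3 := P.d3
  have k4 := P.f1
  refine ⟨by simp, hkJ, iff_of_false (fun h => (x2.1 h) h1) P.s3, ?_⟩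
  rintro i (rfl | rfl | rfl | rfl) hi
  · exact iff_of_true (x1.2 (by omega)) y1.symm
  · exact absurd rfl hi
  · exact iff_of_true (x3.2 (by omega)) y2
  · exact iff_of_false (fun h => (x4.1 h) (by omega)) y6

lemma fd_tw_a2 (P : FDPos F b1 a1 a2 b2) {k : V} (hk : k ∈ F.P)
    (hkJ : k ∉ ({b1, a1, a2, b2} : Set V)) (h1 : (F.pd k < F.pd a2 ↔ F.pf k < F.pf a2))
    (h2 : F.pd b2 < F.pd k) (h3 : F.pf b1 < F.pf k) (h4 : F.pf k < F.pf a1) :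
    Tw F.G F.sg {b1, a1, a2, b2} a2 k := by
  obtain ⟨x1, x2, x3, x4⟩ := fd_adj4 P hk hkJ
  obtain ⟨y1, y2, y3, y4, y5, y6⟩ := fd_adjJ P
  have k1 := P.d1
  have k2 := P.d2
  have k6 := P.f3
  refine ⟨by simp, hkJ, iff_of_false (fun h => (x3.1 h) h1) P.s4, ?_⟩
  rintro i (rfl | rfl | rfl | rfl) hi
  · exact iff_of_false (fun h => (x1.1 h) (by omega)) (fun h => y4 h.symm)
  · exact iff_of_true (x2.2 (by omega)) y2.symm
  · exact absurd rfl hi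
  · exact iff_of_true (x4.2 (by omega)) y3

lemma fd_tw_b2 (P : FDPos F b1 a1 a2 b2) {k : V} (hk : k ∈ F.P)
    (hkJ : k ∉ ({b1, a1, a2, b2} : Set V)) (h1 : ¬ (F.pd k < F.pd b2 ↔ F.pf k < F.pf b2))
    (h2 : F.pd b1 < F.pd k) (h3 : F.pd k < F.pd a2) (h4 : F.pf a1 < F.pf k) :
    Tw F.G F.sg {b1, a1, a2, b2} b2 k := by
  obtain ⟨x1, x2, x3, x4⟩ := fd_adj4 P hk hkJ
  obtain ⟨y1, y2, y3, y4, y5, y6⟩ := fd_adjJ P
  have k1 := P.d1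
  have k4 := P.f1
  have k5 := P.f2
  refine ⟨by simp, hkJ, iff_of_true (x4.2 h1) P.s2, ?_⟩
  rintro i (rfl | rfl | rfl | rfl) hi
  · exact iff_of_false (fun h => (x1.1 h) (by omega)) (fun h => y5 h.symm)
  · exact iff_of_false (fun h => (x2.1 h) (by omega)) (fun h => y6 h.symm)
  · exact iff_of_true (x3.2 (by omega)) y3.symm
  · exact absurd rfl hi

lemma fd_memI {i : ℕ} (P : FDPos F b1 a1 a2 b2) : i ∉ fdI F b1 a1 a2 b2 ↔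
    i < F.pd a1 ∨ (F.pd b1 ≤ i ∧ i < F.pd b2) ∨ F.pd a2 ≤ i := by
  have k1 := P.d1
  have k2 := P.d2
  have k3 := P.d3
  show ¬ ((F.pd a1 ≤ i ∧ i < F.pd b1) ∨ (F.pd b2 ≤ i ∧ i < F.pd a2)) ↔ _
  omega

lemma fd_memK {i : ℕ} (P : FDPos F b1 a1 a2 b2) : i ∉ fdK F b1 a1 a2 b2 ↔
    i < F.pf b1 ∨ (F.pf a2 ≤ i ∧ i < F.pf a1) ∨ F.pf b2 ≤ i := by
  have k1 := P.f1
  have k2 := P.f2
  have k3 := P.f3
  show ¬ ((F.pf b1 ≤ i ∧ i < F.pf a2) ∨ (F.pf a1 ≤ i ∧ i < F.pf b2)) ↔ _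
  omega

/-- parity of the vertices after a position -/
lemma fd_parD {a b c d x : ℕ} (h1 : a < b) (h2 : b < c) (h3 : c < d) (n1 : x ≠ a) (n2 : x ≠ b)
    (n3 : x ≠ c) (n4 : x ≠ d) : ((a ≤ x ∧ x < b) ∨ (c ≤ x ∧ x < d)) ↔
      ¬ (((x < b) ↔ (x < a)) ↔ ((x < d) ↔ (x < c))) := by
  omega

lemma fd_parF {a b c d x : ℕ} (h1 : a < b) (h2 : b < c) (h3 : c < d) (n1 : x ≠ a) (n2 : x ≠ b)
    (n3 : x ≠ c) (n4 : x ≠ d) : ((a ≤ x ∧ x < b) ∨ (c ≤ x ∧ x < d)) ↔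
      ¬ (((x < a) ↔ (x < c)) ↔ ((x < b) ↔ (x < d))) := by
  omega

lemma fd_xor {p1 p2 p3 p4 q1 q2 q3 q4 : Prop}
    (h : ((¬ (p1 ↔ q1) ↔ ¬ (p2 ↔ q2)) ↔ (¬ (p3 ↔ q3) ↔ ¬ (p4 ↔ q4)))) :
    (¬ ((p1 ↔ p2) ↔ (p3 ↔ p4))) ↔ (¬ ((q1 ↔ q2) ↔ (q3 ↔ q4))) := by
  by_cases p1 <;> by_cases p2 <;> by_cases p3 <;> by_cases p4 <;> by_cases q1 <;> by_cases q2 <;>
    by_cases q3 <;> by_cases q4 <;> simp_all

lemma fd_cfg (P : FDPos F b1 a1 a2 b2) :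
    FCfg F {b1, a1, a2, b2} (fdI F b1 a1 a2 b2) (fdK F b1 a1 a2 b2) := by
  obtain ⟨n1, n2, n3, n4, n5, n6⟩ := fd_ne P
  obtain ⟨t1, t2, t3, t4⟩ := fd_ends P
  have k1 := P.d1
  have k2 := P.d2
  have k3 := P.d3
  have k4 := P.f1
  have k5 := P.f2
  have k6 := P.f3
  refine ⟨?_, ?_, ?_, ?_, ?_, ?_, ?_, ?_, ?_, ?_, ?_, ?_, ?_, ?_, ?_⟩
  · rintro x (rfl | rfl | rfl | rfl)
    · exact P.hb1
    · exact P.ha1
    · exact P.ha2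
    · exact P.hb2
  · exact (fd_memI P).2 (Or.inl t1)
  · exact (fd_memI P).2 (Or.inr (Or.inr (by omega)))
  · exact (fd_memK P).2 (Or.inl t3)
  · exact (fd_memK P).2 (Or.inr (Or.inr (by omega)))
  · exact ⟨a1, by simp, Or.inl ⟨le_rfl, k1⟩⟩
  · intro v hv hvJ
    obtain ⟨m1, m2, m3, m4⟩ := fd_neD P hv hvJ
    show ((F.pd a1 ≤ F.pd v - 1 ∧ F.pd v - 1 < F.pd b1) ∨
      (F.pd b2 ≤ F.pd v - 1 ∧ F.pd v - 1 < F.pd a2)) ↔ ((F.pd a1 ≤ F.pd v ∧ F.pd v < F.pd b1) ∨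
      (F.pd b2 ≤ F.pd v ∧ F.pd v < F.pd a2))
    omega
  · intro v hv hvJ
    obtain ⟨m1, m2, m3, m4⟩ := fd_neF P hv hvJ
    show ((F.pf b1 ≤ F.pf v - 1 ∧ F.pf v - 1 < F.pf a2) ∨
      (F.pf a1 ≤ F.pf v - 1 ∧ F.pf v - 1 < F.pf b2)) ↔ ((F.pf b1 ≤ F.pf v ∧ F.pf v < F.pf a2) ∨
      (F.pf a1 ≤ F.pf v ∧ F.pf v < F.pf b2))
    omega
  · intro v hv
    show ((F.pd a1 ≤ F.pd v - 1 ∧ F.pd v - 1 < F.pd b1) ∨
      (F.pd b2 ≤ F.pd v - 1 ∧ F.pd v - 1 < F.pd a2)) ↔ ¬ ((F.pd a1 ≤ F.pd v ∧ F.pd v < F.pd b1) ∨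
      (F.pd b2 ≤ F.pd v ∧ F.pd v < F.pd a2))
    rcases hv with e | e | e | e <;> rw [e] <;> omega
  · intro v hv
    show ((F.pf b1 ≤ F.pf v - 1 ∧ F.pf v - 1 < F.pf a2) ∨
      (F.pf a1 ≤ F.pf v - 1 ∧ F.pf v - 1 < F.pf b2)) ↔ ¬ ((F.pf b1 ≤ F.pf v ∧ F.pf v < F.pf a2) ∨
      (F.pf a1 ≤ F.pf v ∧ F.pf v < F.pf b2))
    rcases hv with e | e | e | e <;> rw [e] <;> omega
  · intro v hv
    have key : (F.pd v - 1 ∈ fdI F b1 a1 a2 b2 ↔ F.pf v ∈ fdK F b1 a1 a2 b2) ↔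
      (((F.pd a1 ≤ F.pd v - 1 ∧ F.pd v - 1 < F.pd b1) ∨
      (F.pd b2 ≤ F.pd v - 1 ∧ F.pd v - 1 < F.pd a2)) ↔ ((F.pf b1 ≤ F.pf v ∧ F.pf v < F.pf a2) ∨
      (F.pf a1 ≤ F.pf v ∧ F.pf v < F.pf b2))) := Iff.rfl
    rw [key]
    rcases hv with e | e | e | e <;> rw [e]
    · exact iff_of_true P.s1 (by omega)
    · exact iff_of_false P.s3 (by omega)
    · exact iff_of_false P.s4 (by omega)
    · exact iff_of_true P.s2 (by omega)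
  · intro y hy hh
    obtain ⟨m1, m2, m3, m4⟩ := fd_neD P hy.1 hh.1
    obtain ⟨m1', m2', m3', m4'⟩ := fd_neF P hy.2 hh.1
    obtain ⟨x1, x2, x3, x4⟩ := fd_adj4 P hy hh.1
    rw [hub_quad n1 n2 n3 n4 n5 n6] at hh
    have h5 := hh.2.2.2.2
    rw [x1, x2, x3, x4] at h5
    have e1 := fd_parD k1 k2 k3 m2 m1 m4 m3
    have e2 := fd_parF k4 k5 k6 m1' m3' m2' m4'
    have e3 := fd_xor h5
    show ((F.pd a1 ≤ F.pd y ∧ F.pd y < F.pd b1) ∨ (F.pd b2 ≤ F.pd y ∧ F.pd y < F.pd a2)) ↔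
      ((F.pf b1 ≤ F.pf y ∧ F.pf y < F.pf a2) ∨ (F.pf a1 ≤ F.pf y ∧ F.pf y < F.pf b2))
    exact e1.trans (e3.trans e2.symm)
  · intro z hz1 hz2 hh
    rw [hubO_quad n1 n2 n3 n4 n5 n6, F.fcore_obD, F.fcore_obD, F.fcore_obD, F.fcore_obD] at hh
    have hzJ : z ∉ ({b1, a1, a2, b2} : Set V) := by
      rintro (rfl | rfl | rfl | rfl)
      · exact hz2 P.hb1.2
      · exact hz2 P.ha1.2
      · exact hz2 P.ha2.2
      · exact hz2 P.hb2.2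
    obtain ⟨m1, m2, m3, m4⟩ := fd_neD P hz1 hzJ
    simp only [hz1, hz2, not_false_eq_true, true_and] at hh
    refine (fd_memI P).2 ?_
    omega
  · intro z hz1 hz2 hh
    rw [hubO_quad n1 n2 n3 n4 n5 n6, F.fcore_obF, F.fcore_obF, F.fcore_obF, F.fcore_obF] at hh
    have hzJ : z ∉ ({b1, a1, a2, b2} : Set V) := by
      rintro (rfl | rfl | rfl | rfl)
      · exact hz2 P.hb1.1
      · exact hz2 P.ha1.1
      · exact hz2 P.ha2.1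
      · exact hz2 P.hb2.1
    obtain ⟨m1, m2, m3, m4⟩ := fd_neF P hz1 hzJ
    simp only [hz1, hz2, not_false_eq_true, true_and] at hh
    refine (fd_memK P).2 ?_
    omega
  · rintro k hk hkJ (⟨h1, h2⟩ | ⟨h1, h2⟩) (⟨h3, h4⟩ | ⟨h3, h4⟩)
    · obtain ⟨m1, m2, m3, m4⟩ := fd_neD P hk.1 hkJ
      obtain ⟨m1', m2', m3', m4'⟩ := fd_neF P hk.2 hkJ
      refine ⟨b1, fd_tw_b1 P hk hkJ (by omega) (by omega) (by omega) (by omega), ?_, ?_⟩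
      · intro y hy hyJ hyI
        obtain ⟨l1, l2, l3, l4⟩ := fd_neD P hy hyJ
        rw [fd_memI P] at hyI
        omega
      · intro y hy hyJ hyI
        obtain ⟨l1, l2, l3, l4⟩ := fd_neF P hy hyJ
        rw [fd_memK P] at hyI
        omega
    · obtain ⟨m1, m2, m3, m4⟩ := fd_neD P hk.1 hkJ
      obtain ⟨m1', m2', m3', m4'⟩ := fd_neF P hk.2 hkJ
      refine ⟨a1, fd_tw_a1 P hk hkJ (by omega) (by omega) (by omega) (by omega), ?_, ?_⟩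
      · intro y hy hyJ hyI
        obtain ⟨l1, l2, l3, l4⟩ := fd_neD P hy hyJ
        rw [fd_memI P] at hyI
        omega
      · intro y hy hyJ hyI
        obtain ⟨l1, l2, l3, l4⟩ := fd_neF P hy hyJ
        rw [fd_memK P] at hyI
        omega
    · obtain ⟨m1, m2, m3, m4⟩ := fd_neD P hk.1 hkJ
      obtain ⟨m1', m2', m3', m4'⟩ := fd_neF P hk.2 hkJ
      refine ⟨a2, fd_tw_a2 P hk hkJ (by omega) (by omega) (by omega) (by omega), ?_, ?_⟩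
      · intro y hy hyJ hyI
        obtain ⟨l1, l2, l3, l4⟩ := fd_neD P hy hyJ
        rw [fd_memI P] at hyI
        omega
      · intro y hy hyJ hyI
        obtain ⟨l1, l2, l3, l4⟩ := fd_neF P hy hyJ
        rw [fd_memK P] at hyI
        omega
    · obtain ⟨m1, m2, m3, m4⟩ := fd_neD P hk.1 hkJ
      obtain ⟨m1', m2', m3', m4'⟩ := fd_neF P hk.2 hkJ
      refine ⟨b2, fd_tw_b2 P hk hkJ (by omega) (by omega) (by omega) (by omega), ?_, ?_⟩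
      · intro y hy hyJ hyI
        obtain ⟨l1, l2, l3, l4⟩ := fd_neD P hy hyJ
        rw [fd_memI P] at hyI
        omega
      · intro y hy hyJ hyI
        obtain ⟨l1, l2, l3, l4⟩ := fd_neF P hy hyJ
        rw [fd_memK P] at hyI
        omega

variable {κ : Sym2 V → Prop} {w : V}

/-- propagation along the first trail -/
lemma fd_pD (P : FDPos F b1 a1 a2 b2)
    (h : ∀ v, v ≠ w ∨ OnQ (F.QI (fdI F b1 a1 a2 b2) (fdK F b1 a1 a2 b2)) v →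
      AgreeOn (H.edgeSet \ F.QI (fdI F b1 a1 a2 b2) (fdK F b1 a1 a2 b2)) κ v) {i j : ℕ}
    (hij : i ≤ j) (hj : j < F.l)
    (hr : j < F.pd a1 ∨ (F.pd b1 ≤ i ∧ j < F.pd b2) ∨ F.pd a2 ≤ i)
    (hw : OnQ (F.QI (fdI F b1 a1 a2 b2) (fdK F b1 a1 a2 b2)) w ∨
      ¬ (F.IntD w ∧ i < F.pd w ∧ F.pd w ≤ j)) : κ (F.gd i) ↔ κ (F.gd j) := by
  refine F.prop_d h hij hj (fun t h1 h2 => (fd_memI P).2 (by omega)) ?_
  intro t h1 h2 h3
  rcases hw with hw | hw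
  · exact hw
  · exfalso
    apply hw
    have h4 := F.hpd t (by omega) (by omega)
    rw [h3] at h4
    exact ⟨⟨by omega, by omega, by rw [h4, h3]⟩, by omega, by omega⟩

/-- propagation along the second trail -/
lemma fd_pF (P : FDPos F b1 a1 a2 b2)
    (h : ∀ v, v ≠ w ∨ OnQ (F.QI (fdI F b1 a1 a2 b2) (fdK F b1 a1 a2 b2)) v →
      AgreeOn (H.edgeSet \ F.QI (fdI F b1 a1 a2 b2) (fdK F b1 a1 a2 b2)) κ v) {i j : ℕ}
    (hij : i ≤ j) (hj : j < F.m)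
    (hr : j < F.pf b1 ∨ (F.pf a2 ≤ i ∧ j < F.pf a1) ∨ F.pf b2 ≤ i)
    (hw : OnQ (F.QI (fdI F b1 a1 a2 b2) (fdK F b1 a1 a2 b2)) w ∨
      ¬ (F.IntF w ∧ i < F.pf w ∧ F.pf w ≤ j)) : κ (F.gf i) ↔ κ (F.gf j) := by
  refine F.prop_f h hij hj (fun t h1 h2 => (fd_memK P).2 (by omega)) ?_
  intro t h1 h2 h3
  rcases hw with hw | hw
  · exact hw
  · exfalso
    apply hw
    have h4 := F.hpf t (by omega) (by omega)
    rw [h3] at h4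
    exact ⟨⟨by omega, by omega, by rw [h4, h3]⟩, by omega, by omega⟩

/-- the four vertices are on `Q` -/
lemma fd_onQ (P : FDPos F b1 a1 a2 b2) {v : V} (hv : v ∈ ({b1, a1, a2, b2} : Set V)) :
    OnQ (F.QI (fdI F b1 a1 a2 b2) (fdK F b1 a1 a2 b2)) v := by
  have hvP := (fd_cfg P).JP hv
  have hj := (fd_cfg P).jD v hv
  have hl := hvP.1.2.1
  by_cases hc : F.pd v ∈ fdI F b1 a1 a2 b2
  · refine ⟨F.d (F.pd v + 1), ?_⟩
    rw [← (fcore_gd_at hvP.1).1]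
    exact (F.gd_mem_QI hl).2 hc
  · refine ⟨F.d (F.pd v - 1), ?_⟩
    rw [← (fcore_gd_at hvP.1).2]
    exact (F.gd_mem_QI (by omega)).2 (hj.2 hc)

/-- the values at the four junctions -/
lemma fd_junc (P : FDPos F b1 a1 a2 b2)
    (h : ∀ v, v ≠ w ∨ OnQ (F.QI (fdI F b1 a1 a2 b2) (fdK F b1 a1 a2 b2)) v →
      AgreeOn (H.edgeSet \ F.QI (fdI F b1 a1 a2 b2) (fdK F b1 a1 a2 b2)) κ v) :
    (κ (F.gd (F.pd a1 - 1)) ↔ κ (F.gf (F.pf a1 - 1))) ∧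
    (κ (F.gd (F.pd a2)) ↔ κ (F.gf (F.pf a2))) ∧
    (κ (F.gd (F.pd b1)) ↔ κ (F.gf (F.pf b1 - 1))) ∧
    (κ (F.gd (F.pd b2 - 1)) ↔ κ (F.gf (F.pf b2))) := by
  obtain ⟨t1, t2, t3, t4⟩ := fd_ends P
  have k1 := P.d1
  have k2 := P.d2
  have k3 := P.d3
  have k4 := P.f1
  have k5 := P.f2
  have k6 := P.f3
  refine ⟨?_, ?_, ?_, ?_⟩
  · exact fcore_df P.ha1 (h _ (Or.inr (fd_onQ P (by simp)))) (Or.inr rfl) (Or.inr rfl)
      ((fd_memI P).2 (by omega)) ((fd_memK P).2 (by omega))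
  · exact fcore_df P.ha2 (h _ (Or.inr (fd_onQ P (by simp)))) (Or.inl rfl) (Or.inl rfl)
      ((fd_memI P).2 (by omega)) ((fd_memK P).2 (by omega))
  · exact fcore_df P.hb1 (h _ (Or.inr (fd_onQ P (by simp)))) (Or.inl rfl) (Or.inr rfl)
      ((fd_memI P).2 (by omega)) ((fd_memK P).2 (by omega))
  · exact fcore_df P.hb2 (h _ (Or.inr (fd_onQ P (by simp)))) (Or.inr rfl) (Or.inl rfl)
      ((fd_memI P).2 (by omega)) ((fd_memK P).2 (by omega))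

/-- if `w` does not matter, the two new trails are constant -/
lemma fd_free (P : FDPos F b1 a1 a2 b2)
    (h : ∀ v, v ≠ w ∨ OnQ (F.QI (fdI F b1 a1 a2 b2) (fdK F b1 a1 a2 b2)) v →
      AgreeOn (H.edgeSet \ F.QI (fdI F b1 a1 a2 b2) (fdK F b1 a1 a2 b2)) κ v)
    (hfree : OnQ (F.QI (fdI F b1 a1 a2 b2) (fdK F b1 a1 a2 b2)) w ∨
      (¬ F.IntD w ∧ ¬ F.IntF w)) :
    (∀ i < F.l, (i < F.pd a1 ∨ F.pd a2 ≤ i) → (κ (F.gd i) ↔ κ F.ed0)) ∧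
    (∀ i < F.l, (F.pd b1 ≤ i ∧ i < F.pd b2) → (κ (F.gd i) ↔ κ F.ef0)) ∧
    (∀ i < F.m, (i < F.pf b1 ∨ F.pf b2 ≤ i) → (κ (F.gf i) ↔ κ F.ef0)) ∧
    (∀ i < F.m, (F.pf a2 ≤ i ∧ i < F.pf a1) → (κ (F.gf i) ↔ κ F.ed0)) := by
  obtain ⟨t1, t2, t3, t4⟩ := fd_ends P
  obtain ⟨g1, g2, g3, g4⟩ := F.fcore_end_gd
  obtain ⟨j1, j2, j3, j4⟩ := fd_junc P h
  have k1 := P.d1
  have k2 := P.d2
  have k3 := P.d3
  have k4 := P.f1
  have k5 := P.f2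
  have k6 := P.f3
  have hwD : ∀ i j, OnQ (F.QI (fdI F b1 a1 a2 b2) (fdK F b1 a1 a2 b2)) w ∨
      ¬ (F.IntD w ∧ i < F.pd w ∧ F.pd w ≤ j) := by
    intro i j
    rcases hfree with h | h
    · exact Or.inl h
    · exact Or.inr fun h' => h.1 h'.1
  have hwF : ∀ i j, OnQ (F.QI (fdI F b1 a1 a2 b2) (fdK F b1 a1 a2 b2)) w ∨
      ¬ (F.IntF w ∧ i < F.pf w ∧ F.pf w ≤ j) := by
    intro i j
    rcases hfree with h | h
    · exact Or.inl h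
    · exact Or.inr fun h' => h.2 h'.1
  have D1 : ∀ i, i < F.pd a1 → (κ (F.gd i) ↔ κ F.ed0) := fun i hi => by
    rw [g1]
    exact (fd_pD P h (i := 0) (j := i) (by omega) (by omega) (by omega) (hwD _ _)).symm
  have F2 : ∀ i, F.pf a2 ≤ i → i < F.pf a1 → (κ (F.gf i) ↔ κ F.ed0) := fun i hi hi' =>
    (fd_pF P h (i := i) (j := F.pf a1 - 1) (by omega) (by omega) (by omega)
      (hwF _ _)).trans (j1.symm.trans (D1 _ (by omega)))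
  have D3 : ∀ i, F.pd a2 ≤ i → i < F.l → (κ (F.gd i) ↔ κ F.ed0) := fun i hi hil =>
    (fd_pD P h (i := F.pd a2) (j := i) (by omega) (by omega) (by omega) (hwD _ _)).symm.trans
      (j2.trans (F2 _ le_rfl k5))
  have F1 : ∀ i, i < F.pf b1 → (κ (F.gf i) ↔ κ F.ef0) := fun i hi => by
    rw [g3]
    exact (fd_pF P h (i := 0) (j := i) (by omega) (by omega) (by omega) (hwF _ _)).symm
  have D2 : ∀ i, F.pd b1 ≤ i → i < F.pd b2 → (κ (F.gd i) ↔ κ F.ef0) := fun i hi hi' =>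
    (fd_pD P h (i := F.pd b1) (j := i) (by omega) (by omega) (by omega)
      (hwD _ _)).symm.trans (j3.trans (F1 _ (by omega)))
  have F3 : ∀ i, F.pf b2 ≤ i → i < F.m → (κ (F.gf i) ↔ κ F.ef0) := fun i hi hil =>
    (fd_pF P h (i := F.pf b2) (j := i) (by omega) (by omega) (by omega) (hwF _ _)).symm.trans
      (j4.symm.trans (D2 _ (by omega) (by omega)))
  refine ⟨?_, ?_, ?_, ?_⟩
  · rintro i hi (hc | hc)
    · exact D1 i hc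
    · exact D3 i hc hi
  · rintro i hi ⟨hc1, hc2⟩
    exact D2 i hc1 hc2
  · rintro i hi (hc | hc)
    · exact F1 i hc
    · exact F3 i hc hi
  · rintro i hi ⟨hc1, hc2⟩
    exact F2 i hc1 hc2

lemma fd_ctxL (hL : F.CtxL) (hw1 : ¬ F.IntD w)
    (hw2 : ¬ F.IntF w) (h : ∀ v, v ≠ w → AgreeOn F.Out κ v)
    (e1 : κ F.ed0 ↔ κ F.edl) (e2 : κ F.ef0 ↔ κ F.efm) (e3 : κ F.ed0 ↔ κ F.ef0) :
    ConstOn F.Out κ :=
  hL w hw1 hw2 κ h e1 e2 e3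

lemma fd_ctxP (hk : F.CtxK Kd.P) (hw1 : ¬ F.IntD w)
    (hw2 : ¬ F.IntF w) (h : ∀ v, v ≠ w → AgreeOn F.Out κ v)
    (e1 : κ F.ed0 ↔ κ F.edl) (e2 : κ F.ef0 ↔ κ F.efm) : ConstOn F.Out κ :=
  hk w hw1 hw2 κ h e1 e2

/-- a hub vertex which is not a twin lies on both new trails -/
lemma fd_link (P : FDPos F b1 a1 a2 b2) {y : V} (hy : y ∈ F.P)
    (hh : Hub F.G {b1, a1, a2, b2} y) (ht : ∀ j, ¬ Tw F.G F.sg {b1, a1, a2, b2} j y) :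
    F.pd y ∉ fdI F b1 a1 a2 b2 ∧ F.pf y ∉ fdK F b1 a1 a2 b2 ∧
    (((F.pd y < F.pd a1 ∨ F.pd a2 ≤ F.pd y) ∧ (F.pf y < F.pf b1 ∨ F.pf b2 ≤ F.pf y)) ∨
    ((F.pd b1 ≤ F.pd y ∧ F.pd y < F.pd b2) ∧ (F.pf a2 ≤ F.pf y ∧ F.pf y < F.pf a1))) := by
  have c := fd_cfg P
  have hyJ := hh.1
  have h1 := c.hub y hy hh
  have h2 : F.pd y ∉ fdI F b1 a1 a2 b2 := by
    intro hI
    obtain ⟨j, hj, -⟩ := c.int y hy hyJ hI (h1.1 hI)
    exact ht j hj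
  have h3 : F.pf y ∉ fdK F b1 a1 a2 b2 := fun hK => h2 (h1.2 hK)
  refine ⟨h2, h3, ?_⟩
  obtain ⟨m1, m2, m3, m4⟩ := fd_neD P hy.1 hyJ
  obtain ⟨m1', m2', m3', m4'⟩ := fd_neF P hy.2 hyJ
  have k1 := P.d1
  have k2 := P.d2
  have k3 := P.d3
  have k4 := P.f1
  have k5 := P.f2
  have k6 := P.f3
  have q1 : ¬ ((F.pd y < F.pd a1) ∧ (F.pf a2 ≤ F.pf y ∧ F.pf y < F.pf a1)) := fun hc =>
    ht _ (fd_tw_a1 P hy hyJ (by omega) (by omega) (by omega) (by omega))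
  have q2 : ¬ ((F.pd a2 ≤ F.pd y) ∧ (F.pf a2 ≤ F.pf y ∧ F.pf y < F.pf a1)) := fun hc =>
    ht _ (fd_tw_a2 P hy hyJ (by omega) (by omega) (by omega) (by omega))
  have q3 : ¬ ((F.pd b1 ≤ F.pd y ∧ F.pd y < F.pd b2) ∧ F.pf y < F.pf b1) := fun hc =>
    ht _ (fd_tw_b1 P hy hyJ (by omega) (by omega) (by omega) (by omega))
  have q4 : ¬ ((F.pd b1 ≤ F.pd y ∧ F.pd y < F.pd b2) ∧ F.pf b2 ≤ F.pf y) := fun hc =>
    ht _ (fd_tw_b2 P hy hyJ (by omega) (by omega) (by omega) (by omega))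
  rw [fd_memI P] at h2
  rw [fd_memK P] at h3
  omega

lemma fd_mk (P : FDPos F b1 a1 a2 b2)
    (h : ∀ v, v ≠ w ∨ OnQ (F.QI (fdI F b1 a1 a2 b2) (fdK F b1 a1 a2 b2)) v →
      AgreeOn (H.edgeSet \ F.QI (fdI F b1 a1 a2 b2) (fdK F b1 a1 a2 b2)) κ v) {γ : Prop}
    (hO : ∀ e ∈ F.Out, (κ e ↔ γ)) :
    FDTab (F.pd a1) (F.pd b1) (F.pd b2) (F.pd a2) F.l (F.pf b1) (F.pf a2) (F.pf a1) (F.pf b2)
      F.m (F.pd w) (F.pf w) (F.IntD w) (F.IntF w) (fun i => (κ (F.gd i) ↔ γ))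
      (fun i => (κ (F.gf i) ↔ γ)) (κ (F.gd (F.pd a1 - 1)) ↔ γ) (κ (F.gd (F.pd a2)) ↔ γ)
      (κ (F.gd (F.pd b1)) ↔ γ) (κ (F.gd (F.pd b2 - 1)) ↔ γ) := by
  obtain ⟨t1, t2, t3, t4⟩ := fd_ends P
  obtain ⟨g1, g2, g3, g4⟩ := F.fcore_end_gd
  obtain ⟨o1, o2, o3, o4⟩ := F.fcore_ends
  have p1 := hO _ o1
  have p2 := hO _ o2
  have p3 := hO _ o3
  have p4 := hO _ o4
  rw [g1] at p1
  rw [g2] at p2
  rw [g3] at p3
  rw [g4] at p4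
  obtain ⟨j1, j2, j3, j4⟩ := fd_junc P h
  have k1 := P.d1
  have k2 := P.d2
  have k3 := P.d3
  have k4 := P.f1
  have k5 := P.f2
  have k6 := P.f3
  refine ⟨?_, ?_, ?_, ?_, ?_, ?_, ?_, ?_, ?_, ?_, ?_, ?_, t1, k1, k2, k3, t2, t3, k4, k5, k6, t4⟩
  · intro i hi hn
    exact (fd_pD P h (i := 0) (j := i) (by omega) (by omega) (by omega)
      (Or.inr fun h' => hn ⟨h'.1, h'.2.2⟩)).symm.trans p1
  · intro i hi hn
    exact iff_congr (fd_pD P h (i := i) (j := F.pd a1 - 1) (by omega) (by omega) (by omega)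
      (Or.inr fun h' => hn ⟨h'.1, by omega, by omega⟩)) Iff.rfl
  · intro i hi hi' hn
    exact iff_congr (fd_pD P h (i := F.pd b1) (j := i) (by omega) (by omega) (by omega)
      (Or.inr fun h' => hn ⟨h'.1, by omega, by omega⟩)).symm Iff.rfl
  · intro i hi hi' hn
    exact iff_congr (fd_pD P h (i := i) (j := F.pd b2 - 1) (by omega) (by omega) (by omega)
      (Or.inr fun h' => hn ⟨h'.1, by omega, by omega⟩)) Iff.rfl
  · intro i hi hi' hn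
    exact iff_congr (fd_pD P h (i := F.pd a2) (j := i) (by omega) (by omega) (by omega)
      (Or.inr fun h' => hn ⟨h'.1, by omega, by omega⟩)).symm Iff.rfl
  · intro i hi hi' hn
    exact (fd_pD P h (i := i) (j := F.l - 1) (by omega) (by omega) (by omega)
      (Or.inr fun h' => hn ⟨h'.1, by omega⟩)).trans p2
  · intro i hi hn
    exact (fd_pF P h (i := 0) (j := i) (by omega) (by omega) (by omega)
      (Or.inr fun h' => hn ⟨h'.1, h'.2.2⟩)).symm.trans p3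
  · intro i hi hn
    exact iff_congr ((fd_pF P h (i := i) (j := F.pf b1 - 1) (by omega) (by omega) (by omega)
      (Or.inr fun h' => hn ⟨h'.1, by omega, by omega⟩)).trans j3.symm) Iff.rfl
  · intro i hi hi' hn
    exact iff_congr ((fd_pF P h (i := F.pf a2) (j := i) (by omega) (by omega) (by omega)
      (Or.inr fun h' => hn ⟨h'.1, by omega, by omega⟩)).symm.trans j2.symm) Iff.rfl
  · intro i hi hi' hn
    exact iff_congr ((fd_pF P h (i := i) (j := F.pf a1 - 1) (by omega) (by omega) (by omega)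
      (Or.inr fun h' => hn ⟨h'.1, by omega, by omega⟩)).trans j1.symm) Iff.rfl
  · intro i hi hi' hn
    exact iff_congr ((fd_pF P h (i := F.pf b2) (j := i) (by omega) (by omega) (by omega)
      (Or.inr fun h' => hn ⟨h'.1, by omega, by omega⟩)).symm.trans j4.symm) Iff.rfl
  · intro i hi hi' hn
    exact (fd_pF P h (i := i) (j := F.m - 1) (by omega) (by omega) (by omega)
      (Or.inr fun h' => hn ⟨h'.1, by omega⟩)).trans p4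

/-- interior `w`: all values are the right ones -/
lemma fd_int (P : FDPos F b1 a1 a2 b2) (hmark : F.Marked)
    (hg : ∀ K0, ¬ Det F.G F.sg F.P F.ob {b1, a1, a2, b2} K0)
    (h : ∀ v, v ≠ w ∨ OnQ (F.QI (fdI F b1 a1 a2 b2) (fdK F b1 a1 a2 b2)) v →
      AgreeOn (H.edgeSet \ F.QI (fdI F b1 a1 a2 b2) (fdK F b1 a1 a2 b2)) κ v)
    (hwQ : ¬ OnQ (F.QI (fdI F b1 a1 a2 b2) (fdK F b1 a1 a2 b2)) w) {γ : Prop}
    (hO : ∀ e ∈ F.Out, (κ e ↔ γ)) :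
    (∀ i < F.l, i ∉ fdI F b1 a1 a2 b2 → (κ (F.gd i) ↔ γ)) ∧
    (∀ i < F.m, i ∉ fdK F b1 a1 a2 b2 → (κ (F.gf i) ↔ γ)) := by
  have T := fd_mk P h hO
  have c := fd_cfg P
  have hno := fcore_noint c hg
  have hwJ : w ∉ ({b1, a1, a2, b2} : Set V) := fun hh => hwQ (fd_onQ P hh)
  have ha : ∀ v, v ≠ w → AgreeOn (H.edgeSet \ F.QI (fdI F b1 a1 a2 b2) (fdK F b1 a1 a2 b2)) κ v :=
    fun v hv => h v (Or.inl hv)
  have k1 := P.d1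
  have k2 := P.d2
  have k3 := P.d3
  have k4 := P.f1
  have k5 := P.f2
  have k6 := P.f3
  have v1 : κ (F.gd (F.pd a1 - 1)) ↔ γ := by
    by_contra hx
    obtain ⟨⟨h1, h2⟩, ⟨h3, h4, h5⟩, -⟩ := fd_tab_a1 T hx
    obtain ⟨u1, u2⟩ := fd_tab_la1 T hx
    have hwP : w ∈ F.P := ⟨h1, h3⟩
    refine hg {w} (fcore_lobe c hno hmark hwP (j := a1) (fd_tw_a1 P hwP hwJ (by omega)
      (by omega) (by omega) (by omega)) ha hO (fun i hi hI => u1 i hi ((fd_memI P).1 hI))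
      (fun i hi hK => u2 i hi ((fd_memK P).1 hK)) (fun i hi => (fd_memI P).2 (by omega))
      (fun i hi => (fd_memK P).2 (by omega)))
  have v2 : κ (F.gd (F.pd a2)) ↔ γ := by
    by_contra hx
    obtain ⟨⟨h1, h2⟩, ⟨h3, h4, h5⟩, -⟩ := fd_tab_a2 T hx
    obtain ⟨u1, u2⟩ := fd_tab_la2 T hx
    have hwP : w ∈ F.P := ⟨h1, h3⟩
    refine hg {w} (fcore_lobe c hno hmark hwP (j := a2) (fd_tw_a2 P hwP hwJ (by omega)
      (by omega) (by omega) (by omega)) ha hO (fun i hi hI => u1 i hi ((fd_memI P).1 hI))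
      (fun i hi hK => u2 i hi ((fd_memK P).1 hK)) (fun i hi => (fd_memI P).2 (by omega))
      (fun i hi => (fd_memK P).2 (by omega)))
  have v3 : κ (F.gd (F.pd b1)) ↔ γ := by
    by_contra hx
    obtain ⟨⟨h1, h2, h2'⟩, ⟨h3, h4⟩, -⟩ := fd_tab_b1 T hx
    obtain ⟨u1, u2⟩ := fd_tab_lb1 T hx
    have hwP : w ∈ F.P := ⟨h1, h3⟩
    refine hg {w} (fcore_lobe c hno hmark hwP (j := b1) (fd_tw_b1 P hwP hwJ (by omega)
      (by omega) (by omega) (by omega)) ha hO (fun i hi hI => u1 i hi ((fd_memI P).1 hI))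
      (fun i hi hK => u2 i hi ((fd_memK P).1 hK)) (fun i hi => (fd_memI P).2 (by omega))
      (fun i hi => (fd_memK P).2 (by omega)))
  have v4 : κ (F.gd (F.pd b2 - 1)) ↔ γ := by
    by_contra hx
    obtain ⟨⟨h1, h2, h2'⟩, ⟨h3, h4⟩, -⟩ := fd_tab_b2 T hx
    obtain ⟨u1, u2⟩ := fd_tab_lb2 T hx
    have hwP : w ∈ F.P := ⟨h1, h3⟩
    refine hg {w} (fcore_lobe c hno hmark hwP (j := b2) (fd_tw_b2 P hwP hwJ (by omega)
      (by omega) (by omega) (by omega)) ha hO (fun i hi hI => u1 i hi ((fd_memI P).1 hI))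
      (fun i hi hK => u2 i hi ((fd_memK P).1 hK)) (fun i hi => (fd_memI P).2 (by omega))
      (fun i hi => (fd_memK P).2 (by omega)))
  obtain ⟨r1, r2⟩ := fd_tab_all T v1 v2 v3 v4
  exact ⟨fun i hi hI => r1 i hi ((fd_memI P).1 hI), fun i hi hK => r2 i hi ((fd_memK P).1 hK)⟩

lemma fd_main [Finite V] (P : FDPos F b1 a1 a2 b2) (hfull : F.Full) (hmark : F.Marked)
    (h1 : F.Ctx1) (hL : F.CtxL)
    (hg : ∀ K0, ¬ Det F.G F.sg F.P F.ob {b1, a1, a2, b2} K0)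
    (hk : Linked F.G F.sg F.P {b1, a1, a2, b2} ∨ F.CtxK Kd.P) : HasGood H red := by
  have c := fd_cfg P
  refine ⟨F.QI (fdI F b1 a1 a2 b2) (fdK F b1 a1 a2 b2), fcore_alt c hfull hg, ?_⟩
  intro w κ h
  obtain ⟨o1, o2, o3, o4⟩ := F.fcore_ends
  obtain ⟨g1, g2, g3, g4⟩ := F.fcore_end_gd
  obtain ⟨t1, t2, t3, t4⟩ := fd_ends P
  have hout : ∀ v, v ≠ w ∨ OnQ (F.QI (fdI F b1 a1 a2 b2) (fdK F b1 a1 a2 b2)) v →
      AgreeOn F.Out κ v := fun v hv => F.out_agree c.i0 c.il c.k0 c.km (h v hv)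
  by_cases hfree : OnQ (F.QI (fdI F b1 a1 a2 b2) (fdK F b1 a1 a2 b2)) w ∨
      (¬ F.IntD w ∧ ¬ F.IntF w)
  · obtain ⟨u1, u2, u3, u4⟩ := fd_free P h hfree
    have e1 : κ F.ed0 ↔ κ F.edl := by
      rw [g2]
      exact (u1 (F.l - 1) (by omega) (Or.inr (by omega))).symm
    have e2 : κ F.ef0 ↔ κ F.efm := by
      rw [g4]
      exact (u3 (F.m - 1) (by omega) (Or.inr (by omega))).symm
    have hO : ConstOn F.Out κ := by
      by_cases hwQ : OnQ (F.QI (fdI F b1 a1 a2 b2) (fdK F b1 a1 a2 b2)) w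
      · refine h1 a1 (Or.inl P.ha1.1) κ fun v _ => hout v ?_
        by_cases hvw : v = w
        · right; rw [hvw]; exact hwQ
        · exact Or.inl hvw
      · obtain ⟨hw1, hw2⟩ := hfree.resolve_left hwQ
        have hout' : ∀ v, v ≠ w → AgreeOn F.Out κ v := fun v hv => hout v (Or.inl hv)
        rcases hk with hk | hk
        · obtain ⟨y, hy, hyh, hyt⟩ := hk
          obtain ⟨q1, q2, q3⟩ := fd_link P hy hyh hyt
          have hyw : y ≠ w := by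
            rintro rfl
            exact hw1 hy.1
          have hdf := fcore_df hy (h y (Or.inl hyw)) (Or.inl rfl) (Or.inl rfl) q1 q2
          have l1 := hy.1.2.1
          have l2 := hy.2.2.1
          have e3 : κ F.ed0 ↔ κ F.ef0 := by
            rcases q3 with ⟨w1, w2⟩ | ⟨w1, w2⟩
            · exact (u1 _ l1 w1).symm.trans (hdf.trans (u3 _ l2 w2))
            · exact (u4 _ l2 w2).symm.trans (hdf.symm.trans (u2 _ l1 w1))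
          exact fd_ctxL hL hw1 hw2 hout' e1 e2 e3
        · exact fd_ctxP hk hw1 hw2 hout' e1 e2
    have e4 : κ F.ef0 ↔ κ F.ed0 := hO _ o3 _ o1
    refine fcore_const (γ := κ F.ed0) (fun e he => hO e he _ o1) (fun i hi hiI => ?_)
      (fun i hi hiK => ?_)
    · rcases (fd_memI P).1 hiI with hc | hc | hc
      · exact u1 i hi (Or.inl hc)
      · exact (u2 i hi hc).trans e4
      · exact u1 i hi (Or.inr hc)
    · rcases (fd_memK P).1 hiK with hc | hc | hc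
      · exact (u3 i hi (Or.inl hc)).trans e4
      · exact u4 i hi hc
      · exact (u3 i hi (Or.inr hc)).trans e4
  · rw [not_or] at hfree
    obtain ⟨hwQ, hwint⟩ := hfree
    have hwint' : F.IntD w ∨ F.IntF w := by tauto
    have hO : ConstOn F.Out κ := h1 w hwint' κ fun v hv => hout v (Or.inl hv)
    have hO' : ∀ e ∈ F.Out, (κ e ↔ κ F.ed0) := fun e he => hO e he _ o1
    obtain ⟨r1, r2⟩ := fd_int P hmark hg h hwQ hO'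
    exact fcore_const hO' r1 r2

/-- FT for kind P, pattern I: order `a1 b1 b2 a2` on the first trail, `b1 a2 a1 b2` on the second -/
theorem frame_P1 [Finite V] (h2 : TwoReg H red) (F : Frame H red) (hfull : F.Full)
    (hmark : F.Marked) (h1 : F.Ctx1) (hL : F.CtxL) {b1 a1 a2 b2 : V}
    (hb1 : b1 ∈ F.P) (ha1 : a1 ∈ F.P) (ha2 : a2 ∈ F.P) (hb2 : b2 ∈ F.P)
    (s1 : F.sg b1) (s2 : F.sg b2) (s3 : ¬ F.sg a1) (s4 : ¬ F.sg a2)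
    (d1 : F.pd a1 < F.pd b1) (d2 : F.pd b1 < F.pd b2) (d3 : F.pd b2 < F.pd a2)
    (f1 : F.pf b1 < F.pf a2) (f2 : F.pf a2 < F.pf a1) (f3 : F.pf a1 < F.pf b2)
    (hJ : Good F.G F.sg F.P F.ob Kd.P {b1, a1, a2, b2})
    (hk : Linked F.G F.sg F.P {b1, a1, a2, b2} ∨ F.CtxK Kd.P) : HasGood H red :=
  fd_main ⟨hb1, ha1, ha2, hb2, s1, s2, s3, s4, d1, d2, d3, f1, f2, f3⟩ hfull hmark h1 hL hJ.2 hk

end Pool.Agent.GD.Frame
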