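import Pool.Agent.GD.TDefs

set_option autoImplicit false

/-! Groups F, W, R, N: definitions on the graph side. -/

namespace Pool.Agent.GD

variable {V : Type}

/-- `H` is the union of a red and a blue 2-regular graph (`red` = set of red edges). -/
structure TwoReg (H : SimpleGraph V) (red : Set (Sym2 V)) : Prop where
  r2 : ∀ v, {w | H.Adj v w ∧ s(v, w) ∈ red}.ncard = 2
  b2 : ∀ v, {w | H.Adj v w ∧ s(v, w) ∉ red}.ncard = 2

/-- some `Q`-edge is at `v` -/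
def OnQ (Q : Set (Sym2 V)) (v : V) : Prop := ∃ a, s(v, a) ∈ Q

/-- all `E`-edges at `v` have the same `κ`-value -/
def AgreeOn (E : Set (Sym2 V)) (κ : Sym2 V → Prop) (v : V) : Prop :=
  ∀ a b, s(v, a) ∈ E → s(v, b) ∈ E → (κ s(v, a) ↔ κ s(v, b))

/-- all elements of `E` have the same `κ`-value -/
def ConstOn (E : Set (Sym2 V)) (κ : Sym2 V → Prop) : Prop :=
  ∀ e ∈ E, ∀ e' ∈ E, (κ e ↔ κ e')

/-- the complement of `Q` in `H` is solid -/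
def Solid (H : SimpleGraph V) (Q : Set (Sym2 V)) : Prop :=
  ∀ (w : V) (κ : Sym2 V → Prop), (∀ v, v ≠ w ∨ OnQ Q v → AgreeOn (H.edgeSet \ Q) κ v) →
    ConstOn (H.edgeSet \ Q) κ

/-- `Q` is a nonempty disjoint union of alternating circuits -/
structure AltSet (H : SimpleGraph V) (red : Set (Sym2 V)) (Q : Set (Sym2 V)) : Prop where
  sub : Q ⊆ H.edgeSet
  ne : Q.Nonempty
  deg : ∀ v, OnQ Q v → ∃ a b, a ≠ b ∧ (∀ c, s(v, c) ∈ Q ↔ c = a ∨ c = b) ∧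
    (s(v, a) ∈ red ↔ s(v, b) ∉ red)

/-- there is a good set -/
def HasGood (H : SimpleGraph V) (red : Set (Sym2 V)) : Prop :=
  ∃ Q, AltSet H red Q ∧ Solid H Q

/-- Two trails `d 0 .. d l` and `f 0 .. f m`; `pd`, `pf` are the positions of interior vertices. -/
structure Frame (H : SimpleGraph V) (red : Set (Sym2 V)) where
  l : ℕ
  m : ℕ
  d : ℕ → V
  f : ℕ → V
  pd : V → ℕ
  pf : V → ℕ
  hl : 2 ≤ l
  hm : 2 ≤ m
  adjd : ∀ i < l, H.Adj (d i) (d (i + 1))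
  adjf : ∀ i < m, H.Adj (f i) (f (i + 1))
  hpd : ∀ i, 0 < i → i < l → pd (d i) = i
  hpf : ∀ i, 0 < i → i < m → pf (f i) = i
  /-- the ends are not interior -/
  d0D : ∀ i, 0 < i → i < l → d i ≠ d 0 ∧ d i ≠ d l ∧ d i ≠ f 0 ∧ d i ≠ f m
  f0F : ∀ i, 0 < i → i < m → f i ≠ d 0 ∧ f i ≠ d l ∧ f i ≠ f 0 ∧ f i ≠ f m
  /-- all edges are distinct -/
  edd : ∀ i < l, ∀ j < l, s(d i, d (i + 1)) = s(d j, d (j + 1)) → i = j
  eff : ∀ i < m, ∀ j < m, s(f i, f (i + 1)) = s(f j, f (j + 1)) → i = j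
  edf : ∀ i < l, ∀ j < m, s(d i, d (i + 1)) ≠ s(f j, f (j + 1))
  /-- colours alternate at interior vertices -/
  altd : ∀ i, 0 < i → i < l → (s(d (i - 1), d i) ∈ red ↔ s(d i, d (i + 1)) ∉ red)
  altf : ∀ i, 0 < i → i < m → (s(f (i - 1), f i) ∈ red ↔ s(f i, f (i + 1)) ∉ red)

namespace Frame

variable {H : SimpleGraph V} {red : Set (Sym2 V)} (F : Frame H red)

/-- interior vertex of the first trail -/
def IntD (v : V) : Prop := 0 < F.pd v ∧ F.pd v < F.l ∧ F.d (F.pd v) = v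

/-- interior vertex of the second trail -/
def IntF (v : V) : Prop := 0 < F.pf v ∧ F.pf v < F.m ∧ F.f (F.pf v) = v

/-- common interior vertices -/
def P : Set V := {v | F.IntD v ∧ F.IntF v}

/-- edges of the first trail -/
def ED : Set (Sym2 V) := {e | ∃ i < F.l, e = s(F.d i, F.d (i + 1))}

/-- edges of the second trail -/
def EF : Set (Sym2 V) := {e | ∃ i < F.m, e = s(F.f i, F.f (i + 1))}

/-- the four end edges -/
def ed0 : Sym2 V := s(F.d 0, F.d 1)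
def edl : Sym2 V := s(F.d (F.l - 1), F.d F.l)
def ef0 : Sym2 V := s(F.f 0, F.f 1)
def efm : Sym2 V := s(F.f (F.m - 1), F.f F.m)

/-- edges outside the two trails, and the end edges -/
def Out : Set (Sym2 V) :=
  {e | e ∈ H.edgeSet ∧ ((e ∉ F.ED ∧ e ∉ F.EF) ∨ e = F.ed0 ∨ e = F.edl ∨ e = F.ef0 ∨ e = F.efm)}

/-- every mark has an edge outside -/
def Marked : Prop :=
  (∀ v, F.IntD v → ¬ F.IntF v → ∃ a, H.Adj v a ∧ s(v, a) ∉ F.ED ∧ s(v, a) ∉ F.EF) ∧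
  (∀ v, F.IntF v → ¬ F.IntD v → ∃ a, H.Adj v a ∧ s(v, a) ∉ F.ED ∧ s(v, a) ∉ F.EF)

/-- all edges at common vertices belong to the trails -/
def Full : Prop := ∀ v ∈ F.P, ∀ a, H.Adj v a → s(v, a) ∈ F.ED ∨ s(v, a) ∈ F.EF

/-- sign of a common vertex -/
def sg (v : V) : Prop :=
  (s(F.d (F.pd v - 1), F.d (F.pd v)) ∈ red ↔ s(F.f (F.pf v - 1), F.f (F.pf v)) ∈ red)

/-- the inversion graph -/
def G : SimpleGraph V where
  Adj u v := u ∈ F.P ∧ v ∈ F.P ∧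
    ((F.pd u < F.pd v ∧ F.pf v < F.pf u) ∨ (F.pd v < F.pd u ∧ F.pf u < F.pf v))
  symm := ⟨fun _ _ h => ⟨h.2.1, h.1, h.2.2.symm⟩⟩
  loopless := ⟨fun _ h => by
    rcases h.2.2 with h | h <;> exact absurd h.1 (lt_irrefl _)⟩

/-- the observers: marks of the two trails -/
def ob : V → V × Bool → Prop := fun v y =>
  (y.2 = true ∧ F.IntD y.1 ∧ ¬ F.IntF y.1 ∧ F.pd v < F.pd y.1) ∨
  (y.2 = false ∧ F.IntF y.1 ∧ ¬ F.IntD y.1 ∧ F.pf v < F.pf y.1)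

/-- context conditions -/
def Ctx1 : Prop := ∀ w, (F.IntD w ∨ F.IntF w) → ∀ κ : Sym2 V → Prop,
  (∀ v, v ≠ w → AgreeOn F.Out κ v) → ConstOn F.Out κ

def CtxL : Prop := ∀ w, ¬ F.IntD w → ¬ F.IntF w → ∀ κ : Sym2 V → Prop,
  (∀ v, v ≠ w → AgreeOn F.Out κ v) → (κ F.ed0 ↔ κ F.edl) → (κ F.ef0 ↔ κ F.efm) →
  (κ F.ed0 ↔ κ F.ef0) → ConstOn F.Out κ

/-- the condition for the kind `k` -/
def CtxK : Kd → Prop
  | Kd.Z => ∀ w, ¬ F.IntD w → ¬ F.IntF w → ∀ κ : Sym2 V → Prop,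
      (∀ v, v ≠ w → AgreeOn F.Out κ v) → (κ F.ed0 ↔ κ F.ef0) → (κ F.edl ↔ κ F.efm) →
      ConstOn F.Out κ
  | Kd.O => ∀ w, ¬ F.IntD w → ¬ F.IntF w → ∀ κ : Sym2 V → Prop,
      (∀ v, v ≠ w → AgreeOn F.Out κ v) → (κ F.ed0 ↔ κ F.efm) → (κ F.edl ↔ κ F.ef0) →
      ConstOn F.Out κ
  | Kd.P => ∀ w, ¬ F.IntD w → ¬ F.IntF w → ∀ κ : Sym2 V → Prop,
      (∀ v, v ≠ w → AgreeOn F.Out κ v) → (κ F.ed0 ↔ κ F.edl) → (κ F.ef0 ↔ κ F.efm) →
      ConstOn F.Out κ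

end Frame

end Pool.Agent.GD
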