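import Pool.Agent.GD.TDefs

set_option autoImplicit false

/-! Module TCong: `Good` depends only on the data on `W`; flipping and relabelling observers;
complement on `W`. -/

namespace Pool.Agent.GD

variable {V Z Z' : Type} {G G' : SimpleGraph V} {s s' : V → Prop} {W J : Set V}
  {e : V → Z → Prop} {e' : V → Z' → Prop} {k c : Kd}

lemma tc_even_compl {J : Set V} (hf : J.Finite) (he : Even J.ncard) (p : V → Prop) :
    Even {j ∈ J | p j}.ncard ↔ Even {j ∈ J | ¬ p j}.ncard := by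
  have h1 : {j ∈ J | p j} ∪ {j ∈ J | ¬ p j} = J := by
    ext x
    simp only [Set.mem_union, Set.mem_ofPred_eq]
    tauto
  have h2 : Disjoint {j ∈ J | p j} {j ∈ J | ¬ p j} := by
    rw [Set.disjoint_left]
    intro x hx hx'
    exact hx'.2 hx.2
  have h3 := Set.ncard_union_eq h2 (hf.subset (fun x hx => hx.1)) (hf.subset (fun x hx => hx.1))
  rw [h1] at h3
  rw [h3, Nat.even_add] at he
  exact he

lemma tc_isK {k : Kd} {J : Set V} (h : IsK G s W k J) : J ⊆ W ∧ J.Finite ∧ Even J.ncard := by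
  cases k with
  | Z =>
    obtain ⟨p, q, hp, hq, hpq, -, -, -, rfl⟩ := h
    refine ⟨?_, Set.toFinite _, ?_⟩
    · intro x hx
      rcases hx with rfl | rfl <;> assumption
    · rw [Set.ncard_pair hpq]; decide
  | O =>
    obtain ⟨p, q, hp, hq, hpq, -, -, -, rfl⟩ := h
    refine ⟨?_, Set.toFinite _, ?_⟩
    · intro x hx
      rcases hx with rfl | rfl <;> assumption
    · rw [Set.ncard_pair hpq]; decide
  | P =>
    obtain ⟨b1, a1, a2, b2, hb1, ha1, ha2, hb2, s1, s2, t1, t2, hb, ha, -, -, -, -, -, -, rfl⟩ := h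
    refine ⟨?_, Set.toFinite _, ?_⟩
    · intro x hx
      rcases hx with rfl | rfl | rfl | rfl <;> assumption
    · have e1 : b1 ≠ a1 := fun h => t1 (h ▸ s1)
      have e2 : b1 ≠ a2 := fun h => t2 (h ▸ s1)
      have e3 : b2 ≠ a1 := fun h => t1 (h ▸ s2)
      have e4 : b2 ≠ a2 := fun h => t2 (h ▸ s2)
      rw [Set.ncard_insert_of_notMem, Set.ncard_insert_of_notMem, Set.ncard_pair e4.symm]
      · decide
      · simp only [Set.mem_insert_iff, Set.mem_singleton_iff, not_or]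
        exact ⟨ha, e3.symm⟩
      · simp only [Set.mem_insert_iff, Set.mem_singleton_iff, not_or]
        exact ⟨e1, e2, hb⟩

lemma tc_isK_congr (hG : ∀ u ∈ W, ∀ v ∈ W, (G.Adj u v ↔ G'.Adj u v))
    (hs : ∀ v ∈ W, (s v ↔ s' v)) (h : IsK G' s' W k J) : IsK G s W k J := by
  cases k with
  | Z =>
    obtain ⟨p, q, hp, hq, hpq, h1, h2, h3, rfl⟩ := h
    exact ⟨p, q, hp, hq, hpq, (hs p hp).not.2 h1, (hs q hq).not.2 h2, (hG p hp q hq).not.2 h3, rfl⟩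
  | O =>
    obtain ⟨p, q, hp, hq, hpq, h1, h2, h3, rfl⟩ := h
    exact ⟨p, q, hp, hq, hpq, (hs p hp).2 h1, (hs q hq).2 h2, (hG p hp q hq).2 h3, rfl⟩
  | P =>
    obtain ⟨b1, a1, a2, b2, hb1, ha1, ha2, hb2, s1, s2, t1, t2, hb, ha, e1, e2, e3, n1, n2, n3,
      rfl⟩ := h
    exact ⟨b1, a1, a2, b2, hb1, ha1, ha2, hb2, (hs _ hb1).2 s1, (hs _ hb2).2 s2,
      (hs _ ha1).not.2 t1, (hs _ ha2).not.2 t2, hb, ha, (hG _ hb1 _ ha1).2 e1,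
      (hG _ ha1 _ ha2).2 e2, (hG _ ha2 _ hb2).2 e3, (hG _ hb1 _ ha2).not.2 n1,
      (hG _ hb1 _ hb2).not.2 n2, (hG _ ha1 _ hb2).not.2 n3, rfl⟩

lemma tc_isK_compl (hG : ∀ u ∈ W, ∀ v ∈ W, u ≠ v → (G.Adj u v ↔ ¬ G'.Adj u v))
    (hs : ∀ v ∈ W, (s v ↔ ¬ s' v)) (h : IsK G' s' W k J) : IsK G s W k.dual J := by
  cases k with
  | Z =>
    obtain ⟨p, q, hp, hq, hpq, h1, h2, h3, rfl⟩ := h
    exact ⟨p, q, hp, hq, hpq, (hs p hp).2 h1, (hs q hq).2 h2, (hG p hp q hq hpq).2 h3, rfl⟩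
  | O =>
    obtain ⟨p, q, hp, hq, hpq, h1, h2, h3, rfl⟩ := h
    exact ⟨p, q, hp, hq, hpq, fun h => (hs p hp).1 h h1, fun h => (hs q hq).1 h h2,
      fun h => (hG p hp q hq hpq).1 h h3, rfl⟩
  | P =>
    obtain ⟨b1, a1, a2, b2, hb1, ha1, ha2, hb2, s1, s2, t1, t2, hb, ha, e1, e2, e3, n1, n2, n3,
      rfl⟩ := h
    have f1 : b1 ≠ a1 := fun h => t1 (h ▸ s1)
    have f2 : b1 ≠ a2 := fun h => t2 (h ▸ s1)
    have f3 : b2 ≠ a1 := fun h => t1 (h ▸ s2)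
    have f4 : b2 ≠ a2 := fun h => t2 (h ▸ s2)
    refine ⟨a1, b2, b1, a2, ha1, hb2, hb1, ha2, (hs _ ha1).2 t1, (hs _ ha2).2 t2,
      fun h => (hs _ hb2).1 h s2, fun h => (hs _ hb1).1 h s1, ha, hb.symm,
      (hG _ ha1 _ hb2 f3.symm).2 n3, (hG _ hb2 _ hb1 hb.symm).2 (fun h => n2 h.symm),
      (hG _ hb1 _ ha2 f2).2 n1, fun h => (hG _ ha1 _ hb1 f1.symm).1 h e1.symm,
      fun h => (hG _ ha1 _ ha2 ha).1 h e2, fun h => (hG _ hb2 _ ha2 f4).1 h e3.symm, ?_⟩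
    ext x
    simp only [Set.mem_insert_iff, Set.mem_singleton_iff]
    tauto

lemma tc_hub_congr (hG : ∀ u ∈ W, ∀ v ∈ W, (G.Adj u v ↔ G'.Adj u v)) (hJ : J ⊆ W) {y : V}
    (hy : y ∈ W) : Hub G J y ↔ Hub G' J y := by
  unfold Hub
  have : {j ∈ J | G.Adj y j} = {j ∈ J | G'.Adj y j} := by
    ext j
    simp only [Set.mem_ofPred_eq]
    exact ⟨fun h => ⟨h.1, (hG y hy j (hJ h.1)).1 h.2⟩, fun h => ⟨h.1, (hG y hy j (hJ h.1)).2 h.2⟩⟩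
  rw [this]

lemma tc_hub_compl (hG : ∀ u ∈ W, ∀ v ∈ W, u ≠ v → (G.Adj u v ↔ ¬ G'.Adj u v)) (hJ : J ⊆ W)
    (hf : J.Finite) (he : Even J.ncard) {y : V} (hy : y ∈ W) : Hub G J y ↔ Hub G' J y := by
  unfold Hub
  constructor
  · rintro ⟨h1, h2⟩
    refine ⟨h1, ?_⟩
    rw [tc_even_compl hf he]
    have : {j ∈ J | ¬ G'.Adj y j} = {j ∈ J | G.Adj y j} := by
      ext j
      simp only [Set.mem_ofPred_eq]
      constructor
      · intro h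
        exact ⟨h.1, (hG y hy j (hJ h.1) (fun hh => h1 (hh ▸ h.1))).2 h.2⟩
      · intro h
        exact ⟨h.1, (hG y hy j (hJ h.1) (fun hh => h1 (hh ▸ h.1))).1 h.2⟩
    rw [this]
    exact h2
  · rintro ⟨h1, h2⟩
    refine ⟨h1, ?_⟩
    rw [tc_even_compl hf he] at h2
    have : {j ∈ J | ¬ G'.Adj y j} = {j ∈ J | G.Adj y j} := by
      ext j
      simp only [Set.mem_ofPred_eq]
      constructor
      · intro h
        exact ⟨h.1, (hG y hy j (hJ h.1) (fun hh => h1 (hh ▸ h.1))).2 h.2⟩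
      · intro h
        exact ⟨h.1, (hG y hy j (hJ h.1) (fun hh => h1 (hh ▸ h.1))).1 h.2⟩
    rw [this] at h2
    exact h2

lemma tc_tw_congr (hG : ∀ u ∈ W, ∀ v ∈ W, (G.Adj u v ↔ G'.Adj u v))
    (hs : ∀ v ∈ W, (s v ↔ s' v)) (hJ : J ⊆ W) {j y : V} (hy : y ∈ W) (h : Tw G s J j y) :
    Tw G' s' J j y := by
  obtain ⟨h1, h2, h3, h4⟩ := h
  refine ⟨h1, h2, ?_, ?_⟩
  · rw [← hG y hy j (hJ h1), ← hs j (hJ h1)]
    exact h3
  · intro i hi hij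
    rw [← hG y hy i (hJ hi), ← hG j (hJ h1) i (hJ hi)]
    exact h4 i hi hij

lemma tc_tw_compl (hG : ∀ u ∈ W, ∀ v ∈ W, u ≠ v → (G.Adj u v ↔ ¬ G'.Adj u v))
    (hs : ∀ v ∈ W, (s v ↔ ¬ s' v)) (hJ : J ⊆ W) {j y : V} (hy : y ∈ W) (h : Tw G s J j y) :
    Tw G' s' J j y := by
  obtain ⟨h1, h2, h3, h4⟩ := h
  have hyJ : ∀ i ∈ J, y ≠ i := fun i hi hh => h2 (hh ▸ hi)
  refine ⟨h1, h2, ?_, ?_⟩
  · have a := hG y hy j (hJ h1) (hyJ j h1)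
    have b := hs j (hJ h1)
    tauto
  · intro i hi hij
    have a := hG y hy i (hJ hi) (hyJ i hi)
    have b := hG j (hJ h1) i (hJ hi) (Ne.symm hij)
    have c := h4 i hi hij
    tauto

lemma tc_hubO (hf : J.Finite) (he : Even J.ncard) (hJ : J ⊆ W)
    (hc : ∀ y' : Z', (∀ u ∈ W, ∀ v ∈ W, (e' u y' ↔ e' v y')) ∨
      ∃ y : Z, (∀ v ∈ W, (e' v y' ↔ e v y)) ∨ (∀ v ∈ W, (e' v y' ↔ ¬ e v y)))
    {k j : V} (hk : k ∈ W) (hj : j ∈ J) (h : ∀ y, HubO e J y → (e k y ↔ e j y)) :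
    ∀ y, HubO e' J y → (e' k y ↔ e' j y) := by
  intro y' hy'
  rcases hc y' with h0 | ⟨y, h0 | h0⟩
  · exact h0 k hk j (hJ hj)
  · rw [h0 k hk, h0 j (hJ hj)]
    apply h
    unfold HubO at hy' ⊢
    have : {j ∈ J | e j y} = {j ∈ J | e' j y'} := by
      ext i
      simp only [Set.mem_ofPred_eq]
      exact ⟨fun h => ⟨h.1, (h0 i (hJ h.1)).2 h.2⟩, fun h => ⟨h.1, (h0 i (hJ h.1)).1 h.2⟩⟩
    rw [this]
    exact hy'
  · rw [h0 k hk, h0 j (hJ hj)]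
    refine not_congr (h y ?_)
    unfold HubO at hy' ⊢
    rw [tc_even_compl hf he]
    have : {j ∈ J | ¬ e j y} = {j ∈ J | e' j y'} := by
      ext i
      simp only [Set.mem_ofPred_eq]
      exact ⟨fun h => ⟨h.1, (h0 i (hJ h.1)).2 h.2⟩, fun h => ⟨h.1, (h0 i (hJ h.1)).1 h.2⟩⟩
    rw [this]
    exact hy'

/-- data agreeing on `W`; every observer of `e'` is constant on `W` or equal or opposite on `W` to an
observer of `e` -/
theorem good_congr (hG : ∀ u ∈ W, ∀ v ∈ W, (G.Adj u v ↔ G'.Adj u v))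
    (hs : ∀ v ∈ W, (s v ↔ s' v))
    (he : ∀ y' : Z', (∀ u ∈ W, ∀ v ∈ W, (e' u y' ↔ e' v y')) ∨
      ∃ y : Z, (∀ v ∈ W, (e' v y' ↔ e v y)) ∨ (∀ v ∈ W, (e' v y' ↔ ¬ e v y)))
    (h : Good G' s' W e' k J)  :
    Good G s W e k J := by
  obtain ⟨hJ, hf, hev⟩ := tc_isK h.1
  refine ⟨tc_isK_congr hG hs h.1, ?_⟩
  intro K hK
  apply h.2 K
  obtain ⟨h1, h2, h3⟩ := hK
  refine ⟨h1, h2, ?_⟩
  intro k hk
  obtain ⟨j, hj, ha, hb⟩ := h3 k hk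
  refine ⟨j, tc_tw_congr hG hs hJ (h2 hk) hj, ?_, tc_hubO hf hev hJ he (h2 hk) hj.1 hb⟩
  intro y hy hyK hyh
  rw [← hG k (h2 hk) y hy, ← hG j (hJ hj.1) y hy]
  exact ha y hy hyK ((tc_hub_congr hG hJ hy).2 hyh)

/-- the same with `G'` equal to the complement of `G` on `W` and opposite signs -/
theorem good_congr_compl (hG : ∀ u ∈ W, ∀ v ∈ W, u ≠ v → (G.Adj u v ↔ ¬ G'.Adj u v))
    (hs : ∀ v ∈ W, (s v ↔ ¬ s' v))
    (he : ∀ y' : Z', (∀ u ∈ W, ∀ v ∈ W, (e' u y' ↔ e' v y')) ∨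
      ∃ y : Z, (∀ v ∈ W, (e' v y' ↔ e v y)) ∨ (∀ v ∈ W, (e' v y' ↔ ¬ e v y)))
    (h : Good G' s' W e' k J) :
    Good G s W e k.dual J := by
  obtain ⟨hJ, hf, hev⟩ := tc_isK h.1
  refine ⟨tc_isK_compl hG hs h.1, ?_⟩
  intro K hK
  apply h.2 K
  obtain ⟨h1, h2, h3⟩ := hK
  refine ⟨h1, h2, ?_⟩
  intro k hk
  obtain ⟨j, hj, ha, hb⟩ := h3 k hk
  refine ⟨j, tc_tw_compl hG hs hJ (h2 hk) hj, ?_, tc_hubO hf hev hJ he (h2 hk) hj.1 hb⟩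
  intro y hy hyK hyh
  have hyk : k ≠ y := fun hh => hyK (hh ▸ hk)
  have hyj : j ≠ y := fun hh => hyh.1 (hh ▸ hj.1)
  have a := hG k (h2 hk) y hy hyk
  have b := hG j (hJ hj.1) y hy hyj
  have c := ha y hy hyK ((tc_hub_compl hG hJ hf hev hy).2 hyh)
  tauto

theorem linked_congr (hG : ∀ u ∈ W, ∀ v ∈ W, (G.Adj u v ↔ G'.Adj u v))
    (hs : ∀ v ∈ W, (s v ↔ s' v)) (hJ : J ⊆ W) (h : Linked G' s' W J) : Linked G s W J := by
  obtain ⟨y, hy, h1, h2⟩ := h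
  exact ⟨y, hy, (tc_hub_congr hG hJ hy).2 h1, fun j hj => h2 j (tc_tw_congr hG hs hJ hy hj)⟩

theorem linked_congr_compl (hG : ∀ u ∈ W, ∀ v ∈ W, u ≠ v → (G.Adj u v ↔ ¬ G'.Adj u v))
    (hs : ∀ v ∈ W, (s v ↔ ¬ s' v)) (hJ : J ⊆ W) (hf : J.Finite) (he : Even J.ncard)
    (h : Linked G' s' W J) : Linked G s W J := by
  obtain ⟨y, hy, h1, h2⟩ := h
  exact ⟨y, hy, (tc_hub_compl hG hJ hf he hy).2 h1,
    fun j hj => h2 j (tc_tw_compl hG hs hJ hy hj)⟩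

end Pool.Agent.GD
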