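import Pool.Agent.GD.FDefs
import Pool.Agent.GD.TCong

set_option autoImplicit false

/-! Module FE: exchanging the two trails of a frame; reversing the second trail. -/

namespace Pool.Agent.GD.Frame

variable {V : Type} {H : SimpleGraph V} {red : Set (Sym2 V)}

/-- exchange the two trails -/
def swap (F : Frame H red) : Frame H red where
  l := F.m
  m := F.l
  d := F.f
  f := F.d
  pd := F.pf
  pf := F.pd
  hl := F.hm
  hm := F.hl
  adjd := F.adjf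
  adjf := F.adjd
  hpd := F.hpf
  hpf := F.hpd
  d0D := by
    intro i h1 h2
    obtain ⟨a, b, c, d⟩ := F.f0F i h1 h2
    exact ⟨c, d, a, b⟩
  f0F := by
    intro i h1 h2
    obtain ⟨a, b, c, d⟩ := F.d0D i h1 h2
    exact ⟨c, d, a, b⟩
  edd := F.eff
  eff := F.edd
  edf := by
    intro i h1 j h2 h
    exact F.edf j h2 i h1 h.symm
  altd := F.altf
  altf := F.altd

/-- reverse the second trail -/
def rev (F : Frame H red) : Frame H red where
  l := F.l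
  m := F.m
  d := F.d
  f := fun i => F.f (F.m - i)
  pd := F.pd
  pf := fun v => F.m - F.pf v
  hl := F.hl
  hm := F.hm
  adjd := F.adjd
  adjf := by
    intro i hi
    have h := F.adjf (F.m - (i + 1)) (by omega)
    have e : F.m - (i + 1) + 1 = F.m - i := by omega
    rw [e] at h
    exact h.symm
  hpd := F.hpd
  hpf := by
    intro i h1 h2
    have h := F.hpf (F.m - i) (by omega) (by omega)
    show F.m - F.pf (F.f (F.m - i)) = i
    omega
  d0D := by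
    intro i h1 h2
    obtain ⟨a, b, c, d⟩ := F.d0D i h1 h2
    refine ⟨a, b, ?_, ?_⟩
    · show F.d i ≠ F.f (F.m - 0)
      rw [Nat.sub_zero]
      exact d
    · show F.d i ≠ F.f (F.m - F.m)
      rw [Nat.sub_self]
      exact c
  f0F := by
    intro i h1 h2
    obtain ⟨a, b, c, d⟩ := F.f0F (F.m - i) (by omega) (by omega)
    refine ⟨a, b, ?_, ?_⟩
    · show F.f (F.m - i) ≠ F.f (F.m - 0)
      rw [Nat.sub_zero]
      exact d
    · show F.f (F.m - i) ≠ F.f (F.m - F.m)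
      rw [Nat.sub_self]
      exact c
  edd := F.edd
  eff := by
    intro i h1 j h2 h
    have e1 : F.m - (i + 1) + 1 = F.m - i := by omega
    have e2 : F.m - (j + 1) + 1 = F.m - j := by omega
    have h3 := F.eff (F.m - (i + 1)) (by omega) (F.m - (j + 1)) (by omega) (by
      rw [e1, e2, Sym2.eq_swap, h, Sym2.eq_swap])
    omega
  edf := by
    intro i h1 j h2 h
    have e2 : F.m - (j + 1) + 1 = F.m - j := by omega
    apply F.edf i h1 (F.m - (j + 1)) (by omega)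
    rw [e2, h, Sym2.eq_swap]
  altd := F.altd
  altf := by
    intro i h1 h2
    have h := F.altf (F.m - i) (by omega) (by omega)
    have e1 : F.m - (i - 1) = F.m - i + 1 := by omega
    have e2 : F.m - (i + 1) = F.m - i - 1 := by omega
    show s(F.f (F.m - (i - 1)), F.f (F.m - i)) ∈ red ↔ s(F.f (F.m - i), F.f (F.m - (i + 1))) ∉ red
    rw [e1, e2, Sym2.eq_swap, Sym2.eq_swap (a := F.f (F.m - i)) (b := F.f (F.m - i - 1))]
    tauto

/-! ### exchanging -/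

lemma swap_Out {F : Frame H red} : F.swap.Out = F.Out := by
  ext e
  show (e ∈ H.edgeSet ∧ ((e ∉ F.EF ∧ e ∉ F.ED) ∨ e = F.ef0 ∨ e = F.efm ∨ e = F.ed0 ∨ e = F.edl)) ↔
    (e ∈ H.edgeSet ∧ ((e ∉ F.ED ∧ e ∉ F.EF) ∨ e = F.ed0 ∨ e = F.edl ∨ e = F.ef0 ∨ e = F.efm))
  tauto

lemma P_swap {F : Frame H red} : F.swap.P = F.P := by
  ext v
  show (F.IntF v ∧ F.IntD v) ↔ (F.IntD v ∧ F.IntF v)
  tauto

lemma full_swap {F : Frame H red} (h : F.Full) : F.swap.Full := by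
  intro v hv a ha
  rw [P_swap] at hv
  exact (h v hv a ha).symm

lemma marked_swap {F : Frame H red} (h : F.Marked) : F.swap.Marked := by
  constructor
  · intro v h1 h2
    obtain ⟨a, x, y, z⟩ := h.2 v h1 h2
    exact ⟨a, x, z, y⟩
  · intro v h1 h2
    obtain ⟨a, x, y, z⟩ := h.1 v h1 h2
    exact ⟨a, x, z, y⟩

lemma ctx1_swap {F : Frame H red} (h : F.Ctx1) : F.swap.Ctx1 := by
  intro w hw κ
  rw [swap_Out]
  exact h w (Or.symm hw) κ

lemma ctxL_swap {F : Frame H red} (h : F.CtxL) : F.swap.CtxL := by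
  intro w h1 h2 κ
  rw [swap_Out]
  intro h3 h4 h5 h6
  exact h w h2 h1 κ h3 h5 h4 h6.symm

lemma ctxK_swap {F : Frame H red} {k : Kd} (h : F.CtxK k) : F.swap.CtxK k := by
  cases k with
  | Z =>
    intro w h1 h2 κ
    rw [swap_Out]
    intro h3 h4 h5
    exact h w h2 h1 κ h3 h4.symm h5.symm
  | O =>
    intro w h1 h2 κ
    rw [swap_Out]
    intro h3 h4 h5
    exact h w h2 h1 κ h3 h5.symm h4.symm
  | P =>
    intro w h1 h2 κ
    rw [swap_Out]
    intro h3 h4 h5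
    exact h w h2 h1 κ h3 h5 h4

lemma swap_adj {F : Frame H red} (u v : V) : F.swap.G.Adj u v ↔ F.G.Adj u v := by
  show (u ∈ F.swap.P ∧ v ∈ F.swap.P ∧
    ((F.pf u < F.pf v ∧ F.pd v < F.pd u) ∨ (F.pf v < F.pf u ∧ F.pd u < F.pd v))) ↔
    (u ∈ F.P ∧ v ∈ F.P ∧
    ((F.pd u < F.pd v ∧ F.pf v < F.pf u) ∨ (F.pd v < F.pd u ∧ F.pf u < F.pf v)))
  rw [P_swap]
  tauto

lemma swap_sg {F : Frame H red} (v : V) : F.swap.sg v ↔ F.sg v := by
  show (s(F.f (F.pf v - 1), F.f (F.pf v)) ∈ red ↔ s(F.d (F.pd v - 1), F.d (F.pd v)) ∈ red) ↔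
    (s(F.d (F.pd v - 1), F.d (F.pd v)) ∈ red ↔ s(F.f (F.pf v - 1), F.f (F.pf v)) ∈ red)
  tauto

lemma good_swap {F : Frame H red} {k : Kd} {J : Set V} (h : Good F.G F.sg F.P F.ob k J) :
    Good F.swap.G F.swap.sg F.swap.P F.swap.ob k J := by
  rw [P_swap]
  refine good_congr (fun u _ v _ => swap_adj u v) (fun v _ => swap_sg v) ?_ h
  rintro ⟨a, b⟩
  refine Or.inr ⟨(a, !b), Or.inl ?_⟩
  intro v _
  show ((b = true ∧ F.IntD a ∧ ¬ F.IntF a ∧ F.pd v < F.pd a) ∨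
    (b = false ∧ F.IntF a ∧ ¬ F.IntD a ∧ F.pf v < F.pf a)) ↔
    (((!b) = true ∧ F.IntF a ∧ ¬ F.IntD a ∧ F.pf v < F.pf a) ∨
    ((!b) = false ∧ F.IntD a ∧ ¬ F.IntF a ∧ F.pd v < F.pd a))
  cases b <;> simp

lemma linked_swap {F : Frame H red} {J : Set V} (hJ : J ⊆ F.P) (h : Linked F.G F.sg F.P J) :
    Linked F.swap.G F.swap.sg F.swap.P J := by
  rw [P_swap]
  exact linked_congr (fun u _ v _ => swap_adj u v) (fun v _ => swap_sg v) hJ h

/-! ### reversing -/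

lemma rev_IntF {F : Frame H red} (v : V) : F.rev.IntF v ↔ F.IntF v := by
  show (0 < F.m - F.pf v ∧ F.m - F.pf v < F.m ∧ F.f (F.m - (F.m - F.pf v)) = v) ↔
    (0 < F.pf v ∧ F.pf v < F.m ∧ F.f (F.pf v) = v)
  constructor
  · rintro ⟨h1, h2, h3⟩
    have e : F.m - (F.m - F.pf v) = F.pf v := by omega
    rw [e] at h3
    exact ⟨by omega, by omega, h3⟩
  · rintro ⟨h1, h2, h3⟩
    have e : F.m - (F.m - F.pf v) = F.pf v := by omega
    rw [e]
    exact ⟨by omega, by omega, h3⟩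

lemma P_rev {F : Frame H red} : F.rev.P = F.P := by
  ext v
  show (F.IntD v ∧ F.rev.IntF v) ↔ (F.IntD v ∧ F.IntF v)
  rw [rev_IntF]

lemma rev_EF {F : Frame H red} : F.rev.EF = F.EF := by
  ext e
  show (∃ i < F.m, e = s(F.f (F.m - i), F.f (F.m - (i + 1)))) ↔
    (∃ i < F.m, e = s(F.f i, F.f (i + 1)))
  constructor
  · rintro ⟨i, hi, rfl⟩
    refine ⟨F.m - (i + 1), by omega, ?_⟩
    have e : F.m - (i + 1) + 1 = F.m - i := by omega
    rw [e, Sym2.eq_swap]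
  · rintro ⟨i, hi, rfl⟩
    refine ⟨F.m - (i + 1), by omega, ?_⟩
    have e : F.m - (F.m - (i + 1)) = i + 1 := by omega
    have e' : F.m - (F.m - (i + 1) + 1) = i := by omega
    rw [e, e', Sym2.eq_swap]

lemma rev_ef0 {F : Frame H red} : F.rev.ef0 = F.efm := by
  show s(F.f (F.m - 0), F.f (F.m - 1)) = s(F.f (F.m - 1), F.f F.m)
  rw [Nat.sub_zero, Sym2.eq_swap]

lemma rev_efm {F : Frame H red} : F.rev.efm = F.ef0 := by
  show s(F.f (F.m - (F.m - 1)), F.f (F.m - F.m)) = s(F.f 0, F.f 1)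
  have h := F.hm
  have e : F.m - (F.m - 1) = 1 := by omega
  rw [e, Nat.sub_self, Sym2.eq_swap]

lemma rev_Out {F : Frame H red} : F.rev.Out = F.Out := by
  ext e
  show (e ∈ H.edgeSet ∧ ((e ∉ F.ED ∧ e ∉ F.rev.EF) ∨ e = F.ed0 ∨ e = F.edl ∨ e = F.rev.ef0 ∨
    e = F.rev.efm)) ↔
    (e ∈ H.edgeSet ∧ ((e ∉ F.ED ∧ e ∉ F.EF) ∨ e = F.ed0 ∨ e = F.edl ∨ e = F.ef0 ∨ e = F.efm))
  rw [rev_EF, rev_ef0, rev_efm]
  tauto

lemma full_rev {F : Frame H red} (h : F.Full) : F.rev.Full := by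
  intro v hv a ha
  rw [P_rev] at hv
  rw [rev_EF]
  exact h v hv a ha

lemma marked_rev {F : Frame H red} (h : F.Marked) : F.rev.Marked := by
  constructor
  · intro v h1 h2
    rw [rev_IntF] at h2
    rw [rev_EF]
    exact h.1 v h1 h2
  · intro v h1 h2
    rw [rev_IntF] at h1
    rw [rev_EF]
    exact h.2 v h1 h2

lemma ctx1_rev {F : Frame H red} (h : F.Ctx1) : F.rev.Ctx1 := by
  intro w hw κ
  rw [rev_Out]
  rw [rev_IntF] at hw
  exact h w hw κ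

lemma ctxL_rev {F : Frame H red} (h : F.CtxL) : F.rev.CtxL := by
  intro w h1 h2 κ
  rw [rev_Out, rev_ef0, rev_efm]
  rw [rev_IntF] at h2
  show _ → (κ F.ed0 ↔ κ F.edl) → _ → (κ F.ed0 ↔ κ F.efm) → _
  intro h3 h4 h5 h6
  exact h w h1 h2 κ h3 h4 h5.symm (by tauto)

lemma ctxK_rev {F : Frame H red} {k : Kd} (h : F.CtxK k) : F.rev.CtxK k.dual := by
  cases k with
  | Z =>
    intro w h1 h2 κ
    rw [rev_Out, rev_ef0, rev_efm]
    rw [rev_IntF] at h2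
    show _ → (κ F.ed0 ↔ κ F.ef0) → (κ F.edl ↔ κ F.efm) → _
    exact h w h1 h2 κ
  | O =>
    intro w h1 h2 κ
    rw [rev_Out, rev_ef0, rev_efm]
    rw [rev_IntF] at h2
    show _ → (κ F.ed0 ↔ κ F.efm) → (κ F.edl ↔ κ F.ef0) → _
    exact h w h1 h2 κ
  | P =>
    intro w h1 h2 κ
    rw [rev_Out, rev_ef0, rev_efm]
    rw [rev_IntF] at h2
    show _ → (κ F.ed0 ↔ κ F.edl) → (κ F.efm ↔ κ F.ef0) → _
    intro h3 h4 h5
    exact h w h1 h2 κ h3 h4 h5.symm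

lemma fe_pd_inj {F : Frame H red} {u v : V} (hu : F.IntD u) (hv : F.IntD v) (h : F.pd u = F.pd v) :
    u = v := by
  rw [← hu.2.2, ← hv.2.2, h]

lemma fe_pf_inj {F : Frame H red} {u v : V} (hu : F.IntF u) (hv : F.IntF v) (h : F.pf u = F.pf v) :
    u = v := by
  rw [← hu.2.2, ← hv.2.2, h]

lemma rev_adj {F : Frame H red} (u : V) (hu : u ∈ F.P) (v : V) (hv : v ∈ F.P) (huv : u ≠ v) :
    F.rev.G.Adj u v ↔ ¬ F.G.Adj u v := by
  show (u ∈ F.rev.P ∧ v ∈ F.rev.P ∧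
    ((F.pd u < F.pd v ∧ F.m - F.pf v < F.m - F.pf u) ∨
      (F.pd v < F.pd u ∧ F.m - F.pf u < F.m - F.pf v))) ↔
    ¬ (u ∈ F.P ∧ v ∈ F.P ∧
    ((F.pd u < F.pd v ∧ F.pf v < F.pf u) ∨ (F.pd v < F.pd u ∧ F.pf u < F.pf v)))
  rw [P_rev]
  have h1 : F.pd u ≠ F.pd v := fun h => huv (fe_pd_inj hu.1 hv.1 h)
  have h2 : F.pf u ≠ F.pf v := fun h => huv (fe_pf_inj hu.2 hv.2 h)
  have h3 := hu.2.2.1
  have h4 := hv.2.2.1
  constructor
  · rintro ⟨-, -, h⟩ ⟨-, -, h'⟩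
    omega
  · intro h
    refine ⟨hu, hv, ?_⟩
    by_contra hc
    apply h
    refine ⟨hu, hv, ?_⟩
    omega

lemma rev_sg {F : Frame H red} (v : V) (hv : v ∈ F.P) : F.rev.sg v ↔ ¬ F.sg v := by
  have h1 := hv.2.1
  have h2 := hv.2.2.1
  show (s(F.d (F.pd v - 1), F.d (F.pd v)) ∈ red ↔
    s(F.f (F.m - (F.m - F.pf v - 1)), F.f (F.m - (F.m - F.pf v))) ∈ red) ↔
    ¬ (s(F.d (F.pd v - 1), F.d (F.pd v)) ∈ red ↔ s(F.f (F.pf v - 1), F.f (F.pf v)) ∈ red)
  have e1 : F.m - (F.m - F.pf v - 1) = F.pf v + 1 := by omega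
  have e2 : F.m - (F.m - F.pf v) = F.pf v := by omega
  rw [e1, e2, Sym2.eq_swap (a := F.f (F.pf v + 1))]
  have h := F.altf (F.pf v) h1 h2
  tauto

lemma rev_ob {F : Frame H red} (y' : V × Bool) :
    (∀ u ∈ F.P, ∀ v ∈ F.P, (F.ob u y' ↔ F.ob v y')) ∨
      ∃ y : V × Bool, (∀ v ∈ F.P, (F.ob v y' ↔ F.rev.ob v y)) ∨
        (∀ v ∈ F.P, (F.ob v y' ↔ ¬ F.rev.ob v y)) := by
  obtain ⟨a, b⟩ := y'
  cases b with
  | true =>
    refine Or.inr ⟨(a, true), Or.inl ?_⟩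
    intro v _
    show ((true = true ∧ F.IntD a ∧ ¬ F.IntF a ∧ F.pd v < F.pd a) ∨
      (true = false ∧ F.IntF a ∧ ¬ F.IntD a ∧ F.pf v < F.pf a)) ↔
      ((true = true ∧ F.IntD a ∧ ¬ F.rev.IntF a ∧ F.pd v < F.pd a) ∨
      (true = false ∧ F.rev.IntF a ∧ ¬ F.IntD a ∧ F.m - F.pf v < F.m - F.pf a))
    rw [rev_IntF]
    simp
  | false =>
    by_cases ha : F.IntF a ∧ ¬ F.IntD a
    · refine Or.inr ⟨(a, false), Or.inr ?_⟩
      intro v hv
      show ((false = true ∧ F.IntD a ∧ ¬ F.IntF a ∧ F.pd v < F.pd a) ∨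
        (false = false ∧ F.IntF a ∧ ¬ F.IntD a ∧ F.pf v < F.pf a)) ↔
        ¬ ((false = true ∧ F.IntD a ∧ ¬ F.rev.IntF a ∧ F.pd v < F.pd a) ∨
        (false = false ∧ F.rev.IntF a ∧ ¬ F.IntD a ∧ F.m - F.pf v < F.m - F.pf a))
      rw [rev_IntF]
      have h1 : F.pf v ≠ F.pf a := by
        intro h
        have := fe_pf_inj hv.2 ha.1 h
        rw [this] at hv
        exact ha.2 hv.1
      have h2 := hv.2.2.1
      have h3 := ha.1.2.1
      have e : (F.m - F.pf v < F.m - F.pf a) ↔ ¬ (F.pf v < F.pf a) := by omega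
      rw [e]
      have ha1 := ha.1
      have ha2 := ha.2
      simp only [Bool.false_eq_true, false_and, true_and, false_or, ha1, ha2, not_false_eq_true,
        not_not]
    · left
      intro u _ v _
      show ((false = true ∧ F.IntD a ∧ ¬ F.IntF a ∧ F.pd u < F.pd a) ∨
        (false = false ∧ F.IntF a ∧ ¬ F.IntD a ∧ F.pf u < F.pf a)) ↔
        ((false = true ∧ F.IntD a ∧ ¬ F.IntF a ∧ F.pd v < F.pd a) ∨
        (false = false ∧ F.IntF a ∧ ¬ F.IntD a ∧ F.pf v < F.pf a))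
      constructor
      · rintro (⟨h, -⟩ | ⟨-, h1, h2, -⟩)
        · exact absurd h (by decide)
        · exact absurd ⟨h1, h2⟩ ha
      · rintro (⟨h, -⟩ | ⟨-, h1, h2, -⟩)
        · exact absurd h (by decide)
        · exact absurd ⟨h1, h2⟩ ha

lemma good_rev {F : Frame H red} {k : Kd} {J : Set V} (h : Good F.G F.sg F.P F.ob k J) :
    Good F.rev.G F.rev.sg F.rev.P F.rev.ob k.dual J := by
  rw [P_rev]
  exact good_congr_compl (fun u hu v hv huv => rev_adj u hu v hv huv) (fun v hv => rev_sg v hv)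
    rev_ob h

lemma linked_rev {F : Frame H red} {J : Set V} (hJ : J ⊆ F.P) (hf : J.Finite)
    (he : Even J.ncard) (h : Linked F.G F.sg F.P J) :
    Linked F.rev.G F.rev.sg F.rev.P J := by
  rw [P_rev]
  exact linked_congr_compl (fun u hu v hv huv => rev_adj u hu v hv huv)
    (fun v hv => rev_sg v hv) hJ hf he h

end Pool.Agent.GD.Frame
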