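import Pool.Agent.GD.TDefs
import Pool.Agent.GDW.Pr

set_option autoImplicit false

/-! Module PR: inversion graphs of two linear orders; hull of a module; primality. -/

namespace Pool.Agent.GD

variable {V : Type} {G : SimpleGraph V} {A : Set V} {a b : V → ℕ}

/-- `G` is on `A` the inversion graph of the orders given by the positions `a` and `b` -/
structure Inv (G : SimpleGraph V) (A : Set V) (a b : V → ℕ) : Prop where
  ia : ∀ u ∈ A, ∀ v ∈ A, a u = a v → u = v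
  ib : ∀ u ∈ A, ∀ v ∈ A, b u = b v → u = v
  adj : ∀ u ∈ A, ∀ v ∈ A, (G.Adj u v ↔ (a u < a v ∧ b v < b u) ∨ (a v < a u ∧ b u < b v))

/-- `X` is convex in `A` for the positions `a` -/
def Conv (A X : Set V) (a : V → ℕ) : Prop :=
  ∀ u ∈ X, ∀ v ∈ X, ∀ y ∈ A, a u < a y → a y < a v → y ∈ X

/-- the hull of a module: a common interval -/
theorem hull (h : Inv G A a b) {U : Set V} (hU : IsMod G A U) :
    ∃ X, U ⊆ X ∧ X ⊆ A ∧ Conv A X a ∧ Conv A X b ∧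
      (∀ y ∈ X, y ∉ U → ∃ u ∈ U, ∃ v ∈ U, a u < a y ∧ a y < a v) ∧
      (∀ y ∈ X, y ∉ U → ∃ u ∈ U, ∃ v ∈ U, b u < b y ∧ b y < b v) := by
  have hUA := hU.1
  -- strict betweenness is the same for both orders
  have hab : ∀ y ∈ A, y ∉ U → (∃ u ∈ U, ∃ v ∈ U, a u < a y ∧ a y < a v) →
      ∃ u ∈ U, ∃ v ∈ U, b u < b y ∧ b y < b v := by
    rintro y hy hyU ⟨u, hu, v, hv, h1, h2⟩
    have hyu : b y ≠ b u := fun hh => hyU ((h.ib y hy u (hUA hu) hh) ▸ hu)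
    have hyv : b y ≠ b v := fun hh => hyU ((h.ib y hy v (hUA hv) hh) ▸ hv)
    have k1 := h.adj y hy u (hUA hu)
    have k2 := h.adj y hy v (hUA hv)
    rcases hU.2 y hy hyU with h3 | h3
    · have h4 := k1.1 (h3 u hu)
      have h5 := k2.1 (h3 v hv)
      exact ⟨v, hv, u, hu, by omega, by omega⟩
    · have h4 := mt k1.2 (h3 u hu)
      have h5 := mt k2.2 (h3 v hv)
      exact ⟨u, hu, v, hv, by omega, by omega⟩
  have hba : ∀ y ∈ A, y ∉ U → (∃ u ∈ U, ∃ v ∈ U, b u < b y ∧ b y < b v) →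
      ∃ u ∈ U, ∃ v ∈ U, a u < a y ∧ a y < a v := by
    rintro y hy hyU ⟨u, hu, v, hv, h1, h2⟩
    have hyu : a y ≠ a u := fun hh => hyU ((h.ia y hy u (hUA hu) hh) ▸ hu)
    have hyv : a y ≠ a v := fun hh => hyU ((h.ia y hy v (hUA hv) hh) ▸ hv)
    have k1 := h.adj y hy u (hUA hu)
    have k2 := h.adj y hy v (hUA hv)
    rcases hU.2 y hy hyU with h3 | h3
    · have h4 := k1.1 (h3 u hu)
      have h5 := k2.1 (h3 v hv)
      exact ⟨v, hv, u, hu, by omega, by omega⟩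
    · have h4 := mt k1.2 (h3 u hu)
      have h5 := mt k2.2 (h3 v hv)
      exact ⟨u, hu, v, hv, by omega, by omega⟩
  -- weak betweenness
  have wa : ∀ y, y ∈ A → (y ∈ U ∨ ∃ u ∈ U, ∃ v ∈ U, a u < a y ∧ a y < a v) →
      (∃ u ∈ U, a u ≤ a y) ∧ (∃ v ∈ U, a y ≤ a v) := by
    rintro y hy (h1 | ⟨u, hu, v, hv, h1, h2⟩)
    · exact ⟨⟨y, h1, le_rfl⟩, ⟨y, h1, le_rfl⟩⟩
    · exact ⟨⟨u, hu, h1.le⟩, ⟨v, hv, h2.le⟩⟩
  have wb : ∀ y, y ∈ A → (y ∈ U ∨ ∃ u ∈ U, ∃ v ∈ U, a u < a y ∧ a y < a v) →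
      (∃ u ∈ U, b u ≤ b y) ∧ (∃ v ∈ U, b y ≤ b v) := by
    rintro y hy h1
    by_cases hyU : y ∈ U
    · exact ⟨⟨y, hyU, le_rfl⟩, ⟨y, hyU, le_rfl⟩⟩
    · obtain ⟨u, hu, v, hv, h1, h2⟩ := hab y hy hyU (h1.resolve_left hyU)
      exact ⟨⟨u, hu, h1.le⟩, ⟨v, hv, h2.le⟩⟩
  refine ⟨{y | y ∈ A ∧ (y ∈ U ∨ ∃ u ∈ U, ∃ v ∈ U, a u < a y ∧ a y < a v)},
    fun u hu => ⟨hUA hu, Or.inl hu⟩, fun y hy => hy.1, ?_, ?_, ?_, ?_⟩
  · rintro x ⟨hx, hx'⟩ z ⟨hz, hz'⟩ y hy h1 h2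
    refine ⟨hy, Or.inr ?_⟩
    obtain ⟨u, hu, h3⟩ := (wa x hx hx').1
    obtain ⟨v, hv, h4⟩ := (wa z hz hz').2
    exact ⟨u, hu, v, hv, by omega, by omega⟩
  · rintro x ⟨hx, hx'⟩ z ⟨hz, hz'⟩ y hy h1 h2
    refine ⟨hy, ?_⟩
    by_cases hyU : y ∈ U
    · exact Or.inl hyU
    · right
      obtain ⟨u, hu, h3⟩ := (wb x hx hx').1
      obtain ⟨v, hv, h4⟩ := (wb z hz hz').2
      exact hba y hy hyU ⟨u, hu, v, hv, by omega, by omega⟩
  · rintro y ⟨hy, hy'⟩ hyU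
    exact hy'.resolve_left hyU
  · rintro y ⟨hy, hy'⟩ hyU
    exact hab y hy hyU (hy'.resolve_left hyU)

/-- common intervals are modules -/
theorem isMod_of_conv (h : Inv G A a b) {X : Set V} (hX : X ⊆ A) (ha : Conv A X a)
    (hb : Conv A X b) : IsMod G A X := by
  refine ⟨hX, fun w hw hwX => ?_⟩
  by_cases h1 : ∃ u ∈ X, G.Adj w u
  · left
    obtain ⟨u, hu, hwu⟩ := h1
    intro v hv
    have k1 := (h.adj w hw u (hX hu)).1 hwu
    rw [h.adj w hw v (hX hv)]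
    have e1 : a w ≠ a v := fun hh => hwX ((h.ia w hw v (hX hv) hh) ▸ hv)
    have e2 : b w ≠ b v := fun hh => hwX ((h.ib w hw v (hX hv) hh) ▸ hv)
    have c1 : ¬ (a u < a w ∧ a w < a v) := fun hh => hwX (ha u hu v hv w hw hh.1 hh.2)
    have c2 : ¬ (a v < a w ∧ a w < a u) := fun hh => hwX (ha v hv u hu w hw hh.1 hh.2)
    have c3 : ¬ (b u < b w ∧ b w < b v) := fun hh => hwX (hb u hu v hv w hw hh.1 hh.2)
    have c4 : ¬ (b v < b w ∧ b w < b u) := fun hh => hwX (hb v hv u hu w hw hh.1 hh.2)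
    omega
  · right
    intro u hu hwu
    exact h1 ⟨u, hu, hwu⟩

/-- if there are no nontrivial common intervals the inversion graph is prime -/
theorem primeOn_of_noInterval [Finite V] (h : Inv G A a b) (h4 : 4 ≤ A.ncard)
    (hno : ∀ X ⊆ A, 2 ≤ X.ncard → Conv A X a → Conv A X b → X = A) : PrimeOn G A := by
  refine ⟨h4, fun U hU => ?_⟩
  by_contra hcon
  push Not at hcon
  obtain ⟨h2, hne⟩ := hcon
  let d : A → ℕ := fun v => a v.1
  let f : A → ℕ := fun v => b v.1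
  have hd : Function.Injective d := fun u v huv => Subtype.ext (h.ia _ u.2 _ v.2 huv)
  have hf : Function.Injective f := fun u v huv => Subtype.ext (h.ib _ u.2 _ v.2 huv)
  have hadj : ∀ u v : A, GDW.Inv d f u v ↔ G.Adj u.1 v.1 := fun u v =>
    (h.adj u.1 u.2 v.1 v.2).symm
  have huniv : (Set.univ : Set A).ncard = A.ncard := by
    rw [Set.ncard_univ, Nat.card_coe_set_eq]
  have himg : ∀ X : Set A, (Subtype.val '' X).ncard = X.ncard := fun X =>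
    Set.ncard_image_of_injective X Subtype.val_injective
  have hpre : Subtype.val '' (Subtype.val ⁻¹' U : Set A) = U := by
    rw [Subtype.image_preimage_coe, Set.inter_eq_right.2 hU.1]
  have hkey := GDW.prime_of_noCI hd hf (by rw [huniv]; omega) (by
    intro X hX hX2
    have h5 := hno (Subtype.val '' X) (by
      rintro _ ⟨x, -, rfl⟩
      exact x.2) (by rw [himg]; exact hX2) (by
      rintro _ ⟨u, hu, rfl⟩ _ ⟨v, hv, rfl⟩ y hy h6 h7
      exact ⟨⟨y, hy⟩, (hX.2 u hu v hv ⟨y, hy⟩ (Set.mem_univ _)).1 h6 h7, rfl⟩) (by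
      rintro _ ⟨u, hu, rfl⟩ _ ⟨v, hv, rfl⟩ y hy h6 h7
      exact ⟨⟨y, hy⟩, (hX.2 u hu v hv ⟨y, hy⟩ (Set.mem_univ _)).2 h6 h7, rfl⟩)
    apply Set.eq_univ_of_forall
    intro x
    have h6 : x.1 ∈ Subtype.val '' X := by rw [h5]; exact x.2
    obtain ⟨y, hy, hyx⟩ := h6
    rwa [← Subtype.ext hyx]) (Subtype.val ⁻¹' U) (by
    intro u hu v hv w hw
    rw [hadj, hadj]
    rcases hU.2 w.1 w.2 hw with h6 | h6
    · exact ⟨fun _ => h6 _ hv, fun _ => h6 _ hu⟩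
    · exact ⟨fun hh => absurd hh (h6 _ hu), fun hh => absurd hh (h6 _ hv)⟩) (by
    rw [← himg, hpre]
    omega)
  apply hne
  rw [← hpre, hkey, Set.image_univ, Subtype.range_coe]

/-- three elements always contain a common interval with two elements -/
theorem three_interval [Finite V] (h : Inv G A a b) (h3 : A.ncard = 3) :
    ∃ X ⊆ A, X.ncard = 2 ∧ Conv A X a ∧ Conv A X b := by
  obtain ⟨x, y, z, hxy, hxz, hyz, rfl⟩ := Set.ncard_eq_three.1 h3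
  have mx : x ∈ ({x, y, z} : Set V) := by simp
  have my : y ∈ ({x, y, z} : Set V) := by simp
  have mz : z ∈ ({x, y, z} : Set V) := by simp
  have ea1 : a x ≠ a y := fun hh => hxy (h.ia _ mx _ my hh)
  have ea2 : a x ≠ a z := fun hh => hxz (h.ia _ mx _ mz hh)
  have ea3 : a y ≠ a z := fun hh => hyz (h.ia _ my _ mz hh)
  have eb1 : b x ≠ b y := fun hh => hxy (h.ib _ mx _ my hh)
  have eb2 : b x ≠ b z := fun hh => hxz (h.ib _ mx _ mz hh)
  have eb3 : b y ≠ b z := fun hh => hyz (h.ib _ my _ mz hh)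
  -- convexity of a pair
  have key : ∀ (p q r : V) (g : V → ℕ), ({x, y, z} : Set V) ⊆ {p, q, r} →
      ¬ (g p < g r ∧ g r < g q) → ¬ (g q < g r ∧ g r < g p) →
      Conv ({x, y, z} : Set V) {p, q} g := by
    intro p q r g hsub h1 h2 u hu v hv w hw h5 h6
    rcases hsub hw with rfl | rfl | hw
    · simp
    · simp
    · rw [Set.mem_singleton_iff] at hw
      subst hw
      exfalso
      rcases hu with rfl | hu <;> rcases hv with rfl | hv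
      · omega
      · rw [Set.mem_singleton_iff] at hv
        subst hv
        exact h1 ⟨h5, h6⟩
      · rw [Set.mem_singleton_iff] at hu
        subst hu
        exact h2 ⟨h5, h6⟩
      · rw [Set.mem_singleton_iff] at hu hv
        subst hu
        rw [hv] at h6
        omega
  have s1 : ({x, y, z} : Set V) ⊆ {x, y, z} := le_rfl
  have s2 : ({x, y, z} : Set V) ⊆ {x, z, y} := by
    rintro w (rfl | rfl | hw)
    · simp
    · simp
    · rw [Set.mem_singleton_iff] at hw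
      subst hw
      simp
  have s3 : ({x, y, z} : Set V) ⊆ {y, z, x} := by
    rintro w (rfl | rfl | hw)
    · simp
    · simp
    · rw [Set.mem_singleton_iff] at hw
      subst hw
      simp
  have hsubset : ∀ p q : V, p ∈ ({x, y, z} : Set V) → q ∈ ({x, y, z} : Set V) →
      ({p, q} : Set V) ⊆ {x, y, z} := by
    rintro p q hp hq w (rfl | hw)
    · exact hp
    · rw [Set.mem_singleton_iff] at hw
      subst hw
      exact hq
  have hcases : ((¬ (a x < a z ∧ a z < a y) ∧ ¬ (a y < a z ∧ a z < a x)) ∧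
      (¬ (b x < b z ∧ b z < b y) ∧ ¬ (b y < b z ∧ b z < b x))) ∨
      ((¬ (a x < a y ∧ a y < a z) ∧ ¬ (a z < a y ∧ a y < a x)) ∧
      (¬ (b x < b y ∧ b y < b z) ∧ ¬ (b z < b y ∧ b y < b x))) ∨
      ((¬ (a y < a x ∧ a x < a z) ∧ ¬ (a z < a x ∧ a x < a y)) ∧
      (¬ (b y < b x ∧ b x < b z) ∧ ¬ (b z < b x ∧ b x < b y))) := by
    omega
  rcases hcases with ⟨⟨c1, c2⟩, c3, c4⟩ | ⟨⟨c1, c2⟩, c3, c4⟩ | ⟨⟨c1, c2⟩, c3, c4⟩
  · exact ⟨{x, y}, hsubset _ _ mx my, Set.ncard_pair hxy, key x y z a s1 c1 c2,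
      key x y z b s1 c3 c4⟩
  · exact ⟨{x, z}, hsubset _ _ mx mz, Set.ncard_pair hxz, key x z y a s2 c1 c2,
      key x z y b s2 c3 c4⟩
  · exact ⟨{y, z}, hsubset _ _ my mz, Set.ncard_pair hyz, key y z x a s3 c1 c2,
      key y z x b s3 c3 c4⟩

theorem Inv.mono {I : Set V} (h : Inv G A a b) (hI : I ⊆ A) : Inv G I a b where
  ia := fun u hu v hv => h.ia u (hI hu) v (hI hv)
  ib := fun u hu v hv => h.ib u (hI hu) v (hI hv)
  adj := fun u hu v hv => h.adj u (hI hu) v (hI hv)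

theorem conv_trans {I X : Set V} (hX : X ⊆ I) (h1 : Conv A I a) (h2 : Conv I X a) :
    Conv A X a := by
  intro u hu v hv y hy h3 h4
  exact h2 u hu v hv y (h1 u (hX hu) v (hX hv) y hy h3 h4) h3 h4

/-- a minimal common interval of size at least two has two elements or is prime -/
theorem minimal_interval [Finite V] (h : Inv G A a b) (h2 : 2 ≤ A.ncard) :
    ∃ I ⊆ A, Conv A I a ∧ Conv A I b ∧ (I.ncard = 2 ∨ PrimeOn G I) := by
  classical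
  have hex : ∃ m, ∃ I ⊆ A, Conv A I a ∧ Conv A I b ∧ 2 ≤ I.ncard ∧ I.ncard = m :=
    ⟨A.ncard, A, le_rfl, fun u _ v _ y hy _ _ => hy, fun u _ v _ y hy _ _ => hy, h2, rfl⟩
  obtain ⟨I, hI, ha, hb, hI2, hIm⟩ := Nat.find_spec hex
  have hmin : ∀ X ⊆ A, Conv A X a → Conv A X b → 2 ≤ X.ncard → I.ncard ≤ X.ncard := by
    intro X hX h3 h4 h5
    rw [hIm]
    exact Nat.find_min' hex ⟨X, hX, h3, h4, h5, rfl⟩
  refine ⟨I, hI, ha, hb, ?_⟩
  by_cases h3 : I.ncard = 2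
  · exact Or.inl h3
  · right
    have hInv := h.mono hI
    by_cases h4 : I.ncard = 3
    · exfalso
      obtain ⟨X, hX, hX2, hXa, hXb⟩ := three_interval hInv h4
      have h5 := hmin X (hX.trans hI) (conv_trans hX ha hXa) (conv_trans hX hb hXb) hX2.ge
      omega
    · apply primeOn_of_noInterval hInv (by omega)
      intro X hX hX2 hXa hXb
      have h5 := hmin X (hX.trans hI) (conv_trans hX ha hXa) (conv_trans hX hb hXb) hX2
      exact Set.eq_of_subset_of_ncard_le hX h5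

/-- the two representations of the path `b1 - a1 - a2 - b2` (up to exchanging the indices) -/
theorem p4_patterns (h : Inv G A a b) {b1 a1 a2 b2 : V} (h1 : b1 ∈ A) (h2 : a1 ∈ A) (h3 : a2 ∈ A)
    (h4 : b2 ∈ A) (hb : b1 ≠ b2) (ha : a1 ≠ a2) (e1 : G.Adj b1 a1) (e2 : G.Adj a1 a2)
    (e3 : G.Adj a2 b2) (n1 : ¬ G.Adj b1 a2) (n2 : ¬ G.Adj b1 b2) (n3 : ¬ G.Adj a1 b2) :
    (a a1 < a b1 ∧ a b1 < a b2 ∧ a b2 < a a2 ∧ b b1 < b a2 ∧ b a2 < b a1 ∧ b a1 < b b2) ∨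
    (a a2 < a b2 ∧ a b2 < a b1 ∧ a b1 < a a1 ∧ b b2 < b a1 ∧ b a1 < b a2 ∧ b a2 < b b1) ∨
    (b a1 < b b1 ∧ b b1 < b b2 ∧ b b2 < b a2 ∧ a b1 < a a2 ∧ a a2 < a a1 ∧ a a1 < a b2) ∨
    (b a2 < b b2 ∧ b b2 < b b1 ∧ b b1 < b a1 ∧ a b2 < a a1 ∧ a a1 < a a2 ∧ a a2 < a b1) := by
  have d2 : b1 ≠ a2 := by
    rintro rfl
    exact n2 e3
  have d5 : a1 ≠ b2 := by
    rintro rfl
    exact n2 e1
  have x2 : a b1 ≠ a a2 := fun hh => d2 (h.ia _ h1 _ h3 hh)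
  have x3 : a b1 ≠ a b2 := fun hh => hb (h.ia _ h1 _ h4 hh)
  have x5 : a a1 ≠ a b2 := fun hh => d5 (h.ia _ h2 _ h4 hh)
  have y2 : b b1 ≠ b a2 := fun hh => d2 (h.ib _ h1 _ h3 hh)
  have y3 : b b1 ≠ b b2 := fun hh => hb (h.ib _ h1 _ h4 hh)
  have y5 : b a1 ≠ b b2 := fun hh => d5 (h.ib _ h2 _ h4 hh)
  rw [h.adj _ h1 _ h2] at e1
  rw [h.adj _ h2 _ h3] at e2
  rw [h.adj _ h3 _ h4] at e3
  rw [h.adj _ h1 _ h3] at n1
  rw [h.adj _ h1 _ h4] at n2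
  rw [h.adj _ h2 _ h4] at n3
  have m1 : (a b1 < a a2 ∧ b b1 < b a2) ∨ (a a2 < a b1 ∧ b a2 < b b1) := by omega
  have m2 : (a b1 < a b2 ∧ b b1 < b b2) ∨ (a b2 < a b1 ∧ b b2 < b b1) := by omega
  have m3 : (a a1 < a b2 ∧ b a1 < b b2) ∨ (a b2 < a a1 ∧ b b2 < b a1) := by omega
  clear n1 n2 n3 x2 x3 x5 y2 y3 y5
  rcases e1 with ⟨p1, p2⟩ | ⟨p1, p2⟩ <;> rcases e2 with ⟨p3, p4⟩ | ⟨p3, p4⟩ <;>
    rcases e3 with ⟨p5, p6⟩ | ⟨p5, p6⟩ <;> rcases m1 with ⟨q1, q2⟩ | ⟨q1, q2⟩ <;>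
    rcases m2 with ⟨q3, q4⟩ | ⟨q3, q4⟩ <;> rcases m3 with ⟨q5, q6⟩ | ⟨q5, q6⟩ <;>
    first
      | (exfalso; omega)
      | (left; refine ⟨?_, ?_, ?_, ?_, ?_, ?_⟩ <;> omega)
      | (right; left; refine ⟨?_, ?_, ?_, ?_, ?_, ?_⟩ <;> omega)
      | (right; right; left; refine ⟨?_, ?_, ?_, ?_, ?_, ?_⟩ <;> omega)
      | (right; right; right; refine ⟨?_, ?_, ?_, ?_, ?_, ?_⟩ <;> omega)

end Pool.Agent.GD
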