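import Pool.Agent.GD.FC
import Pool.Agent.GD.FD
import Pool.Agent.GD.FE
import Pool.Agent.GD.PR

set_option autoImplicit false

/-! Module FF: the frame theorem. -/

namespace Pool.Agent.GD.Frame

variable {V : Type} {H : SimpleGraph V} {red : Set (Sym2 V)}

lemma inv (F : Frame H red) : Inv F.G F.P F.pd F.pf where
  ia := fun _ hu _ hv h => fe_pd_inj hu.1 hv.1 h
  ib := fun _ hu _ hv h => fe_pf_inj hu.2 hv.2 h
  adj := by
    intro u hu v hv
    constructor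
    · intro h
      exact h.2.2
    · intro h
      exact ⟨hu, hv, h⟩

/-- the case of the path with four vertices, in the second representation -/
lemma ff_P [Finite V] (h2 : TwoReg H red) (F : Frame H red) (hfull : F.Full)
    (hmark : F.Marked) (h1 : F.Ctx1) (hL : F.CtxL) {b1 a1 a2 b2 : V}
    (hb1 : b1 ∈ F.P) (ha1 : a1 ∈ F.P) (ha2 : a2 ∈ F.P) (hb2 : b2 ∈ F.P)
    (s1 : F.sg b1) (s2 : F.sg b2) (s3 : ¬ F.sg a1) (s4 : ¬ F.sg a2)
    (d1 : F.pd a1 < F.pd b1) (d2 : F.pd b1 < F.pd b2) (d3 : F.pd b2 < F.pd a2)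
    (f1 : F.pf b1 < F.pf a2) (f2 : F.pf a2 < F.pf a1) (f3 : F.pf a1 < F.pf b2) {J : Set V}
    (e : J = {b1, a1, a2, b2}) (hJ : Good F.G F.sg F.P F.ob Kd.P J)
    (hk : Linked F.G F.sg F.P J ∨ F.CtxK Kd.P) : HasGood H red := by
  subst e
  exact frame_P1 h2 F hfull hmark h1 hL hb1 ha1 ha2 hb2 s1 s2 s3 s4 d1 d2 d3 f1 f2 f3 hJ hk

/-- FT -/
theorem frame_theorem [Finite V] (h2 : TwoReg H red) (F : Frame H red) (hfull : F.Full)
    (hmark : F.Marked) (h1 : F.Ctx1) (hL : F.CtxL) {k : Kd} {J : Set V}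
    (hJ : Good F.G F.sg F.P F.ob k J) (hk : Linked F.G F.sg F.P J ∨ F.CtxK k) :
    HasGood H red := by
  obtain ⟨hJP, hf, hev⟩ := tc_isK hJ.1
  cases k with
  | Z => exact frame_Z h2 F hfull hmark h1 hL hJ hk
  | O =>
    refine frame_Z h2 F.rev (full_rev hfull) (marked_rev hmark) (ctx1_rev h1) (ctxL_rev hL)
      (good_rev hJ) ?_
    rcases hk with hk | hk
    · exact Or.inl (linked_rev hJP hf hev hk)
    · exact Or.inr (ctxK_rev hk)
  | P =>
    have hJ' := hJ.1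
    obtain ⟨b1, a1, a2, b2, hb1, ha1, ha2, hb2, s1, s2, t1, t2, hb, ha, e1, e2, e3, n1, n2, n3,
      rfl⟩ := hJ'
    have hsw : Linked F.swap.G F.swap.sg F.swap.P {b1, a1, a2, b2} ∨ F.swap.CtxK Kd.P := by
      rcases hk with hk | hk
      · exact Or.inl (linked_swap hJP hk)
      · exact Or.inr (ctxK_swap hk)
    have eJ : ({b1, a1, a2, b2} : Set V) = {b2, a2, a1, b1} := by
      ext x
      simp only [Set.mem_insert_iff, Set.mem_singleton_iff]
      tauto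
    have hb1' : b1 ∈ F.swap.P := by rw [P_swap]; exact hb1
    have ha1' : a1 ∈ F.swap.P := by rw [P_swap]; exact ha1
    have ha2' : a2 ∈ F.swap.P := by rw [P_swap]; exact ha2
    have hb2' : b2 ∈ F.swap.P := by rw [P_swap]; exact hb2
    rcases p4_patterns F.inv hb1 ha1 ha2 hb2 hb ha e1 e2 e3 n1 n2 n3 with h | h | h | h
    · obtain ⟨q1, q2, q3, q4, q5, q6⟩ := h
      exact ff_P h2 F hfull hmark h1 hL hb1 ha1 ha2 hb2 s1 s2 t1 t2 q1 q2 q3 q4 q5 q6 rfl hJ hk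
    · obtain ⟨q1, q2, q3, q4, q5, q6⟩ := h
      exact ff_P h2 F hfull hmark h1 hL hb2 ha2 ha1 hb1 s2 s1 t2 t1 q1 q2 q3 q4 q5 q6 eJ hJ hk
    · obtain ⟨q1, q2, q3, q4, q5, q6⟩ := h
      exact ff_P h2 F.swap (full_swap hfull) (marked_swap hmark) (ctx1_swap h1) (ctxL_swap hL)
        hb1' ha1' ha2' hb2' ((swap_sg b1).2 s1) ((swap_sg b2).2 s2) (fun h => t1 ((swap_sg a1).1 h))
        (fun h => t2 ((swap_sg a2).1 h)) q1 q2 q3 q4 q5 q6 rfl (good_swap hJ) hsw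
    · obtain ⟨q1, q2, q3, q4, q5, q6⟩ := h
      exact ff_P h2 F.swap (full_swap hfull) (marked_swap hmark) (ctx1_swap h1) (ctxL_swap hL)
        hb2' ha2' ha1' hb1' ((swap_sg b2).2 s2) ((swap_sg b1).2 s1) (fun h => t2 ((swap_sg a2).1 h))
        (fun h => t1 ((swap_sg a1).1 h)) q1 q2 q3 q4 q5 q6 eJ (good_swap hJ) hsw

end Pool.Agent.GD.Frame
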