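import Pool.Agent.GD.NC

set_option autoImplicit false

/-! Module ND: labels: the two halves.

For a, b in {0,1} let T^{a,b} be the graph of the red edges e_i = s(KR.c i, KR.c (i+1)), 0 <= i <= k,
i = a (mod 2) and the blue edges s(KB.c i, KB.c (i+1)), 0 <= i <= k, i = b (mod 2).
Case k even: T false = T^{0,1}, T true = T^{1,0}. Case k odd: T false = T^{0,0}, T true = T^{1,1}. -/

namespace Pool.Agent.GD

variable {V : Type} {H : SimpleGraph V} {red : Set (Sym2 V)} {A : Set V}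

/-- edges of a circuit with index at most `k` of parity `a` -/
def ND_E {E : Set (Sym2 V)} (K : Cyc H E) (k a : ℕ) (u v : V) : Prop :=
  ∃ j ≤ k, j % 2 = a ∧ s(u, v) = s(K.c j, K.c (j + 1))

section circ

variable {E : Set (Sym2 V)} {K : Cyc H E} {k a : ℕ} {u v : V}

lemma ND_E_symm (h : ND_E K k a u v) : ND_E K k a v u := by
  obtain ⟨j, h1, h2, h3⟩ := h
  exact ⟨j, h1, h2, by rw [Sym2.eq_swap]; exact h3⟩

lemma ND_E_mem (h : ND_E K k a u v) : s(u, v) ∈ E := by
  obtain ⟨j, -, -, h3⟩ := h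
  rw [h3]
  exact NBc.mem K j

lemma ND_pos (hK : NBc K A k) {i : ℕ} (hi : i < K.n) : K.r (K.c i) = i := K.inj i hi

lemma ND_E_touch (hK : NBc K A k) (h : ND_E K k a u v) : u ∈ A ∨ v ∈ A := by
  obtain ⟨j, h1, -, h3⟩ := h
  have h4 := hK.hk
  have h5 := hK.hkn
  have key : K.c j ∈ A ∨ K.c (j + 1) ∈ A := by
    rcases Nat.eq_zero_or_pos j with h | h
    · right
      rw [hK.inA (j + 1) (by omega)]
      omega
    · left
      rw [hK.inA j (by omega)]
      omega
  rw [Sym2.eq_iff] at h3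
  rcases h3 with ⟨e1, e2⟩ | ⟨e1, e2⟩
  · rw [e1, e2]
    exact key
  · rw [e1, e2]
    exact key.symm

lemma ND_E_out (hK : NBc K A k) (h : ND_E K k a u v) (hu : u ∈ A) (hv : v ∉ A) :
    (a = 0 ∧ u = K.c 1 ∧ v = K.c 0) ∨ (k % 2 = a ∧ u = K.c k ∧ v = K.c (k + 1)) := by
  obtain ⟨j, h1, h2, h3⟩ := h
  have h4 := hK.hk
  have h5 := hK.hkn
  rw [Sym2.eq_iff] at h3
  rcases h3 with ⟨e1, e2⟩ | ⟨e1, e2⟩
  · rw [e2, hK.inA (j + 1) (by omega)] at hv
    have h6 : j = k := by omega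
    subst h6
    exact Or.inr ⟨h2, e1, e2⟩
  · rw [e2, hK.inA j (by omega)] at hv
    have h6 : j = 0 := by omega
    subst h6
    exact Or.inl ⟨by omega, e1, e2⟩

lemma ND_E_deg (hK : NBc K A k) (ha : a < 2) (hu : u ∈ A) :
    ∃ x, ∀ v, ND_E K k a u v ↔ v = x := by
  have h4 := hK.hk
  have h5 := hK.hkn
  obtain ⟨hr, hc⟩ := hK.on u
  have hi := hK.inA (K.r u) hr
  rw [hc] at hi
  have hi' := hi.1 hu
  by_cases hp : K.r u % 2 = a
  · refine ⟨K.c (K.r u + 1), fun v => ⟨?_, ?_⟩⟩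
    · rintro ⟨j, h1, h2, h3⟩
      rw [Sym2.eq_iff] at h3
      rcases h3 with ⟨e1, e2⟩ | ⟨e1, e2⟩
      · rw [e1, K.inj j (by omega)]
        exact e2
      · exfalso
        rw [e1, K.inj (j + 1) (by omega)] at hp
        omega
    · rintro rfl
      exact ⟨K.r u, hi'.2, hp, by rw [hc]⟩
  · refine ⟨K.c (K.r u - 1), fun v => ⟨?_, ?_⟩⟩
    · rintro ⟨j, h1, h2, h3⟩
      rw [Sym2.eq_iff] at h3
      rcases h3 with ⟨e1, e2⟩ | ⟨e1, e2⟩
      · exfalso
        rw [e1, K.inj j (by omega)] at hp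
        exact hp h2
      · rw [e1, K.inj (j + 1) (by omega), Nat.add_sub_cancel]
        exact e2
    · rintro rfl
      refine ⟨K.r u - 1, by omega, by omega, ?_⟩
      have h6 : K.r u - 1 + 1 = K.r u := by omega
      rw [h6, hc, Sym2.eq_swap]

lemma ND_E_cover (hK : NBc K A k) (ha : a < 2) (h : s(u, v) ∈ E) (huv : u ∈ A ∨ v ∈ A) :
    ND_E K k a u v ∨ ND_E K k (1 - a) u v := by
  have h4 := hK.hk
  have h5 := hK.hkn
  rw [K.edge] at h
  obtain ⟨j, hj, h3⟩ := h
  have hjk : j ≤ k := by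
    have key : K.c j ∈ A ∨ K.c (j + 1) ∈ A := by
      have h6 := h3
      rw [Sym2.eq_iff] at h6
      rcases h6 with ⟨e1, e2⟩ | ⟨e1, e2⟩
      · rw [← e1, ← e2]
        exact huv
      · rw [← e1, ← e2]
        exact huv.symm
    by_contra hcon
    rcases key with h6 | h6
    · exact hK.out (by omega) (by omega) h6
    · exact hK.out (by omega) (by omega) h6
  by_cases hp : j % 2 = a
  · exact Or.inl ⟨j, hjk, hp, h3⟩
  · exact Or.inr ⟨j, hjk, by omega, h3⟩

lemma ND_E_disj (hK : NBc K A k) {b : ℕ} (hab : a ≠ b) (h : ND_E K k a u v)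
    (h' : ND_E K k b u v) : False := by
  have h5 := hK.hkn
  obtain ⟨j, h1, h2, h3⟩ := h
  obtain ⟨j', h1', h2', h3'⟩ := h'
  have h6 := K.edge_inj (i := j) (j := j') (by omega) (by omega) (by rw [← h3, ← h3'])
  rw [← h6] at h2'
  exact hab (h2.symm.trans h2')

end circ

/-- the graph `T^{a,b}` -/
def ND_T (P : Pole H red A) (a b : ℕ) : SimpleGraph V where
  Adj u v := ND_E P.KR P.k a u v ∨ ND_E P.KB P.k b u v
  symm := ⟨fun _ _ h => h.imp ND_E_symm ND_E_symm⟩
  loopless := ⟨fun v h => by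
    rcases h with h | h
    · exact H.irrefl (show H.Adj v v from P.KR.sub (ND_E_mem h))
    · exact H.irrefl (show H.Adj v v from P.KB.sub (ND_E_mem h))⟩

lemma ND_red (P : Pole H red A) {a : ℕ} {u v : V} (h : ND_E P.KR P.k a u v) :
    s(u, v) ∈ H.edgeSet ∧ s(u, v) ∈ red := ND_E_mem h

lemma ND_blue (P : Pole H red A) {a : ℕ} {u v : V} (h : ND_E P.KB P.k a u v) :
    s(u, v) ∈ H.edgeSet ∧ s(u, v) ∉ red := ND_E_mem h

/-- the half with given ends -/
def ND_half (P : Pole H red A) {a b : ℕ} (ha : a < 2) (hb : b < 2) (o i : Bool → V)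
    (hi : ∀ j, i j ∈ A) (ho : ∀ j, o j ∉ A) (hadj : ∀ j, (ND_T P a b).Adj (o j) (i j))
    (hout : ∀ u v, (ND_T P a b).Adj u v → u ∈ A → v ∉ A → ∃ j, u = i j ∧ v = o j)
    (hne : ¬ (i false = i true ∧ o false = o true)) : Half H red A (ND_T P a b) where
  o := o
  i := i
  hi := hi
  ho := ho
  adj := hadj
  out := hout
  ne := hne
  le := fun u v h => by
    rcases h with h | h
    · exact P.KR.sub (ND_E_mem h)
    · exact P.KB.sub (ND_E_mem h)
  touch := fun u v h => by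
    rcases h with h | h
    · exact ND_E_touch P.NBR h
    · exact ND_E_touch P.NBB h
  deg := fun u hu => by
    obtain ⟨x, hx⟩ := ND_E_deg (a := a) P.NBR ha hu
    obtain ⟨y, hy⟩ := ND_E_deg (a := b) P.NBB hb hu
    refine ⟨x, y, fun v => ?_, (ND_red P ((hx x).2 rfl)).2, (ND_blue P ((hy y).2 rfl)).2⟩
    change ND_E P.KR P.k a u v ∨ ND_E P.KB P.k b u v ↔ _
    rw [hx v, hy v]

lemma ND_cover (P : Pole H red A) {a b : ℕ} (ha : a < 2) (hb : b < 2) (u v : V)
    (h : H.Adj u v) (huv : u ∈ A ∨ v ∈ A) :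
    (ND_T P a b).Adj u v ∨ (ND_T P (1 - a) (1 - b)).Adj u v := by
  by_cases hr : s(u, v) ∈ red
  · rcases ND_E_cover (a := a) P.NBR ha (show s(u, v) ∈ RedE H red from ⟨h, hr⟩) huv with h1 | h1
    · exact Or.inl (Or.inl h1)
    · exact Or.inr (Or.inl h1)
  · rcases ND_E_cover (a := b) P.NBB hb (show s(u, v) ∈ BlueE H red from ⟨h, hr⟩) huv with h1 | h1
    · exact Or.inl (Or.inr h1)
    · exact Or.inr (Or.inr h1)

lemma ND_disj (P : Pole H red A) {a b : ℕ} (ha : a < 2) (hb : b < 2) (u v : V)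
    (h : (ND_T P a b).Adj u v) : ¬ (ND_T P (1 - a) (1 - b)).Adj u v := by
  intro h'
  rcases h with h | h <;> rcases h' with h' | h'
  · exact ND_E_disj P.NBR (by omega) h h'
  · exact (ND_blue P h').2 (ND_red P h).2
  · exact (ND_blue P h).2 (ND_red P h').2
  · exact ND_E_disj P.NBB (by omega) h h'

lemma ND_cardA [Finite V] (P : Pole H red A) : 4 ≤ A.ncard := by
  have h1 := P.hk
  have h2 := P.hkn
  have h3 : (P.KR.c '' (Set.Icc 1 P.k)) ⊆ A := by
    rintro _ ⟨j, hj, rfl⟩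
    exact (P.inR j (by have := hj.2; omega)).2 hj
  have h4 : (P.KR.c '' (Set.Icc 1 P.k)).ncard = P.k := by
    rw [Set.ncard_image_of_injOn, Set.ncard_eq_toFinset_card']
    · simp
    · intro i hi j hj hij
      have h5 := P.KR.inj i (by have := hi.2; omega)
      rw [hij, P.KR.inj j (by have := hj.2; omega)] at h5
      exact h5.symm
  have h5 := Set.ncard_le_ncard h3 (Set.toFinite A)
  omega

lemma ND_cardB [Finite V] (P : Pole H red A) : 2 ≤ Aᶜ.ncard := by
  have h1 := P.hk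
  have h2 := P.hkn
  have h3 : ({P.KR.c (P.k + 1), P.KR.c P.KR.n} : Set V) ⊆ Aᶜ := by
    rintro x (rfl | rfl)
    · exact P.NBR.out (by omega) (by omega)
    · exact P.NBR.out (by omega) le_rfl
  have hne : P.KR.c (P.k + 1) ≠ P.KR.c P.KR.n := by
    intro h
    rw [NBc.cn] at h
    have h5 := P.KR.inj (P.k + 1) (by omega)
    rw [h, P.KR.inj 0 (by omega)] at h5
    omega
  have h4 := Set.ncard_le_ncard h3 (Set.toFinite _)
  rw [Set.ncard_pair hne] at h4
  exact h4

section ends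

variable (P : Pole H red A)

lemma ND_n0 : P.KR.c 0 ∉ A ∧ P.KB.c 0 ∉ A := by
  have h1 := P.hkn
  have h2 := P.hn
  rw [P.inR 0 (by omega), P.inB 0 (by omega)]
  omega

lemma ND_n1 : P.KR.c 1 ∈ A ∧ P.KB.c 1 ∈ A := by
  have h1 := P.hkn
  have h2 := P.hk
  rw [P.inR 1 (by omega), P.inB 1 (by omega)]
  omega

lemma ND_nk : P.KR.c P.k ∈ A ∧ P.KB.c P.k ∈ A := by
  have h1 := P.hkn
  have h2 := P.hk
  rw [P.inR P.k (by omega), P.inB P.k (by omega)]
  omega

lemma ND_nk1 : P.KR.c (P.k + 1) ∉ A ∧ P.KB.c (P.k + 1) ∉ A := by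
  have h1 := P.hkn
  rw [P.inR (P.k + 1) (by omega), P.inB (P.k + 1) (by omega)]
  omega

lemma ND_ne {E : Set (Sym2 V)} {K : Cyc H E} {k : ℕ} (hK : NBc K A k) : K.c 1 ≠ K.c k := by
  intro h
  have h1 := hK.hk
  have h2 := hK.hkn
  have h3 := K.inj 1 (by omega)
  rw [h, K.inj k (by omega)] at h3
  omega

lemma ND_rb {i j : ℕ} : s(P.KR.c i, P.KR.c (i + 1)) ≠ s(P.KB.c j, P.KB.c (j + 1)) := by
  intro h
  have h1 : s(P.KR.c i, P.KR.c (i + 1)) ∈ RedE H red := NBc.mem P.KR i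
  have h2 : s(P.KB.c j, P.KB.c (j + 1)) ∈ BlueE H red := NBc.mem P.KB j
  rw [h] at h1
  exact h2.2 h1.2

end ends

/-- choice by a Boolean value -/
def ND_sel (x y : V) : Bool → V := fun b => if b then y else x

lemma ND_swap2 (P : Pole H red A) : s(P.KR.c (P.k + 1), P.KR.c P.k) = P.r2 := Sym2.eq_swap

lemma ND_swapb2 (P : Pole H red A) : s(P.KB.c (P.k + 1), P.KB.c P.k) = P.b2 := Sym2.eq_swap

/-- case `k` even -/
theorem ND_even [Finite V] (P : Pole H red A) (hk2 : P.k % 2 = 0) :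
    Nonempty (TwoHalf H red A) := by
  have hk := P.hk
  have hkn := P.hkn
  let hf0 : Half H red A (ND_T P 0 1) := ND_half P (by norm_num) (by norm_num)
    (ND_sel (P.KR.c 0) (P.KR.c (P.k + 1))) (ND_sel (P.KR.c 1) (P.KR.c P.k))
    (by
      intro j
      cases j
      · exact (ND_n1 P).1
      · exact (ND_nk P).1)
    (by
      intro j
      cases j
      · exact (ND_n0 P).1
      · exact (ND_nk1 P).1)
    (by
      intro j
      cases j
      · exact Or.inl ⟨0, by omega, rfl, rfl⟩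
      · exact Or.inl ⟨P.k, le_rfl, hk2, Sym2.eq_swap⟩)
    (by
      rintro u v (h | h) hu hv
      · rcases ND_E_out P.NBR h hu hv with ⟨-, h1, h2⟩ | ⟨-, h1, h2⟩
        · exact ⟨false, h1, h2⟩
        · exact ⟨true, h1, h2⟩
      · rcases ND_E_out P.NBB h hu hv with ⟨h1, -⟩ | ⟨h1, -⟩
        · omega
        · omega)
    (fun h => ND_ne P.NBR h.1)
  let hf1 : Half H red A (ND_T P 1 0) := ND_half P (by norm_num) (by norm_num)
    (ND_sel (P.KB.c 0) (P.KB.c (P.k + 1))) (ND_sel (P.KB.c 1) (P.KB.c P.k))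
    (by
      intro j
      cases j
      · exact (ND_n1 P).2
      · exact (ND_nk P).2)
    (by
      intro j
      cases j
      · exact (ND_n0 P).2
      · exact (ND_nk1 P).2)
    (by
      intro j
      cases j
      · exact Or.inr ⟨0, by omega, rfl, rfl⟩
      · exact Or.inr ⟨P.k, le_rfl, hk2, Sym2.eq_swap⟩)
    (by
      rintro u v (h | h) hu hv
      · rcases ND_E_out P.NBR h hu hv with ⟨h1, -⟩ | ⟨h1, -⟩
        · omega
        · omega
      · rcases ND_E_out P.NBB h hu hv with ⟨-, h1, h2⟩ | ⟨-, h1, h2⟩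
        · exact ⟨false, h1, h2⟩
        · exact ⟨true, h1, h2⟩)
    (fun h => ND_ne P.NBB h.1)
  refine ⟨{
    T := fun j => match j with
      | false => ND_T P 0 1
      | true => ND_T P 1 0
    hf := fun j => match j with
      | false => hf0
      | true => hf1
    cover := fun u v h huv => ND_cover P (a := 0) (b := 1) (by norm_num) (by norm_num) u v h huv
    disj := fun u v h => ND_disj P (a := 0) (b := 1) (by norm_num) (by norm_num) u v h
    cardA := ND_cardA P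
    cardB := ND_cardB P
    min := P.min
    conB := P.nb_con
    b0 := P.nb_0
    bL := ?_
    bP := ?_
    bZO := ?_ }⟩
  · intro w κ hw h h1 h2 _
    change κ P.r1 ↔ κ s(P.KR.c (P.k + 1), P.KR.c P.k) at h1
    change κ P.b1 ↔ κ s(P.KB.c (P.k + 1), P.KB.c P.k) at h2
    rw [ND_swap2] at h1
    rw [ND_swapb2] at h2
    exact P.nb_L hw h h1 h2
  · intro w κ hw h h1 h2
    change κ P.r1 ↔ κ s(P.KR.c (P.k + 1), P.KR.c P.k) at h1
    change κ P.b1 ↔ κ s(P.KB.c (P.k + 1), P.KB.c P.k) at h2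
    rw [ND_swap2] at h1
    rw [ND_swapb2] at h2
    exact P.nb_L hw h h1 h2
  · by_cases hh : P.Harm1
    · have hh2 : ¬ P.Harm2 := fun h => P.not_both ⟨hh, h⟩
      right
      intro w κ hw h h1 h2
      change κ P.r1 ↔ κ s(P.KB.c (P.k + 1), P.KB.c P.k) at h1
      change κ s(P.KR.c (P.k + 1), P.KR.c P.k) ↔ κ P.b1 at h2
      rw [ND_swapb2] at h1
      rw [ND_swap2] at h2
      exact P.nb_2 hh2 hw h h1 h2
    · left
      intro w κ hw h h1 h2
      change κ P.r1 ↔ κ P.b1 at h1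
      change κ s(P.KR.c (P.k + 1), P.KR.c P.k) ↔ κ s(P.KB.c (P.k + 1), P.KB.c P.k) at h2
      rw [ND_swapb2, ND_swap2] at h2
      exact P.nb_1 hh hw h h1 h2

/-- case `k` odd -/
theorem ND_odd [Finite V] (P : Pole H red A) (hk2 : P.k % 2 = 1) (hh : ¬ P.Harm1) :
    Nonempty (TwoHalf H red A) := by
  have hk := P.hk
  have hkn := P.hkn
  let hf0 : Half H red A (ND_T P 0 0) := ND_half P (by norm_num) (by norm_num)
    (ND_sel (P.KR.c 0) (P.KB.c 0)) (ND_sel (P.KR.c 1) (P.KB.c 1))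
    (by
      intro j
      cases j
      · exact (ND_n1 P).1
      · exact (ND_n1 P).2)
    (by
      intro j
      cases j
      · exact (ND_n0 P).1
      · exact (ND_n0 P).2)
    (by
      intro j
      cases j
      · exact Or.inl ⟨0, by omega, rfl, rfl⟩
      · exact Or.inr ⟨0, by omega, rfl, rfl⟩)
    (by
      rintro u v (h | h) hu hv
      · rcases ND_E_out P.NBR h hu hv with ⟨-, h1, h2⟩ | ⟨h1, -⟩
        · exact ⟨false, h1, h2⟩
        · omega
      · rcases ND_E_out P.NBB h hu hv with ⟨-, h1, h2⟩ | ⟨h1, -⟩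
        · exact ⟨true, h1, h2⟩
        · omega)
    (by
      rintro ⟨h1, h2⟩
      change P.KR.c 1 = P.KB.c 1 at h1
      change P.KR.c 0 = P.KB.c 0 at h2
      apply ND_rb P (i := 0) (j := 0)
      rw [h2, Nat.zero_add, h1])
  let hf1 : Half H red A (ND_T P 1 1) := ND_half P (by norm_num) (by norm_num)
    (ND_sel (P.KR.c (P.k + 1)) (P.KB.c (P.k + 1))) (ND_sel (P.KR.c P.k) (P.KB.c P.k))
    (by
      intro j
      cases j
      · exact (ND_nk P).1
      · exact (ND_nk P).2)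
    (by
      intro j
      cases j
      · exact (ND_nk1 P).1
      · exact (ND_nk1 P).2)
    (by
      intro j
      cases j
      · exact Or.inl ⟨P.k, le_rfl, hk2, Sym2.eq_swap⟩
      · exact Or.inr ⟨P.k, le_rfl, hk2, Sym2.eq_swap⟩)
    (by
      rintro u v (h | h) hu hv
      · rcases ND_E_out P.NBR h hu hv with ⟨h1, -⟩ | ⟨-, h1, h2⟩
        · omega
        · exact ⟨false, h1, h2⟩
      · rcases ND_E_out P.NBB h hu hv with ⟨h1, -⟩ | ⟨-, h1, h2⟩
        · omega
        · exact ⟨true, h1, h2⟩)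
    (by
      rintro ⟨h1, h2⟩
      change P.KR.c P.k = P.KB.c P.k at h1
      change P.KR.c (P.k + 1) = P.KB.c (P.k + 1) at h2
      apply ND_rb P (i := P.k) (j := P.k)
      rw [h1, h2])
  refine ⟨{
    T := fun j => match j with
      | false => ND_T P 0 0
      | true => ND_T P 1 1
    hf := fun j => match j with
      | false => hf0
      | true => hf1
    cover := fun u v h huv => ND_cover P (a := 0) (b := 0) (by norm_num) (by norm_num) u v h huv
    disj := fun u v h => ND_disj P (a := 0) (b := 0) (by norm_num) (by norm_num) u v h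
    cardA := ND_cardA P
    cardB := ND_cardB P
    min := P.min
    conB := P.nb_con
    b0 := P.nb_0
    bL := ?_
    bP := ?_
    bZO := ?_ }⟩
  · intro w κ hw h h1 h2 h3
    change κ P.r1 ↔ κ P.b1 at h1
    change κ s(P.KR.c (P.k + 1), P.KR.c P.k) ↔ κ s(P.KB.c (P.k + 1), P.KB.c P.k) at h2
    change κ P.r1 ↔ κ s(P.KR.c (P.k + 1), P.KR.c P.k) at h3
    rw [ND_swapb2, ND_swap2] at h2
    rw [ND_swap2] at h3
    exact P.nb_L hw h h3 ((h1.symm.trans h3).trans h2)
  · intro w κ hw h h1 h2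
    change κ P.r1 ↔ κ P.b1 at h1
    change κ s(P.KR.c (P.k + 1), P.KR.c P.k) ↔ κ s(P.KB.c (P.k + 1), P.KB.c P.k) at h2
    rw [ND_swapb2, ND_swap2] at h2
    exact P.nb_1 hh hw h h1 h2
  · left
    intro w κ hw h h1 h2
    change κ P.r1 ↔ κ s(P.KR.c (P.k + 1), P.KR.c P.k) at h1
    change κ P.b1 ↔ κ s(P.KB.c (P.k + 1), P.KB.c P.k) at h2
    rw [ND_swap2] at h1
    rw [ND_swapb2] at h2
    exact P.nb_L hw h h1 h2

theorem exists_twoHalf [Finite V] (h2 : TwoReg H red) (P : Pole H red A) :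
    Nonempty (TwoHalf H red A) := by
  obtain ⟨P', hP'⟩ := P.exists_noHarm1
  rcases Nat.mod_two_eq_zero_or_one P'.k with h | h
  · exact ND_even P' h
  · exact ND_odd P' h hP'

end Pool.Agent.GD
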