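import Pool.Agent.GD.RDefs

set_option autoImplicit false

/-! Module RB: circuits with positions. -/

namespace Pool.Agent.GD

open Pool.Agent.MP_1fb45e

variable {V : Type} {H : SimpleGraph V} {E : Set (Sym2 V)}

namespace Cyc

lemma RB_pos (K : Cyc H E) : 0 < K.n := lt_of_lt_of_le (by norm_num) K.hn

lemma RB_c_add_mul (K : Cyc H E) (i q : ℕ) : K.c (i + K.n * q) = K.c i := by
  induction q with
  | zero => simp
  | succ q ih =>
    rw [Nat.mul_succ, ← Nat.add_assoc, K.per, ih]

lemma c_mod (K : Cyc H E) (i : ℕ) : K.c (i % K.n) = K.c i := by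
  have h := K.RB_c_add_mul (i % K.n) (i / K.n)
  rw [Nat.mod_add_div] at h
  exact h.symm

lemma r_c (K : Cyc H E) (i : ℕ) : K.r (K.c i) = i % K.n := by
  rw [← K.c_mod i]
  exact K.inj _ (Nat.mod_lt _ K.RB_pos)

lemma on_c (K : Cyc H E) (i : ℕ) : K.on (K.c i) := by
  refine ⟨?_, ?_⟩
  · rw [K.r_c]; exact Nat.mod_lt _ K.RB_pos
  · rw [K.r_c]; exact K.c_mod i

lemma c_eq (K : Cyc H E) {i j : ℕ} : K.c i = K.c j ↔ i % K.n = j % K.n := by
  constructor
  · intro h
    rw [← K.r_c i, ← K.r_c j, h]
  · intro h
    rw [← K.c_mod i, ← K.c_mod j, h]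

lemma on_iff (K : Cyc H E) {v : V} : K.on v ↔ OnQ E v := by
  constructor
  · rintro ⟨h1, h2⟩
    refine ⟨K.c (K.r v + 1), ?_⟩
    rw [K.edge]
    exact ⟨K.r v, h1, by rw [h2]⟩
  · rintro ⟨a, ha⟩
    rw [K.edge] at ha
    obtain ⟨i, -, hi⟩ := ha
    rw [Sym2.eq_iff] at hi
    rcases hi with ⟨h, -⟩ | ⟨h, -⟩
    · rw [h]; exact K.on_c i
    · rw [h]; exact K.on_c (i + 1)

lemma edge_at (K : Cyc H E) {v a : V} (hv : K.on v) :
    s(v, a) ∈ E ↔ a = K.c (K.r v + 1) ∨ a = K.c (K.r v + K.n - 1) := by
  have hn := K.hn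
  obtain ⟨hr, hc⟩ := hv
  constructor
  · intro h
    rw [K.edge] at h
    obtain ⟨i, hi, h⟩ := h
    rw [Sym2.eq_iff] at h
    rcases h with ⟨h1, h2⟩ | ⟨h1, h2⟩
    · left
      have : K.r v = i := by rw [h1]; exact K.inj i hi
      rw [this, h2]
    · right
      have hrv : K.r v = (i + 1) % K.n := by rw [h1]; exact K.r_c (i + 1)
      rw [h2, K.c_eq]
      by_cases hin : i + 1 < K.n
      · rw [hrv, Nat.mod_eq_of_lt hin]
        have : i + 1 + K.n - 1 = i + K.n := by omega
        rw [this, Nat.add_mod_right]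
      · have hin' : i + 1 = K.n := by omega
        rw [hrv, hin', Nat.mod_self]
        have : 0 + K.n - 1 = i := by omega
        rw [this]
  · rintro (h | h)
    · rw [K.edge]
      exact ⟨K.r v, hr, by rw [h, hc]⟩
    · rw [K.edge]
      by_cases h0 : K.r v = 0
      · refine ⟨K.n - 1, by omega, ?_⟩
        have e1 : K.r v + K.n - 1 = K.n - 1 := by omega
        have e2 : K.n - 1 + 1 = 0 + K.n := by omega
        have e3 : K.c (K.n - 1 + 1) = v := by
          rw [e2, K.per, ← hc, h0]
        rw [h, e1, e3]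
        exact Sym2.eq_swap
      · refine ⟨K.r v - 1, by omega, ?_⟩
        have e1 : K.r v + K.n - 1 = (K.r v - 1) + K.n := by omega
        have e2 : K.r v - 1 + 1 = K.r v := by omega
        rw [h, e1, K.per, e2, hc]
        exact Sym2.eq_swap

lemma two_ne (K : Cyc H E) (i : ℕ) : K.c (i + 1) ≠ K.c (i + K.n - 1) := by
  intro h
  rw [K.c_eq] at h
  have hn := K.hn
  have h1 : i + K.n - 1 = (i + 1) + (K.n - 2) := by omega
  rw [h1] at h
  have h2 : (i + 1) ≡ (i + 1) + (K.n - 2) [MOD K.n] := h
  have h3 : K.n ∣ (i + 1) + (K.n - 2) - (i + 1) := (Nat.modEq_iff_dvd' (by omega)).mp h2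
  have h4 : (i + 1) + (K.n - 2) - (i + 1) = K.n - 2 := by omega
  rw [h4] at h3
  have := Nat.le_of_dvd (by omega) h3
  omega

lemma edge_inj (K : Cyc H E) {i j : ℕ} (hi : i < K.n) (hj : j < K.n)
    (h : s(K.c i, K.c (i + 1)) = s(K.c j, K.c (j + 1))) : i = j := by
  have hn := K.hn
  rw [Sym2.eq_iff] at h
  rcases h with ⟨h, -⟩ | ⟨h1, h2⟩
  · rw [K.c_eq, Nat.mod_eq_of_lt hi, Nat.mod_eq_of_lt hj] at h
    exact h
  · rw [K.c_eq, Nat.mod_eq_of_lt hi] at h1
    rw [K.c_eq, Nat.mod_eq_of_lt hj] at h2
    exfalso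
    by_cases hj1 : j + 1 < K.n
    · rw [Nat.mod_eq_of_lt hj1] at h1
      by_cases hi1 : i + 1 < K.n
      · rw [Nat.mod_eq_of_lt hi1] at h2; omega
      · have : i + 1 = K.n := by omega
        rw [this, Nat.mod_self] at h2; omega
    · have hj2 : j + 1 = K.n := by omega
      rw [hj2, Nat.mod_self] at h1
      by_cases hi1 : i + 1 < K.n
      · rw [Nat.mod_eq_of_lt hi1] at h2; omega
      · have : i + 1 = K.n := by omega
        rw [this, Nat.mod_self] at h2; omega

/-- start at another vertex -/
lemma shift (K : Cyc H E) {z : V} (hz : K.on z) :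
    ∃ K' : Cyc H E, K'.n = K.n ∧ (∀ i, K'.c i = K.c (K.r z + i)) ∧ K'.c 0 = z ∧
      ∀ v, K.on v → K'.r v = cpos K.n (K.r z) (K.r v) := by
  have hn := K.hn
  obtain ⟨hr, hc⟩ := hz
  have key : ∀ i < K.n, cpos K.n (K.r z) ((K.r z + i) % K.n) = i := by
    intro i hi
    unfold cpos
    by_cases h : K.r z + i < K.n
    · rw [Nat.mod_eq_of_lt h, if_pos (by omega)]; omega
    · have h1 : (K.r z + i) % K.n = K.r z + i - K.n := by
        rw [Nat.mod_eq_sub_mod (by omega), Nat.mod_eq_of_lt (by omega)]
      rw [h1, if_neg (by omega)]; omega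
  refine ⟨{ n := K.n, c := fun i => K.c (K.r z + i), r := fun v => cpos K.n (K.r z) (K.r v),
            hn := K.hn, per := ?_, inj := ?_, edge := ?_, sub := K.sub }, rfl, fun _ => rfl, hc,
            fun _ _ => rfl⟩
  · intro i
    change K.c (K.r z + (i + K.n)) = K.c (K.r z + i)
    rw [← Nat.add_assoc, K.per]
  · intro i hi
    change cpos K.n (K.r z) (K.r (K.c (K.r z + i))) = i
    rw [K.r_c]
    exact key i hi
  · intro e
    rw [K.edge]
    constructor
    · rintro ⟨i, hi, he⟩
      by_cases h : K.r z ≤ i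
      · refine ⟨i - K.r z, by omega, ?_⟩
        have e1 : K.r z + (i - K.r z) = i := by omega
        have e2 : K.r z + (i - K.r z + 1) = i + 1 := by omega
        rw [e1, e2]; exact he
      · refine ⟨i + K.n - K.r z, by omega, ?_⟩
        have e1 : K.r z + (i + K.n - K.r z) = i + K.n := by omega
        have e2 : K.r z + (i + K.n - K.r z + 1) = (i + 1) + K.n := by omega
        rw [e1, e2, K.per, K.per]; exact he
    · rintro ⟨i, hi, he⟩
      by_cases h : K.r z + i < K.n
      · exact ⟨K.r z + i, h, he⟩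
      · refine ⟨K.r z + i - K.n, by omega, ?_⟩
        have e1 : K.r z + i = (K.r z + i - K.n) + K.n := by omega
        have e2 : K.r z + (i + 1) = (K.r z + i - K.n + 1) + K.n := by omega
        rw [he, e2, K.per, e1, K.per]
        congr 3 <;> omega

/-- reverse the direction -/
lemma reverse (K : Cyc H E) :
    ∃ K' : Cyc H E, K'.n = K.n ∧ (∀ i ≤ K.n, K'.c i = K.c (K.n - i)) ∧ K'.c 0 = K.c 0 ∧
      ∀ v, K.on v → K'.r v = if K.r v = 0 then 0 else K.n - K.r v := by
  have hn := K.hn
  have hcn : K.c K.n = K.c 0 := by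
    have := K.per 0
    rwa [Nat.zero_add] at this
  have key : ∀ i ≤ K.n, K.c (K.n - i % K.n) = K.c (K.n - i) := by
    intro i hi
    by_cases h : i < K.n
    · rw [Nat.mod_eq_of_lt h]
    · have : i = K.n := by omega
      rw [this, Nat.mod_self, Nat.sub_zero, Nat.sub_self, hcn]
  refine ⟨{ n := K.n, c := fun i => K.c (K.n - i % K.n),
            r := fun v => if K.r v = 0 then 0 else K.n - K.r v,
            hn := K.hn, per := ?_, inj := ?_, edge := ?_, sub := K.sub }, rfl, key, ?_,
            fun _ _ => rfl⟩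
  · intro i
    change K.c (K.n - (i + K.n) % K.n) = K.c (K.n - i % K.n)
    rw [Nat.add_mod_right]
  · intro i hi
    change (if K.r (K.c (K.n - i % K.n)) = 0 then 0 else K.n - K.r (K.c (K.n - i % K.n))) = i
    rw [Nat.mod_eq_of_lt hi, K.r_c]
    by_cases h0 : i = 0
    · rw [h0, Nat.sub_zero, Nat.mod_self, if_pos rfl]
    · rw [Nat.mod_eq_of_lt (show K.n - i < K.n by omega), if_neg (by omega)]
      omega
  · intro e
    rw [K.edge]
    constructor
    · rintro ⟨i, hi, he⟩
      refine ⟨K.n - 1 - i, by omega, ?_⟩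
      rw [key _ (by omega), key _ (by omega)]
      have e1 : K.n - (K.n - 1 - i) = i + 1 := by omega
      have e2 : K.n - (K.n - 1 - i + 1) = i := by omega
      rw [e1, e2, he]
      exact Sym2.eq_swap
    · rintro ⟨i, hi, he⟩
      rw [key _ (by omega), key _ (by omega)] at he
      refine ⟨K.n - 1 - i, by omega, ?_⟩
      have e1 : K.n - 1 - i + 1 = K.n - i := by omega
      have e2 : K.n - 1 - i = K.n - (i + 1) := by omega
      rw [e1, e2, he]
      exact Sym2.eq_swap
  · change K.c (K.n - 0 % K.n) = K.c 0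
    rw [Nat.zero_mod, Nat.sub_zero, hcn]

/-- a function agreeing at all vertices of the circuit but one is constant on the circuit -/
lemma const (K : Cyc H E) (w : V) (κ : Sym2 V → Prop) (h : ∀ v, v ≠ w → AgreeOn E κ v) :
    ConstOn E κ := by
  classical
  have hn := K.hn
  have hmem : ∀ i, s(K.c i, K.c (i + 1)) ∈ E := by
    intro i
    rw [K.edge]
    refine ⟨i % K.n, Nat.mod_lt _ K.RB_pos, ?_⟩
    rw [K.c_mod]
    have : K.c (i % K.n + 1) = K.c (i + 1) := by
      rw [K.c_eq, Nat.mod_add_mod]
    rw [this]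
  have hstep : ∀ i, K.c (i + 1) ≠ w →
      (κ s(K.c i, K.c (i + 1)) ↔ κ s(K.c (i + 1), K.c (i + 1 + 1))) := by
    intro i hi
    have h1 := hmem i
    have h2 := hmem (i + 1)
    rw [Sym2.eq_swap] at h1
    have := h _ hi _ _ h1 h2
    rw [← this]
    rw [Sym2.eq_swap]
  set k : ℕ := if K.on w then K.r w else 0 with hk
  have hkn : k < K.n := by
    by_cases hw : K.on w
    · rw [hk, if_pos hw]; exact hw.1
    · rw [hk, if_neg hw]; exact K.RB_pos
  have hind : ∀ j, j < K.n →
      (κ s(K.c (k + j), K.c (k + j + 1)) ↔ κ s(K.c k, K.c (k + 1))) := by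
    intro j
    induction j with
    | zero => intro _; rfl
    | succ j ih =>
      intro hj
      rw [← ih (by omega)]
      have hne : K.c (k + j + 1) ≠ w := by
        intro hw
        have hon : K.on w := by rw [← hw]; exact K.on_c _
        have hkr : k = K.r w := by rw [hk, if_pos hon]
        have hrw : K.r w = (k + j + 1) % K.n := by rw [← hw]; exact K.r_c _
        rw [← hkr] at hrw
        by_cases h' : k + j + 1 < K.n
        · rw [Nat.mod_eq_of_lt h'] at hrw; omega
        · have h1 : (k + j + 1) % K.n = k + j + 1 - K.n := by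
            rw [Nat.mod_eq_sub_mod (by omega), Nat.mod_eq_of_lt (by omega)]
          rw [h1] at hrw
          omega
      exact (hstep (k + j) hne).symm
  have hall : ∀ e ∈ E, (κ e ↔ κ s(K.c k, K.c (k + 1))) := by
    intro e he
    rw [K.edge] at he
    obtain ⟨i, hi, rfl⟩ := he
    by_cases h' : k ≤ i
    · have := hind (i - k) (by omega)
      have e1 : k + (i - k) = i := by omega
      rw [e1] at this
      exact this
    · have := hind (i + K.n - k) (by omega)
      have e1 : k + (i + K.n - k) = i + K.n := by omega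
      have e2 : i + K.n + 1 = (i + 1) + K.n := by omega
      rw [e1, e2, K.per, K.per] at this
      exact this
  intro e he e' he'
  rw [hall e he, hall e' he']

end Cyc

theorem cyc_of_walk {u : V} (p : H.Walk u u) (hp : p.IsCycle) :
    ∃ K : Cyc H {e | e ∈ p.edges}, K.n = p.length ∧ K.c 0 = u ∧ ∀ v, K.on v ↔ v ∈ p.support := by
  classical
  have h3 := hp.three_le_length
  have hinj : ∀ i j, i < p.length → j < p.length → p.getVert i = p.getVert j → i = j := by
    intro i j hi hj h
    exact hp.getVert_injOn' (show i ≤ p.length - 1 by omega) (show j ≤ p.length - 1 by omega) h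
  let r : V → ℕ := fun v => if h : ∃ i < p.length, p.getVert i = v then h.choose else p.length
  have hr : ∀ i < p.length, r (p.getVert i) = i := by
    intro i hi
    have hex : ∃ j < p.length, p.getVert j = p.getVert i := ⟨i, hi, rfl⟩
    have : r (p.getVert i) = hex.choose := dif_pos hex
    rw [this]
    exact hinj _ _ hex.choose_spec.1 hi hex.choose_spec.2
  have hg : ∀ i ≤ p.length, p.getVert (i % p.length) = p.getVert i := by
    intro i hi
    by_cases h : i < p.length
    · rw [Nat.mod_eq_of_lt h]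
    · have : i = p.length := by omega
      rw [this, Nat.mod_self, p.getVert_zero, p.getVert_length]
  let K : Cyc H {e | e ∈ p.edges} :=
    { n := p.length
      c := fun i => p.getVert (i % p.length)
      r := r
      hn := h3
      per := by
        intro i
        rw [Nat.add_mod_right]
      inj := by
        intro i hi
        rw [hg i hi.le]
        exact hr i hi
      edge := by
        intro e
        constructor
        · intro he
          have he' : e ∈ p.edges := he
          rw [List.mem_iff_getElem] at he'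
          obtain ⟨i, hi, hie⟩ := he'
          have hi' : i < p.length := by
            rw [← p.length_edges]; exact hi
          refine ⟨i, hi', ?_⟩
          rw [hg i hi'.le, hg (i + 1) hi', ← hie, edges_getElem p i hi]
        · rintro ⟨i, hi, he⟩
          rw [hg i hi.le, hg (i + 1) hi] at he
          have hi' : i < p.edges.length := by
            rw [p.length_edges]; exact hi
          change e ∈ p.edges
          rw [he, ← edges_getElem p i hi']
          exact List.getElem_mem hi'
      sub := fun e he => p.edges_subset_edgeSet he }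
  refine ⟨K, rfl, ?_, ?_⟩
  · change p.getVert (0 % p.length) = u
    rw [Nat.zero_mod, p.getVert_zero]
  · intro v
    constructor
    · rintro ⟨-, h2⟩
      rw [← h2]
      exact p.getVert_mem_support _
    · intro hv
      rw [SimpleGraph.Walk.mem_support_iff_exists_getVert] at hv
      obtain ⟨i, hiv, hi⟩ := hv
      have := K.on_c i
      have h2 : K.c i = v := by
        change p.getVert (i % p.length) = v
        rw [hg i hi, hiv]
      rwa [h2] at this

theorem cyc_of_class [Fintype V] {κ : Type} {c : Sym2 V → κ} (D : Cls H c) (hD : D ∈ NT H c)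
    (h2 : ∀ v, Inc H c v D → ((CG H c D.1).neighborSet v).ncard = 2) :
    Nonempty (Cyc H (ClsGraph H c D).edgeSet) := by
  obtain ⟨u, p, hp, hedges, -⟩ := exists_cycle_of_class D hD h2
  obtain ⟨K, -⟩ := cyc_of_walk p hp
  have hset : {e | e ∈ p.edges} = (ClsGraph H c D).edgeSet := by
    ext e
    exact hedges e
  rw [← hset]
  exact ⟨K⟩

end Pool.Agent.GD
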