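import Pool.Agent.GD.NDefs
import Pool.Agent.GD.RB

set_option autoImplicit false

/-! Module NF: some vertex of `A` is not on the trail of one of the halves: uncrossing. -/

namespace Pool.Agent.GD

open Pool.Agent.MP_1fb45e

variable {V : Type} {H : SimpleGraph V} {red : Set (Sym2 V)} {A : Set V}

section trail

variable {T : SimpleGraph V} {hf : Half H red A T} (t : Trail hf)

lemma Trail.on_mem {v : V} (hv : t.on v) : v ∈ A := by
  have := t.inA _ hv.1 hv.2.1
  rwa [hv.2.2] at this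

lemma Trail.nbr {v u : V} (hv : t.on v) :
    T.Adj v u ↔ u = t.d (t.pd v - 1) ∨ u = t.d (t.pd v + 1) := by
  obtain ⟨h1, h2, h3⟩ := hv
  obtain ⟨a, b, hab, -, -⟩ := hf.deg v (t.on_mem ⟨h1, h2, h3⟩)
  have ha : T.Adj v (t.d (t.pd v - 1)) := by
    have := t.adj (t.pd v - 1) (by omega)
    rw [show t.pd v - 1 + 1 = t.pd v by omega, h3] at this
    exact this.symm
  have hb : T.Adj v (t.d (t.pd v + 1)) := by
    have := t.adj (t.pd v) h2
    rwa [h3] at this
  have hne := t.ne2 _ h1 h2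
  constructor
  · intro h
    rcases (hab _).1 ha with e1 | e1 <;> rcases (hab _).1 hb with e2 | e2 <;>
      rcases (hab _).1 h with e3 | e3
    · exact absurd (e1.trans e2.symm) hne
    · exact absurd (e1.trans e2.symm) hne
    · exact Or.inl (e3.trans e1.symm)
    · exact Or.inr (e3.trans e2.symm)
    · exact Or.inr (e3.trans e2.symm)
    · exact Or.inl (e3.trans e1.symm)
    · exact absurd (e1.trans e2.symm) hne
    · exact absurd (e1.trans e2.symm) hne
  · rintro (rfl | rfl)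
    · exact ha
    · exact hb

lemma Trail.on_d {i : ℕ} (h1 : 0 < i) (h2 : i < t.l) : t.on (t.d i) := by
  have := t.hpd i h1 h2
  refine ⟨by rw [this]; exact h1, by rw [this]; exact h2, by rw [this]⟩

lemma Trail.on_of_mem {i : ℕ} (h : t.d i ∈ A) (hi : i ≤ t.l) : t.on (t.d i) := by
  by_cases h0 : i = 0
  · subst h0
    rw [t.d0] at h
    exact absurd h (hf.ho _)
  · by_cases hl : i = t.l
    · subst hl
      rw [t.dl] at h
      exact absurd h (hf.ho _)
    · exact t.on_d (by omega) (by omega)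

lemma Trail.off_nbr {v u : V} (hv : v ∈ A) (hoff : ¬ t.on v) (h : T.Adj v u) :
    u ∈ A ∧ ¬ t.on u := by
  have hl := t.hl
  have huA : u ∈ A := by
    by_contra huA
    obtain ⟨b, hb, -⟩ := hf.out v u h hv huA
    cases b with
    | false =>
      apply hoff
      rw [hb, ← t.d1]
      exact t.on_d (by omega) (by omega)
    | true =>
      apply hoff
      rw [hb, ← t.dl1]
      exact t.on_d (by omega) (by omega)
  refine ⟨huA, fun hu => hoff ?_⟩
  rcases (t.nbr hu).1 h.symm with e | e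
  · rw [e] at hv ⊢
    exact t.on_of_mem hv (by have := hu.2.1; omega)
  · rw [e] at hv ⊢
    exact t.on_of_mem hv (by have := hu.2.1; omega)

/-- a `κ` agreeing at all vertices of `A` except possibly `w` along the trail -/
lemma Trail.prop (κ : Sym2 V → Prop) (w : V)
    (hκ : ∀ i, 0 < i → i < t.l → t.d i ≠ w →
      (κ s(t.d (i - 1), t.d i) ↔ κ s(t.d i, t.d (i + 1)))) (i : ℕ) (hi : i < t.l) :
    (κ s(t.d i, t.d (i + 1)) ↔ κ s(t.d 0, t.d 1)) ∨
    (κ s(t.d i, t.d (i + 1)) ↔ κ s(t.d (t.l - 1), t.d t.l)) := by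
  -- no exceptional index up to i, or none after i
  by_cases hex : ∃ p, 0 < p ∧ p ≤ i ∧ t.d p = w
  · right
    obtain ⟨p, hp0, hpi, hpw⟩ := hex
    have main : ∀ m, i + m < t.l →
        (κ s(t.d i, t.d (i + 1)) ↔ κ s(t.d (i + m), t.d (i + m + 1))) := by
      intro m
      induction m with
      | zero => intro _; exact Iff.rfl
      | succ m ih =>
        intro hm
        rw [ih (by omega)]
        have hne : t.d (i + m + 1) ≠ w := by
          intro e
          have h1 := t.hpd (i + m + 1) (by omega) (by omega)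
          have h2 := t.hpd p hp0 (by omega)
          rw [e] at h1
          rw [hpw] at h2
          omega
        have := hκ (i + m + 1) (by omega) (by omega) hne
        rw [show i + m + 1 - 1 = i + m by omega] at this
        exact this
    have := main (t.l - 1 - i) (by omega)
    rw [show i + (t.l - 1 - i) = t.l - 1 by omega, show t.l - 1 + 1 = t.l by omega] at this
    exact this
  · left
    push Not at hex
    have main : ∀ m, m ≤ i → (κ s(t.d m, t.d (m + 1)) ↔ κ s(t.d 0, t.d 1)) := by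
      intro m
      induction m with
      | zero => intro _; exact Iff.rfl
      | succ m ih =>
        intro hm
        rw [← ih (by omega)]
        have := hκ (m + 1) (by omega) (by omega) (hex (m + 1) (by omega) hm)
        rw [show m + 1 - 1 = m by omega] at this
        exact this.symm
    exact main i le_rfl

/-- without exceptional vertex the two boundary edges have the same value -/
lemma Trail.prop0 (κ : Sym2 V → Prop)
    (hκ : ∀ i, 0 < i → i < t.l → (κ s(t.d (i - 1), t.d i) ↔ κ s(t.d i, t.d (i + 1)))) (i : ℕ)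
    (hi : i < t.l) : κ s(t.d i, t.d (i + 1)) ↔ κ s(t.d 0, t.d 1) := by
  have main : ∀ m, m < t.l → (κ s(t.d m, t.d (m + 1)) ↔ κ s(t.d 0, t.d 1)) := by
    intro m
    induction m with
    | zero => intro _; exact Iff.rfl
    | succ m ih =>
      intro hm
      rw [← ih (by omega)]
      have := hκ (m + 1) (by omega) (by omega)
      rw [show m + 1 - 1 = m by omega] at this
      exact this.symm
  exact main i hi

end trail

/-- two indices among four avoiding two values -/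
lemma NFtwo (f : ℕ → V) (hinj : ∀ i j, i < 4 → j < 4 → f i = f j → i = j) (e e' : V) :
    ∃ i j, i < 4 ∧ j < 4 ∧ i ≠ j ∧ f i ≠ e ∧ f i ≠ e' ∧ f j ≠ e ∧ f j ≠ e' := by
  have h : ∀ x, ∃ p ≤ 4, ∀ i < 4, f i = x → i = p := by
    intro x
    by_cases hx : ∃ p < 4, f p = x
    · obtain ⟨p, hp, hpx⟩ := hx
      exact ⟨p, by omega, fun i hi hix => hinj i p hi hp (hix.trans hpx.symm)⟩
    · push Not at hx
      exact ⟨4, le_rfl, fun i hi hix => absurd hix (hx i hi)⟩
  obtain ⟨p, hp, h1⟩ := h e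
  obtain ⟨q, hq, h2⟩ := h e'
  have : ∃ i j : Fin 4, i ≠ j ∧ (i : ℕ) ≠ p ∧ (i : ℕ) ≠ q ∧ (j : ℕ) ≠ p ∧ (j : ℕ) ≠ q := by
    interval_cases p <;> interval_cases q <;> decide
  obtain ⟨i, j, hij, k1, k2, k3, k4⟩ := this
  exact ⟨i, j, i.2, j.2, fun h => hij (Fin.ext h), fun h => k1 (h1 i i.2 h),
    fun h => k2 (h2 i i.2 h), fun h => k3 (h1 j j.2 h), fun h => k4 (h2 j j.2 h)⟩

section colour

variable (Q : TwoHalf H red A) (t : ∀ j, Trail (Q.hf j))

/-- edges of the half `j` off the trail -/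
def NFOff (j : Bool) (u v : V) : Prop := (Q.T j).Adj u v ∧ u ∈ A ∧ ¬ (t j).on u

lemma NFOff.symm {Q : TwoHalf H red A} {t : ∀ j, Trail (Q.hf j)} {j : Bool} {u v : V}
    (h : NFOff Q t j u v) : NFOff Q t j v u := by
  obtain ⟨h1, h2, h3⟩ := h
  obtain ⟨h4, h5⟩ := (t j).off_nbr h2 h3 h1
  exact ⟨h1.symm, h4, h5⟩

open Classical in
/-- the colouring: `some j` for edges of the half `j` off the trail, `none` for other edges -/
noncomputable def NFc (e : Sym2 V) : Option Bool :=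
  if ∃ u v, e = s(u, v) ∧ NFOff Q t false u v then some false
  else if ∃ u v, e = s(u, v) ∧ NFOff Q t true u v then some true
  else none

lemma NFOff_iff {j : Bool} {a b : V} : (∃ u v, s(a, b) = s(u, v) ∧ NFOff Q t j u v) ↔
    NFOff Q t j a b := by
  constructor
  · rintro ⟨u, v, h, h'⟩
    rw [Sym2.eq_iff] at h
    rcases h with ⟨rfl, rfl⟩ | ⟨rfl, rfl⟩
    · exact h'
    · exact h'.symm
  · exact fun h => ⟨a, b, rfl, h⟩

lemma NFOff_disj {a b : V} (h : NFOff Q t false a b) : ¬ NFOff Q t true a b :=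
  fun h' => Q.disj a b h.1 h'.1

lemma NFc_some {j : Bool} {a b : V} : NFc Q t s(a, b) = some j ↔ NFOff Q t j a b := by
  unfold NFc
  rw [NFOff_iff, NFOff_iff]
  by_cases h0 : NFOff Q t false a b
  · have h1 := NFOff_disj Q t h0
    cases j <;> simp [h0, h1]
  · by_cases h1 : NFOff Q t true a b
    · cases j <;> simp [h0, h1]
    · cases j <;> simp [h0, h1]

lemma NFc_none {a b : V} : NFc Q t s(a, b) = none ↔
    (∀ j, ¬ NFOff Q t j a b) := by
  constructor
  · intro h j hj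
    rw [(NFc_some Q t).2 hj] at h
    cases h
  · intro h
    cases hc : NFc Q t s(a, b) with
    | none => rfl
    | some j => exact absurd ((NFc_some Q t).1 hc) (h j)

lemma NFOff.adj {Q : TwoHalf H red A} {t : ∀ j, Trail (Q.hf j)} {j : Bool} {u v : V}
    (h : NFOff Q t j u v) : H.Adj u v := (Q.hf j).le u v h.1

lemma NFcg {j : Bool} {a b : V} : (CG H (NFc Q t) (some j)).Adj a b ↔ NFOff Q t j a b := by
  constructor
  · rintro ⟨-, h⟩
    exact (NFc_some Q t).1 h
  · intro h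
    exact ⟨h.adj, (NFc_some Q t).2 h⟩

/-- the two neighbours of a vertex off the trail -/
lemma NFnbrs {j : Bool} {v : V} (hv : v ∈ A) (hoff : ¬ (t j).on v) :
    ∃ a b, a ≠ b ∧ (∀ u, NFOff Q t j v u ↔ u = a ∨ u = b) ∧ s(v, a) ∈ red ∧ s(v, b) ∉ red := by
  obtain ⟨a, b, hab, h1, h2⟩ := (Q.hf j).deg v hv
  refine ⟨a, b, ?_, ?_, h1, h2⟩
  · rintro rfl; exact h2 h1
  · intro u
    rw [← hab u]
    exact ⟨fun h => h.1, fun h => ⟨h, hv, hoff⟩⟩

lemma NFnbrSet {j : Bool} {v : V} (hv : v ∈ A) (hoff : ¬ (t j).on v) :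
    ((CG H (NFc Q t) (some j)).neighborSet v).ncard = 2 := by
  obtain ⟨a, b, hab, h, -, -⟩ := NFnbrs Q t hv hoff
  have : (CG H (NFc Q t) (some j)).neighborSet v = {a, b} := by
    ext u
    rw [SimpleGraph.mem_neighborSet, NFcg, h u]
    simp
  rw [this]
  exact Set.ncard_pair hab

/-- the nodes: `none` is the outside with the two trails, `some D` a circuit in `A` -/
def NFN : Set (Option (Cls H (NFc Q t))) :=
  {x | x = none ∨ ∃ D, x = some D ∧ D ∈ NT H (NFc Q t) ∧ ∃ j, D.1 = some j}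

/-- incidence -/
def NFinc (v : V) : Option (Cls H (NFc Q t)) → Prop
  | none => ∃ u, H.Adj v u ∧ NFc Q t s(v, u) = none
  | some D => Inc H (NFc Q t) v D

variable {Q t}

lemma NFinc_off {D : Cls H (NFc Q t)} {j : Bool} (hj : D.1 = some j) {v : V}
    (h : Inc H (NFc Q t) v D) : v ∈ A ∧ ¬ (t j).on v := by
  obtain ⟨⟨w, hw⟩, -⟩ := h
  rw [hj, NFcg] at hw
  exact hw.2

lemma NFcls_unique {D D' : Cls H (NFc Q t)} (h : D.1 = D'.1) {v : V}
    (h1 : Inc H (NFc Q t) v D) (h2 : Inc H (NFc Q t) v D') : D = D' := by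
  obtain ⟨i, C⟩ := D
  obtain ⟨i', C'⟩ := D'
  dsimp only at h
  subst h
  have e1 := h1.2
  have e2 := h2.2
  dsimp only at e1 e2
  rw [← e1, ← e2]

/-- the class of an edge off the trail -/
lemma NFclass {j : Bool} {u v : V} (h : NFOff Q t j u v) :
    ∃ D ∈ NT H (NFc Q t), D.1 = some j ∧ Inc H (NFc Q t) u D ∧ Inc H (NFc Q t) v D ∧
      (ClsGraph H (NFc Q t) D).Adj u v := by
  have h' : (CG H (NFc Q t) (some j)).Adj u v := NFcg Q t |>.2 h
  refine ⟨⟨some j, (CG H (NFc Q t) (some j)).connectedComponentMk u⟩, ⟨u, ⟨v, h'⟩, rfl⟩, rfl,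
    ⟨⟨v, h'⟩, rfl⟩, ⟨⟨u, h'.symm⟩, ?_⟩, ⟨h', rfl⟩⟩
  exact (SimpleGraph.ConnectedComponent.connectedComponentMk_eq_of_adj h').symm

/-- the edge `v u` off the trail belongs to the class of the same label at `v` -/
lemma NFedge {D : Cls H (NFc Q t)} {j : Bool} (hj : D.1 = some j) {v u : V}
    (hi : Inc H (NFc Q t) v D) : (ClsGraph H (NFc Q t) D).Adj v u ↔ NFOff Q t j v u := by
  constructor
  · intro h
    have := h.1
    rw [hj, NFcg] at this
    exact this
  · intro h
    refine ⟨?_, hi.2⟩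
    rw [hj, NFcg]
    exact h

lemma NFinc_adj {D : Cls H (NFc Q t)} {v u : V} (h : (ClsGraph H (NFc Q t) D).Adj v u) :
    Inc H (NFc Q t) v D := ⟨⟨u, h.1⟩, h.2⟩

/-- degree facts at a vertex of a circuit class -/
lemma NFdeg {D : Cls H (NFc Q t)} {j : Bool} (hj : D.1 = some j) {v : V}
    (hi : Inc H (NFc Q t) v D) :
    ∃ a b, a ≠ b ∧ (∀ u, (ClsGraph H (NFc Q t) D).Adj v u ↔ u = a ∨ u = b) ∧
      s(v, a) ∈ red ∧ s(v, b) ∉ red := by
  obtain ⟨h1, h2⟩ := NFinc_off hj hi
  obtain ⟨a, b, hab, h, ha, hb⟩ := NFnbrs Q t h1 h2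
  exact ⟨a, b, hab, fun u => (NFedge hj hi).trans (h u), ha, hb⟩

lemma NFcyc [Fintype V] {D : Cls H (NFc Q t)} (hD : D ∈ NT H (NFc Q t)) {j : Bool}
    (hj : D.1 = some j) : Nonempty (Cyc H (ClsGraph H (NFc Q t) D).edgeSet) := by
  refine cyc_of_class D hD ?_
  intro v hv
  obtain ⟨h1, h2⟩ := NFinc_off hj hv
  rw [hj]
  exact NFnbrSet Q t h1 h2

/-- a circuit class has at least four vertices -/
lemma NFfour [Fintype V] {D : Cls H (NFc Q t)} (hD : D ∈ NT H (NFc Q t)) {j : Bool}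
    (hj : D.1 = some j) (e e' : V) :
    ∃ u v, u ≠ v ∧ u ≠ e ∧ u ≠ e' ∧ v ≠ e ∧ v ≠ e' ∧ Inc H (NFc Q t) u D ∧
      Inc H (NFc Q t) v D := by
  classical
  obtain ⟨K⟩ := NFcyc hD hj
  have hinc : ∀ i, Inc H (NFc Q t) (K.c i) D := by
    intro i
    have h1 := K.on_iff.1 (K.on_c i)
    obtain ⟨a, ha⟩ := h1
    exact NFinc_adj (by rwa [SimpleGraph.mem_edgeSet] at ha)
  have hadj : ∀ i, (ClsGraph H (NFc Q t) D).Adj (K.c i) (K.c (i + 1)) := by
    intro i
    have := (K.edge_at (v := K.c i) (a := K.c (i + 1)) (K.on_c i)).2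
    rw [← SimpleGraph.mem_edgeSet]
    apply this
    left
    rw [K.r_c, K.c_eq, Nat.mod_add_mod]
  have hn := K.hn
  have hn4 : 4 ≤ K.n := by
    by_contra hlt
    have h3 : K.n = 3 := by omega
    -- triangle with alternating colours
    have e01 := hadj 0
    have e12 := hadj 1
    have e20 := hadj 2
    have h30 : K.c (2 + 1) = K.c 0 := by
      have := K.per 0
      rw [h3] at this
      exact this
    rw [h30] at e20
    have key : ∀ x y z : V, Inc H (NFc Q t) x D → (ClsGraph H (NFc Q t) D).Adj x y →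
        (ClsGraph H (NFc Q t) D).Adj x z → y ≠ z → (s(x, y) ∈ red ↔ s(x, z) ∉ red) := by
      intro x y z hx hy hz hyz
      obtain ⟨a, b, hab, h, ha, hb⟩ := NFdeg hj hx
      rcases (h y).1 hy with rfl | rfl <;> rcases (h z).1 hz with rfl | rfl
      · exact absurd rfl hyz
      · exact iff_of_true ha hb
      · exact iff_of_false hb (by simpa using ha)
      · exact absurd rfl hyz
    have n02 : K.c 0 ≠ K.c 2 := by
      intro h
      rw [K.c_eq, h3] at h
      norm_num at h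
    have n01 : K.c 0 ≠ K.c 1 := by
      intro h
      rw [K.c_eq, h3] at h
      norm_num at h
    have n12 : K.c 1 ≠ K.c 2 := by
      intro h
      rw [K.c_eq, h3] at h
      norm_num at h
    have k1 := key (K.c 1) (K.c 0) (K.c 2) (hinc 1) e01.symm e12 n02
    have k2 := key (K.c 2) (K.c 1) (K.c 0) (hinc 2) e12.symm e20 n01.symm
    have k3 := key (K.c 0) (K.c 2) (K.c 1) (hinc 0) e20.symm e01 n12.symm
    rw [Sym2.eq_swap] at k1
    have s1 : s(K.c 1, K.c 2) = s(K.c 2, K.c 1) := Sym2.eq_swap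
    have s2 : s(K.c 2, K.c 0) = s(K.c 0, K.c 2) := Sym2.eq_swap
    rw [s1] at k1
    rw [s2] at k2
    tauto
  have hinj : ∀ i j, i < 4 → j < 4 → K.c i = K.c j → i = j := by
    intro i j hi hj' h
    rw [K.c_eq, Nat.mod_eq_of_lt (by omega), Nat.mod_eq_of_lt (by omega)] at h
    exact h
  obtain ⟨i, j', hi, hj', hij, h1, h2, h3, h4⟩ := NFtwo K.c hinj e e'
  exact ⟨K.c i, K.c j', fun h => hij (hinj _ _ hi hj' h), h1, h2, h3, h4, hinc i, hinc j'⟩

lemma NFinc_none_of_not_mem (h2 : TwoReg H red) {v : V} (hv : v ∉ A) :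
    NFinc Q t v none := by
  have h := h2.r2 v
  have hne : {w | H.Adj v w ∧ s(v, w) ∈ red}.Nonempty := by
    rw [Set.nonempty_iff_ne_empty]
    intro h0
    rw [h0] at h
    simp at h
  obtain ⟨w, hw, -⟩ := hne
  exact ⟨w, hw, (NFc_none Q t).2 fun j hj => hv hj.2.1⟩

lemma NFinc_none_inner (j : Bool) (b : Bool) : NFinc Q t ((Q.hf j).i b) none := by
  refine ⟨(Q.hf j).o b, ((Q.hf j).le _ _ ((Q.hf j).adj b)).symm, (NFc_none Q t).2 fun j' hj' => ?_⟩
  exact (Q.hf j).ho b hj'.symm.2.1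

/-- all edges at a vertex off both trails are coloured -/
lemma NFboth {u w : V} (hw : H.Adj u w) (h0 : u ∈ A) (hf : ¬ (t false).on u)
    (ht : ¬ (t true).on u) : NFc Q t s(u, w) ≠ none := by
  intro h
  rw [NFc_none] at h
  rcases Q.cover u w hw (Or.inl h0) with h' | h'
  · exact h false ⟨h', h0, hf⟩
  · exact h true ⟨h', h0, ht⟩

lemma NFthree [Fintype V] (h2 : TwoReg H red) (Y : Set (Option (Cls H (NFc Q t)))) (e e' : V)
    (hnY : none ∉ Y) (hY : ∃ D ∈ NFN Q t, D ∈ Y) :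
    ∃ v, v ≠ e ∧ v ≠ e' ∧ ∃ D₁ ∈ NFN Q t, ∃ D₂ ∈ NFN Q t, NFinc Q t v D₁ ∧ NFinc Q t v D₂ ∧
      D₁ ∈ Y ∧ D₂ ∉ Y := by
  classical
  by_contra hcon
  push Not at hcon
  set X : Set V := {v | (∃ D ∈ NFN Q t, D ∈ Y ∧ NFinc Q t v D) ∧
    ∀ D ∈ NFN Q t, NFinc Q t v D → D ∈ Y} with hX
  have hnone : (none : Option (Cls H (NFc Q t))) ∈ NFN Q t := Or.inl rfl
  have hXA : X ⊆ A := by
    intro v hv
    by_contra hvA
    exact hnY (hv.2 none hnone (NFinc_none_of_not_mem h2 hvA))
  have hXne : X ≠ A := by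
    intro h
    have h1 : (Q.hf false).i false ∈ X := by rw [h]; exact (Q.hf false).hi false
    exact hnY (h1.2 none hnone (NFinc_none_inner false false))
  have hX2 : 2 ≤ X.ncard := by
    obtain ⟨D, hD, hDY⟩ := hY
    rcases hD with rfl | ⟨D', rfl, hD', j, hj⟩
    · exact absurd hDY hnY
    · obtain ⟨u, v, huv, u1, u2, v1, v2, iu, iv⟩ := NFfour hD' hj e e'
      have hDN : some D' ∈ NFN Q t := Or.inr ⟨D', rfl, hD', j, hj⟩
      have mem : ∀ x, x ≠ e → x ≠ e' → Inc H (NFc Q t) x D' → x ∈ X := by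
        intro x x1 x2 ix
        refine ⟨⟨some D', hDN, hDY, ix⟩, fun D₂ hD₂ i₂ => ?_⟩
        exact hcon x x1 x2 (some D') hDN D₂ hD₂ ix i₂ hDY
      have hsub : ({u, v} : Set V) ⊆ X := by
        rintro x (rfl | rfl)
        · exact mem _ u1 u2 iu
        · exact mem _ v1 v2 iv
      have := Set.ncard_le_ncard hsub (Set.toFinite _)
      rwa [Set.ncard_pair huv] at this
  have hXc : 2 ≤ Xᶜ.ncard :=
    le_trans Q.cardB (Set.ncard_le_ncard (Set.compl_subset_compl.2 hXA) (Set.toFinite _))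
  -- an edge leaving X
  have hedge : ∀ v u, v ∈ X → u ∉ X → H.Adj v u → ∃ j, NFOff Q t j u v ∧ ∃ D ∈ NT H (NFc Q t),
      D.1 = some j ∧ Inc H (NFc Q t) u D ∧ some D ∈ Y := by
    intro v u hv _ hvu
    cases hc : NFc Q t s(v, u) with
    | none => exact absurd (hv.2 none hnone ⟨u, hvu, hc⟩) hnY
    | some j =>
      have hoff := (NFc_some Q t).1 hc
      obtain ⟨D, hD, hDj, i1, i2, -⟩ := NFclass hoff
      exact ⟨j, hoff.symm, D, hD, hDj, i2, hv.2 _ (Or.inr ⟨D, rfl, hD, j, hDj⟩) i1⟩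
  have hend : ∀ v u, v ∈ X → u ∉ X → H.Adj v u → u = e ∨ u = e' := by
    intro v u hv hu hvu
    by_contra hne
    push Not at hne
    obtain ⟨j, -, D, hD, hDj, iu, hDY⟩ := hedge v u hv hu hvu
    have hDN : some D ∈ NFN Q t := Or.inr ⟨D, rfl, hD, j, hDj⟩
    apply hu
    exact ⟨⟨some D, hDN, hDY, iu⟩, fun D₂ hD₂ i₂ => hcon u hne.1 hne.2 (some D) hDN D₂ hD₂ iu i₂ hDY⟩
  have hS : ∀ u, u ∉ X → {v | v ∈ X ∧ H.Adj v u}.ncard ≤ 2 := by
    intro u hu
    by_cases hemp : ∃ v, v ∈ X ∧ H.Adj v u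
    · obtain ⟨v₀, hv₀, hvu₀⟩ := hemp
      obtain ⟨j₀, -, D₀, hD₀, hDj₀, iu₀, hDY₀⟩ := hedge v₀ u hv₀ hu hvu₀
      -- a class at u outside Y
      obtain ⟨D₂, hD₂, i₂, hD₂Y⟩ : ∃ D₂ ∈ NFN Q t, NFinc Q t u D₂ ∧ D₂ ∉ Y := by
        by_contra hno
        push Not at hno
        exact hu ⟨⟨some D₀, Or.inr ⟨D₀, rfl, hD₀, j₀, hDj₀⟩, hDY₀, iu₀⟩, hno⟩
      have hj : ∃ j, ∀ v, v ∈ X → H.Adj v u → NFOff Q t j u v := by
        rcases hD₂ with rfl | ⟨D₂', rfl, hD₂', j₂, hj₂⟩
        · obtain ⟨w, huw, hw⟩ := i₂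
          by_cases hf : (t false).on u
          · refine ⟨true, fun v hv hvu => ?_⟩
            obtain ⟨j, hoff, -⟩ := hedge v u hv hu hvu
            cases j with
            | false => exact absurd hf hoff.2.2
            | true => exact hoff
          · refine ⟨false, fun v hv hvu => ?_⟩
            obtain ⟨j, hoff, -⟩ := hedge v u hv hu hvu
            cases j with
            | false => exact hoff
            | true => exact absurd hw (NFboth huw hoff.2.1 hf hoff.2.2)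
        · refine ⟨!j₂, fun v hv hvu => ?_⟩
          obtain ⟨j, hoff, D, hD, hDj, iu, hDY⟩ := hedge v u hv hu hvu
          by_cases hjj : j = j₂
          · exfalso
            subst hjj
            have := NFcls_unique (hDj.trans hj₂.symm) iu i₂
            exact hD₂Y (this ▸ hDY)
          · have : j = !j₂ := (by decide : ∀ a b : Bool, a ≠ b → a = !b) j j₂ hjj
            exact this ▸ hoff
      obtain ⟨j, hj⟩ := hj
      have hoff := hj v₀ hv₀ hvu₀
      obtain ⟨a, b, hab, h, -, -⟩ := NFnbrs Q t hoff.2.1 hoff.2.2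
      have hsub : {v | v ∈ X ∧ H.Adj v u} ⊆ {a, b} := by
        rintro v ⟨hv, hvu⟩
        exact (h v).1 (hj v hv hvu)
      have := Set.ncard_le_ncard hsub (Set.toFinite _)
      rwa [Set.ncard_pair hab] at this
    · have : {v | v ∈ X ∧ H.Adj v u} = ∅ := by
        ext v
        simp only [Set.mem_ofPred_eq, Set.mem_empty_iff_false, iff_false]
        exact fun h => hemp ⟨v, h⟩
      rw [this]
      simp
  have hS' : ∀ u, {v | v ∈ X ∧ u ∉ X ∧ H.Adj v u}.ncard ≤ 2 := by
    intro u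
    by_cases hu : u ∈ X
    · have : {v | v ∈ X ∧ u ∉ X ∧ H.Adj v u} = ∅ := by
        ext v
        simp [hu]
      rw [this]; simp
    · have : {v | v ∈ X ∧ u ∉ X ∧ H.Adj v u} = {v | v ∈ X ∧ H.Adj v u} := by
        ext v
        simp [hu]
      rw [this]
      exact hS u hu
  have hBd : (Bd H X).ncard ≤ 4 := by
    have hsub : Bd H X ⊆ (fun v => (v, e)) '' {v | v ∈ X ∧ e ∉ X ∧ H.Adj v e} ∪
        (fun v => (v, e')) '' {v | v ∈ X ∧ e' ∉ X ∧ H.Adj v e'} := by
      rintro ⟨v, u⟩ ⟨hv, hu, hvu⟩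
      dsimp only at hv hu hvu
      rcases hend v u hv hu hvu with rfl | rfl
      · exact Or.inl ⟨v, ⟨hv, hu, hvu⟩, rfl⟩
      · exact Or.inr ⟨v, ⟨hv, hu, hvu⟩, rfl⟩
    have h1 := Set.ncard_le_ncard hsub (Set.toFinite _)
    have h2' := Set.ncard_union_le ((fun v => (v, e)) '' {v | v ∈ X ∧ e ∉ X ∧ H.Adj v e})
      ((fun v => (v, e')) '' {v | v ∈ X ∧ e' ∉ X ∧ H.Adj v e'})
    have h3 := Set.ncard_image_le (f := fun v => (v, e))
      (Set.toFinite {v | v ∈ X ∧ e ∉ X ∧ H.Adj v e})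
    have h4 := Set.ncard_image_le (f := fun v => (v, e'))
      (Set.toFinite {v | v ∈ X ∧ e' ∉ X ∧ H.Adj v e'})
    have h5 := hS' e
    have h6 := hS' e'
    omega
  exact Q.min X hXA hXne ⟨hX2, hXc, hBd⟩

/-- edges of the trails are not coloured -/
lemma NFtrail_none (j : Bool) {i : ℕ} (hi : i < (t j).l) :
    NFc Q t s((t j).d i, (t j).d (i + 1)) = none := by
  rw [NFc_none]
  intro j' hj'
  have hadj := (t j).adj i hi
  have hjj : j' = j := by
    by_contra hne
    cases j with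
    | false =>
      have : j' = true := by cases j' <;> simp_all
      subst this
      exact Q.disj _ _ hadj hj'.1
    | true =>
      have : j' = false := by cases j' <;> simp_all
      subst this
      exact Q.disj _ _ hj'.1 hadj
  subst hjj
  exact hj'.2.2 ((t j').on_of_mem hj'.2.1 hi.le)

lemma NFcls_color {D : Cls H (NFc Q t)} {j : Bool} (hj : D.1 = some j) {a b : V}
    (h : s(a, b) ∈ (ClsGraph H (NFc Q t) D).edgeSet) : NFc Q t s(a, b) = some j := by
  rw [SimpleGraph.mem_edgeSet] at h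
  have := h.1.2
  rw [this, hj]

lemma NFcls_mem {D : Cls H (NFc Q t)} {j : Bool} (hj : D.1 = some j) {a b : V}
    (h : s(a, b) ∈ (ClsGraph H (NFc Q t) D).edgeSet) : a ∈ A ∧ b ∈ A := by
  have h1 := (NFc_some Q t).1 (NFcls_color hj h)
  exact ⟨h1.2.1, h1.symm.2.1⟩

lemma NFgood [Fintype V] {D : Cls H (NFc Q t)} (hD : D ∈ NT H (NFc Q t))
    {j : Bool} (hj : D.1 = some j)
    (hno : ∀ (w : V) (K : Set (Option (Cls H (NFc Q t)))), K ⊆ NFN Q t → K.Nonempty →
      some D ∉ K → none ∉ K → ¬ ∀ v, ∀ A' ∈ K, ∀ B' ∈ NFN Q t, B' ∉ K → B' ≠ some D →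
        NFinc Q t v A' → NFinc Q t v B' → v = w) : HasGood H red := by
  classical
  set Q₀ := (ClsGraph H (NFc Q t) D).edgeSet with hQ₀
  refine ⟨Q₀, ⟨?_, ?_, ?_⟩, ?_⟩
  · intro e he
    induction e using Sym2.ind with
    | _ x y =>
      rw [hQ₀, SimpleGraph.mem_edgeSet] at he
      exact he.1.1
  · obtain ⟨v, ⟨w, hw⟩, hv⟩ := hD
    exact ⟨s(v, w), (⟨hw, hv⟩ : (ClsGraph H (NFc Q t) D).Adj v w)⟩
  · rintro v ⟨a, ha⟩
    rw [hQ₀, SimpleGraph.mem_edgeSet] at ha
    obtain ⟨x, y, hxy, h, hx, hy⟩ := NFdeg hj (NFinc_adj ha)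
    refine ⟨x, y, hxy, fun c => ?_, iff_of_true hx hy⟩
    rw [hQ₀, SimpleGraph.mem_edgeSet]
    exact h c
  · intro w κ hag
    have hag' : ∀ v, v ≠ w → AgreeOn (H.edgeSet \ Q₀) κ v := fun v hv => hag v (Or.inl hv)
    -- uncoloured edges are not in Q₀
    have hnone : ∀ a b, H.Adj a b → NFc Q t s(a, b) = none → s(a, b) ∈ H.edgeSet \ Q₀ := by
      intro a b hab hc
      refine ⟨hab, fun h => ?_⟩
      rw [NFcls_color hj h] at hc
      cases hc
    have htrail : ∀ j' i, i < (t j').l →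
        s((t j').d i, (t j').d (i + 1)) ∈ H.edgeSet \ Q₀ := by
      intro j' i hi
      exact hnone _ _ ((Q.hf j').le _ _ ((t j').adj i hi)) (NFtrail_none j' hi)
    have hBag : ∀ v, v ∉ A → v ≠ w → AgreeOn H.edgeSet κ v := by
      intro v hv hvw a b ha hb
      refine hag' v hvw a b ⟨ha, fun h => hv (NFcls_mem hj h).1⟩
        ⟨hb, fun h => hv (NFcls_mem hj h).1⟩
    have hstep : ∀ j' i, 0 < i → i < (t j').l → (t j').d i ≠ w →
        (κ s((t j').d (i - 1), (t j').d i) ↔ κ s((t j').d i, (t j').d (i + 1))) := by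
      intro j' i h0 hi hne
      have e1 := htrail j' (i - 1) (by omega)
      rw [show i - 1 + 1 = i by omega, Sym2.eq_swap] at e1
      have := hag' _ hne _ _ e1 (htrail j' i hi)
      rw [Sym2.eq_swap] at this
      exact this
    have hb0 : ∀ j', s((t j').d 0, (t j').d 1) ∈ EB H A := by
      intro j'
      have hl := (t j').hl
      refine ⟨(htrail j' 0 (by omega)).1, (t j').d 0, by simp, ?_⟩
      rw [(t j').d0]
      exact (Q.hf j').ho false
    have hbl : ∀ j', s((t j').d ((t j').l - 1), (t j').d (t j').l) ∈ EB H A := by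
      intro j'
      have hl := (t j').hl
      have := (htrail j' ((t j').l - 1) (by omega)).1
      rw [show (t j').l - 1 + 1 = (t j').l by omega] at this
      refine ⟨this, (t j').d (t j').l, by simp, ?_⟩
      rw [(t j').dl]
      exact (Q.hf j').ho true
    -- step 1
    have hEB : ConstOn (EB H A) κ := by
      by_cases hw : w ∈ A
      · exact Q.b0 κ fun v hv => hBag v hv (fun e => hv (e ▸ hw))
      · have hpair : ∀ j', (κ s((Q.hf j').o false, (Q.hf j').i false) ↔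
            κ s((Q.hf j').o true, (Q.hf j').i true)) := by
          intro j'
          have hl := (t j').hl
          have := (t j').prop0 κ (fun i h0 hi => hstep j' i h0 hi (by
            intro e
            apply hw
            rw [← e]
            exact (t j').inA i h0 hi)) ((t j').l - 1) (by omega)
          rw [show (t j').l - 1 + 1 = (t j').l by omega, (t j').d0, (t j').d1, (t j').dl1,
            (t j').dl] at this
          rw [← this, Sym2.eq_swap]
        exact Q.bP w κ hw hBag (hpair false) (hpair true)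
    set γ : Prop := κ s((t false).d 0, (t false).d 1) with hγ
    -- step 2
    have hT : ∀ j' i, i < (t j').l → (κ s((t j').d i, (t j').d (i + 1)) ↔ γ) := by
      intro j' i hi
      rcases (t j').prop κ w (hstep j') i hi with h | h
      · exact h.trans (hEB _ (hb0 j') _ (hb0 false))
      · exact h.trans (hEB _ (hbl j') _ (hb0 false))
    -- step 3
    have hN : ∀ a b, H.Adj a b → NFc Q t s(a, b) = none → (κ s(a, b) ↔ γ) := by
      intro a b hab hc
      by_cases ha : a ∈ A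
      · by_cases hb : b ∈ A
        · obtain ⟨j', hj'⟩ : ∃ j', (Q.T j').Adj a b := by
            rcases Q.cover a b hab (Or.inl ha) with h | h
            · exact ⟨false, h⟩
            · exact ⟨true, h⟩
          have hon : (t j').on a := by
            by_contra hoff
            exact (NFc_none Q t).1 hc j' ⟨hj', ha, hoff⟩
          obtain ⟨h1, h2, h3⟩ := id hon
          rcases ((t j').nbr hon).1 hj' with e | e
          · have := hT j' ((t j').pd a - 1) (by omega)
            rw [show (t j').pd a - 1 + 1 = (t j').pd a by omega, h3, ← e, Sym2.eq_swap] at this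
            exact this
          · have := hT j' ((t j').pd a) h2
            rw [h3, ← e] at this
            exact this
        · exact hEB _ ⟨hab, b, by simp, hb⟩ _ (hb0 false)
      · exact hEB _ ⟨hab, a, by simp, ha⟩ _ (hb0 false)
    -- step 4
    have hC : ∀ D₁ ∈ NT H (NFc Q t), ∀ j₁, D₁.1 = some j₁ → D₁ ≠ D →
        ConstOn (ClsGraph H (NFc Q t) D₁).edgeSet κ ∧
        ∀ e ∈ (ClsGraph H (NFc Q t) D₁).edgeSet, e ∈ H.edgeSet \ Q₀ := by
      intro D₁ hD₁ j₁ hj₁ hne
      have hsub : ∀ e ∈ (ClsGraph H (NFc Q t) D₁).edgeSet, e ∈ H.edgeSet \ Q₀ := by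
        intro e he
        induction e using Sym2.ind with
        | _ x y =>
          refine ⟨?_, fun h => hne ?_⟩
          · rw [SimpleGraph.mem_edgeSet] at he
            exact he.1.1
          · rw [hQ₀, SimpleGraph.mem_edgeSet] at h
            rw [SimpleGraph.mem_edgeSet] at he
            rw [cls_eq he, ← cls_eq h]
      obtain ⟨K⟩ := NFcyc hD₁ hj₁
      refine ⟨K.const w κ ?_, hsub⟩
      intro v hv a b ha hb
      exact hag' v hv a b (hsub _ ha) (hsub _ hb)
    -- step 5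
    have hall : ∀ e ∈ H.edgeSet \ Q₀, (κ e ↔ γ) := by
      by_contra hcon
      push Not at hcon
      obtain ⟨e₀, he₀, hne₀⟩ := hcon
      have hne₀' : ¬ (κ e₀ ↔ γ) := by
        intro h
        rcases hne₀ with h' | h'
        · exact h'.2 (h.1 h'.1)
        · exact h'.1 (h.2 h'.2)
      apply hno w {x | ∃ D₁, x = some D₁ ∧ D₁ ∈ NT H (NFc Q t) ∧ (∃ j₁, D₁.1 = some j₁) ∧ D₁ ≠ D ∧
        ∃ e ∈ (ClsGraph H (NFc Q t) D₁).edgeSet, ¬ (κ e ↔ γ)}
      · rintro x ⟨D₁, rfl, h1, h2, -⟩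
        exact Or.inr ⟨D₁, rfl, h1, h2⟩
      · induction e₀ using Sym2.ind with
        | _ x y =>
          have hxy : H.Adj x y := he₀.1
          cases hc : NFc Q t s(x, y) with
          | none => exact absurd (hN x y hxy hc) hne₀'
          | some j₁ =>
            obtain ⟨D₁, hD₁, hj₁, -, -, hadj⟩ := NFclass ((NFc_some Q t).1 hc)
            refine ⟨some D₁, D₁, rfl, hD₁, ⟨j₁, hj₁⟩, ?_, s(x, y), hadj, hne₀'⟩
            rintro rfl
            exact he₀.2 hadj
      · rintro ⟨D₁, h, -, -, hne, -⟩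
        exact hne (Option.some.inj h).symm
      · rintro ⟨D₁, h, -⟩
        cases h
      · rintro v x ⟨D₁, rfl, hD₁, ⟨j₁, hj₁⟩, hne₁, e, he, hκe⟩ B' hB' hB'K hB'D i₁ i₂
        by_contra hvw
        obtain ⟨hconst, hsub⟩ := hC D₁ hD₁ j₁ hj₁ hne₁
        obtain ⟨⟨u₁, hu₁⟩, hv₁⟩ := i₁
        have e1 : s(v, u₁) ∈ (ClsGraph H (NFc Q t) D₁).edgeSet :=
          (⟨hu₁, hv₁⟩ : (ClsGraph H (NFc Q t) D₁).Adj v u₁)
        have k1 : ¬ (κ s(v, u₁) ↔ γ) := fun h => hκe ((hconst e he _ e1).trans h)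
        rcases hB' with rfl | ⟨D₂, rfl, hD₂, j₂, hj₂⟩
        · obtain ⟨u₂, hu₂, hc₂⟩ := i₂
          exact k1 ((hag' v hvw _ _ (hsub _ e1) (hnone _ _ hu₂ hc₂)).trans (hN _ _ hu₂ hc₂))
        · have hne₂ : D₂ ≠ D := fun h => hB'D (by rw [h])
          obtain ⟨-, hsub₂⟩ := hC D₂ hD₂ j₂ hj₂ hne₂
          obtain ⟨⟨u₂, hu₂⟩, hv₂⟩ := i₂
          have e2 : s(v, u₂) ∈ (ClsGraph H (NFc Q t) D₂).edgeSet :=
            (⟨hu₂, hv₂⟩ : (ClsGraph H (NFc Q t) D₂).Adj v u₂)
          have k2 : κ s(v, u₂) ↔ γ := by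
            by_contra h
            exact hB'K ⟨D₂, rfl, hD₂, ⟨j₂, hj₂⟩, hne₂, _, e2, h⟩
          exact k1 ((hag' v hvw _ _ (hsub _ e1) (hsub₂ _ e2)).trans k2)
    intro e he e' he'
    exact (hall e he).trans (hall e' he').symm

end colour

theorem circuits_case [Fintype V] (h2 : TwoReg H red) (Q : TwoHalf H red A)
    (t : ∀ j, Trail (Q.hf j)) (hex : ∃ j, ∃ v ∈ A, ¬ (t j).on v) : HasGood H red := by
  classical
  by_contra hng
  have hfin : Finite (Cls H (NFc Q t)) := by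
    have : ∀ i, Finite ((CG H (NFc Q t) i).ConnectedComponent) := fun i => Quot.finite _
    infer_instance
  refine uncross (NFN Q t) (NFinc Q t) {none} ?_ ?_ ?_ ?_
  · rintro x rfl
    exact Or.inl rfl
  · rintro Y e e' ⟨D, hD, hDY⟩ ⟨D', hD', hD'Y⟩
    by_cases hn : none ∈ Y
    · obtain ⟨v, h1, h2', D₁, hD₁, D₂, hD₂, i1, i2, hY1, hY2⟩ :=
        NFthree (Q := Q) (t := t) h2 Yᶜ e e' (fun h => h hn) ⟨D', hD', hD'Y⟩
      exact ⟨v, h1, h2', D₂, hD₂, D₁, hD₁, i2, i1, not_not.1 hY2, hY1⟩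
    · exact NFthree (Q := Q) (t := t) h2 Y e e' hn ⟨D, hD, hDY⟩
  · obtain ⟨j, v, hv, hoff⟩ := hex
    obtain ⟨a, b, -, h, -, -⟩ := NFnbrs Q t hv hoff
    obtain ⟨D, hD, hj, -⟩ := NFclass ((h a).2 (Or.inl rfl))
    exact ⟨some D, Or.inr ⟨D, rfl, hD, j, hj⟩, by simp⟩
  · intro D hD hDX
    rcases hD with rfl | ⟨D', rfl, hD', j, hj⟩
    · exact absurd rfl hDX
    · by_contra hno
      push Not at hno
      refine hng (NFgood hD' hj ?_)
      intro w K hKN hKn hDK hnK hone
      obtain ⟨v, A', hA', B', hB', hB'K, hB'D, i1, i2, hvw⟩ := hno w K hKN hKn hDK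
        (fun E hE hE0 => hnK (by rw [Set.mem_singleton_iff] at hE0; exact hE0 ▸ hE))
        ⟨none, Or.inl rfl, hnK, by simp⟩
      exact hvw (hone v A' hA' B' hB' hB'K hB'D i1 i2)

end Pool.Agent.GD
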