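import Mathlib

set_option autoImplicit false

/-! Group T: definitions (graph `G`, sign `s`, ground set `W`, observers `e`). -/

namespace Pool.Agent.GD

variable {V Z : Type}

/-- `U` is a module of `G[W]`. -/
def IsMod (G : SimpleGraph V) (W U : Set V) : Prop :=
  U ⊆ W ∧ ∀ w ∈ W, w ∉ U → (∀ u ∈ U, G.Adj w u) ∨ (∀ u ∈ U, ¬ G.Adj w u)

/-- `G[W]` is prime (at least four vertices, only trivial modules). -/
def PrimeOn (G : SimpleGraph V) (W : Set V) : Prop :=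
  4 ≤ W.ncard ∧ ∀ U, IsMod G W U → U.ncard ≤ 1 ∨ U = W

/-- `Q` is the union of two nonempty sets without edges between them. -/
def Disc (G : SimpleGraph V) (Q : Set V) : Prop :=
  ∃ X ⊆ Q, X.Nonempty ∧ (Q \ X).Nonempty ∧ ∀ x ∈ X, ∀ y ∈ Q \ X, ¬ G.Adj x y

/-- `Q` is the union of two nonempty sets with all edges between them. -/
def CoDisc (G : SimpleGraph V) (Q : Set V) : Prop :=
  ∃ X ⊆ Q, X.Nonempty ∧ (Q \ X).Nonempty ∧ ∀ x ∈ X, ∀ y ∈ Q \ X, G.Adj x y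

/-- hub vertex of `J`: outside `J`, with an even number of neighbours in `J` -/
def Hub (G : SimpleGraph V) (J : Set V) (y : V) : Prop :=
  y ∉ J ∧ Even {j ∈ J | G.Adj y j}.ncard

/-- hub observer -/
def HubO (e : V → Z → Prop) (J : Set V) (y : Z) : Prop :=
  Even {j ∈ J | e j y}.ncard

/-- `k` is a twin of `j` with respect to `J` -/
def Tw (G : SimpleGraph V) (s : V → Prop) (J : Set V) (j k : V) : Prop :=
  j ∈ J ∧ k ∉ J ∧ (G.Adj k j ↔ s j) ∧ ∀ i ∈ J, i ≠ j → (G.Adj k i ↔ G.Adj j i)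

/-- `K` is detached for `J` -/
def Det (G : SimpleGraph V) (s : V → Prop) (W : Set V) (e : V → Z → Prop) (J K : Set V) : Prop :=
  K.Nonempty ∧ K ⊆ W ∧ ∀ k ∈ K, ∃ j, Tw G s J j k ∧
    (∀ y ∈ W, y ∉ K → Hub G J y → (G.Adj k y ↔ G.Adj j y)) ∧
    (∀ y, HubO e J y → (e k y ↔ e j y))

/-- the three kinds of circuits -/
inductive Kd
  | Z | O | P
  deriving DecidableEq

/-- `J` is an allowed set of kind `k` inside `W` -/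
def IsK (G : SimpleGraph V) (s : V → Prop) (W : Set V) : Kd → Set V → Prop
  | Kd.Z, J => ∃ p q, p ∈ W ∧ q ∈ W ∧ p ≠ q ∧ ¬ s p ∧ ¬ s q ∧ ¬ G.Adj p q ∧ J = {p, q}
  | Kd.O, J => ∃ p q, p ∈ W ∧ q ∈ W ∧ p ≠ q ∧ s p ∧ s q ∧ G.Adj p q ∧ J = {p, q}
  | Kd.P, J => ∃ b1 a1 a2 b2, b1 ∈ W ∧ a1 ∈ W ∧ a2 ∈ W ∧ b2 ∈ W ∧
      s b1 ∧ s b2 ∧ ¬ s a1 ∧ ¬ s a2 ∧ b1 ≠ b2 ∧ a1 ≠ a2 ∧
      G.Adj b1 a1 ∧ G.Adj a1 a2 ∧ G.Adj a2 b2 ∧ ¬ G.Adj b1 a2 ∧ ¬ G.Adj b1 b2 ∧ ¬ G.Adj a1 b2 ∧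
      J = {b1, a1, a2, b2}

/-- good set of kind `k` -/
def Good (G : SimpleGraph V) (s : V → Prop) (W : Set V) (e : V → Z → Prop) (k : Kd) (J : Set V) :
    Prop :=
  IsK G s W k J ∧ ∀ K, ¬ Det G s W e J K

/-- some vertex of `W` is a hub vertex but not a twin -/
def Linked (G : SimpleGraph V) (s : V → Prop) (W J : Set V) : Prop :=
  ∃ y ∈ W, Hub G J y ∧ ∀ j, ¬ Tw G s J j y

/-- `c`-good: good, and linked if the kind is `c` -/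
def CGood (G : SimpleGraph V) (s : V → Prop) (W : Set V) (e : V → Z → Prop) (c k : Kd)
    (J : Set V) : Prop :=
  Good G s W e k J ∧ (k = c → Linked G s W J)

/-- no observers -/
def noObs : V → Empty → Prop := fun _ y => y.elim

/-- a linked good set in `G[W]` without observers -/
def LG (G : SimpleGraph V) (s : V → Prop) (W : Set V) : Prop :=
  ∃ k J, Good G s W noObs k J ∧ Linked G s W J

/-- a good set of kind `k` in `G[W]` without observers -/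
def GK (G : SimpleGraph V) (s : V → Prop) (W : Set V) (k : Kd) : Prop :=
  ∃ J, Good G s W noObs k J

/-- conclusion of T1, weak form -/
def T1w (G : SimpleGraph V) (s : V → Prop) (W : Set V) : Prop :=
  LG G s W ∨ GK G s W Kd.P ∨ (GK G s W Kd.Z ∧ GK G s W Kd.O)

/-- conclusion of T1, strong form -/
def T1s (G : SimpleGraph V) (s : V → Prop) (W : Set V) : Prop :=
  LG G s W ∨ (GK G s W Kd.Z ∧ GK G s W Kd.O)

/-- every module with at least two vertices is split by an observer -/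
def Sep (G : SimpleGraph V) (W : Set V) (e : V → Z → Prop) : Prop :=
  ∀ U, IsMod G W U → 2 ≤ U.ncard → ∃ y, ∃ u ∈ U, ∃ u' ∈ U, e u y ∧ ¬ e u' y

/-- `Q` has no nonempty set outside which is anticomplete to `Q` and behaves like `Q` -/
def Closed0 (G : SimpleGraph V) (W Q : Set V) : Prop :=
  ∀ K, K.Nonempty → K ⊆ W \ Q → (∀ k ∈ K, ∀ q ∈ Q, ¬ G.Adj k q) →
    ¬ ∀ k ∈ K, ∀ q ∈ Q, ∀ w ∈ W, w ∉ Q → w ∉ K → (G.Adj k w ↔ G.Adj q w)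

/-- `Q` has no nonempty set outside which is complete to `Q` and behaves like `Q` -/
def Closed1 (G : SimpleGraph V) (W Q : Set V) : Prop :=
  ∀ K, K.Nonempty → K ⊆ W \ Q → (∀ k ∈ K, ∀ q ∈ Q, G.Adj k q) →
    ¬ ∀ k ∈ K, ∀ q ∈ Q, ∀ w ∈ W, w ∉ Q → w ∉ K → (G.Adj k w ↔ G.Adj q w)

/-- the exceptional structure: a substituted path `b1 - a1 - a2 - b2` -/
def Exc (G : SimpleGraph V) (s : V → Prop) (W : Set V) : Prop :=
  ∃ (b1 a1 a2 b2 : V) (ρ : V → V), IsK G s W Kd.P {b1, a1, a2, b2} ∧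
    s b1 ∧ s b2 ∧ ¬ s a1 ∧ ¬ s a2 ∧ b1 ≠ b2 ∧ a1 ≠ a2 ∧
    G.Adj b1 a1 ∧ G.Adj a1 a2 ∧ G.Adj a2 b2 ∧ ¬ G.Adj b1 a2 ∧ ¬ G.Adj b1 b2 ∧ ¬ G.Adj a1 b2 ∧
    (∀ v ∈ W, ρ v = b1 ∨ ρ v = a1 ∨ ρ v = a2 ∨ ρ v = b2) ∧
    ρ b1 = b1 ∧ ρ a1 = a1 ∧ ρ a2 = a2 ∧ ρ b2 = b2 ∧
    (∀ u ∈ W, ∀ v ∈ W, ρ u ≠ ρ v → (G.Adj u v ↔ G.Adj (ρ u) (ρ v))) ∧
    (∀ u ∈ W, u ≠ ρ u → (G.Adj u (ρ u) ↔ ¬ s (ρ u)))

/-- the conclusion of the core lemma for one set `Q` -/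
def CLAt (G : SimpleGraph V) (s : V → Prop) (W : Set V) (c : Kd) (Q : Set V) : Prop :=
  (2 ≤ Q.ncard → Disc G Q ∨ CoDisc G Q ∨ (c = Kd.P ∧ Q = W ∧ Exc G s W)) ∧
  (Disc G Q → Closed0 G W Q → ¬ (c = Kd.Z ∧ Q = W) → ∃ r ∈ Q, s r ∧ ∀ u ∈ Q, ¬ G.Adj r u) ∧
  (CoDisc G Q → Closed1 G W Q → ¬ (c = Kd.O ∧ Q = W) →
    ∃ r ∈ Q, ¬ s r ∧ ∀ u ∈ Q, u ≠ r → G.Adj r u)

/-- the hypotheses of the core lemma -/
structure CLHyp (G : SimpleGraph V) (s : V → Prop) (W : Set V) (e : V → Z → Prop) (c : Kd) :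
    Prop where
  sep : Sep G W e
  nogood : ∀ k J, ¬ CGood G s W e c k J
  t1 : ∀ M ⊆ W, PrimeOn G M → T1w G s M ∧ (5 ≤ M.ncard → T1s G s M)

/-- a good single vertex (for the x-pole) -/
def GoodSingle (G : SimpleGraph V) (s : V → Prop) (W : Set V) : Prop :=
  (∃ p ∈ W, ¬ s p ∧ 2 ≤ {v ∈ W | v ≠ p ∧ ¬ G.Adj p v}.ncard ∧
    ¬ Disc G {v ∈ W | v ≠ p ∧ ¬ G.Adj p v}) ∨
  (∃ p ∈ W, s p ∧ 2 ≤ {v ∈ W | G.Adj p v}.ncard ∧ ¬ CoDisc G {v ∈ W | G.Adj p v})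

/-- dual kind -/
def Kd.dual : Kd → Kd
  | Kd.Z => Kd.O
  | Kd.O => Kd.Z
  | Kd.P => Kd.P

/-- dual sign -/
def ns (s : V → Prop) : V → Prop := fun v => ¬ s v

end Pool.Agent.GD
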