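import Pool.Agent.GDT.ASM
import Pool.Agent.GDT.TR

set_option autoImplicit false

/-! Module TL: T1, T1' and the unconditional core lemma. -/

namespace Pool.Agent.GD

variable {V Z : Type} {G : SimpleGraph V} {s : V → Prop} {W : Set V} {e : V → Z → Prop} {c : Kd}

theorem T1 [Finite V] (hW : PrimeOn G W) : T1w G s W ∧ (5 ≤ W.ncard → T1s G s W) := by
  obtain ⟨h1, h2⟩ := GDT.T1 (σ := GDT.sg s) GDT.tr_gr (GDT.tr_prime hW) hW.1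
  refine ⟨?_, fun h5 => ?_⟩
  · rcases h1 with h | h | ⟨h, h'⟩
    · exact Or.inl (GDT.tr_LG h)
    · exact Or.inr (Or.inl (GDT.tr_GP h))
    · exact Or.inr (Or.inr ⟨GDT.tr_GZ h, GDT.tr_GO h'⟩)
  · rcases h2 h5 with h | ⟨h, h'⟩
    · exact Or.inl (GDT.tr_LG h)
    · exact Or.inr ⟨GDT.tr_GZ h, GDT.tr_GO h'⟩

theorem T1' [Finite V] (hW : PrimeOn G W) (h5 : 5 ≤ W.ncard) : LG G s W ∨ GoodSingle G s W := by
  rcases GDT.T1' (σ := GDT.sg s) GDT.tr_gr (GDT.tr_prime hW) h5 with h | h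
  · exact Or.inl (GDT.tr_LG h)
  · exact Or.inr (GDT.tr_GS h)

/-- the core lemma without the hypothesis on prime graphs -/
theorem CL [Finite V] (hsep : Sep G W e) (hno : ∀ k J, ¬ CGood G s W e c k J) :
    ∀ Q, IsMod G W Q → CLAt G s W c Q := by
  intro Q hQ
  obtain ⟨c', rfl⟩ : ∃ c', c = GDT.tk c' := by
    cases c
    · exact ⟨GDT.Kd.Z, rfl⟩
    · exact ⟨GDT.Kd.O, rfl⟩
    · exact ⟨GDT.Kd.P, rfl⟩
  have hno' : ¬ GDT.CG G.Adj (GDT.sg s) W (GDT.obs e) c' := by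
    intro h
    obtain ⟨k, J, h⟩ := GDT.tr_CG h
    exact hno k J h
  obtain ⟨h1, h2, h3⟩ := GDT.CL (σ := GDT.sg s) GDT.tr_gr (GDT.tr_sep hsep) hno' (Q := Q) hQ
  refine ⟨fun hn => ?_, fun hd ht hc => ?_, fun hd ht hc => ?_⟩
  · have hnt : Q.Nontrivial := Set.one_lt_ncard_iff_nontrivial.1 hn
    rcases h1 hnt with h | h | ⟨h, h', h''⟩
    · exact Or.inl (GDT.tr_disc.1 h)
    · exact Or.inr (Or.inl (GDT.tr_codisc.1 h))
    · exact Or.inr (Or.inr ⟨by rw [h]; rfl, h', GDT.tr_Exc h''⟩)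
  · have hne : Q.Nonempty := by
      obtain ⟨X, hX, ⟨x, hx⟩, -⟩ := hd
      exact ⟨x, hX hx⟩
    obtain ⟨v, hv, hs, hv'⟩ := h2 (GDT.tr_disc.2 hd) (GDT.tr_closed0 hQ hne ht)
      (fun h h' => hc ⟨by rw [h]; rfl, h'⟩)
    exact ⟨v, hv, GDT.sg_true.1 hs, hv'⟩
  · have hne : Q.Nonempty := by
      obtain ⟨X, hX, ⟨x, hx⟩, -⟩ := hd
      exact ⟨x, hX hx⟩
    obtain ⟨v, hv, hs, hv'⟩ := h3 (GDT.tr_codisc.2 hd) (GDT.tr_closed1 hQ hne ht)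
      (fun h h' => hc ⟨by rw [h]; rfl, h'⟩)
    exact ⟨v, hv, GDT.sg_false.1 hs, hv'⟩

end Pool.Agent.GD
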