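import Pool.Agent.GD.NF
import Pool.Agent.GD.PR
import Pool.Agent.GD.TL
import Pool.Agent.GD.TCong

set_option autoImplicit false

/-! Module NG0: both trails pass through all vertices of `A`: the frame and its contexts. -/

namespace Pool.Agent.GD

variable {V : Type} {H : SimpleGraph V} {red : Set (Sym2 V)} {A : Set V}

section trail

variable {T : SimpleGraph V} {hf : Half H red A T} (t : Trail hf)

lemma Trail.d0_nmem : t.d 0 ∉ A := by rw [t.d0]; exact hf.ho _

lemma Trail.dl_nmem : t.d t.l ∉ A := by rw [t.dl]; exact hf.ho _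

/-- the edges of the trail are distinct -/
lemma Trail.edge_inj {i j : ℕ} (hi : i < t.l) (hj : j < t.l)
    (h : s(t.d i, t.d (i + 1)) = s(t.d j, t.d (j + 1))) : i = j := by
  have aux : ∀ i j, i < j → j < t.l → s(t.d i, t.d (i + 1)) = s(t.d j, t.d (j + 1)) → False := by
    intro i j hij hj h
    have hjA := t.inA j (by omega) hj
    rw [Sym2.eq_iff] at h
    rcases h with ⟨h1, -⟩ | ⟨h1, h2⟩
    · by_cases h0 : i = 0
      · subst h0
        exact t.d0_nmem (h1 ▸ hjA)
      · have e1 := t.hpd i (by omega) (by omega)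
        have e2 := t.hpd j (by omega) hj
        rw [h1] at e1
        omega
    · have hi1 : i + 1 = j := by
        have e1 := t.hpd (i + 1) (by omega) (by omega)
        have e2 := t.hpd j (by omega) hj
        rw [h2] at e1
        omega
      subst hi1
      have := t.ne2 (i + 1) (by omega) hj
      rw [show i + 1 - 1 = i by omega] at this
      exact this h1
  rcases lt_trichotomy i j with hij | hij | hij
  · exact (aux i j hij hj h).elim
  · exact hij
  · exact (aux j i hij hi h.symm).elim

lemma Trail.alt {i : ℕ} (h0 : 0 < i) (hi : i < t.l) :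
    (s(t.d (i - 1), t.d i) ∈ red ↔ s(t.d i, t.d (i + 1)) ∉ red) := by
  obtain ⟨a, b, hab, ha, hb⟩ := hf.deg (t.d i) (t.inA i h0 hi)
  have h1 := t.adj (i - 1) (by omega)
  rw [show i - 1 + 1 = i by omega] at h1
  have h2 := t.adj i hi
  have hne := t.ne2 i h0 hi
  rw [Sym2.eq_swap]
  rcases (hab _).1 h1.symm with e1 | e1 <;> rcases (hab _).1 h2 with e2 | e2
  · exact absurd (e1.trans e2.symm) hne
  · rw [e1, e2]; exact iff_of_true ha hb
  · rw [e1, e2]; exact iff_of_false hb (by simpa using ha)
  · exact absurd (e1.trans e2.symm) hne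

end trail

variable (Q : TwoHalf H red A) (t : ∀ j, Trail (Q.hf j))

/-- the frame -/
def NGF : Frame H red where
  l := (t false).l
  m := (t true).l
  d := (t false).d
  f := (t true).d
  pd := (t false).pd
  pf := (t true).pd
  hl := (t false).hl
  hm := (t true).hl
  adjd := fun i hi => (Q.hf false).le _ _ ((t false).adj i hi)
  adjf := fun i hi => (Q.hf true).le _ _ ((t true).adj i hi)
  hpd := (t false).hpd
  hpf := (t true).hpd
  d0D := fun i h0 hi => by
    have h := (t false).inA i h0 hi
    refine ⟨fun e => (t false).d0_nmem (e ▸ h), fun e => (t false).dl_nmem (e ▸ h),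
      fun e => (t true).d0_nmem (e ▸ h), fun e => (t true).dl_nmem (e ▸ h)⟩
  f0F := fun i h0 hi => by
    have h := (t true).inA i h0 hi
    refine ⟨fun e => (t false).d0_nmem (e ▸ h), fun e => (t false).dl_nmem (e ▸ h),
      fun e => (t true).d0_nmem (e ▸ h), fun e => (t true).dl_nmem (e ▸ h)⟩
  edd := fun _ hi _ hj h => (t false).edge_inj hi hj h
  eff := fun _ hi _ hj h => (t true).edge_inj hi hj h
  edf := fun i hi j hj h => by
    have h1 := (t false).adj i hi
    have h2 := (t true).adj j hj
    rw [Sym2.eq_iff] at h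
    rcases h with ⟨e1, e2⟩ | ⟨e1, e2⟩
    · rw [e1, e2] at h1
      exact Q.disj _ _ h1 h2
    · rw [e1, e2] at h1
      exact Q.disj _ _ h1.symm h2
  altd := fun _ h0 hi => (t false).alt h0 hi
  altf := fun _ h0 hi => (t true).alt h0 hi

variable {Q t}

lemma NG_IntD {v : V} : (NGF Q t).IntD v ↔ (t false).on v := Iff.rfl

lemma NG_IntF {v : V} : (NGF Q t).IntF v ↔ (t true).on v := Iff.rfl

section all

variable (hall : ∀ j, ∀ v ∈ A, (t j).on v)
include hall

lemma NG_P : (NGF Q t).P = A := by
  ext v
  constructor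
  · rintro ⟨h1, -⟩
    exact (t false).on_mem h1
  · exact fun hv => ⟨hall false v hv, hall true v hv⟩

lemma NG_full : (NGF Q t).Full := by
  intro v hv a hva
  rw [NG_P hall] at hv
  rcases Q.cover v a hva (Or.inl hv) with h | h
  · left
    obtain ⟨h1, h2, h3⟩ := hall false v hv
    rcases ((t false).nbr (hall false v hv)).1 h with e | e
    · refine ⟨(t false).pd v - 1, ?_, ?_⟩
      · show (t false).pd v - 1 < (t false).l
        omega
      · show s(v, a) = s((t false).d ((t false).pd v - 1), (t false).d ((t false).pd v - 1 + 1))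
        rw [show (t false).pd v - 1 + 1 = (t false).pd v by omega, h3, ← e, Sym2.eq_swap]
    · refine ⟨(t false).pd v, h2, ?_⟩
      show s(v, a) = s((t false).d ((t false).pd v), (t false).d ((t false).pd v + 1))
      rw [h3, ← e]
  · right
    obtain ⟨h1, h2, h3⟩ := hall true v hv
    rcases ((t true).nbr (hall true v hv)).1 h with e | e
    · refine ⟨(t true).pd v - 1, ?_, ?_⟩
      · show (t true).pd v - 1 < (t true).l
        omega
      · show s(v, a) = s((t true).d ((t true).pd v - 1), (t true).d ((t true).pd v - 1 + 1))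
        rw [show (t true).pd v - 1 + 1 = (t true).pd v by omega, h3, ← e, Sym2.eq_swap]
    · refine ⟨(t true).pd v, h2, ?_⟩
      show s(v, a) = s((t true).d ((t true).pd v), (t true).d ((t true).pd v + 1))
      rw [h3, ← e]

lemma NG_marked : (NGF Q t).Marked := by
  refine ⟨fun v h1 h2 => absurd (hall true v ?_) h2, fun v h1 h2 => absurd (hall false v ?_) h2⟩
  · exact (t false).on_mem h1
  · exact (t true).on_mem h1

lemma NG_out : (NGF Q t).Out = EB H A := by
  have hl0 := (t false).hl
  have hl1 := (t true).hl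
  ext e
  constructor
  · rintro ⟨he, h⟩
    rcases h with ⟨h1, h2⟩ | rfl | rfl | rfl | rfl
    · refine ⟨he, ?_⟩
      induction e using Sym2.ind with
      | _ x y =>
        by_contra hcon
        push Not at hcon
        have hx : x ∈ A := hcon x (by simp)
        rcases NG_full hall x (by rw [NG_P hall]; exact hx) y he with h | h
        · exact h1 h
        · exact h2 h
    · exact ⟨he, (t false).d 0, by simp [Frame.ed0, NGF], (t false).d0_nmem⟩
    · exact ⟨he, (t false).d (t false).l, by simp [Frame.edl, NGF], (t false).dl_nmem⟩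
    · exact ⟨he, (t true).d 0, by simp [Frame.ef0, NGF], (t true).d0_nmem⟩
    · exact ⟨he, (t true).d (t true).l, by simp [Frame.efm, NGF], (t true).dl_nmem⟩
  · rintro ⟨he, v, hv, hvA⟩
    refine ⟨he, ?_⟩
    by_cases h1 : e ∈ (NGF Q t).ED
    · right
      obtain ⟨i, hi, rfl⟩ := h1
      have hi' : i < (t false).l := hi
      have hv' : v = (NGF Q t).d i ∨ v = (NGF Q t).d (i + 1) := by
        simpa using hv
      change v = (t false).d i ∨ v = (t false).d (i + 1) at hv'
      by_cases h0 : i = 0
      · subst h0; exact Or.inl rfl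
      · by_cases h2 : i + 1 = (t false).l
        · right; left
          show s((t false).d i, (t false).d (i + 1)) =
            s((t false).d ((t false).l - 1), (t false).d (t false).l)
          rw [← h2]
          rfl
        · exfalso
          rcases hv' with rfl | rfl
          · exact hvA ((t false).inA i (by omega) hi')
          · exact hvA ((t false).inA (i + 1) (by omega) (by omega))
    · by_cases h2 : e ∈ (NGF Q t).EF
      · right; right; right
        obtain ⟨i, hi, rfl⟩ := h2
        have hi' : i < (t true).l := hi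
        have hv' : v = (NGF Q t).f i ∨ v = (NGF Q t).f (i + 1) := by
          simpa using hv
        change v = (t true).d i ∨ v = (t true).d (i + 1) at hv'
        by_cases h0 : i = 0
        · subst h0; exact Or.inl rfl
        · by_cases h2 : i + 1 = (t true).l
          · right
            show s((t true).d i, (t true).d (i + 1)) =
              s((t true).d ((t true).l - 1), (t true).d (t true).l)
            rw [← h2]
            rfl
          · exfalso
            rcases hv' with rfl | rfl
            · exact hvA ((t true).inA i (by omega) hi')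
            · exact hvA ((t true).inA (i + 1) (by omega) (by omega))
      · exact Or.inl ⟨h1, h2⟩

/-- agreement outside `A` -/
lemma NG_ag {κ : Sym2 V → Prop} {v : V} (hv : v ∉ A) (h : AgreeOn (NGF Q t).Out κ v) :
    AgreeOn H.edgeSet κ v := by
  rw [NG_out hall] at h
  intro a b ha hb
  exact h a b ⟨ha, v, by simp, hv⟩ ⟨hb, v, by simp, hv⟩

lemma NG_ctx1 : (NGF Q t).Ctx1 := by
  intro w hw κ hκ
  have hwA : w ∈ A := by
    rcases hw with hw | hw
    · exact (t false).on_mem hw
    · exact (t true).on_mem hw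
  rw [NG_out hall]
  exact Q.b0 κ fun v hv => NG_ag hall hv (hκ v (fun e => hv (e ▸ hwA)))

lemma NG_wout {w : V} (h1 : ¬ (NGF Q t).IntD w) : w ∉ A := fun h => h1 (hall false w h)

omit hall in
lemma NG_ed0 : (NGF Q t).ed0 = s((Q.hf false).o false, (Q.hf false).i false) := by
  show s((t false).d 0, (t false).d 1) = _
  rw [(t false).d0, (t false).d1]

omit hall in
lemma NG_edl : (NGF Q t).edl = s((Q.hf false).o true, (Q.hf false).i true) := by
  show s((t false).d ((t false).l - 1), (t false).d (t false).l) = _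
  rw [(t false).dl1, (t false).dl, Sym2.eq_swap]

omit hall in
lemma NG_ef0 : (NGF Q t).ef0 = s((Q.hf true).o false, (Q.hf true).i false) := by
  show s((t true).d 0, (t true).d 1) = _
  rw [(t true).d0, (t true).d1]

omit hall in
lemma NG_efm : (NGF Q t).efm = s((Q.hf true).o true, (Q.hf true).i true) := by
  show s((t true).d ((t true).l - 1), (t true).d (t true).l) = _
  rw [(t true).dl1, (t true).dl, Sym2.eq_swap]

lemma NG_ctxL : (NGF Q t).CtxL := by
  intro w hw1 _ κ hκ h1 h2 h3
  rw [NG_ed0, NG_edl] at h1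
  rw [NG_ef0, NG_efm] at h2
  rw [NG_ed0, NG_ef0] at h3
  rw [NG_out hall]
  exact Q.bL w κ (NG_wout hall hw1) (fun v hv hvw => NG_ag hall hv (hκ v hvw)) h1 h2 h3

lemma NG_ctxP : (NGF Q t).CtxK Kd.P := by
  intro w hw1 _ κ hκ h1 h2
  rw [NG_ed0, NG_edl] at h1
  rw [NG_ef0, NG_efm] at h2
  rw [NG_out hall]
  exact Q.bP w κ (NG_wout hall hw1) (fun v hv hvw => NG_ag hall hv (hκ v hvw)) h1 h2

lemma NG_ctxZO : (NGF Q t).CtxK Kd.Z ∨ (NGF Q t).CtxK Kd.O := by
  rcases Q.bZO with hZ | hO
  · left
    intro w hw1 _ κ hκ h1 h2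
    rw [NG_ed0, NG_ef0] at h1
    rw [NG_edl, NG_efm] at h2
    rw [NG_out hall]
    exact hZ w κ (NG_wout hall hw1) (fun v hv hvw => NG_ag hall hv (hκ v hvw)) h1 h2
  · right
    intro w hw1 _ κ hκ h1 h2
    rw [NG_ed0, NG_efm] at h1
    rw [NG_edl, NG_ef0] at h2
    rw [NG_out hall]
    exact hO w κ (NG_wout hall hw1) (fun v hv hvw => NG_ag hall hv (hκ v hvw)) h1 h2

/-- a common interval different from `A` is a smaller cut -/
lemma NG_noInterval [Finite V] {X : Set V} (hXA : X ⊆ A) (h2 : 2 ≤ X.ncard)
    (hc : ∀ j, Conv A X (t j).pd) : X = A := by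
  by_contra hne
  refine Q.min X hXA hne ⟨h2, le_trans Q.cardB (Set.ncard_le_ncard
    (Set.compl_subset_compl.2 hXA) (Set.toFinite _)), ?_⟩
  -- the boundary pairs
  have hup : ∀ j v v', v ∈ X → v' ∈ X → (t j).d ((t j).pd v + 1) ∉ X →
      ¬ (t j).pd v < (t j).pd v' := by
    intro j v v' hv hv' hu hlt
    have o1 := hall j v (hXA hv)
    have o2 := hall j v' (hXA hv')
    by_cases h : (t j).pd v + 1 = (t j).pd v'
    · rw [h, o2.2.2] at hu
      exact hu hv'
    · have h3 := o2.2.1
      have hA := (t j).inA ((t j).pd v + 1) (by omega) (by omega)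
      have hp := (t j).hpd ((t j).pd v + 1) (by omega) (by omega)
      exact hu (hc j v hv v' hv' _ hA (by rw [hp]; omega) (by rw [hp]; omega))
  have hdn : ∀ j v v', v ∈ X → v' ∈ X → (t j).d ((t j).pd v - 1) ∉ X →
      ¬ (t j).pd v' < (t j).pd v := by
    intro j v v' hv hv' hu hlt
    have o1 := hall j v (hXA hv)
    have o2 := hall j v' (hXA hv')
    have h3 := o1.2.1
    have h4 := o2.1
    by_cases h : (t j).pd v - 1 = (t j).pd v'
    · rw [h, o2.2.2] at hu
      exact hu hv'
    · have hA := (t j).inA ((t j).pd v - 1) (by omega) (by omega)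
      have hp := (t j).hpd ((t j).pd v - 1) (by omega) (by omega)
      exact hu (hc j v' hv' v hv _ hA (by rw [hp]; omega) (by rw [hp]; omega))
  let U : Bool → Set (V × V) := fun j =>
    {p | p.1 ∈ X ∧ p.2 ∉ X ∧ p.2 = (t j).d ((t j).pd p.1 + 1)}
  let L : Bool → Set (V × V) := fun j =>
    {p | p.1 ∈ X ∧ p.2 ∉ X ∧ p.2 = (t j).d ((t j).pd p.1 - 1)}
  have hU : ∀ j, (U j).ncard ≤ 1 := by
    intro j
    rw [Set.ncard_le_one (Set.toFinite _)]
    rintro ⟨v, u⟩ ⟨h1, h2, h3⟩ ⟨v', u'⟩ ⟨h1', h2', h3'⟩
    dsimp only at h1 h2 h3 h1' h2' h3'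
    have k1 := hup j v v' h1 h1' (h3 ▸ h2)
    have k2 := hup j v' v h1' h1 (h3' ▸ h2')
    have hpp : (t j).pd v = (t j).pd v' := by omega
    have hvv : v = v' := by
      rw [← (hall j v (hXA h1)).2.2, ← (hall j v' (hXA h1')).2.2, hpp]
    subst hvv
    rw [h3, h3']
  have hL : ∀ j, (L j).ncard ≤ 1 := by
    intro j
    rw [Set.ncard_le_one (Set.toFinite _)]
    rintro ⟨v, u⟩ ⟨h1, h2, h3⟩ ⟨v', u'⟩ ⟨h1', h2', h3'⟩
    dsimp only at h1 h2 h3 h1' h2' h3'
    have k1 := hdn j v v' h1 h1' (h3 ▸ h2)
    have k2 := hdn j v' v h1' h1 (h3' ▸ h2')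
    have hpp : (t j).pd v = (t j).pd v' := by omega
    have hvv : v = v' := by
      rw [← (hall j v (hXA h1)).2.2, ← (hall j v' (hXA h1')).2.2, hpp]
    subst hvv
    rw [h3, h3']
  have hsub : Bd H X ⊆ (U false ∪ L false) ∪ (U true ∪ L true) := by
    rintro ⟨v, u⟩ ⟨hv, hu, hvu⟩
    dsimp only at hv hu hvu
    rcases Q.cover v u hvu (Or.inl (hXA hv)) with h | h
    · left
      rcases ((t false).nbr (hall false v (hXA hv))).1 h with e | e
      · exact Or.inr ⟨hv, hu, e⟩
      · exact Or.inl ⟨hv, hu, e⟩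
    · right
      rcases ((t true).nbr (hall true v (hXA hv))).1 h with e | e
      · exact Or.inr ⟨hv, hu, e⟩
      · exact Or.inl ⟨hv, hu, e⟩
  have h1 := Set.ncard_le_ncard hsub (Set.toFinite _)
  have h3 := Set.ncard_union_le (U false ∪ L false) (U true ∪ L true)
  have h4 := Set.ncard_union_le (U false) (L false)
  have h5 := Set.ncard_union_le (U true) (L true)
  have h6 := hU false
  have h7 := hU true
  have h8 := hL false
  have h9 := hL true
  omega

lemma NG_inv : Inv (NGF Q t).G A (t false).pd (t true).pd where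
  ia := fun u hu v hv h => by
    rw [← (hall false u hu).2.2, ← (hall false v hv).2.2, h]
  ib := fun u hu v hv h => by
    rw [← (hall true u hu).2.2, ← (hall true v hv).2.2, h]
  adj := fun u hu v hv => by
    constructor
    · intro h
      exact h.2.2
    · intro h
      refine ⟨?_, ?_, h⟩
      · rw [NG_P hall]; exact hu
      · rw [NG_P hall]; exact hv

lemma NG_prime [Finite V] : PrimeOn (NGF Q t).G (NGF Q t).P := by
  rw [NG_P hall]
  refine primeOn_of_noInterval (NG_inv hall) Q.cardA ?_
  intro X hX h2 h3 h4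
  exact NG_noInterval hall hX h2 (fun j => by cases j <;> assumption)

omit hall in
/-- no observers -/
lemma NG_good {k : Kd} {J : Set V} (h : Good (NGF Q t).G (NGF Q t).sg (NGF Q t).P noObs k J) :
    Good (NGF Q t).G (NGF Q t).sg (NGF Q t).P (NGF Q t).ob k J := by
  refine ⟨h.1, fun K hK => h.2 K ?_⟩
  obtain ⟨h1, h2, h3⟩ := hK
  refine ⟨h1, h2, fun k hk => ?_⟩
  obtain ⟨j, h4, h5, -⟩ := h3 k hk
  exact ⟨j, h4, h5, fun y => y.elim⟩

end all

end Pool.Agent.GD
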