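import Pool.Agent.GD.NE
import Pool.Agent.GD.FF
import Pool.Agent.GD.TL
import Pool.Agent.GD.NG0

set_option autoImplicit false

/-! Module NG: both trails pass through all vertices of `A`: frame theorem. -/

namespace Pool.Agent.GD

variable {V : Type} {H : SimpleGraph V} {red : Set (Sym2 V)} {A : Set V}

theorem frame_case [Fintype V] (h2 : TwoReg H red) (Q : TwoHalf H red A)
    (t : ∀ j, Trail (Q.hf j)) (hall : ∀ j, ∀ v ∈ A, (t j).on v) : HasGood H red := by
  have hp : PrimeOn (NGF Q t).G (NGF Q t).P := NG_prime hall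
  have key : ∀ {k : Kd} {J : Set V}, Good (NGF Q t).G (NGF Q t).sg (NGF Q t).P noObs k J →
      Linked (NGF Q t).G (NGF Q t).sg (NGF Q t).P J ∨ (NGF Q t).CtxK k → HasGood H red :=
    fun hJ hk => Frame.frame_theorem h2 (NGF Q t) (NG_full hall) (NG_marked hall) (NG_ctx1 hall)
      (NG_ctxL hall) (NG_good hJ) hk
  rcases (T1 (s := (NGF Q t).sg) hp).1 with ⟨k, J, hJ, hl⟩ | ⟨J, hJ⟩ | ⟨⟨J, hJ⟩, ⟨J', hJ'⟩⟩
  · exact key hJ (Or.inl hl)
  · exact key hJ (Or.inr (NG_ctxP hall))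
  · rcases NG_ctxZO (Q := Q) (t := t) hall with h | h
    · exact key hJ (Or.inr h)
    · exact key hJ' (Or.inr h)

end Pool.Agent.GD
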