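import Pool.Agent.GD.NA
import Pool.Agent.GD.ND
import Pool.Agent.GD.NF
import Pool.Agent.GD.NG

set_option autoImplicit false

/-! Module NH: the non-prime case. -/

namespace Pool.Agent.GD

variable {V : Type} {H : SimpleGraph V} {red : Set (Sym2 V)}

theorem nonprime [Fintype V] (h2 : TwoReg H red) (KR : Cyc H (RedE H red))
    (KB : Cyc H (BlueE H red)) (hR : ∀ v, KR.on v) (hB : ∀ v, KB.on v) (hnp : ¬ PrimeH H) :
    HasGood H red := by
  obtain ⟨A, ⟨P⟩⟩ := exists_pole h2 KR KB hR hB hnp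
  obtain ⟨Q⟩ := exists_twoHalf h2 P
  have t : ∀ j, Trail (Q.hf j) := fun j => (exists_trail (Q.hf j)).some
  by_cases hall : ∀ j, ∀ v ∈ A, (t j).on v
  · exact frame_case h2 Q t hall
  · push Not at hall
    exact circuits_case h2 Q t hall

end Pool.Agent.GD
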