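import Pool.Agent.GD.RD

set_option autoImplicit false

/-! Module RE: a good set, only two classes, or a 4-ring. -/

namespace Pool.Agent.GD

open Pool.Agent.MP_1fb45e

variable {V : Type} {H : SimpleGraph V} {red : Set (Sym2 V)} {x : V} {c : Sym2 V → Bool}

private lemma onQ_iff {D : Cls H c} {v : V} : OnQ (ClsGraph H c D).edgeSet v ↔ Inc H c v D := by
  constructor
  · rintro ⟨a, ha⟩
    rw [SimpleGraph.mem_edgeSet] at ha
    exact ⟨⟨a, ha.1⟩, ha.2⟩
  · rintro ⟨⟨a, ha⟩, h⟩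
    exact ⟨a, (SimpleGraph.mem_edgeSet _).mpr ⟨ha, h⟩⟩

private lemma cls_unique {D D' : Cls H c} {e : Sym2 V} (h : e ∈ (ClsGraph H c D).edgeSet)
    (h' : e ∈ (ClsGraph H c D').edgeSet) : D = D' := by
  induction e with
  | h a b =>
    rw [mem_cls_iff] at h h'
    exact h.2.trans h'.2.symm

private lemma cls_sub {D : Cls H c} {e : Sym2 V} (h : e ∈ (ClsGraph H c D).edgeSet) :
    e ∈ H.edgeSet := by
  induction e with
  | h a b =>
    rw [mem_cls_iff] at h
    exact h.1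

private lemma exists_cls {v a : V} (h : H.Adj v a) :
    ∃ D ∈ NT H c, s(v, a) ∈ (ClsGraph H c D).edgeSet ∧ Inc H c v D :=
  ⟨_, ⟨v, inc_of_adj h⟩, (SimpleGraph.mem_edgeSet _).mpr (adj_of_eq h rfl), inc_of_adj h⟩

theorem ring_or [Fintype V] (h2 : TwoReg H red) (hc : LabX H red x c) (h3 : NoTwoCut H)
    (hng : ¬ HasGood H red) :
    (∀ D ∈ NT H c, D = clsAt H c false x ∨ D = clsAt H c true x) ∨
      ∃ E1 A1 A2 S, Ring4 H red x E1 A1 A2 S := by
  classical
  by_cases hex : ∃ D ∈ NT H c, D ≠ clsAt H c false x ∧ D ≠ clsAt H c true x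
  swap
  · left
    push Not at hex
    intro D hD
    by_contra hcon
    rw [not_or] at hcon
    exact hcon.2 (hex D hD hcon.1)
  right
  have : Finite (Cls H c) := by
    have : ∀ i, Finite ((CG H c i).ConnectedComponent) := fun i => Quot.finite _
    infer_instance
  have h := ringHyp h2 hc h3
  obtain ⟨D1, hD1, D2, hD2, h11, h12, h21, h22, h12', hA, hB, hC⟩ := ring_lemma h hex (by
    intro D hD h1 h2'
    by_contra hno
    push Not at hno
    exact hng (good_of_noSep h2 hc hD h1 h2' hno))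
  set c1 := clsAt H c false x with hc1
  set c2 := clsAt H c true x with hc2
  set S : Set (Sym2 V) := {e | e ∈ H.edgeSet ∧ e ∉ (ClsGraph H c c1).edgeSet ∧
    e ∉ (ClsGraph H c D1).edgeSet ∧ e ∉ (ClsGraph H c D2).edgeSet} with hS
  -- the edges of a fourth class are in `S`
  have hSin : ∀ {E : Cls H c} {e : Sym2 V}, E ≠ c1 → E ≠ D1 → E ≠ D2 →
      e ∈ (ClsGraph H c E).edgeSet → e ∈ S := by
    intro E e h1 h2 h3 he
    exact ⟨cls_sub he, fun h => h1 (cls_unique he h), fun h => h2 (cls_unique he h),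
      fun h => h3 (cls_unique he h)⟩
  have hSout : ∀ {v a : V}, s(v, a) ∈ S → ∃ E ∈ NT H c, E ≠ c1 ∧ E ≠ D1 ∧ E ≠ D2 ∧
      s(v, a) ∈ (ClsGraph H c E).edgeSet ∧ Inc H c v E := by
    intro v a hva
    obtain ⟨E, hE, he, hi⟩ := exists_cls (c := c) ((SimpleGraph.mem_edgeSet _).mp hva.1)
    refine ⟨E, hE, ?_, ?_, ?_, he, hi⟩
    · rintro rfl; exact hva.2.1 he
    · rintro rfl; exact hva.2.2.1 he
    · rintro rfl; exact hva.2.2.2 he
  have hxD1 : ¬ Inc H c x D1 := fun hx => by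
    rcases (inc_iff h2 hc).mp hx with h | h
    · exact h11 h
    · exact h12 h
  have hxD2 : ¬ Inc H c x D2 := fun hx => by
    rcases (inc_iff h2 hc).mp hx with h | h
    · exact h21 h
    · exact h22 h
  have hcyc : ∀ D ∈ NT H c, Nonempty (Cyc H (ClsGraph H c D).edgeSet) := fun D hD =>
    cyc_of_class D hD (fun v _ => cls_two h2 hc D.1 v)
  have halt : ∀ (D : Cls H c) (v : V), v ≠ x → ∀ a b, a ≠ b → s(v, a) ∈ (ClsGraph H c D).edgeSet →
      s(v, b) ∈ (ClsGraph H c D).edgeSet → (s(v, a) ∈ red ↔ s(v, b) ∉ red) := by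
    intro D v hv a b hab ha hb
    rw [SimpleGraph.mem_edgeSet] at ha hb
    exact cls_alt h2 hc D.1 hv ha.1 hb.1 hab
  have hnoS1 : ∀ v, Inc H c v c1 → v ≠ x → ¬ OnQ S v := by
    rintro v hv hvx ⟨a, ha⟩
    obtain ⟨E, hE, h1, h2', h3', -, hi⟩ := hSout ha
    rcases hA v hv with h' | h'
    · exact hvx h'
    rcases h.two v c1 h.h1 D1 hD1 E hE hv h' hi with h'' | h'' | h''
    · exact h11 h''.symm
    · exact h1 h''.symm
    · exact h2' h''.symm
  refine ⟨(ClsGraph H c c1).edgeSet, (ClsGraph H c D1).edgeSet, (ClsGraph H c D2).edgeSet, S,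
    ?_, ?_, ?_, ?_, ?_, ?_, ?_, ?_, ?_, ?_, ?_, hcyc c1 h.h1, hcyc D1 hD1, hcyc D2 hD2, ?_, ?_, ?_,
    ?_⟩
  · -- cover
    intro e
    constructor
    · intro he
      by_cases h1 : e ∈ (ClsGraph H c c1).edgeSet
      · exact Or.inl h1
      by_cases h2 : e ∈ (ClsGraph H c D1).edgeSet
      · exact Or.inr (Or.inl h2)
      by_cases h3 : e ∈ (ClsGraph H c D2).edgeSet
      · exact Or.inr (Or.inr (Or.inl h3))
      exact Or.inr (Or.inr (Or.inr ⟨he, h1, h2, h3⟩))
    · rintro (h | h | h | h)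
      · exact cls_sub h
      · exact cls_sub h
      · exact cls_sub h
      · exact h.1
  · intro e he
    exact ⟨fun h => h11 (cls_unique h he), fun h => h21 (cls_unique h he), fun h => h.2.1 he⟩
  · intro e he
    exact ⟨fun h => h12' (cls_unique he h), fun h => h.2.2.1 he⟩
  · intro e he h
    exact h.2.2.2 he
  · exact onQ_iff.mpr h.x1
  · obtain ⟨a, ha⟩ := onQ_iff.mpr h.x2
    exact ⟨a, hSin h.ne.symm h12.symm h22.symm ha⟩
  · rw [onQ_iff]; exact hxD1
  · rw [onQ_iff]; exact hxD2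
  · -- on1
    intro v hv hvx
    rw [onQ_iff] at hv
    have hv1 : Inc H c v D1 := (hA v hv).resolve_left hvx
    refine ⟨onQ_iff.mpr hv1, ?_, hnoS1 v hv hvx⟩
    rw [onQ_iff]
    intro hv2
    rcases h.two v c1 h.h1 D1 hD1 D2 hD2 hv hv1 hv2 with h'' | h'' | h''
    · exact h11 h''.symm
    · exact h21 h''.symm
    · exact h12' h''
  · -- on2
    intro v hv
    rw [onQ_iff] at hv
    have hvx : v ≠ x := by rintro rfl; exact hxD1 hv
    rcases hB v hv with hv1 | hv2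
    · exact ⟨Or.inl (onQ_iff.mpr hv1), hnoS1 v hv1 hvx⟩
    · refine ⟨Or.inr (onQ_iff.mpr hv2), ?_⟩
      rintro ⟨a, ha⟩
      obtain ⟨E, hE, h1, h2', h3', -, hi⟩ := hSout ha
      rcases h.two v D1 hD1 D2 hD2 E hE hv hv2 hi with h'' | h'' | h''
      · exact h12' h''
      · exact h2' h''.symm
      · exact h3' h''.symm
  · -- on3
    intro v hv
    rw [onQ_iff] at hv
    obtain ⟨B, hB', hne, hi⟩ := h.ex2 v D2 hD2 hv
    by_cases hB1 : B = D1
    · left
      rw [onQ_iff, ← hB1]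
      exact hi
    by_cases hBc : B = c1
    · rw [hBc] at hi
      have hvx : v ≠ x := by rintro rfl; exact hxD2 hv
      left
      exact onQ_iff.mpr ((hA v hi).resolve_left hvx)
    · right
      obtain ⟨a, ha⟩ := onQ_iff.mpr hi
      exact ⟨a, hSin hBc hB1 hne ha⟩
  · intro v hv a b hab ha hb
    exact halt c1 v hv a b hab ha hb
  · intro v a b hab ha hb
    exact halt D1 v (by rintro rfl; exact hxD1 (onQ_iff.mp ⟨a, ha⟩)) a b hab ha hb
  · intro v a b hab ha hb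
    exact halt D2 v (by rintro rfl; exact hxD2 (onQ_iff.mp ⟨a, ha⟩)) a b hab ha hb
  · -- `S` is solid
    intro w κ hκ
    have hconst : ∀ E ∈ NT H c, E ≠ c1 → E ≠ D1 → E ≠ D2 →
        ConstOn (ClsGraph H c E).edgeSet κ := by
      intro E hE h1 h2' h3'
      obtain ⟨K⟩ := hcyc E hE
      refine K.const w κ ?_
      intro v hv a b ha hb
      exact hκ v hv a b (hSin h1 h2' h3' ha) (hSin h1 h2' h3' hb)
    have key : ∀ e ∈ S, ∀ e' ∈ S, κ e → κ e' := by
      intro e he e' he' hκe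
      by_contra hκe'
      induction e with
      | h a b =>
      induction e' with
      | h a' b' =>
      obtain ⟨E, hE, h1, h2', h3', hEe, -⟩ := hSout he
      obtain ⟨E', hE', h1', h2'', h3'', hEe', -⟩ := hSout he'
      obtain ⟨v, hvw, A, hAK, B, hBN, hBK, hBc, hB1, hB2, hiA, hiB⟩ := hC w
        {D | D ∈ NT H c ∧ D ≠ c1 ∧ D ≠ D1 ∧ D ≠ D2 ∧ ∀ f ∈ (ClsGraph H c D).edgeSet, κ f}
        (fun D hD => hD.1) (fun h => h.2.1 rfl) (fun h => h.2.2.1 rfl) (fun h => h.2.2.2.1 rfl)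
        ⟨E, hE, h1, h2', h3', fun f hf => (hconst E hE h1 h2' h3' f hf _ hEe).mpr hκe⟩
        ⟨E', hE', fun h => hκe' (h.2.2.2.2 _ hEe'), h1', h2'', h3''⟩
      obtain ⟨hAN, hAc, hA1, hA2, hAκ⟩ := hAK
      obtain ⟨p, hp⟩ := onQ_iff.mpr hiA
      obtain ⟨q, hq⟩ := onQ_iff.mpr hiB
      have hpq := hκ v hvw p q (hSin hAc hA1 hA2 hp) (hSin hBc hB1 hB2 hq)
      have hκq : κ s(v, q) := hpq.mp (hAκ _ hp)
      exact hBK ⟨hBN, hBc, hB1, hB2, fun f hf => (hconst B hBN hBc hB1 hB2 f hf _ hq).mpr hκq⟩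
    exact fun e he e' he' => ⟨key e he e' he', key e' he' e he⟩

end Pool.Agent.GD
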