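import Pool.Agent.GD.RF
import Pool.Agent.GD.TL
import Pool.Agent.GDW.Bridge

set_option autoImplicit false

/-! Module RG: a window of `H` without good set gives an abstract window `GDW.CW`. -/

namespace Pool.Agent.GD

variable {V : Type} {H : SimpleGraph V} {red E : Set (Sym2 V)}

namespace Cyc

lemma r_inj (K : Cyc H E) {u v : V} (hu : K.on u) (hv : K.on v) (h : K.r u = K.r v) : u = v := by
  rw [← hu.2, ← hv.2, h]

lemma cut_inj (K : Cyc H E) {a : ℕ} (ha : a < K.n) {u v : V} (hu : K.on u) (hv : K.on v)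
    (h : cpos K.n a (K.r u) = cpos K.n a (K.r v)) : u = v := by
  rw [← K.c_cpos ha hu, ← K.c_cpos ha hv, h]

lemma c_add_pred (K : Cyc H E) {a : ℕ} (ha : a < K.n) {v : V} (hv : K.on v)
    (h0 : 0 < cpos K.n a (K.r v)) :
    K.c (K.r v + K.n - 1) = K.c (a + (cpos K.n a (K.r v) - 1)) := by
  have h4 := hv.1
  rw [K.c_eq]
  unfold cpos at h0 ⊢
  split_ifs at h0 ⊢ with h6
  · have : K.r v + K.n - 1 = (a + (K.r v - a - 1)) + K.n := by omega
    rw [this, Nat.add_mod_right]
  · congr 1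
    omega

lemma c_add_succ (K : Cyc H E) {a : ℕ} (ha : a < K.n) {v : V} (hv : K.on v) :
    K.c (K.r v + 1) = K.c (a + (cpos K.n a (K.r v) + 1)) := by
  have h4 := hv.1
  rw [K.c_eq]
  unfold cpos
  split_ifs with h6
  · congr 1
    omega
  · have : a + (K.r v + K.n - a + 1) = K.r v + 1 + K.n := by omega
    rw [this, Nat.add_mod_right]

/-- the boundary edges of an arc -/
lemma arc_bd (K : Cyc H E) {k : ℕ} (hk : k < K.n) {X : Set V} (hX : ∀ x ∈ X, K.on x) {a b : ℕ}
    (hab : ∀ i, (a ≤ i ∧ i ≤ b) ↔ ∃ x ∈ X, cpos K.n k (K.r x) = i)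
    (h0 : ∀ x ∈ X, 0 < cpos K.n k (K.r x)) {u w : V} (hu : u ∈ X) (hw : w ∉ X)
    (huw : s(u, w) ∈ E) :
    (u, w) = (K.c (k + b), K.c (k + (b + 1))) ∨ (u, w) = (K.c (k + a), K.c (k + (a - 1))) := by
  have hu' := hX u hu
  have hpos := h0 u hu
  have hi : a ≤ cpos K.n k (K.r u) ∧ cpos K.n k (K.r u) ≤ b := (hab _).2 ⟨u, hu, rfl⟩
  have hcu := K.c_cpos hk hu'
  rcases (K.edge_at hu').1 huw with h | h
  · left
    rw [K.c_add_succ hk hu'] at h
    have hib : cpos K.n k (K.r u) = b := by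
      by_contra hne
      obtain ⟨x, hx, hxi⟩ := (hab (cpos K.n k (K.r u) + 1)).1 ⟨by omega, by omega⟩
      apply hw
      have h5 := K.c_cpos hk (hX x hx)
      rw [hxi, ← h] at h5
      rw [h5]
      exact hx
    rw [hib] at h hcu
    rw [h, hcu]
  · right
    rw [K.c_add_pred hk hu' hpos] at h
    have hib : cpos K.n k (K.r u) = a := by
      by_contra hne
      obtain ⟨x, hx, hxi⟩ := (hab (cpos K.n k (K.r u) - 1)).1 ⟨by omega, by omega⟩
      apply hw
      have h5 := K.c_cpos hk (hX x hx)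
      rw [hxi, ← h] at h5
      rw [h5]
      exact hx
    rw [hib] at h hcu
    rw [h, hcu]

end Cyc

namespace HWin

variable {ED EF : Set (Sym2 V)}

/-- no set with two common vertices is an unmarked arc of both circuits -/
theorem no_arc [Finite V] (h2 : TwoReg H red) (A : HWin H red ED EF) (hp : PrimeH H) {z z' : V}
    (hz : A.K.on z) (hz1 : ¬ A.L.on z) (hz' : A.L.on z') (hz1' : ¬ A.K.on z') (X : Set V)
    (hX : X ⊆ A.P) (hX2 : 2 ≤ X.ncard)
    (hD : ∃ a b, ∀ i, (a ≤ i ∧ i ≤ b) ↔ ∃ x ∈ X, A.pD z x = i)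
    (hF : ∃ a b, ∀ i, (a ≤ i ∧ i ≤ b) ↔ ∃ x ∈ X, A.pF z' x = i) : False := by
  obtain ⟨a, b, hab⟩ := hD
  obtain ⟨a', b', hab'⟩ := hF
  have hzX : z ∉ X := fun h => hz1 (hX h).2
  have hzX' : z' ∉ X := fun h => hz1' (hX h).1
  have hzz : z ≠ z' := fun h => hz1 (h ▸ hz')
  apply hp X
  refine ⟨hX2, ?_, ?_⟩
  · have hsub : ({z, z'} : Set V) ⊆ Xᶜ := by
      rintro w (rfl | rfl)
      · exact hzX
      · exact hzX'
    have := Set.ncard_le_ncard hsub (Set.toFinite _)
    rw [Set.ncard_pair hzz] at this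
    exact this
  · have hsub : Bd H X ⊆ {(A.K.c (A.K.r z + b), A.K.c (A.K.r z + (b + 1))),
        (A.K.c (A.K.r z + a), A.K.c (A.K.r z + (a - 1))),
        (A.L.c (A.L.r z' + b'), A.L.c (A.L.r z' + (b' + 1))),
        (A.L.c (A.L.r z' + a'), A.L.c (A.L.r z' + (a' - 1)))} := by
      rintro ⟨u, w⟩ ⟨hu, hw, huw⟩
      have hu' := hX hu
      simp only [Set.mem_insert_iff, Set.mem_singleton_iff]
      rcases full_P h2 A hu'.1 hu'.2 w huw with h | h
      · have h3 := A.K.arc_bd hz.1 (fun x hx => (hX hx).1) hab (fun x hx => by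
          have := (A.K.int_iff hz x).2 ⟨(hX hx).1, fun h => hzX (h ▸ hx)⟩
          exact this.1) hu hw h
        tauto
      · have h3 := A.L.arc_bd hz'.1 (fun x hx => (hX hx).2) hab' (fun x hx => by
          have := (A.L.int_iff hz' x).2 ⟨(hX hx).2, fun h => hzX' (h ▸ hx)⟩
          exact this.1) hu hw h
        tauto
    refine le_trans (Set.ncard_le_ncard hsub (Set.toFinite _)) ?_
    refine le_trans (Set.ncard_insert_le _ _) ?_
    have h5 := Set.ncard_insert_le (A.K.c (A.K.r z + a), A.K.c (A.K.r z + (a - 1)))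
      {(A.L.c (A.L.r z' + b'), A.L.c (A.L.r z' + (b' + 1))),
        (A.L.c (A.L.r z' + a'), A.L.c (A.L.r z' + (a' - 1)))}
    have h6 := Set.ncard_insert_le (A.L.c (A.L.r z' + b'), A.L.c (A.L.r z' + (b' + 1)))
      {(A.L.c (A.L.r z' + a'), A.L.c (A.L.r z' + (a' - 1)))}
    rw [Set.ncard_singleton] at h6
    omega

/-- the data at a cut -/
theorem cutData [Finite V] (A : HWin H red ED EF) {z z' : V}
    (hz : A.K.on z) (hz1 : ¬ A.L.on z) (hz' : A.L.on z') (hz1' : ¬ A.K.on z') :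
    GDW.CutData (A.G z z') A.P (A.ob z z') (A.pD z) (A.pF z') where
  dinj := fun u hu v hv h => A.K.cut_inj hz.1 hu.1 hv.1 h
  finj := fun u hu v hv h => A.L.cut_inj hz'.1 hu.2 hv.2 h
  adj := by
    intro u hu v hv
    constructor
    · intro h
      exact h.2.2
    · intro h
      exact ⟨hu, hv, h⟩
  obs := by
    intro y
    by_cases h1 : y.2 = true ∧ A.K.on y.1 ∧ ¬ A.L.on y.1
    · left
      refine ⟨A.pD z y.1, ?_, ?_⟩
      · intro v hv h
        have h3 := A.K.cut_inj hz.1 hv.1 h1.2.1 h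
        exact h1.2.2 (h3 ▸ hv.2)
      · intro v _
        constructor
        · rintro (h | h)
          · exact h.2.2.2
          · have := h1.1
            rw [h.1] at this
            exact absurd this (by decide)
        · intro h
          exact Or.inl ⟨h1.1, h1.2.1, h1.2.2, h⟩
    · by_cases h2 : y.2 = false ∧ A.L.on y.1 ∧ ¬ A.K.on y.1
      · right
        refine ⟨A.pF z' y.1, ?_, ?_⟩
        · intro v hv h
          have h3 := A.L.cut_inj hz'.1 hv.2 h2.2.1 h
          exact h2.2.2 (h3 ▸ hv.1)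
        · intro v _
          constructor
          · rintro (h | h)
            · exact absurd ⟨h.1, h.2.1, h.2.2.1⟩ h1
            · exact h.2.2.2
          · intro h
            exact Or.inr ⟨h2.1, h2.2.1, h2.2.2, h⟩
      · left
        refine ⟨0, ?_, ?_⟩
        · intro v hv h
          have := (A.K.int_iff hz v).2 ⟨hv.1, fun h => hz1 (h ▸ hv.2)⟩
          have h3 : A.pD z v = cpos A.K.n (A.K.r z) (A.K.r v) := rfl
          omega
        · intro v _
          constructor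
          · rintro (h | h)
            · exact absurd ⟨h.1, h.2.1, h.2.2.1⟩ h1
            · exact absurd ⟨h.1, h.2.1, h.2.2.1⟩ h2
          · intro h
            exact absurd h (Nat.not_lt_zero _)

/-- modules are separated by marks -/
theorem sep_window [Finite V] (h2 : TwoReg H red) (A : HWin H red ED EF) (hp : PrimeH H) {z z' : V}
    (hz : A.K.on z) (hz1 : ¬ A.L.on z) (hz' : A.L.on z') (hz1' : ¬ A.K.on z') :
    Sep (A.G z z') A.P (A.ob z z') := by
  refine GDW.sep_of (A.cutData hz hz1 hz' hz1') ?_ ?_ ?_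
  · rintro m hm - ⟨v, hv, hv'⟩
    have hmn : m < A.K.n := lt_trans hv' (cpos_lt hz.1 hv.1.1)
    have e1 : A.pD z (A.K.c (A.K.r z + m)) = m := A.K.cpos_c hz.1 hmn
    have h3 : ¬ A.L.on (A.K.c (A.K.r z + m)) := fun h => hm _ ⟨A.K.on_c _, h⟩ e1
    refine ⟨(A.K.c (A.K.r z + m), true), fun v _ => ?_⟩
    constructor
    · rintro (h | h)
      · have h4 := h.2.2.2
        rw [e1] at h4
        exact h4
      · exact absurd h.1.symm Bool.false_ne_true
    · intro h
      refine Or.inl ⟨rfl, A.K.on_c _, h3, ?_⟩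
      rw [e1]
      exact h
  · rintro m hm - ⟨v, hv, hv'⟩
    have hmn : m < A.L.n := lt_trans hv' (cpos_lt hz'.1 hv.2.1)
    have e1 : A.pF z' (A.L.c (A.L.r z' + m)) = m := A.L.cpos_c hz'.1 hmn
    have h3 : ¬ A.K.on (A.L.c (A.L.r z' + m)) := fun h => hm _ ⟨h, A.L.on_c _⟩ e1
    refine ⟨(A.L.c (A.L.r z' + m), false), fun v _ => ?_⟩
    constructor
    · rintro (h | h)
      · exact absurd h.1 Bool.false_ne_true
      · have h4 := h.2.2.2
        rw [e1] at h4
        exact h4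
    · intro h
      refine Or.inr ⟨rfl, A.L.on_c _, h3, ?_⟩
      rw [e1]
      exact h
  · rintro X hX hX2 ⟨h3, h4⟩
    exact A.no_arc h2 hp hz hz1 hz' hz1' X hX hX2 h3 h4

lemma mark_K (A : HWin H red ED EF) {m : ℕ}
    (hm : GDW.IsMark A.K.n (fun v : A.P => A.K.r v) m) :
    A.K.on (A.K.c m) ∧ ¬ A.L.on (A.K.c m) ∧ A.K.r (A.K.c m) = m := by
  have h1 := A.K.inj m hm.1
  refine ⟨A.K.on_c m, ?_, h1⟩
  intro h
  exact hm.2 ⟨A.K.c m, A.K.on_c m, h⟩ h1

lemma mark_L (A : HWin H red ED EF) {m : ℕ}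
    (hm : GDW.IsMark A.L.n (fun v : A.P => A.L.r v) m) :
    A.L.on (A.L.c m) ∧ ¬ A.K.on (A.L.c m) ∧ A.L.r (A.L.c m) = m := by
  have h1 := A.L.inj m hm.1
  refine ⟨A.L.on_c m, ?_, h1⟩
  intro h
  exact hm.2 ⟨A.L.c m, h, A.L.on_c m⟩ h1

open Classical in
/-- a window without good set, as an abstract window -/
theorem cw_of_window [Finite V] (h2 : TwoReg H red) (A : HWin H red ED EF) (hWH : A.WH)
    (hng : ¬ HasGood H red) (hp : PrimeH H) (h0 : ¬ A.L.on (A.K.c 0)) (h0' : ¬ A.K.on (A.L.c 0)) :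
    GDW.CW A.K.n A.L.n (fun v : A.P => A.K.r v) (fun v : A.P => A.L.r v)
      (fun v => decide (A.sg v)) where
  dpos := by
    intro v
    refine ⟨?_, v.2.1.1⟩
    rcases Nat.eq_zero_or_pos (A.K.r v) with h | h
    · exfalso
      apply h0
      rw [← h, v.2.1.2]
      exact v.2.2
    · exact h
  fpos := by
    intro v
    refine ⟨?_, v.2.2.1⟩
    rcases Nat.eq_zero_or_pos (A.L.r v) with h | h
    · exfalso
      apply h0'
      rw [← h, v.2.2.2]
      exact v.2.1
    · exact h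
  dinj := fun u v h => Subtype.ext (A.K.r_inj u.2.1 v.2.1 h)
  finj := fun u v h => Subtype.ext (A.L.r_inj u.2.2 v.2.2 h)
  lf := by
    intro m m' hm hm'
    obtain ⟨k1, k2, k3⟩ := A.mark_K hm
    obtain ⟨l1, l2, l3⟩ := A.mark_L hm'
    have hsep := A.sep_window h2 hp k1 k2 l1 l2
    have hno := A.noCGood h2 hWH hng k1 k2 l1 l2
    have h := GDW.linFacts_of A.sg (A.cutData k1 k2 l1 l2) hsep hno (CL hsep hno)
    have e1 : (fun v : A.P => GDW.cut A.K.n m (A.K.r v)) = fun v : A.P => A.pD (A.K.c m) v := by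
      funext v
      show GDW.cut A.K.n m (A.K.r v) = cpos A.K.n (A.K.r (A.K.c m)) (A.K.r v)
      rw [k3]
      rfl
    have e2 : (fun v : A.P => GDW.cut A.L.n m' (A.L.r v)) = fun v : A.P => A.pF (A.L.c m') v := by
      funext v
      show GDW.cut A.L.n m' (A.L.r v) = cpos A.L.n (A.L.r (A.L.c m')) (A.L.r v)
      rw [l3]
      rfl
    show GDW.LinFacts (fun v : A.P => GDW.cut A.K.n m (A.K.r v))
      (fun v : A.P => GDW.cut A.L.n m' (A.L.r v)) _
    rw [e1, e2]
    exact h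
  sep := by
    rintro X hX ⟨⟨m, hm, a, b, hab⟩, m', hm', a', b', hab'⟩
    obtain ⟨k1, k2, k3⟩ := A.mark_K hm
    obtain ⟨l1, l2, l3⟩ := A.mark_L hm'
    refine A.no_arc h2 hp k1 k2 l1 l2 (Subtype.val '' X) ?_ ?_ ⟨a, b, fun i => ?_⟩
      ⟨a', b', fun i => ?_⟩
    · rintro _ ⟨x, -, rfl⟩
      exact x.2
    · rw [Set.ncard_image_of_injective X Subtype.val_injective]
      exact hX
    · rw [hab i]
      constructor
      · rintro ⟨x, hx, hi⟩
        refine ⟨x, ⟨x, hx, rfl⟩, ?_⟩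
        show cpos A.K.n (A.K.r (A.K.c m)) (A.K.r x) = i
        rw [k3]
        exact hi
      · rintro ⟨_, ⟨x, hx, rfl⟩, hi⟩
        refine ⟨x, hx, ?_⟩
        have hi' : cpos A.K.n (A.K.r (A.K.c m)) (A.K.r x) = i := hi
        rw [k3] at hi'
        exact hi'
    · rw [hab' i]
      constructor
      · rintro ⟨x, hx, hi⟩
        refine ⟨x, ⟨x, hx, rfl⟩, ?_⟩
        show cpos A.L.n (A.L.r (A.L.c m')) (A.L.r x) = i
        rw [l3]
        exact hi
      · rintro ⟨_, ⟨x, hx, rfl⟩, hi⟩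
        refine ⟨x, hx, ?_⟩
        have hi' : cpos A.L.n (A.L.r (A.L.c m')) (A.L.r x) = i := hi
        rw [l3] at hi'
        exact hi'

end HWin

end Pool.Agent.GD
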