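import Pool.Agent.GD.RB

set_option autoImplicit false

/-! Module RH: boundaries in the 4-ring; both inner circuits have marks in two gaps. -/

namespace Pool.Agent.GD

variable {V : Type} {H : SimpleGraph V} {red : Set (Sym2 V)} {x : V} {E1 A1 A2 S : Set (Sym2 V)}

private lemma rh_left {Q : Set (Sym2 V)} {u v : V} (h : s(u, v) ∈ Q) : OnQ Q u := ⟨v, h⟩

private lemma rh_right {Q : Set (Sym2 V)} {u v : V} (h : s(u, v) ∈ Q) : OnQ Q v :=
  ⟨u, by rw [Sym2.eq_swap]; exact h⟩

private lemma rh_card4 (s : Set (V × V)) (a b c d : V × V)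
    (h : ∀ p ∈ s, p = a ∨ p = b ∨ p = c ∨ p = d) : s.ncard ≤ 4 := by
  have hsub : s ⊆ {a, b, c, d} := by
    intro p hp
    rcases h p hp with h | h | h | h <;> simp [h]
  have h0 : s.ncard ≤ ({a, b, c, d} : Set (V × V)).ncard :=
    Set.ncard_le_ncard hsub (Set.toFinite _)
  have h1 := Set.ncard_insert_le a {b, c, d}
  have h2 := Set.ncard_insert_le b {c, d}
  have h3 := Set.ncard_insert_le c {d}
  have h4 := Set.ncard_singleton d
  omega

private lemma rh_two [Finite V] {s : Set V} {a b : V} (ha : a ∈ s) (hb : b ∈ s) (h : a ≠ b) :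
    2 ≤ s.ncard :=
  (Set.one_lt_ncard (Set.toFinite s)).mpr ⟨a, ha, b, hb, h⟩

private lemma rh_E1 (R : Ring4 H red x E1 A1 A2 S) :
    ∃ q1 q2, q1 ≠ q2 ∧ OnQ E1 q1 ∧ OnQ E1 q2 ∧ q1 ≠ x ∧ q2 ≠ x ∧
      ∀ u, s(u, x) ∈ E1 → u = q1 ∨ u = q2 := by
  obtain ⟨K⟩ := R.K1
  have hx : K.on x := K.on_iff.mpr R.x1
  have e1 : s(x, K.c (K.r x + 1)) ∈ E1 := (K.edge_at hx).mpr (Or.inl rfl)
  have e2 : s(x, K.c (K.r x + K.n - 1)) ∈ E1 := (K.edge_at hx).mpr (Or.inr rfl)
  have a1 : H.Adj x (K.c (K.r x + 1)) := K.sub e1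
  have a2 : H.Adj x (K.c (K.r x + K.n - 1)) := K.sub e2
  refine ⟨_, _, K.two_ne (K.r x), rh_right e1, rh_right e2, a1.ne', a2.ne', ?_⟩
  intro u hu
  rw [Sym2.eq_swap] at hu
  exact (K.edge_at hx).mp hu

/-- vertices of type `T` in one interval: at most two edges between the types -/
private lemma rh_interval {E : Set (Sym2 V)} (K : Cyc H E) (T : V → Prop) (h0 : ¬ T (K.c 0))
    (hex : ∃ i < K.n, T (K.c i))
    (hno : ¬ ∃ m < K.n, ¬ T (K.c m) ∧ (∃ i < m, T (K.c i)) ∧ ∃ j < K.n, m < j ∧ T (K.c j)) :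
    ∃ p1 p2 : V × V, ∀ u v, s(u, v) ∈ E → ¬ T u → T v → (u, v) = p1 ∨ (u, v) = p2 := by
  classical
  have hn := K.hn
  have hcn : K.c K.n = K.c 0 := by
    have := K.per 0
    rwa [Nat.zero_add] at this
  obtain ⟨a, ha, hmin⟩ : ∃ a, (a < K.n ∧ T (K.c a)) ∧ ∀ i, i < K.n → T (K.c i) → a ≤ i := by
    obtain ⟨i, hi, hT⟩ := hex
    have hE : ∃ i, i < K.n ∧ T (K.c i) := ⟨i, hi, hT⟩
    exact ⟨Nat.find hE, Nat.find_spec hE, fun j hj hTj => Nat.find_min' hE ⟨hj, hTj⟩⟩
  -- everything after the first `T`-position which is not `T` is followed by non-`T` only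
  have key : ∀ m, m < K.n → ¬ T (K.c m) → a < m → ∀ j, j < K.n → m < j → ¬ T (K.c j) := by
    intro m hm hTm ham j hj hmj hTj
    exact hno ⟨m, hm, hTm, ⟨a, ham, ha.2⟩, j, hj, hmj, hTj⟩
  by_cases hb : ∃ b, b < K.n ∧ T (K.c b) ∧ ¬ T (K.c (b + 1))
  · obtain ⟨b, hbn, hTb, hTb1⟩ := hb
    refine ⟨(K.c (a - 1), K.c a), (K.c (b + 1), K.c b), ?_⟩
    intro u v huv hu hv
    rw [K.edge] at huv
    obtain ⟨i, hi, he⟩ := huv
    rw [Sym2.eq_iff] at he
    rcases he with ⟨rfl, rfl⟩ | ⟨rfl, rfl⟩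
    · left
      have hi1 : i + 1 < K.n := by
        by_contra hcon
        have : i + 1 = K.n := by omega
        rw [this, hcn] at hv
        exact h0 hv
      have h1 : a ≤ i + 1 := hmin _ hi1 hv
      have h2 : ¬ a < i := by
        intro hai
        exact key i hi hu hai (i + 1) hi1 (by omega) hv
      have h3 : a ≠ i := by
        rintro rfl
        exact hu ha.2
      have h4 : a = i + 1 := by omega
      rw [h4]
      simp
    · right
      -- `i` is `T`, `i + 1` is not
      have h1 : a ≤ i := hmin _ hi hv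
      have h2 : a ≤ b := hmin _ hbn hTb
      have hib : i = b := by
        rcases lt_trichotomy i b with h | h | h
        · exfalso
          exact key (i + 1) (by omega) hu (by omega) b hbn
            (by
              rcases Nat.lt_or_ge (i + 1) b with h' | h'
              · exact h'
              · exfalso
                have : i + 1 = b := by omega
                rw [this] at hu
                exact hu hTb) hTb
        · exact h
        · exfalso
          have hb1 : b + 1 < K.n := by omega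
          exact key (b + 1) hb1 hTb1 (by omega) i hi
            (by
              rcases Nat.lt_or_ge (b + 1) i with h' | h'
              · exact h'
              · exfalso
                have : b + 1 = i := by omega
                rw [this] at hTb1
                exact hTb1 hv) hv
      rw [hib]
  · exfalso
    have hall : ∀ k, a + k ≤ K.n → T (K.c (a + k)) := by
      intro k
      induction k with
      | zero => intro _; exact ha.2
      | succ k ih =>
        intro hk
        by_contra hcon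
        exact hb ⟨a + k, by omega, ih (by omega), hcon⟩
    have := hall (K.n - a) (by omega)
    have e : a + (K.n - a) = K.n := by omega
    rw [e, hcn] at this
    exact h0 this

/-- there are vertices of all types -/
theorem ring_nonempty [Finite V] (h2 : TwoReg H red) (hp : PrimeH H)
    (R : Ring4 H red x E1 A1 A2 S) :
    (∃ v, OnQ E1 v ∧ OnQ A1 v) ∧ (∃ v, OnQ A1 v ∧ OnQ A2 v) ∧ (∃ v, OnQ A2 v ∧ OnQ S v) := by
  obtain ⟨q1, q2, hq, h1, h2', hx1, hx2, hE⟩ := rh_E1 R
  refine ⟨⟨q1, h1, (R.on1 q1 h1 hx1).1⟩, ?_, ?_⟩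
  · by_contra hcon
    obtain ⟨K3⟩ := R.K3
    have hK3 : OnQ A2 (K3.c 0) := K3.on_iff.mp (K3.on_c 0)
    refine hp {v | OnQ A1 v} ⟨?_, ?_, ?_⟩
    · exact rh_two (R.on1 q1 h1 hx1).1 (R.on1 q2 h2' hx2).1 hq
    · refine rh_two (a := x) (b := K3.c 0) ?_ ?_ ?_
      · exact R.x2
      · intro h
        exact hcon ⟨_, h, hK3⟩
      · intro h
        rw [← h] at hK3
        exact R.x3 hK3
    · refine rh_card4 _ (q1, x) (q2, x) (q1, x) (q2, x) ?_
      rintro ⟨u, v⟩ ⟨hu, hv, huv⟩
      simp only [Set.mem_setOf_eq] at hu hv huv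
      have he := (R.cover s(u, v)).mp huv
      rcases he with he | he | he | he
      · have hvx : v = x := by
          by_contra hvx
          exact hv (R.on1 v (rh_right he) hvx).1
        subst hvx
        rcases hE u he with rfl | rfl
        · exact Or.inl rfl
        · exact Or.inr (Or.inl rfl)
      · exact absurd (rh_right he) hv
      · exact absurd ⟨u, hu, rh_left he⟩ hcon
      · exact absurd (rh_left he) (R.on2 u hu).2
  · by_contra hcon
    obtain ⟨a, ha⟩ := R.xS
    have haS : OnQ S a := rh_right ha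
    have hxa : x ≠ a := by
      have : H.Adj x a := (R.cover s(x, a)).mpr (Or.inr (Or.inr (Or.inr ha)))
      exact this.ne
    refine hp {v | v ≠ x ∧ (OnQ E1 v ∨ OnQ A1 v ∨ OnQ A2 v)} ⟨?_, ?_, ?_⟩
    · exact rh_two (a := q1) (b := q2) ⟨hx1, Or.inl h1⟩ ⟨hx2, Or.inl h2'⟩ hq
    · refine rh_two (a := x) (b := a) ?_ ?_ hxa
      · intro h
        exact h.1 rfl
      · rintro ⟨h, h' | h' | h'⟩
        · exact (R.on1 a h' h).2.2 haS
        · exact (R.on2 a h').2 haS
        · exact hcon ⟨a, h', haS⟩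
    · refine rh_card4 _ (q1, x) (q2, x) (q1, x) (q2, x) ?_
      rintro ⟨u, v⟩ ⟨⟨hux, hu⟩, hv, huv⟩
      simp only [Set.mem_setOf_eq] at hv huv
      have he := (R.cover s(u, v)).mp huv
      rcases he with he | he | he | he
      · have hvx : v = x := by
          by_contra hvx
          exact hv ⟨hvx, Or.inl (rh_right he)⟩
        subst hvx
        rcases hE u he with rfl | rfl
        · exact Or.inl rfl
        · exact Or.inr (Or.inl rfl)
      · exfalso
        refine hv ⟨?_, Or.inr (Or.inl (rh_right he))⟩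
        rintro rfl
        exact R.x2 (rh_right he)
      · exfalso
        refine hv ⟨?_, Or.inr (Or.inr (rh_right he))⟩
        rintro rfl
        exact R.x3 (rh_right he)
      · exfalso
        rcases hu with h' | h' | h'
        · exact (R.on1 u h' hux).2.2 (rh_left he)
        · exact (R.on2 u h').2 (rh_left he)
        · exact hcon ⟨u, h', rh_left he⟩

/-- On `A1` (cut at a vertex of `E1`) there is another vertex of `E1` with vertices of `A2` on both
sides. Otherwise `V(E1) - x` has only four boundary edges. -/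
theorem ring_gaps2 [Finite V] (h2 : TwoReg H red) (hp : PrimeH H)
    (R : Ring4 H red x E1 A1 A2 S) (K : Cyc H A1) (h0 : OnQ E1 (K.c 0)) :
    ∃ m < K.n, OnQ E1 (K.c m) ∧ (∃ i < m, OnQ A2 (K.c i)) ∧
      ∃ j < K.n, m < j ∧ OnQ A2 (K.c j) := by
  obtain ⟨q1, q2, hq, h1, h2', hx1, hx2, hE⟩ := rh_E1 R
  obtain ⟨-, ⟨y, hy1, hy2⟩, -⟩ := ring_nonempty h2 hp R
  have hA1x : ∀ v, OnQ A1 v → v ≠ x := by
    rintro v hv rfl
    exact R.x2 hv
  have hKA : ∀ i, OnQ A1 (K.c i) := fun i => K.on_iff.mp (K.on_c i)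
  have hdich : ∀ v, OnQ A1 v → ¬ OnQ A2 v → OnQ E1 v := by
    intro v hv hv2
    rcases (R.on2 v hv).1 with h | h
    · exact h
    · exact absurd h hv2
  have hdich' : ∀ v, OnQ A1 v → OnQ E1 v → ¬ OnQ A2 v := by
    intro v hv hv1
    exact (R.on1 v hv1 (hA1x v hv)).2.1
  by_contra hcon
  obtain ⟨p1, p2, hpp⟩ := rh_interval K (fun v => OnQ A2 v) (hdich' _ (hKA 0) h0)
    (by
      have hy : K.on y := K.on_iff.mpr hy1
      refine ⟨K.r y, hy.1, ?_⟩
      rw [hy.2]
      exact hy2)
    (by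
      rintro ⟨m, hm, hT, hi, hj⟩
      exact hcon ⟨m, hm, hdich _ (hKA m) hT, hi, hj⟩)
  refine hp {v | OnQ E1 v ∧ v ≠ x} ⟨?_, ?_, ?_⟩
  · exact rh_two (a := q1) (b := q2) ⟨h1, hx1⟩ ⟨h2', hx2⟩ hq
  · refine rh_two (a := x) (b := y) ?_ ?_ ?_
    · rintro ⟨-, h⟩
      exact h rfl
    · rintro ⟨h, -⟩
      exact hdich' y hy1 h hy2
    · exact (hA1x y hy1).symm
  · refine rh_card4 _ (q1, x) (q2, x) p1 p2 ?_
    rintro ⟨u, v⟩ ⟨⟨hu, hux⟩, hv, huv⟩
    simp only [Set.mem_setOf_eq] at hv huv
    have he := (R.cover s(u, v)).mp huv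
    rcases he with he | he | he | he
    · have hvx : v = x := by
        by_contra hvx
        exact hv ⟨rh_right he, hvx⟩
      subst hvx
      rcases hE u he with rfl | rfl
      · exact Or.inl rfl
      · exact Or.inr (Or.inl rfl)
    · have hv1 : OnQ A1 v := rh_right he
      have hvE : ¬ OnQ E1 v := fun h => hv ⟨h, hA1x v hv1⟩
      have hv2 : OnQ A2 v := by
        rcases (R.on2 v hv1).1 with h | h
        · exact absurd h hvE
        · exact h
      rcases hpp u v he (hdich' u (rh_left he) hu) hv2 with h | h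
      · exact Or.inr (Or.inr (Or.inl h))
      · exact Or.inr (Or.inr (Or.inr h))
    · exact absurd (rh_left he) (R.on1 u hu hux).2.1
    · exact absurd (rh_left he) (R.on1 u hu hux).2.2

/-- On `A2` (cut at a vertex of `S`) there is another vertex of `S` with vertices of `A1` on both
sides. Otherwise `V(A1)` has only four boundary edges. -/
theorem ring_gaps3 [Finite V] (h2 : TwoReg H red) (hp : PrimeH H)
    (R : Ring4 H red x E1 A1 A2 S) (K : Cyc H A2) (h0 : OnQ S (K.c 0)) :
    ∃ m < K.n, OnQ S (K.c m) ∧ (∃ i < m, OnQ A1 (K.c i)) ∧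
      ∃ j < K.n, m < j ∧ OnQ A1 (K.c j) := by
  obtain ⟨q1, q2, hq, h1, h2', hx1, hx2, hE⟩ := rh_E1 R
  obtain ⟨-, ⟨y, hy1, hy2⟩, -⟩ := ring_nonempty h2 hp R
  have hKA : ∀ i, OnQ A2 (K.c i) := fun i => K.on_iff.mp (K.on_c i)
  have h01 : ¬ OnQ A1 (K.c 0) := fun h => (R.on2 _ h).2 h0
  by_contra hcon
  obtain ⟨p1, p2, hpp⟩ := rh_interval K (fun v => OnQ A1 v) h01
    (by
      have hy : K.on y := K.on_iff.mpr hy2
      refine ⟨K.r y, hy.1, ?_⟩
      rw [hy.2]
      exact hy1)
    (by
      rintro ⟨m, hm, hT, hi, hj⟩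
      refine hcon ⟨m, hm, ?_, hi, hj⟩
      rcases R.on3 _ (hKA m) with h | h
      · exact absurd h hT
      · exact h)
  refine hp {v | OnQ A1 v} ⟨?_, ?_, ?_⟩
  · exact rh_two (R.on1 q1 h1 hx1).1 (R.on1 q2 h2' hx2).1 hq
  · refine rh_two (a := x) (b := K.c 0) R.x2 h01 ?_
    intro h
    have := hKA 0
    rw [← h] at this
    exact R.x3 this
  · refine rh_card4 _ (q1, x) (q2, x) p1.swap p2.swap ?_
    rintro ⟨u, v⟩ ⟨hu, hv, huv⟩
    simp only [Set.mem_setOf_eq] at hu hv huv
    have he := (R.cover s(u, v)).mp huv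
    rcases he with he | he | he | he
    · have hvx : v = x := by
        by_contra hvx
        exact hv (R.on1 v (rh_right he) hvx).1
      subst hvx
      rcases hE u he with rfl | rfl
      · exact Or.inl rfl
      · exact Or.inr (Or.inl rfl)
    · exact absurd (rh_right he) hv
    · have he' : s(v, u) ∈ A2 := by
        rw [Sym2.eq_swap]
        exact he
      rcases hpp v u he' hv hu with h | h
      · refine Or.inr (Or.inr (Or.inl ?_))
        rw [← h]
        rfl
      · refine Or.inr (Or.inr (Or.inr ?_))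
        rw [← h]
        rfl
    · exact absurd (rh_left he) (R.on2 u hu).2

end Pool.Agent.GD
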