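import Pool.Agent.GD.RB
import Pool.Agent.GD.RH

set_option autoImplicit false

/-! Module RI: the two windows of the 4-ring. -/

namespace Pool.Agent.GD

variable {V : Type} {H : SimpleGraph V} {red : Set (Sym2 V)} {x : V} {E1 A1 A2 S : Set (Sym2 V)}

lemma RI_edge_mem {E : Set (Sym2 V)} (K : Cyc H E) (i : ℕ) : s(K.c i, K.c (i + 1)) ∈ E := by
  rw [K.edge]
  have hn := K.hn
  refine ⟨i % K.n, Nat.mod_lt _ (by omega), ?_⟩
  have h1 : K.c (i % K.n) = K.c i := K.c_mod i
  have h2 : K.c (i % K.n + 1) = K.c (i + 1) := by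
    rw [K.c_eq]
    simp [Nat.add_mod]
  rw [h1, h2]

lemma RI_alt {E : Set (Sym2 V)} (K : Cyc H E) (i : ℕ)
    (h : ∀ a b, a ≠ b → s(K.c (i + 1), a) ∈ E → s(K.c (i + 1), b) ∈ E →
      (s(K.c (i + 1), a) ∈ red ↔ s(K.c (i + 1), b) ∉ red)) :
    (s(K.c i, K.c (i + 1)) ∈ red ↔ s(K.c (i + 1), K.c (i + 2)) ∉ red) := by
  have hn := K.hn
  have h1 := K.two_ne (i + 1)
  have h2 : K.c (i + 1 + K.n - 1) = K.c i := by
    have : i + 1 + K.n - 1 = i + K.n := by omega
    rw [this, K.per]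
  rw [h2] at h1
  have h3 := RI_edge_mem K i
  have h4 := RI_edge_mem K (i + 1)
  have h5 := h (K.c i) (K.c (i + 2)) (Ne.symm h1) (by rw [Sym2.eq_swap]; exact h3) h4
  rw [Sym2.eq_swap] at h5
  exact h5

lemma RI_agree {E O : Set (Sym2 V)} (hsub : E ⊆ O) {κ : Sym2 V → Prop} {v : V}
    (h : AgreeOn O κ v) : AgreeOn E κ v :=
  fun a b ha hb => h a b (hsub ha) (hsub hb)

/-- the window formed by the two inner circuits -/
theorem ring_win23 [Finite V] (h2 : TwoReg H red) (hp : PrimeH H)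
    (R : Ring4 H red x E1 A1 A2 S) (K : Cyc H A1) (L : Cyc H A2) :
    ∃ A : HWin H red A1 A2, A.K = K ∧ A.L = L ∧ A.WH := by
  refine ⟨⟨K, L, fun e he => (R.d23 e he).1, ?_, ?_⟩, rfl, rfl, ?_⟩
  · intro z _ _ i _
    exact RI_alt K i (fun a b hab ha hb => R.alt2 _ a b hab ha hb)
  · intro z _ _ i _
    exact RI_alt L i (fun a b hab ha hb => R.alt3 _ a b hab ha hb)
  · intro w κ h
    obtain ⟨K1⟩ := R.K1
    obtain ⟨a1, ha1⟩ := R.x1
    obtain ⟨aS, haS⟩ := R.xS
    have hO1 : E1 ⊆ {e | e ∈ H.edgeSet ∧ e ∉ A1 ∧ e ∉ A2} := fun e he =>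
      ⟨(R.cover e).mpr (Or.inl he), (R.d12 e he).1, (R.d12 e he).2.1⟩
    have hOS : S ⊆ {e | e ∈ H.edgeSet ∧ e ∉ A1 ∧ e ∉ A2} := fun e he =>
      ⟨(R.cover e).mpr (Or.inr (Or.inr (Or.inr he))), fun h' => (R.d23 e h').2 he,
        fun h' => R.d34 e h' he⟩
    have hcase : ∀ e, e ∈ {e | e ∈ H.edgeSet ∧ e ∉ A1 ∧ e ∉ A2} → e ∈ E1 ∨ e ∈ S := by
      rintro e ⟨he, h1, h2⟩
      rcases (R.cover e).mp he with h' | h' | h' | h'
      · exact Or.inl h'
      · exact absurd h' h1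
      · exact absurd h' h2
      · exact Or.inr h'
    have c1 : ConstOn E1 κ := K1.const w κ (fun v hv => RI_agree hO1 (h v hv))
    have cS : ConstOn S κ := R.solidS w κ (fun v hv => RI_agree hOS (h v hv))
    refine ⟨κ s(x, a1), κ s(x, aS), ?_, ?_, ?_, ?_⟩
    · intro v a hv hva
      have hv' : OnQ A1 v := K.on_iff.mp hv
      rcases hcase _ hva with h' | h'
      · exact c1 _ h' _ ha1
      · exact absurd ⟨a, h'⟩ (R.on2 v hv').2
    · intro v a hv hva
      have hv' : OnQ A2 v := L.on_iff.mp hv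
      rcases hcase _ hva with h' | h'
      · exfalso
        have hvx : v ≠ x := by
          rintro rfl
          exact R.x3 hv'
        exact (R.on1 v ⟨a, h'⟩ hvx).2.1 hv'
      · exact cS _ h' _ haS
    · intro e he
      rcases hcase _ he with h' | h'
      · exact Or.inl (c1 _ h' _ ha1)
      · exact Or.inr (cS _ h' _ haS)
    · intro hw
      have hxw : x ≠ w := by
        rintro rfl
        rcases hw with h' | h'
        · exact R.x2 (K.on_iff.mp h')
        · exact R.x3 (L.on_iff.mp h')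
      exact h x hxw a1 aS (hO1 ha1) (hOS haS)

/-- the window formed by the circuit through `x` and the first inner circuit -/
theorem ring_win12 [Finite V] (h2 : TwoReg H red) (hp : PrimeH H)
    (R : Ring4 H red x E1 A1 A2 S) (K : Cyc H E1) (L : Cyc H A1) :
    ∃ A : HWin H red E1 A1, A.K = K ∧ A.L = L ∧ A.WH := by
  refine ⟨⟨K, L, fun e he => (R.d12 e he).1, ?_, ?_⟩, rfl, rfl, ?_⟩
  · intro z hz hz1 i hi
    have hzx : z = x := by
      by_contra hne
      exact hz1 (L.on_iff.mpr (R.on1 z (K.on_iff.mp hz) hne).1)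
    subst hzx
    exact RI_alt K i (fun a b hab ha hb => R.alt1 _ hi a b hab ha hb)
  · intro z _ _ i _
    exact RI_alt L i (fun a b hab ha hb => R.alt2 _ a b hab ha hb)
  · intro w κ h
    obtain ⟨K3⟩ := R.K3
    obtain ⟨aS, haS⟩ := R.xS
    obtain ⟨-, -, u, ⟨u2, hu2⟩, ⟨uS, huS⟩⟩ := ring_nonempty h2 hp R
    have hO2 : A2 ⊆ {e | e ∈ H.edgeSet ∧ e ∉ E1 ∧ e ∉ A1} := fun e he =>
      ⟨(R.cover e).mpr (Or.inr (Or.inr (Or.inl he))), fun h' => (R.d12 e h').2.1 he,
        fun h' => (R.d23 e h').1 he⟩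
    have hOS : S ⊆ {e | e ∈ H.edgeSet ∧ e ∉ E1 ∧ e ∉ A1} := fun e he =>
      ⟨(R.cover e).mpr (Or.inr (Or.inr (Or.inr he))), fun h' => (R.d12 e h').2.2 he,
        fun h' => (R.d23 e h').2 he⟩
    have hcase : ∀ e, e ∈ {e | e ∈ H.edgeSet ∧ e ∉ E1 ∧ e ∉ A1} → e ∈ A2 ∨ e ∈ S := by
      rintro e ⟨he, h1, h2⟩
      rcases (R.cover e).mp he with h' | h' | h' | h'
      · exact absurd h' h1
      · exact absurd h' h2
      · exact Or.inl h'
      · exact Or.inr h'
    have c2 : ConstOn A2 κ := K3.const w κ (fun v hv => RI_agree hO2 (h v hv))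
    have cS : ConstOn S κ := R.solidS w κ (fun v hv => RI_agree hOS (h v hv))
    refine ⟨κ s(x, aS), κ s(u, u2), ?_, ?_, ?_, ?_⟩
    · intro v a hv hva
      have hv' : OnQ E1 v := K.on_iff.mp hv
      by_cases hvx : v = x
      · subst hvx
        rcases hcase _ hva with h' | h'
        · exact absurd ⟨a, h'⟩ R.x3
        · exact cS _ h' _ haS
      · exfalso
        have h3 := R.on1 v hv' hvx
        rcases hcase _ hva with h' | h'
        · exact h3.2.1 ⟨a, h'⟩
        · exact h3.2.2 ⟨a, h'⟩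
    · intro v a hv hva
      have hv' : OnQ A1 v := L.on_iff.mp hv
      rcases hcase _ hva with h' | h'
      · exact c2 _ h' _ hu2
      · exact absurd ⟨a, h'⟩ (R.on2 v hv').2
    · intro e he
      rcases hcase _ he with h' | h'
      · exact Or.inr (c2 _ h' _ hu2)
      · exact Or.inl (cS _ h' _ haS)
    · intro hw
      have huw : u ≠ w := by
        rintro rfl
        rcases hw with h' | h'
        · have hux : u ≠ x := by
            rintro rfl
            exact R.x3 ⟨u2, hu2⟩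
          exact (R.on1 u (K.on_iff.mp h') hux).2.2 ⟨uS, huS⟩
        · exact (R.on2 u (L.on_iff.mp h')).2 ⟨uS, huS⟩
      have h3 : κ s(u, uS) ↔ κ s(u, u2) := h u huw uS u2 (hOS huS) (hO2 hu2)
      exact (cS _ haS _ huS).trans h3

end Pool.Agent.GD
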