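import Pool.Agent.GD.RKDefs
import Pool.Agent.GD.RG
import Pool.Agent.GD.RI
import Pool.Agent.GDW.Cyc

set_option autoImplicit false

/-! Module RJ: a 4-ring without good set contains the Moebius configuration. -/

namespace Pool.Agent.GD

variable {V : Type} {H : SimpleGraph V} {red : Set (Sym2 V)} {x : V} {E1 A1 A2 S : Set (Sym2 V)}

private lemma rj_t1 {a b c : Prop} (h1 : a ↔ ¬ b) (h2 : ¬ (b ↔ ¬ c)) : (a ↔ ¬ c) := by
  by_cases a <;> by_cases b <;> by_cases c <;> simp_all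

private lemma rj_t2 {a b : Prop} (h : a ↔ ¬ b) : (b ↔ ¬ a) := by
  by_cases a <;> by_cases b <;> simp_all

private lemma rj_t3 {a b c d e : Prop} (h1 : (a ↔ b) ↔ ¬ (c ↔ d)) (h2 : d ↔ ¬ e)
    (h3 : e ↔ ¬ c) : (b ↔ ¬ a) := by
  by_cases a <;> by_cases b <;> by_cases c <;> by_cases d <;> by_cases e <;> simp_all

private lemma rj_t4 {a b : Prop} (h : ¬ (a ↔ b)) : (a ↔ ¬ b) := by
  by_cases a <;> by_cases b <;> simp_all

private lemma rj_shift_pred {E : Set (Sym2 V)} (K K' : Cyc H E) {z v : V} (hn : K'.n = K.n)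
    (hc : ∀ i, K'.c i = K.c (K.r z + i)) (hr : K'.r v = cpos K.n (K.r z) (K.r v))
    (hz : K.on z) (hv : K.on v) :
    K'.c (K'.r v + K'.n - 1) = K.c (K.r v + K.n - 1) := by
  have hK := K.hn
  have hz1 := hz.1
  have hv1 := hv.1
  rw [hc, hr, hn]
  unfold cpos
  split_ifs with h
  · congr 1
    omega
  · have e : K.r z + (K.r v + K.n - K.r z + K.n - 1) = (K.r v + K.n - 1) + K.n := by omega
    rw [e, K.per]

/-- two vertices with vertices of type `M` on both arcs between them: start at one of them -/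
private lemma rj_arcs {E : Set (Sym2 V)} (K : Cyc H E) {v w : V} (M : V → Prop)
    {i m j : ℕ} (hi : 0 < i) (him : i < m) (hmj : m < j) (hj : j < K.n) (h0 : M (K.c 0))
    (hm : M (K.c m)) (hc : (K.c i = v ∧ K.c j = w) ∨ (K.c i = w ∧ K.c j = v)) :
    ∃ K' : Cyc H E, K'.c 0 = v ∧ ∃ a t b, 0 < a ∧ a < t ∧ t < b ∧ b < K'.n ∧ K'.c t = w ∧
      M (K'.c a) ∧ M (K'.c b) := by
  have hn := K.hn
  rcases hc with ⟨h1, h2⟩ | ⟨h1, h2⟩
  · have hv : K.on v := by rw [← h1]; exact K.on_c i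
    obtain ⟨K', hKn, hKc, hK0, -⟩ := K.shift hv
    have hr : K.r v = i := by rw [← h1]; exact K.inj i (by omega)
    refine ⟨K', hK0, m - i, j - i, K.n - i, by omega, by omega, by omega, by omega, ?_, ?_, ?_⟩
    · rw [hKc, hr]
      have e : i + (j - i) = j := by omega
      rw [e]
      exact h2
    · rw [hKc, hr]
      have e : i + (m - i) = m := by omega
      rw [e]
      exact hm
    · rw [hKc, hr]
      have e : i + (K.n - i) = 0 + K.n := by omega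
      rw [e, K.per]
      exact h0
  · have hv : K.on v := by rw [← h2]; exact K.on_c j
    obtain ⟨K', hKn, hKc, hK0, -⟩ := K.shift hv
    have hr : K.r v = j := by rw [← h2]; exact K.inj j hj
    refine ⟨K', hK0, K.n - j, i + K.n - j, m + K.n - j, by omega, by omega, by omega, by omega,
      ?_, ?_, ?_⟩
    · rw [hKc, hr]
      have e : j + (i + K.n - j) = i + K.n := by omega
      rw [e, K.per]
      exact h1
    · rw [hKc, hr]
      have e : j + (K.n - j) = 0 + K.n := by omega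
      rw [e, K.per]
      exact h0
    · rw [hKc, hr]
      have e : j + (m + K.n - j) = m + K.n := by omega
      rw [e, K.per]
      exact hm

/-- from theorem (I): exactly two common vertices of the inner circuits, of different signs -/
theorem ring_I [Finite V] (h2 : TwoReg H red) (hp : PrimeH H) (hng : ¬ HasGood H red)
    (R : Ring4 H red x E1 A1 A2 S) (K : Cyc H A1) (L : Cyc H A2) :
    ∃ v w, v ≠ w ∧ OnQ A1 v ∧ OnQ A2 v ∧ OnQ A1 w ∧ OnQ A2 w ∧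
      (∀ y, OnQ A1 y → OnQ A2 y → y = v ∨ y = w) ∧
      ((s(K.c (K.r v + K.n - 1), v) ∈ red ↔ s(L.c (L.r v + L.n - 1), v) ∈ red) ↔
        ¬ (s(K.c (K.r w + K.n - 1), w) ∈ red ↔ s(L.c (L.r w + L.n - 1), w) ∈ red)) := by
  classical
  obtain ⟨⟨z, hz1, hz2⟩, -, ⟨z', hz'1, hz'2⟩⟩ := ring_nonempty h2 hp R
  have hzK : K.on z := K.on_iff.mpr hz2
  have hzL : L.on z' := L.on_iff.mpr hz'1
  obtain ⟨K', hKn, hKc, hK0, hKr⟩ := K.shift hzK
  obtain ⟨L', hLn, hLc, hL0, hLr⟩ := L.shift hzL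
  obtain ⟨m, hm, hmE, ⟨i, him, hi⟩, j, hj, hmj, hj2⟩ :=
    ring_gaps2 h2 hp R K' (by rw [hK0]; exact hz1)
  obtain ⟨m', hm', hmS, ⟨i', him', hi'⟩, j', hj', hmj', hj2'⟩ :=
    ring_gaps3 h2 hp R L' (by rw [hL0]; exact hz'2)
  obtain ⟨A, hAK, hAL, hWH⟩ := ring_win23 h2 hp R K' L'
  subst hAK hAL
  have hE : ∀ v, OnQ E1 v → OnQ A1 v → ¬ OnQ A2 v := fun v h1 h2 =>
    (R.on1 v h1 (by rintro rfl; exact R.x2 h2)).2.1
  have hS : ∀ v, OnQ S v → ¬ OnQ A1 v := fun v h1 h2 => (R.on2 v h2).2 h1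
  have h0 : ¬ A.L.on (A.K.c 0) := by
    rw [hK0, A.L.on_iff]
    exact hE z hz1 hz2
  have h0' : ¬ A.K.on (A.L.c 0) := by
    rw [hL0, A.K.on_iff]
    exact hS z' hz'2
  have hcw := HWin.cw_of_window h2 A hWH hng hp h0 h0'
  have hP : ∀ v, OnQ A1 v → OnQ A2 v → v ∈ A.P := fun v h1 h2 =>
    ⟨A.K.on_iff.mpr h1, A.L.on_iff.mpr h2⟩
  have hKA : ∀ i, OnQ A1 (A.K.c i) := fun i => A.K.on_iff.mp (A.K.on_c i)
  have hLA : ∀ i, OnQ A2 (A.L.c i) := fun i => A.L.on_iff.mp (A.L.on_c i)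
  have hTD : GDW.TwoGaps A.K.n (fun v : A.P => A.K.r v) := by
    refine ⟨m, ⟨hm, ?_⟩, ⟨⟨A.K.c i, hP _ (hKA i) hi⟩, ?_⟩, ⟨A.K.c j, hP _ (hKA j) hj2⟩, ?_⟩
    · rintro ⟨v, hv⟩ hvm
      have hvm' : A.K.r v = m := hvm
      have e : A.K.c m = v := by rw [← hvm']; exact hv.1.2
      rw [e] at hmE
      exact hE v hmE (A.K.on_iff.mp hv.1) (A.L.on_iff.mp hv.2)
    · change A.K.r (A.K.c i) < m
      rw [A.K.inj i (by omega)]
      exact him
    · change m < A.K.r (A.K.c j)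
      rw [A.K.inj j hj]
      exact hmj
  have hTF : GDW.TwoGaps A.L.n (fun v : A.P => A.L.r v) := by
    refine ⟨m', ⟨hm', ?_⟩, ⟨⟨A.L.c i', hP _ hi' (hLA i')⟩, ?_⟩,
      ⟨A.L.c j', hP _ hj2' (hLA j')⟩, ?_⟩
    · rintro ⟨v, hv⟩ hvm
      have hvm' : A.L.r v = m' := hvm
      have e : A.L.c m' = v := by rw [← hvm']; exact hv.2.2
      rw [e] at hmS
      exact hS v hmS (A.K.on_iff.mp hv.1)
    · change A.L.r (A.L.c i') < m'
      rw [A.L.inj i' (by omega)]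
      exact him'
    · change m' < A.L.r (A.L.c j')
      rw [A.L.inj j' hj']
      exact hmj'
  have hcard : 2 ≤ (Set.univ : Set A.P).ncard := by
    refine (Set.one_lt_ncard (Set.toFinite _)).mpr
      ⟨⟨A.K.c i, hP _ (hKA i) hi⟩, trivial, ⟨A.K.c j, hP _ (hKA j) hj2⟩, trivial, ?_⟩
    intro h
    have h' : A.K.c i = A.K.c j := congrArg Subtype.val h
    have h'' : A.K.r (A.K.c i) = A.K.r (A.K.c j) := by rw [h']
    rw [A.K.inj i (by omega), A.K.inj j hj] at h''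
    omega
  have hKn3 := A.K.hn
  have hLn3 := A.L.hn
  obtain ⟨⟨p, hpP⟩, ⟨q, hqP⟩, hpq, hall, hs⟩ :=
    GDW.window_I hcw hcard (by omega) (by omega) hTD hTF
  refine ⟨p, q, ?_, A.K.on_iff.mp hpP.1, A.L.on_iff.mp hpP.2, A.K.on_iff.mp hqP.1,
    A.L.on_iff.mp hqP.2, ?_, ?_⟩
  · rintro rfl
    exact hpq rfl
  · intro y hy1 hy2
    rcases hall ⟨y, hP y hy1 hy2⟩ with h | h
    · left; exact congrArg Subtype.val h
    · right; exact congrArg Subtype.val h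
  · have hs' : ¬ (A.sg p ↔ A.sg q) := by
      intro h
      apply hs
      simp only [decide_eq_decide]
      exact h
    have onK : ∀ v ∈ A.P, K.on v := fun v hv => K.on_iff.mpr (A.K.on_iff.mp hv.1)
    have onL : ∀ v ∈ A.P, L.on v := fun v hv => L.on_iff.mpr (A.L.on_iff.mp hv.2)
    have e1 := rj_shift_pred K A.K hKn hKc (hKr p (onK p hpP)) hzK (onK p hpP)
    have e2 := rj_shift_pred K A.K hKn hKc (hKr q (onK q hqP)) hzK (onK q hqP)
    have e3 := rj_shift_pred L A.L hLn hLc (hLr p (onL p hpP)) hzL (onL p hpP)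
    have e4 := rj_shift_pred L A.L hLn hLc (hLr q (onL q hqP)) hzL (onL q hqP)
    unfold HWin.sg at hs'
    rw [e1, e2, e3, e4] at hs'
    exact rj_t4 hs'

private lemma rj_alt {E : Set (Sym2 V)} (K : Cyc H E) {q : V} (hq : K.on q)
    (halt : ∀ a b, a ≠ b → s(q, a) ∈ E → s(q, b) ∈ E → (s(q, a) ∈ red ↔ s(q, b) ∉ red)) :
    (s(K.c (K.r q + K.n - 1), q) ∈ red ↔ s(K.c (K.r q + 1), q) ∉ red) := by
  have h := halt (K.c (K.r q + K.n - 1)) (K.c (K.r q + 1)) (K.two_ne (K.r q)).symm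
    ((K.edge_at hq).mpr (Or.inr rfl)) ((K.edge_at hq).mpr (Or.inl rfl))
  rw [Sym2.eq_swap, h, Sym2.eq_swap]

private lemma rj_pred {E : Set (Sym2 V)} (K : Cyc H E) {q a : V} (ha : K.on a)
    (h : K.r a + 1 = K.r q) : K.c (K.r q + K.n - 1) = a := by
  have hn := K.hn
  have e : K.r q + K.n - 1 = K.r a + K.n := by omega
  rw [e, K.per]
  exact ha.2

private lemma rj_succ {E : Set (Sym2 V)} (K : Cyc H E) {q a : V} (ha : K.on a)
    (h : K.r q + 1 = K.r a) : K.c (K.r q + 1) = a := by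
  rw [h]
  exact ha.2

/-- colours of the edges `pq` of one circuit and `wq` of the other one -/
private lemma rj_colour {E F : Set (Sym2 V)} (K : Cyc H E) (L : Cyc H F) {p q w : V}
    (hp : K.on p) (hq : K.on q) (hq' : L.on q) (hw : L.on w)
    (haltK : ∀ a b, a ≠ b → s(q, a) ∈ E → s(q, b) ∈ E → (s(q, a) ∈ red ↔ s(q, b) ∉ red))
    (haltL : ∀ a b, a ≠ b → s(q, a) ∈ F → s(q, b) ∈ F → (s(q, a) ∈ red ↔ s(q, b) ∉ red))
    (h : (K.r p + 1 = K.r q ∧ L.r w + 1 = L.r q ∧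
        (s(K.c (K.r q + K.n - 1), q) ∈ red ↔ s(L.c (L.r q + L.n - 1), q) ∈ red)) ∨
      (K.r p + 1 = K.r q ∧ L.r q + 1 = L.r w ∧
        ¬ (s(K.c (K.r q + K.n - 1), q) ∈ red ↔ s(L.c (L.r q + L.n - 1), q) ∈ red)) ∨
      (K.r q + 1 = K.r p ∧ L.r w + 1 = L.r q ∧
        ¬ (s(K.c (K.r q + K.n - 1), q) ∈ red ↔ s(L.c (L.r q + L.n - 1), q) ∈ red)) ∨
      (K.r q + 1 = K.r p ∧ L.r q + 1 = L.r w ∧
        (s(K.c (K.r q + K.n - 1), q) ∈ red ↔ s(L.c (L.r q + L.n - 1), q) ∈ red))) :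
    (s(p, q) ∈ red ↔ s(w, q) ∈ red) := by
  have aK := rj_alt K hq haltK
  have aL := rj_alt L hq' haltL
  rcases h with ⟨h1, h2, h3⟩ | ⟨h1, h2, h3⟩ | ⟨h1, h2, h3⟩ | ⟨h1, h2, h3⟩
  · rw [rj_pred K hp h1, rj_pred L hw h2] at h3
    exact h3
  · rw [rj_succ L hw h2] at aL
    rw [rj_pred K hp h1, aL] at h3
    tauto
  · rw [rj_succ K hp h1] at aK
    rw [rj_pred L hw h2, aK] at h3
    tauto
  · rw [rj_succ K hp h1] at aK
    rw [rj_succ L hw h2] at aL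
    rw [aK, aL] at h3
    tauto

/-- from theorem (II): `x, p, q` consecutive on `E1`, `p, w, q` consecutive on `A1` -/
theorem ring_II [Finite V] (h2 : TwoReg H red) (hp : PrimeH H) (hng : ¬ HasGood H red)
    (R : Ring4 H red x E1 A1 A2 S) {v w : V} (hvw : v ≠ w) (hv1 : OnQ A1 v) (hv2 : OnQ A2 v)
    (hw1 : OnQ A1 w) (hw2 : OnQ A2 w) (only : ∀ y, OnQ A1 y → OnQ A2 y → y = v ∨ y = w) :
    ∃ (K : Cyc H E1) (L : Cyc H A1), K.c 0 = x ∧ L.c 0 = w ∧ L.c 1 = K.c 2 ∧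
      L.c (L.n - 1) = K.c 1 ∧ 3 ≤ K.n ∧ OnQ E1 (K.c 1) ∧ OnQ E1 (K.c 2) ∧
      (s(K.c 1, K.c 2) ∈ red ↔ s(w, K.c 2) ∈ red) := by
  classical
  obtain ⟨⟨z, hz1, hz2⟩, -, -⟩ := ring_nonempty h2 hp R
  obtain ⟨K0⟩ := R.K1
  obtain ⟨L0⟩ := R.K2
  have hE : ∀ v, OnQ E1 v → OnQ A1 v → ¬ OnQ A2 v := fun v h1 h2 =>
    (R.on1 v h1 (by rintro rfl; exact R.x2 h2)).2.1
  obtain ⟨K', hKn, hKc, hK0, hKr⟩ := K0.shift (K0.on_iff.mpr R.x1)
  obtain ⟨L1, hLn1, hLc1, hL01, hLr1⟩ := L0.shift (L0.on_iff.mpr hz2)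
  obtain ⟨L', hL0, a, t, b, ha, hat, htb, hb, hLt, hMa, hMb⟩ : ∃ L' : Cyc H A1, L'.c 0 = v ∧
      ∃ a t b, 0 < a ∧ a < t ∧ t < b ∧ b < L'.n ∧ L'.c t = w ∧ OnQ E1 (L'.c a) ∧
        OnQ E1 (L'.c b) := by
    obtain ⟨m, hm, hmE, ⟨i, him, hi⟩, j, hj, hmj, hj2⟩ :=
      ring_gaps2 h2 hp R L1 (by rw [hL01]; exact hz1)
    have hLA : ∀ i, OnQ A1 (L1.c i) := fun i => L1.on_iff.mp (L1.on_c i)
    have hi0 : 0 < i := by
      rcases Nat.eq_zero_or_pos i with h | h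
      · exfalso
        rw [h, hL01] at hi
        exact hE z hz1 hz2 hi
      · exact h
    have hne : L1.c i ≠ L1.c j := by
      intro h
      have h' : L1.r (L1.c i) = L1.r (L1.c j) := by rw [h]
      rw [L1.inj i (by omega), L1.inj j hj] at h'
      omega
    refine rj_arcs L1 (OnQ E1) hi0 him hmj hj (by rw [hL01]; exact hz1) hmE ?_
    rcases only _ (hLA i) hi with h | h <;> rcases only _ (hLA j) hj2 with h' | h'
    · exact absurd (h.trans h'.symm) hne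
    · exact Or.inl ⟨h, h'⟩
    · exact Or.inr ⟨h, h'⟩
    · exact absurd (h.trans h'.symm) hne
  obtain ⟨A, hAK, hAL, hWH⟩ := ring_win12 h2 hp R K' L'
  subst hAK hAL
  have hvE : ¬ OnQ E1 v := fun h => hE v h hv1 hv2
  have hwE : ¬ OnQ E1 w := fun h => hE w h hw1 hw2
  have h0 : ¬ A.L.on (A.K.c 0) := by
    rw [hK0, A.L.on_iff]
    exact R.x2
  have h0' : ¬ A.K.on (A.L.c 0) := by
    rw [hL0, A.K.on_iff]
    exact hvE
  have hcw := HWin.cw_of_window h2 A hWH hng hp h0 h0'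
  have hP : ∀ v, OnQ E1 v → OnQ A1 v → v ∈ A.P := fun v h1 h2 =>
    ⟨A.K.on_iff.mpr h1, A.L.on_iff.mpr h2⟩
  have hKA : ∀ i, OnQ E1 (A.K.c i) := fun i => A.K.on_iff.mp (A.K.on_c i)
  have hLA : ∀ i, OnQ A1 (A.L.c i) := fun i => A.L.on_iff.mp (A.L.on_c i)
  have hKn3 := A.K.hn
  have hLn3 := A.L.hn
  have hrw : A.L.r w = t := by rw [← hLt]; exact A.L.inj t (by omega)
  have hwL : A.L.on w := A.L.on_iff.mpr hw1
  have hcard : 2 ≤ (Set.univ : Set A.P).ncard := by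
    refine (Set.one_lt_ncard (Set.toFinite _)).mpr
      ⟨⟨A.L.c a, hP _ hMa (hLA a)⟩, trivial, ⟨A.L.c b, hP _ hMb (hLA b)⟩, trivial, ?_⟩
    intro h
    have h' : A.L.c a = A.L.c b := congrArg Subtype.val h
    have h'' : A.L.r (A.L.c a) = A.L.r (A.L.c b) := by rw [h']
    rw [A.L.inj a (by omega), A.L.inj b hb] at h''
    omega
  have hmD : ∀ m, GDW.IsMark A.K.n (fun v : A.P => A.K.r v) m → m = 0 := by
    rintro m ⟨hm, hm'⟩
    by_contra hm0
    have hx : A.K.c m ≠ x := by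
      intro h
      have h' : A.K.r (A.K.c m) = A.K.r (A.K.c 0) := by rw [h, hK0]
      rw [A.K.inj m hm, A.K.inj 0 (by omega)] at h'
      exact hm0 h'
    exact hm' ⟨A.K.c m, hP _ (hKA m) (R.on1 _ (hKA m) hx).1⟩ (A.K.inj m hm)
  have hw : GDW.IsMark A.L.n (fun v : A.P => A.L.r v) t := by
    refine ⟨by omega, ?_⟩
    rintro ⟨y, hy⟩ hyt
    have hyt' : A.L.r y = t := hyt
    have e : y = w := by rw [← hy.2.2, hyt', hLt]
    rw [e] at hy
    exact hwE (A.K.on_iff.mp hy.1)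
  have hmF : ∀ m, GDW.IsMark A.L.n (fun v : A.P => A.L.r v) m → m = 0 ∨ m = t := by
    rintro m ⟨hm, hm'⟩
    by_cases hcE : OnQ E1 (A.L.c m)
    · exact absurd (A.L.inj m hm) (hm' ⟨A.L.c m, hP _ hcE (hLA m)⟩)
    · have h2 : OnQ A2 (A.L.c m) := by
        rcases (R.on2 _ (hLA m)).1 with h | h
        · exact absurd h hcE
        · exact h
      rcases only _ (hLA m) h2 with h | h
      · left
        have h' : A.L.r (A.L.c m) = A.L.r (A.L.c 0) := by rw [h, hL0]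
        rw [A.L.inj m hm, A.L.inj 0 (by omega)] at h'
        exact h'
      · right
        have h' : A.L.r (A.L.c m) = A.L.r (A.L.c t) := by rw [h, hLt]
        rw [A.L.inj m hm, A.L.inj t (by omega)] at h'
        exact h'
  obtain ⟨⟨p, hpP⟩, ⟨q, hqP⟩, hs, hcases⟩ := GDW.window_II hcw hcard (by omega) (by omega) hmD hw
    ⟨⟨A.L.c a, hP _ hMa (hLA a)⟩, by
      change A.L.r (A.L.c a) < t
      rw [A.L.inj a (by omega)]
      exact hat⟩
    ⟨⟨A.L.c b, hP _ hMb (hLA b)⟩, by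
      change t < A.L.r (A.L.c b)
      rw [A.L.inj b hb]
      exact htb⟩ hmF
  dsimp only at hs hcases
  have hqx : q ≠ x := by
    rintro rfl
    exact R.x2 (A.L.on_iff.mp hqP.2)
  have haltK := R.alt1 q hqx
  have haltL := R.alt2 q
  have hcp : A.K.c (A.K.r p) = p := hpP.1.2
  have hcq : A.K.c (A.K.r q) = q := hqP.1.2
  have hcp' : A.L.c (A.L.r p) = p := hpP.2.2
  have hcq' : A.L.c (A.L.r q) = q := hqP.2.2
  obtain ⟨L2, hLn2, hLc2, hL02, -⟩ := A.L.shift hwL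
  rw [hrw] at hLc2
  have key : ∃ (K : Cyc H E1) (L : Cyc H A1), K.c 0 = x ∧ K.c 1 = p ∧ K.c 2 = q ∧ L.c 0 = w ∧
      L.c 1 = q ∧ L.c (L.n - 1) = p ∧ (s(p, q) ∈ red ↔ s(w, q) ∈ red) := by
    -- the two circuits
    have hK1 : A.K.r p = 1 ∧ A.K.r q = 2 → ∃ K : Cyc H E1, K.c 0 = x ∧ K.c 1 = p ∧ K.c 2 = q := by
      rintro ⟨h1, h2⟩
      exact ⟨A.K, hK0, by rw [← h1]; exact hcp, by rw [← h2]; exact hcq⟩
    have hK2 : A.K.r p + 1 = A.K.n ∧ A.K.r q + 2 = A.K.n →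
        ∃ K : Cyc H E1, K.c 0 = x ∧ K.c 1 = p ∧ K.c 2 = q := by
      rintro ⟨h1, h2⟩
      obtain ⟨K3, hn3, hc3, h03, -⟩ := A.K.reverse
      refine ⟨K3, h03.trans hK0, ?_, ?_⟩
      · rw [hc3 1 (by omega)]
        have e : A.K.n - 1 = A.K.r p := by omega
        rw [e]
        exact hcp
      · rw [hc3 2 (by omega)]
        have e : A.K.n - 2 = A.K.r q := by omega
        rw [e]
        exact hcq
    have hL1 : A.L.r p + 1 = t ∧ A.L.r q = t + 1 →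
        ∃ L : Cyc H A1, L.c 0 = w ∧ L.c 1 = q ∧ L.c (L.n - 1) = p := by
      rintro ⟨h1, h2⟩
      refine ⟨L2, hL02, ?_, ?_⟩
      · rw [hLc2, ← h2]
        exact hcq'
      · rw [hLc2, hLn2]
        have e : t + (A.L.n - 1) = A.L.r p + A.L.n := by omega
        rw [e, A.L.per]
        exact hcp'
    have hL2 : A.L.r q + 1 = t ∧ A.L.r p = t + 1 →
        ∃ L : Cyc H A1, L.c 0 = w ∧ L.c 1 = q ∧ L.c (L.n - 1) = p := by
      rintro ⟨h1, h2⟩
      obtain ⟨L3, hn3, hc3, h03, -⟩ := L2.reverse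
      refine ⟨L3, h03.trans hL02, ?_, ?_⟩
      · rw [hc3 1 (by omega), hLc2, hLn2]
        have e : t + (A.L.n - 1) = A.L.r q + A.L.n := by omega
        rw [e, A.L.per]
        exact hcq'
      · rw [hn3, hc3 _ (by omega), hLc2, hLn2]
        have e : t + (A.L.n - (A.L.n - 1)) = A.L.r p := by omega
        rw [e]
        exact hcp'
    have sgE : ∀ v, A.sg v ↔ (s(A.K.c (A.K.r v + A.K.n - 1), v) ∈ red ↔
        s(A.L.c (A.L.r v + A.L.n - 1), v) ∈ red) := fun v => Iff.rfl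
    rcases hcases with ⟨⟨d1, d2⟩, ⟨f1, f2, s1⟩ | ⟨f1, f2, s1⟩⟩ |
      ⟨⟨d1, d2⟩, ⟨f1, f2, s1⟩ | ⟨f1, f2, s1⟩⟩
    · rw [s1] at hs
      have hsq : A.sg q := by simpa using hs
      obtain ⟨K, k0, k1, k2⟩ := hK1 ⟨d1, d2⟩
      obtain ⟨L, l0, l1, l2⟩ := hL1 ⟨f1, f2⟩
      exact ⟨K, L, k0, k1, k2, l0, l1, l2, rj_colour A.K A.L hpP.1 hqP.1 hqP.2 hwL haltK haltL
        (Or.inl ⟨by omega, by omega, (sgE q).mp hsq⟩)⟩
    · rw [s1] at hs
      have hsq : ¬ A.sg q := by simpa using hs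
      obtain ⟨K, k0, k1, k2⟩ := hK1 ⟨d1, d2⟩
      obtain ⟨L, l0, l1, l2⟩ := hL2 ⟨f1, f2⟩
      exact ⟨K, L, k0, k1, k2, l0, l1, l2, rj_colour A.K A.L hpP.1 hqP.1 hqP.2 hwL haltK haltL
        (Or.inr (Or.inl ⟨by omega, by omega, fun h => hsq ((sgE q).mpr h)⟩))⟩
    · rw [s1] at hs
      have hsq : ¬ A.sg q := by simpa using hs
      obtain ⟨K, k0, k1, k2⟩ := hK2 ⟨d1, d2⟩
      obtain ⟨L, l0, l1, l2⟩ := hL1 ⟨f1, f2⟩
      exact ⟨K, L, k0, k1, k2, l0, l1, l2, rj_colour A.K A.L hpP.1 hqP.1 hqP.2 hwL haltK haltL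
        (Or.inr (Or.inr (Or.inl ⟨by omega, by omega, fun h => hsq ((sgE q).mpr h)⟩)))⟩
    · rw [s1] at hs
      have hsq : A.sg q := by simpa using hs
      obtain ⟨K, k0, k1, k2⟩ := hK2 ⟨d1, d2⟩
      obtain ⟨L, l0, l1, l2⟩ := hL2 ⟨f1, f2⟩
      exact ⟨K, L, k0, k1, k2, l0, l1, l2, rj_colour A.K A.L hpP.1 hqP.1 hqP.2 hwL haltK haltL
        (Or.inr (Or.inr (Or.inr ⟨by omega, by omega, (sgE q).mp hsq⟩)))⟩
  obtain ⟨K, L, k0, k1, k2, l0, l1, l2, hcol⟩ := key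
  exact ⟨K, L, k0, l0, by rw [l1, k2], by rw [l2, k1], K.hn, K.on_iff.mp (K.on_c 1),
    K.on_iff.mp (K.on_c 2), by rw [k1, k2]; exact hcol⟩

theorem ring_moeb [Finite V] (h2 : TwoReg H red) (hp : PrimeH H) (hng : ¬ HasGood H red)
    (R : Ring4 H red x E1 A1 A2 S) : Nonempty (Moeb H red x E1 A1 A2 S) := by
  classical
  obtain ⟨-, -, ⟨z, hz1, hz2⟩⟩ := ring_nonempty h2 hp R
  obtain ⟨L00⟩ := R.K2
  obtain ⟨M00⟩ := R.K3
  have hE : ∀ v, OnQ E1 v → OnQ A1 v → ¬ OnQ A2 v := fun v h1 h2 =>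
    (R.on1 v h1 (by rintro rfl; exact R.x2 h2)).2.1
  obtain ⟨v, w, hvw, hv1, hv2, hw1, hw2, only, -⟩ := ring_I h2 hp hng R L00 M00
  obtain ⟨K, L, k0, l0, l1, ln, hKn, hp1, hq1, hcol⟩ :=
    ring_II h2 hp hng R hvw hv1 hv2 hw1 hw2 only
  have hvE : ¬ OnQ E1 v := fun h => hE v h hv1 hv2
  have hLn := L.hn
  have hvL : L.on v := L.on_iff.mpr hv1
  -- position of `v` on `L`
  have hr0 : L.r v ≠ 0 := by
    intro h
    have := hvL.2
    rw [h, l0] at this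
    exact hvw this.symm
  have hr1 : L.r v ≠ 1 := by
    intro h
    have := hvL.2
    rw [h, l1] at this
    rw [this] at hq1
    exact hvE hq1
  have hrn : L.r v ≠ L.n - 1 := by
    intro h
    have := hvL.2
    rw [h, ln] at this
    rw [this] at hp1
    exact hvE hp1
  have hrlt := hvL.1
  -- the third circuit, starting at `w`
  obtain ⟨M1, hMn1, hMc1, hM01, -⟩ := M00.shift (M00.on_iff.mpr hz1)
  obtain ⟨M2, hM20, a, t, b, ha, hat, htb, hb, hMt, hMa, hMb⟩ : ∃ M2 : Cyc H A2, M2.c 0 = w ∧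
      ∃ a t b, 0 < a ∧ a < t ∧ t < b ∧ b < M2.n ∧ M2.c t = v ∧ OnQ S (M2.c a) ∧
        OnQ S (M2.c b) := by
    obtain ⟨m, hm, hmE, ⟨i, him, hi⟩, j, hj, hmj, hj2⟩ :=
      ring_gaps3 h2 hp R M1 (by rw [hM01]; exact hz2)
    have hMA : ∀ i, OnQ A2 (M1.c i) := fun i => M1.on_iff.mp (M1.on_c i)
    have hi0 : 0 < i := by
      rcases Nat.eq_zero_or_pos i with h | h
      · exfalso
        rw [h, hM01] at hi
        exact (R.on2 z hi).2 hz2
      · exact h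
    have hne : M1.c i ≠ M1.c j := by
      intro h
      have h' : M1.r (M1.c i) = M1.r (M1.c j) := by rw [h]
      rw [M1.inj i (by omega), M1.inj j hj] at h'
      omega
    refine rj_arcs M1 (OnQ S) hi0 him hmj hj (by rw [hM01]; exact hz2) hmE ?_
    rcases only _ hi (hMA i) with h | h <;> rcases only _ hj2 (hMA j) with h' | h'
    · exact absurd (h.trans h'.symm) hne
    · exact Or.inr ⟨h, h'⟩
    · exact Or.inl ⟨h, h'⟩
    · exact absurd (h.trans h'.symm) hne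
  -- choose the direction
  have hwM : M2.on w := M2.on_iff.mpr hw2
  have hrw2 : M2.r w = 0 := by
    rw [← hM20]
    exact M2.inj 0 (by omega)
  have halt := rj_alt M2 hwM (R.alt3 w)
  rw [hrw2] at halt
  have e0 : 0 + M2.n - 1 = M2.n - 1 := by omega
  have e1 : 0 + 1 = 1 := rfl
  rw [e0, e1] at halt
  obtain ⟨M, hM0, hM1, t', ht0, htn, hMt', hfar⟩ : ∃ M : Cyc H A2, M.c 0 = w ∧
      (s(w, M.c 1) ∈ red ↔ s(K.c 1, w) ∉ red) ∧ ∃ t', 0 < t' ∧ t' < M.n ∧ M.c t' = v ∧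
        ∃ j, t' < j ∧ j < M.n ∧ OnQ S (M.c j) := by
    by_cases hc : (s(w, M2.c 1) ∈ red ↔ s(K.c 1, w) ∉ red)
    · exact ⟨M2, hM20, hc, t, by omega, by omega, hMt, b, htb, hb, hMb⟩
    · obtain ⟨M3, hn3, hc3, h03, -⟩ := M2.reverse
      refine ⟨M3, h03.trans hM20, ?_, M2.n - t, by omega, by omega, ?_, M2.n - a, by omega,
        by omega, ?_⟩
      · rw [hc3 1 (by omega), Sym2.eq_swap (a := w) (b := M2.c (M2.n - 1))]
        rw [Sym2.eq_swap (a := w) (b := M2.c 1)] at hc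
        exact rj_t1 halt hc
      · rw [hc3 _ (by omega)]
        have e : M2.n - (M2.n - t) = t := by omega
        rw [e]
        exact hMt
      · rw [hc3 _ (by omega)]
        have e : M2.n - (M2.n - a) = a := by omega
        rw [e]
        exact hMa
  -- signs
  obtain ⟨v', w', hvw', hv1', hv2', hw1', hw2', only', hsg⟩ := ring_I h2 hp hng R L M
  have hsgn : ((s(L.c (L.r v + L.n - 1), v) ∈ red ↔ s(M.c (M.r v + M.n - 1), v) ∈ red) ↔
        ¬ (s(L.c (L.r w + L.n - 1), w) ∈ red ↔ s(M.c (M.r w + M.n - 1), w) ∈ red)) := by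
    rcases only' v hv1 hv2 with h | h <;> rcases only' w hw1 hw2 with h' | h'
    · exact absurd (h.trans h'.symm) hvw
    · rw [h, h']
      exact hsg
    · rw [h, h']
      exact rj_t2 hsg
    · exact absurd (h.trans h'.symm) hvw
  have hMn := M.hn
  have hrwL : L.r w = 0 := by
    rw [← l0]
    exact L.inj 0 (by omega)
  have hrwM : M.r w = 0 := by
    rw [← hM0]
    exact M.inj 0 (by omega)
  have hrvM : M.r v = t' := by
    rw [← hMt']
    exact M.inj t' htn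
  have haltM := rj_alt M (M.on_iff.mpr hw2) (R.alt3 w)
  rw [hrwM] at haltM
  rw [hrwL, hrwM] at hsgn
  have e2 : 0 + L.n - 1 = L.n - 1 := by omega
  have e3 : 0 + M.n - 1 = M.n - 1 := by omega
  have e4 : L.r v + L.n - 1 = (L.r v - 1) + L.n := by omega
  have e5 : M.r v + M.n - 1 = (t' - 1) + M.n := by omega
  rw [e3, e1, Sym2.eq_swap (a := M.c 1) (b := w)] at haltM
  rw [e2, e3, e4, e5, L.per, M.per, ln] at hsgn
  exact ⟨{
    R := R
    K1 := K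
    K2 := L
    K3 := M
    p := K.c 1
    q := K.c 2
    v := v
    w := w
    i := L.r v
    t := t'
    k10 := k0
    k11 := rfl
    k12 := rfl
    k20 := l0
    k21 := l1
    k2i := hvL.2
    hi1 := by omega
    hi2 := by omega
    k2n := ln
    k30 := hM0
    k3t := hMt'
    ht0 := ht0
    htn := htn
    wA1 := hw1
    wA2 := hw2
    vA1 := hv1
    vA2 := hv2
    hvw := hvw
    only := only
    far := hfar
    col1 := hcol
    col2 := hM1
    col3 := rj_t3 hsgn haltM hM1 }⟩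

end Pool.Agent.GD
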