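import Pool.Agent.GD.RKDefs
import Pool.Agent.GD.RB

set_option autoImplicit false

/-! Module RK: the Moebius circuit is good. -/

namespace Pool.Agent.GD

variable {V : Type} {H : SimpleGraph V} {red : Set (Sym2 V)} {x : V} {E1 A1 A2 S : Set (Sym2 V)}

/-- the edge set of the Moebius circuit -/
def Moeb.Q (M : Moeb H red x E1 A1 A2 S) : Set (Sym2 V) :=
  {e | e = s(M.p, M.q) ∨ e = s(M.p, M.w) ∨ (∃ j, 1 ≤ j ∧ j < M.i ∧ e = s(M.K2.c j, M.K2.c (j + 1))) ∨
    (∃ j < M.t, e = s(M.K3.c j, M.K3.c (j + 1)))}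

/-! ### Auxiliary lemmas -/

lemma RK_mem {E : Set (Sym2 V)} (K : Cyc H E) {j : ℕ} (hj : j < K.n) :
    s(K.c j, K.c (j + 1)) ∈ E := (K.edge _).2 ⟨j, hj, rfl⟩

lemma RK_inj {E : Set (Sym2 V)} (K : Cyc H E) {j k : ℕ} (hj : j < K.n) (hk : k < K.n)
    (h : K.c j = K.c k) : j = k := by
  rw [← K.inj j hj, h, K.inj k hk]

lemma RK_onc {E : Set (Sym2 V)} (K : Cyc H E) (j : ℕ) : OnQ E (K.c j) :=
  K.on_iff.1 (K.on_c j)

lemma RK_onof {E : Set (Sym2 V)} {y z : V} (h : s(y, z) ∈ E) : OnQ E y := ⟨z, h⟩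

/-- local description of an arc -/
lemma RK_arc {E : Set (Sym2 V)} (K : Cyc H E) {a b k : ℕ} (hb : b < K.n) (hk : k < K.n) (z : V) :
    (∃ j, a ≤ j ∧ j < b ∧ s(K.c k, z) = s(K.c j, K.c (j + 1))) ↔
      (a ≤ k ∧ k < b ∧ z = K.c (k + 1)) ∨ (a < k ∧ k ≤ b ∧ z = K.c (k - 1)) := by
  constructor
  · rintro ⟨j, h1, h2, h3⟩
    rw [Sym2.eq_iff] at h3
    rcases h3 with ⟨h3, h4⟩ | ⟨h3, h4⟩
    · left
      have : k = j := RK_inj K hk (by omega) h3
      subst this
      exact ⟨h1, h2, h4⟩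
    · right
      have : k = j + 1 := RK_inj K hk (by omega) h3
      subst this
      exact ⟨by omega, by omega, by simpa using h4⟩
  · rintro (⟨h1, h2, h3⟩ | ⟨h1, h2, h3⟩)
    · exact ⟨k, h1, h2, by rw [h3]⟩
    · refine ⟨k - 1, by omega, by omega, ?_⟩
      have e1 : k - 1 + 1 = k := by omega
      rw [h3, e1]
      exact Sym2.eq_swap

/-- an edge of an arc is at no vertex off the circuit -/
lemma RK_arcoff {E : Set (Sym2 V)} (K : Cyc H E) {a b : ℕ} (hb : b < K.n) {y z : V}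
    (hy : ¬ OnQ E y) : ¬ ∃ j, a ≤ j ∧ j < b ∧ s(y, z) = s(K.c j, K.c (j + 1)) := by
  rintro ⟨j, -, h2, h3⟩
  apply hy
  refine ⟨z, ?_⟩
  rw [h3]
  exact RK_mem K (by omega)

lemma RK_seg (g : ℕ → Prop) (a b : ℕ) (h : ∀ j, a < j → j < b → (g (j - 1) ↔ g j)) :
    ∀ j, a ≤ j → j < b → (g j ↔ g a) := by
  intro j
  induction j with
  | zero =>
    intro h1 _
    have : a = 0 := by omega
    rw [this]
  | succ j ih =>
    intro h1 h2
    by_cases hj : a = j + 1
    · rw [hj]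
    · rw [← ih (by omega) (by omega)]
      have := h (j + 1) (by omega) h2
      simpa using this.symm

lemma RK_seg2 (g : ℕ → Prop) (β : Prop) (a b k : ℕ) (ha : g a ↔ β) (hb : g (b - 1) ↔ β)
    (h : ∀ j, a < j → j < b → j ≠ k → (g (j - 1) ↔ g j)) :
    ∀ j, a ≤ j → j < b → (g j ↔ β) := by
  intro j h1 h2
  by_cases hj : j < k
  · rw [← ha]
    exact RK_seg g a (j + 1) (fun i h3 h4 => h i h3 (by omega) (by omega)) j h1 (by omega)
  · have h5 := RK_seg g j b (fun i h3 h4 => h i (by omega) h4 (by omega)) (b - 1) (by omega)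
      (by omega)
    rw [← h5, hb]

/-- propagation along an arc of a circuit -/
lemma RK_prop {E : Set (Sym2 V)} (K : Cyc H E) (R : Set (Sym2 V)) (κ : Sym2 V → Prop) (w₀ : V)
    (hag : ∀ y, y ≠ w₀ → AgreeOn R κ y) (a b : ℕ) (hb : b ≤ K.n)
    (hR : ∀ j, a ≤ j → j < b → s(K.c j, K.c (j + 1)) ∈ R) (β : Prop)
    (hend : (κ s(K.c a, K.c (a + 1)) ↔ β) ∧ (κ s(K.c (b - 1), K.c (b - 1 + 1)) ↔ β) ∨
      (∀ j, a < j → j < b → K.c j ≠ w₀) ∧
        ((κ s(K.c a, K.c (a + 1)) ↔ β) ∨ (κ s(K.c (b - 1), K.c (b - 1 + 1)) ↔ β))) :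
    ∀ j, a ≤ j → j < b → (κ s(K.c j, K.c (j + 1)) ↔ β) := by
  have hstep : ∀ j, a < j → j < b → K.c j ≠ w₀ →
      (κ s(K.c (j - 1), K.c (j - 1 + 1)) ↔ κ s(K.c j, K.c (j + 1))) := by
    intro j h1 h2 h3
    have e1 : j - 1 + 1 = j := by omega
    have h4 := hR (j - 1) (by omega) (by omega)
    have h5 := hR j (by omega) h2
    rw [e1] at h4 ⊢
    rw [Sym2.eq_swap] at h4
    rw [Sym2.eq_swap (a := K.c (j - 1))]
    exact hag _ h3 _ _ h4 h5
  rcases hend with ⟨h1, h2⟩ | ⟨h0, h1⟩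
  · refine RK_seg2 (fun j => κ s(K.c j, K.c (j + 1))) β a b (K.r w₀) h1 h2 ?_
    intro j h3 h4 h5
    refine hstep j h3 h4 ?_
    intro h6
    apply h5
    rw [← h6, K.inj j (by omega)]
  · have hs := RK_seg (fun j => κ s(K.c j, K.c (j + 1))) a b
      (fun j h3 h4 => hstep j h3 h4 (h0 j h3 h4))
    intro j h3 h4
    rcases h1 with h1 | h1
    · rw [← h1]; exact hs j h3 h4
    · rw [← h1]
      have h5 := hs j h3 h4
      have h6 := hs (b - 1) (by omega) (by omega)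
      exact h5.trans h6.symm

namespace Moeb

variable (M : Moeb H red x E1 A1 A2 S)

include M in
lemma RK_offE {y : V} (h : OnQ A2 y) : ¬ OnQ E1 y := by
  intro h1
  have hyx : y ≠ x := fun h2 => M.R.x3 (h2 ▸ h)
  exact (M.R.on1 y h1 hyx).2.1 h

lemma RK_px : M.p ≠ x := by
  intro h
  have h1 : M.K1.c 1 = M.K1.c 0 := by rw [M.k11, h, M.k10]
  have := RK_inj M.K1 (j := 1) (k := 0) (by have := M.K1.hn; omega) (by have := M.K1.hn; omega) h1
  omega

lemma RK_qx : M.q ≠ x := by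
  intro h
  have h1 : M.K1.c 2 = M.K1.c 0 := by rw [M.k12, h, M.k10]
  have := RK_inj M.K1 (j := 2) (k := 0) (by have := M.K1.hn; omega) (by have := M.K1.hn; omega) h1
  omega

lemma RK_pE : OnQ E1 M.p := by
  rw [← M.k11]; exact RK_onc _ _

lemma RK_qE : OnQ E1 M.q := by
  rw [← M.k12]; exact RK_onc _ _

lemma RK_pA2 : ¬ OnQ A2 M.p := (M.R.on1 _ M.RK_pE M.RK_px).2.1
lemma RK_qA2 : ¬ OnQ A2 M.q := (M.R.on1 _ M.RK_qE M.RK_qx).2.1
lemma RK_pA1 : OnQ A1 M.p := (M.R.on1 _ M.RK_pE M.RK_px).1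
lemma RK_qA1 : OnQ A1 M.q := (M.R.on1 _ M.RK_qE M.RK_qx).1

lemma RK_pq : M.p ≠ M.q := by
  rw [← M.k11, ← M.k12]
  intro h
  have := RK_inj M.K1 (j := 1) (k := 2) (by have := M.K1.hn; omega) (by have := M.K1.hn; omega) h
  omega

lemma RK_pw : M.p ≠ M.w := fun h => M.RK_pA2 (h ▸ M.wA2)
lemma RK_qw : M.q ≠ M.w := fun h => M.RK_qA2 (h ▸ M.wA2)
lemma RK_pv : M.p ≠ M.v := fun h => M.RK_pA2 (h ▸ M.vA2)
lemma RK_qv : M.q ≠ M.v := fun h => M.RK_qA2 (h ▸ M.vA2)

lemma RK_k2l : M.K2.c (M.K2.n - 1 + 1) = M.w := by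
  have e : M.K2.n - 1 + 1 = 0 + M.K2.n := by have := M.K2.hn; omega
  rw [e, M.K2.per, M.k20]

lemma RK_k3l : M.K3.c (M.K3.n - 1 + 1) = M.w := by
  have e : M.K3.n - 1 + 1 = 0 + M.K3.n := by have := M.K3.hn; omega
  rw [e, M.K3.per, M.k30]

lemma RK_k1l : M.K1.c (M.K1.n - 1 + 1) = x := by
  have e : M.K1.n - 1 + 1 = 0 + M.K1.n := by have := M.K1.hn; omega
  rw [e, M.K1.per, M.k10]

lemma RK_epq : s(M.p, M.q) = s(M.K1.c 1, M.K1.c (1 + 1)) := by
  rw [M.k11, show 1 + 1 = 2 from rfl, M.k12]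

lemma RK_epw : s(M.p, M.w) = s(M.K2.c (M.K2.n - 1), M.K2.c (M.K2.n - 1 + 1)) := by
  rw [M.k2n, M.RK_k2l]

lemma RK_ewq : s(M.w, M.q) = s(M.K2.c 0, M.K2.c (0 + 1)) := by
  rw [M.k20, show 0 + 1 = 1 from rfl, M.k21]

lemma RK_pqE : s(M.p, M.q) ∈ E1 := by
  rw [M.RK_epq]; exact RK_mem _ (by have := M.K1.hn; omega)

lemma RK_pwA : s(M.p, M.w) ∈ A1 := by
  rw [M.RK_epw]; exact RK_mem _ (by have := M.K1.hn; have := M.K2.hn; omega)

lemma RK_wqA : s(M.w, M.q) ∈ A1 := by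
  rw [M.RK_ewq]; exact RK_mem _ (by have := M.K2.hn; omega)

/-- membership -/
lemma RK_Q (e : Sym2 V) : e ∈ M.Q ↔ e = s(M.p, M.q) ∨ e = s(M.p, M.w) ∨
    (∃ j, 1 ≤ j ∧ j < M.i ∧ e = s(M.K2.c j, M.K2.c (j + 1))) ∨
    (∃ j, 0 ≤ j ∧ j < M.t ∧ e = s(M.K3.c j, M.K3.c (j + 1))) := by
  unfold Moeb.Q
  simp

lemma RK_Qsub {e : Sym2 V} (he : e ∈ M.Q) : e ∈ E1 ∨ e ∈ A1 ∨ e ∈ A2 := by
  rw [M.RK_Q] at he
  have h1 := M.hi2
  have h2 := M.htn
  rcases he with rfl | rfl | ⟨j, -, h, rfl⟩ | ⟨j, -, h, rfl⟩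
  · exact Or.inl M.RK_pqE
  · exact Or.inr (Or.inl M.RK_pwA)
  · exact Or.inr (Or.inl (RK_mem _ (by omega)))
  · exact Or.inr (Or.inr (RK_mem _ (by omega)))

end Moeb

theorem moeb_alt [Finite V] (h2 : TwoReg H red) (M : Moeb H red x E1 A1 A2 S) :
    AltSet H red M.Q := by
  have hi1 := M.hi1
  have hi2 := M.hi2
  have ht0 := M.ht0
  have htn := M.htn
  have hn1 := M.K1.hn
  have hn2 := M.K2.hn
  have hn3 := M.K3.hn
  have hpq := M.RK_pq
  have hpw := M.RK_pw
  have hqw := M.RK_qw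
  have hpv := M.RK_pv
  have hqv := M.RK_qv
  have hvw := M.hvw
  have cases6 : ∀ y, OnQ M.Q y → y = M.p ∨ y = M.q ∨ y = M.w ∨ y = M.v ∨
      (∃ k, 1 < k ∧ k < M.i ∧ y = M.K2.c k) ∨ (∃ k, 0 < k ∧ k < M.t ∧ y = M.K3.c k) := by
    rintro y ⟨a, ha⟩
    have A : ∀ j, 1 ≤ j → j ≤ M.i → y = M.K2.c j → y = M.q ∨ y = M.v ∨
        (∃ k, 1 < k ∧ k < M.i ∧ y = M.K2.c k) := by
      intro j h1 h2 h3
      by_cases hj : j = 1
      · left; rw [h3, hj, M.k21]
      · by_cases hj' : j = M.i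
        · right; left; rw [h3, hj', M.k2i]
        · right; right; exact ⟨j, by omega, by omega, h3⟩
    have B : ∀ j, j ≤ M.t → y = M.K3.c j → y = M.w ∨ y = M.v ∨
        (∃ k, 0 < k ∧ k < M.t ∧ y = M.K3.c k) := by
      intro j h2 h3
      by_cases hj : j = 0
      · left; rw [h3, hj, M.k30]
      · by_cases hj' : j = M.t
        · right; left; rw [h3, hj', M.k3t]
        · right; right; exact ⟨j, by omega, by omega, h3⟩
    rw [M.RK_Q] at ha
    rcases ha with h | h | ⟨j, h1, h2, h⟩ | ⟨j, h1, h2, h⟩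
    · rw [Sym2.eq_iff] at h
      rcases h with ⟨h, -⟩ | ⟨h, -⟩
      · exact Or.inl h
      · exact Or.inr (Or.inl h)
    · rw [Sym2.eq_iff] at h
      rcases h with ⟨h, -⟩ | ⟨h, -⟩
      · exact Or.inl h
      · exact Or.inr (Or.inr (Or.inl h))
    · rw [Sym2.eq_iff] at h
      have h5 : y = M.q ∨ y = M.v ∨ (∃ k, 1 < k ∧ k < M.i ∧ y = M.K2.c k) := by
        rcases h with ⟨h, -⟩ | ⟨h, -⟩
        · exact A j (by omega) (by omega) h
        · exact A (j + 1) (by omega) (by omega) h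
      rcases h5 with h5 | h5 | h5
      · exact Or.inr (Or.inl h5)
      · exact Or.inr (Or.inr (Or.inr (Or.inl h5)))
      · exact Or.inr (Or.inr (Or.inr (Or.inr (Or.inl h5))))
    · rw [Sym2.eq_iff] at h
      have h5 : y = M.w ∨ y = M.v ∨ (∃ k, 0 < k ∧ k < M.t ∧ y = M.K3.c k) := by
        rcases h with ⟨h, -⟩ | ⟨h, -⟩
        · exact B j (by omega) h
        · exact B (j + 1) (by omega) h
      rcases h5 with h5 | h5 | h5
      · exact Or.inr (Or.inr (Or.inl h5))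
      · exact Or.inr (Or.inr (Or.inr (Or.inl h5)))
      · exact Or.inr (Or.inr (Or.inr (Or.inr (Or.inr h5))))
  refine ⟨?_, ⟨s(M.p, M.q), Or.inl rfl⟩, ?_⟩
  · intro e he
    rw [M.R.cover]
    rcases M.RK_Qsub he with h | h | h
    · exact Or.inl h
    · exact Or.inr (Or.inl h)
    · exact Or.inr (Or.inr (Or.inl h))
  · intro y hy
    rcases cases6 y hy with rfl | rfl | rfl | rfl | ⟨k, hk1, hk2, rfl⟩ | ⟨k, hk1, hk2, rfl⟩
    · -- p
      refine ⟨M.q, M.w, hqw, ?_, ?_⟩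
      · intro c
        have h1 : ¬ ∃ j, 1 ≤ j ∧ j < M.i ∧ s(M.p, c) = s(M.K2.c j, M.K2.c (j + 1)) := by
          rw [← M.k2n, RK_arc M.K2 (by omega) (by omega)]
          omega
        have h2 : ¬ ∃ j, 0 ≤ j ∧ j < M.t ∧ s(M.p, c) = s(M.K3.c j, M.K3.c (j + 1)) :=
          RK_arcoff M.K3 (by omega) M.RK_pA2
        rw [M.RK_Q]
        simp only [h1, h2, or_false]
        rw [Sym2.eq_iff, Sym2.eq_iff]
        tauto
      · have h1 := M.R.alt2 M.w M.p M.q hpq (by rw [Sym2.eq_swap]; exact M.RK_pwA) M.RK_wqA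
        rw [Sym2.eq_swap] at h1
        have h2 := M.col1
        tauto
    · -- q
      have hne : M.p ≠ M.K2.c (1 + 1) := by
        rw [← M.k2n]
        intro h
        have := RK_inj M.K2 (by omega) (by omega) h
        omega
      refine ⟨M.p, M.K2.c (1 + 1), hne, ?_, ?_⟩
      · intro c
        have h1 : (∃ j, 1 ≤ j ∧ j < M.i ∧ s(M.q, c) = s(M.K2.c j, M.K2.c (j + 1))) ↔
            c = M.K2.c (1 + 1) := by
          rw [← M.k21, RK_arc M.K2 (by omega) (by omega)]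
          constructor
          · rintro (h | h)
            · exact h.2.2
            · omega
          · intro h; left; exact ⟨le_refl _, hi1, h⟩
        have h2 : ¬ ∃ j, 0 ≤ j ∧ j < M.t ∧ s(M.q, c) = s(M.K3.c j, M.K3.c (j + 1)) :=
          RK_arcoff M.K3 (by omega) M.RK_qA2
        rw [M.RK_Q, h1]
        simp only [h2, or_false]
        rw [Sym2.eq_iff, Sym2.eq_iff]
        have := hpq.symm
        tauto
      · have h3 : s(M.q, M.K2.c (1 + 1)) ∈ A1 := by
          rw [← M.k21]; exact RK_mem _ (by omega)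
        have h0 : M.w ≠ M.K2.c (1 + 1) := by
          rw [← M.k20]
          intro h
          have := RK_inj M.K2 (by omega) (by omega) h
          omega
        have h1 := M.R.alt2 M.q M.w (M.K2.c (1 + 1)) h0 (by rw [Sym2.eq_swap]; exact M.RK_wqA) h3
        have h2 := M.col1
        rw [Sym2.eq_swap] at h1
        rw [Sym2.eq_swap (a := M.q) (b := M.p)]
        tauto
    · -- w
      have hne : M.K3.c (0 + 1) ≠ M.p := by
        intro h
        exact M.RK_pA2 (h ▸ RK_onc M.K3 _)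
      refine ⟨M.K3.c (0 + 1), M.p, hne, ?_, ?_⟩
      · intro c
        have h1 : ¬ ∃ j, 1 ≤ j ∧ j < M.i ∧ s(M.w, c) = s(M.K2.c j, M.K2.c (j + 1)) := by
          rw [← M.k20, RK_arc M.K2 (by omega) (by omega)]
          omega
        have h2 : (∃ j, 0 ≤ j ∧ j < M.t ∧ s(M.w, c) = s(M.K3.c j, M.K3.c (j + 1))) ↔
            c = M.K3.c (0 + 1) := by
          rw [← M.k30, RK_arc M.K3 (by omega) (by omega)]
          constructor
          · rintro (h | h)
            · exact h.2.2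
            · omega
          · intro h; left; exact ⟨le_refl _, ht0, h⟩
        rw [M.RK_Q, h2]
        simp only [h1, false_or]
        rw [Sym2.eq_iff, Sym2.eq_iff]
        have := hpw.symm
        have := hqw.symm
        tauto
      · have h2 := M.col2
        rw [Sym2.eq_swap (a := M.w) (b := M.p)]
        exact h2
    · -- v
      have hne : M.K3.c (M.t - 1) ≠ M.K2.c (M.i - 1) := by
        intro h
        have h1 : OnQ A1 (M.K2.c (M.i - 1)) := RK_onc _ _
        have h2 : OnQ A2 (M.K2.c (M.i - 1)) := h ▸ RK_onc M.K3 _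
        rcases M.only _ h1 h2 with h3 | h3
        · rw [← M.k2i] at h3
          have := RK_inj M.K2 (by omega) (by omega) h3
          omega
        · rw [← M.k20] at h3
          have := RK_inj M.K2 (by omega) (by omega) h3
          omega
      refine ⟨M.K3.c (M.t - 1), M.K2.c (M.i - 1), hne, ?_, ?_⟩
      · intro c
        have h1 : (∃ j, 1 ≤ j ∧ j < M.i ∧ s(M.v, c) = s(M.K2.c j, M.K2.c (j + 1))) ↔
            c = M.K2.c (M.i - 1) := by
          conv_lhs => rw [← M.k2i]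
          rw [RK_arc M.K2 (by omega) (by omega)]
          constructor
          · rintro (h | h)
            · omega
            · exact h.2.2
          · intro h; right; exact ⟨hi1, le_refl _, h⟩
        have h2 : (∃ j, 0 ≤ j ∧ j < M.t ∧ s(M.v, c) = s(M.K3.c j, M.K3.c (j + 1))) ↔
            c = M.K3.c (M.t - 1) := by
          conv_lhs => rw [← M.k3t]
          rw [RK_arc M.K3 (by omega) (by omega)]
          constructor
          · rintro (h | h)
            · omega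
            · exact h.2.2
          · intro h; right; exact ⟨ht0, le_refl _, h⟩
        rw [M.RK_Q, h1, h2]
        rw [Sym2.eq_iff, Sym2.eq_iff]
        have := hpv.symm
        have := hqv.symm
        tauto
      · have h2 := M.col3
        rw [Sym2.eq_swap (a := M.K3.c (M.t - 1)), Sym2.eq_swap (a := M.K2.c (M.i - 1))] at h2
        exact h2
    · -- inner vertex of the arc of `A1`
      have hv : M.K2.c k ≠ M.v := by
        rw [← M.k2i]; intro h
        have := RK_inj M.K2 (by omega) (by omega) h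
        omega
      have hw : M.K2.c k ≠ M.w := by
        rw [← M.k20]; intro h
        have := RK_inj M.K2 (by omega) (by omega) h
        omega
      have hp : M.K2.c k ≠ M.p := by
        rw [← M.k2n]; intro h
        have := RK_inj M.K2 (by omega) (by omega) h
        omega
      have hq : M.K2.c k ≠ M.q := by
        rw [← M.k21]; intro h
        have := RK_inj M.K2 (by omega) (by omega) h
        omega
      have hoff : ¬ OnQ A2 (M.K2.c k) := by
        intro h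
        rcases M.only _ (RK_onc M.K2 k) h with h | h
        · exact hv h
        · exact hw h
      have hne : M.K2.c (k + 1) ≠ M.K2.c (k - 1) := by
        intro h
        have := RK_inj M.K2 (by omega) (by omega) h
        omega
      refine ⟨M.K2.c (k + 1), M.K2.c (k - 1), hne, ?_, ?_⟩
      · intro c
        have h1 : (∃ j, 1 ≤ j ∧ j < M.i ∧ s(M.K2.c k, c) = s(M.K2.c j, M.K2.c (j + 1))) ↔
            (c = M.K2.c (k + 1) ∨ c = M.K2.c (k - 1)) := by
          rw [RK_arc M.K2 (by omega) (by omega)]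
          constructor
          · rintro (h | h)
            · exact Or.inl h.2.2
            · exact Or.inr h.2.2
          · rintro (h | h)
            · left; exact ⟨by omega, by omega, h⟩
            · right; exact ⟨by omega, by omega, h⟩
        have h2 : ¬ ∃ j, 0 ≤ j ∧ j < M.t ∧ s(M.K2.c k, c) = s(M.K3.c j, M.K3.c (j + 1)) :=
          RK_arcoff M.K3 (by omega) hoff
        rw [M.RK_Q, h1]
        simp only [h2, or_false]
        rw [Sym2.eq_iff, Sym2.eq_iff]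
        tauto
      · have e1 : k - 1 + 1 = k := by omega
        have h1 : s(M.K2.c k, M.K2.c (k - 1)) ∈ A1 := by
          have := RK_mem M.K2 (j := k - 1) (by omega)
          rw [e1, Sym2.eq_swap] at this
          exact this
        exact M.R.alt2 _ _ _ hne (RK_mem M.K2 (by omega)) h1
    · -- inner vertex of the arc of `A2`
      have hv : M.K3.c k ≠ M.v := by
        rw [← M.k3t]; intro h
        have := RK_inj M.K3 (by omega) (by omega) h
        omega
      have hw : M.K3.c k ≠ M.w := by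
        rw [← M.k30]; intro h
        have := RK_inj M.K3 (by omega) (by omega) h
        omega
      have hp : M.K3.c k ≠ M.p := fun h => M.RK_pA2 (h ▸ RK_onc M.K3 _)
      have hq : M.K3.c k ≠ M.q := fun h => M.RK_qA2 (h ▸ RK_onc M.K3 _)
      have hoff : ¬ OnQ A1 (M.K3.c k) := by
        intro h
        rcases M.only _ h (RK_onc M.K3 k) with h | h
        · exact hv h
        · exact hw h
      have hne : M.K3.c (k + 1) ≠ M.K3.c (k - 1) := by
        intro h
        have := RK_inj M.K3 (by omega) (by omega) h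
        omega
      refine ⟨M.K3.c (k + 1), M.K3.c (k - 1), hne, ?_, ?_⟩
      · intro c
        have h1 : (∃ j, 0 ≤ j ∧ j < M.t ∧ s(M.K3.c k, c) = s(M.K3.c j, M.K3.c (j + 1))) ↔
            (c = M.K3.c (k + 1) ∨ c = M.K3.c (k - 1)) := by
          rw [RK_arc M.K3 (by omega) (by omega)]
          constructor
          · rintro (h | h)
            · exact Or.inl h.2.2
            · exact Or.inr h.2.2
          · rintro (h | h)
            · left; exact ⟨by omega, by omega, h⟩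
            · right; exact ⟨by omega, by omega, h⟩
        have h2 : ¬ ∃ j, 1 ≤ j ∧ j < M.i ∧ s(M.K3.c k, c) = s(M.K2.c j, M.K2.c (j + 1)) :=
          RK_arcoff M.K2 (by omega) hoff
        rw [M.RK_Q, h1]
        simp only [h2, false_or]
        rw [Sym2.eq_iff, Sym2.eq_iff]
        tauto
      · have e1 : k - 1 + 1 = k := by omega
        have h1 : s(M.K3.c k, M.K3.c (k - 1)) ∈ A2 := by
          have := RK_mem M.K3 (j := k - 1) (by omega)
          rw [e1, Sym2.eq_swap] at this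
          exact this
        exact M.R.alt3 _ _ _ hne (RK_mem M.K3 (by omega)) h1

theorem moeb_solid [Finite V] (h2 : TwoReg H red) (M : Moeb H red x E1 A1 A2 S) :
    Solid H M.Q := by
  intro w₀ κ hag
  have hi1 := M.hi1
  have hi2 := M.hi2
  have ht0 := M.ht0
  have htn := M.htn
  have hn1 := M.K1.hn
  have hn2 := M.K2.hn
  have hn3 := M.K3.hn
  -- membership in the rest
  have hSQ : ∀ e ∈ S, e ∈ H.edgeSet \ M.Q := by
    intro e he
    refine ⟨(M.R.cover e).2 (Or.inr (Or.inr (Or.inr he))), fun hq => ?_⟩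
    rcases M.RK_Qsub hq with h | h | h
    · exact (M.R.d12 e h).2.2 he
    · exact (M.R.d23 e h).2 he
    · exact M.R.d34 e h he
  have hR1 : ∀ j, j ≠ 1 → j < M.K1.n → s(M.K1.c j, M.K1.c (j + 1)) ∈ H.edgeSet \ M.Q := by
    intro j hj hjn
    have hE := RK_mem M.K1 hjn
    refine ⟨(M.R.cover _).2 (Or.inl hE), fun hq => ?_⟩
    rw [M.RK_Q] at hq
    rcases hq with h | h | ⟨k, -, h1, h⟩ | ⟨k, -, h1, h⟩
    · rw [M.RK_epq] at h
      exact hj (M.K1.edge_inj hjn (by omega) h)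
    · exact (M.R.d12 _ hE).1 (h ▸ M.RK_pwA)
    · exact (M.R.d12 _ hE).1 (h ▸ RK_mem M.K2 (by omega))
    · exact (M.R.d12 _ hE).2.1 (h ▸ RK_mem M.K3 (by omega))
  have hR2 : ∀ j, j < M.K2.n - 1 → (j = 0 ∨ M.i ≤ j) →
      s(M.K2.c j, M.K2.c (j + 1)) ∈ H.edgeSet \ M.Q := by
    intro j hjn hj
    have hE := RK_mem M.K2 (show j < M.K2.n by omega)
    refine ⟨(M.R.cover _).2 (Or.inr (Or.inl hE)), fun hq => ?_⟩
    rw [M.RK_Q] at hq
    rcases hq with h | h | ⟨k, h0, h1, h⟩ | ⟨k, -, h1, h⟩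
    · exact (M.R.d12 _ M.RK_pqE).1 (h ▸ hE)
    · rw [M.RK_epw] at h
      have := M.K2.edge_inj (by omega) (by omega) h
      omega
    · have := M.K2.edge_inj (by omega) (by omega) h
      omega
    · exact (M.R.d23 _ hE).1 (h ▸ RK_mem M.K3 (by omega))
  have hR3 : ∀ j, M.t ≤ j → j < M.K3.n → s(M.K3.c j, M.K3.c (j + 1)) ∈ H.edgeSet \ M.Q := by
    intro j hj hjn
    have hE := RK_mem M.K3 hjn
    refine ⟨(M.R.cover _).2 (Or.inr (Or.inr (Or.inl hE))), fun hq => ?_⟩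
    rw [M.RK_Q] at hq
    rcases hq with h | h | ⟨k, h0, h1, h⟩ | ⟨k, -, h1, h⟩
    · exact (M.R.d12 _ M.RK_pqE).2.1 (h ▸ hE)
    · exact (M.R.d23 _ M.RK_pwA).1 (h ▸ hE)
    · exact (M.R.d23 _ (RK_mem M.K2 (show k < M.K2.n by omega))).1 (h ▸ hE)
    · have := M.K3.edge_inj (by omega) (by omega) h
      omega
  have hag' : ∀ y, y ≠ w₀ → AgreeOn (H.edgeSet \ M.Q) κ y := fun y hy => hag y (Or.inl hy)
  -- the value on `S`
  have hS : ConstOn S κ := M.R.solidS w₀ κ
    (fun y hy a b ha hb => hag' y hy a b (hSQ _ ha) (hSQ _ hb))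
  obtain ⟨a0, ha0⟩ := M.R.xS
  obtain ⟨j0, hj1, hj2, b0, hb0⟩ := M.far
  have hβ : ∀ e ∈ S, (κ e ↔ κ s(x, a0)) := fun e he => hS e he _ ha0
  generalize κ s(x, a0) = β at hβ
  -- junctions
  have hjq : (κ s(M.K2.c 0, M.K2.c (0 + 1)) ↔ κ s(M.K1.c 2, M.K1.c (2 + 1))) := by
    have h1 := hR2 0 (by omega) (Or.inl rfl)
    have h2 := hR1 2 (by omega) (by omega)
    rw [show M.K2.c (0 + 1) = M.q from M.k21, Sym2.eq_swap] at h1
    rw [M.k12] at h2
    rw [show M.K2.c (0 + 1) = M.q from M.k21, Sym2.eq_swap, M.k12]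
    exact hag M.q (Or.inr ⟨M.p, by rw [Sym2.eq_swap]; exact Or.inl rfl⟩) _ _ h1 h2
  have hjw : (κ s(M.K2.c 0, M.K2.c (0 + 1)) ↔
      κ s(M.K3.c (M.K3.n - 1), M.K3.c (M.K3.n - 1 + 1))) := by
    have h1 := hR2 0 (by omega) (Or.inl rfl)
    have h2 := hR3 (M.K3.n - 1) (by omega) (by omega)
    rw [M.k20] at h1
    rw [M.RK_k3l, Sym2.eq_swap] at h2
    rw [M.k20, M.RK_k3l, Sym2.eq_swap (b := M.w)]
    exact hag M.w (Or.inr ⟨M.p, by rw [Sym2.eq_swap]; exact Or.inr (Or.inl rfl)⟩) _ _ h1 h2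
  have e22 : M.K2.n - 2 + 1 = M.K2.n - 1 := by omega
  have hjp : (κ s(M.K1.c 0, M.K1.c (0 + 1)) ↔
      κ s(M.K2.c (M.K2.n - 2), M.K2.c (M.K2.n - 2 + 1))) := by
    have h1 := hR1 0 (by omega) (by omega)
    have h2 := hR2 (M.K2.n - 2) (by omega) (Or.inr (by omega))
    rw [show M.K1.c (0 + 1) = M.p from M.k11, Sym2.eq_swap] at h1
    rw [e22, M.k2n, Sym2.eq_swap] at h2
    rw [show M.K1.c (0 + 1) = M.p from M.k11, Sym2.eq_swap, e22, M.k2n, Sym2.eq_swap (b := M.p)]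
    exact hag M.p (Or.inr ⟨M.q, Or.inl rfl⟩) _ _ h1 h2
  have hjv : (κ s(M.K2.c M.i, M.K2.c (M.i + 1)) ↔ κ s(M.K3.c M.t, M.K3.c (M.t + 1))) := by
    have h1 := hR2 M.i (by omega) (Or.inr le_rfl)
    have h2 := hR3 M.t le_rfl (by omega)
    rw [M.k2i] at h1 ⊢
    rw [M.k3t] at h2 ⊢
    refine hag M.v (Or.inr ⟨M.K2.c (M.i - 1), ?_⟩) _ _ h1 h2
    refine Or.inr (Or.inr (Or.inl ⟨M.i - 1, by omega, by omega, ?_⟩))
    rw [show M.i - 1 + 1 = M.i by omega, M.k2i]
    exact Sym2.eq_swap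
  -- anchors
  have hx : x ≠ w₀ → (κ s(M.K1.c 0, M.K1.c (0 + 1)) ↔ β) ∧
      (κ s(M.K1.c (M.K1.n - 1), M.K1.c (M.K1.n - 1 + 1)) ↔ β) := by
    intro hne
    have h0 := hβ _ ha0
    constructor
    · rw [← h0]
      have h1 := hR1 0 (by omega) (by omega)
      rw [M.k10] at h1 ⊢
      exact hag' x hne _ _ h1 (hSQ _ ha0)
    · rw [← h0]
      have h1 := hR1 (M.K1.n - 1) (by omega) (by omega)
      rw [M.RK_k1l, Sym2.eq_swap] at h1 ⊢
      exact hag' x hne _ _ h1 (hSQ _ ha0)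
  have ej0 : j0 - 1 + 1 = j0 := by omega
  have hy : M.K3.c j0 ≠ w₀ → (κ s(M.K3.c (j0 - 1), M.K3.c (j0 - 1 + 1)) ↔ β) ∧
      (κ s(M.K3.c j0, M.K3.c (j0 + 1)) ↔ β) := by
    intro hne
    have h0 := hβ _ hb0
    constructor
    · rw [← h0]
      have h1 := hR3 (j0 - 1) (by omega) (by omega)
      rw [ej0, Sym2.eq_swap] at h1 ⊢
      exact hag' _ hne _ _ h1 (hSQ _ hb0)
    · rw [← h0]
      have h1 := hR3 j0 (by omega) (by omega)
      exact hag' _ hne _ _ h1 (hSQ _ hb0)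
  -- propagation along the arcs
  have PE := RK_prop M.K1 (H.edgeSet \ M.Q) κ w₀ hag' 2 M.K1.n le_rfl
    (fun j h1 h2 => hR1 j (by omega) h2) β
  have PF := RK_prop M.K3 (H.edgeSet \ M.Q) κ w₀ hag' j0 M.K3.n le_rfl
    (fun j h1 h2 => hR3 j (by omega) h2) β
  have PG := RK_prop M.K2 (H.edgeSet \ M.Q) κ w₀ hag' M.i (M.K2.n - 1) (by omega)
    (fun j h1 h2 => hR2 j h2 (Or.inr h1)) β
  have PH := RK_prop M.K3 (H.edgeSet \ M.Q) κ w₀ hag' M.t j0 (by omega)
    (fun j h1 h2 => hR3 j h1 (by omega)) β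
  rw [show M.K2.n - 1 - 1 = M.K2.n - 2 by omega] at PG
  have xA1 := M.R.x2
  have xA2 := M.R.x3
  have y0A1 : ¬ OnQ A1 (M.K3.c j0) := by
    intro h
    rcases M.only _ h (RK_onc M.K3 j0) with h | h
    · rw [← M.k3t] at h
      have := RK_inj M.K3 (by omega) (by omega) h
      omega
    · rw [← M.k30] at h
      have := RK_inj M.K3 (by omega) (by omega) h
      omega
  have y0x : M.K3.c j0 ≠ x := fun h => xA2 (h ▸ RK_onc M.K3 j0)
  have claimI : (∀ j, 2 ≤ j → j < M.K1.n → (κ s(M.K1.c j, M.K1.c (j + 1)) ↔ β)) ∧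
      (∀ j, j0 ≤ j → j < M.K3.n → (κ s(M.K3.c j, M.K3.c (j + 1)) ↔ β)) ∧
      (κ s(M.K2.c 0, M.K2.c (0 + 1)) ↔ β) := by
    by_cases hwx : w₀ = x
    · have hF := PF (Or.inr ⟨fun j _ _ h => xA2 (hwx ▸ h ▸ RK_onc M.K3 j),
        Or.inl (hy (by rw [hwx]; exact y0x)).2⟩)
      have h3 := hjw.trans (hF (M.K3.n - 1) (by omega) (by omega))
      have hE := PE (Or.inr ⟨fun j h1 h2 h => by
        have h4 : M.K1.c j = M.K1.c 0 := (h.trans hwx).trans M.k10.symm
        have := RK_inj M.K1 (by omega) (by omega) h4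
        omega, Or.inl (hjq.symm.trans h3)⟩)
      exact ⟨hE, hF, h3⟩
    · by_cases hwy : w₀ = M.K3.c j0
      · have hE := PE (Or.inr ⟨fun j _ _ h => M.RK_offE (RK_onc M.K3 j0)
          (hwy ▸ h ▸ RK_onc M.K1 j), Or.inr (hx (Ne.symm hwx)).2⟩)
        have h3 := hjq.trans (hE 2 le_rfl (by omega))
        have hF := PF (Or.inr ⟨fun j h1 h2 h => by
          have h4 : M.K3.c j = M.K3.c j0 := by rw [h, hwy]
          have := RK_inj M.K3 (by omega) (by omega) h4
          omega, Or.inr (hjw.symm.trans h3)⟩)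
        exact ⟨hE, hF, h3⟩
      · have h1 := (hx (Ne.symm hwx)).2
        have h2 := (hy (Ne.symm hwy)).2
        by_cases hwE : OnQ E1 w₀
        · have hF := PF (Or.inr ⟨fun j _ _ h => M.RK_offE (h ▸ RK_onc M.K3 j) hwE, Or.inl h2⟩)
          have h3 := hjw.trans (hF (M.K3.n - 1) (by omega) (by omega))
          have hE := PE (Or.inl ⟨hjq.symm.trans h3, h1⟩)
          exact ⟨hE, hF, h3⟩
        · have hE := PE (Or.inr ⟨fun j _ _ h => hwE (h ▸ RK_onc M.K1 j), Or.inr h1⟩)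
          have h3 := hjq.trans (hE 2 le_rfl (by omega))
          have hF := PF (Or.inl ⟨h2, hjw.symm.trans h3⟩)
          exact ⟨hE, hF, h3⟩
  have claimII : (∀ j, M.i ≤ j → j < M.K2.n - 1 → (κ s(M.K2.c j, M.K2.c (j + 1)) ↔ β)) ∧
      (∀ j, M.t ≤ j → j < j0 → (κ s(M.K3.c j, M.K3.c (j + 1)) ↔ β)) ∧
      (κ s(M.K1.c 0, M.K1.c (0 + 1)) ↔ β) := by
    by_cases hwx : w₀ = x
    · have hH := PH (Or.inr ⟨fun j _ _ h => xA2 (hwx ▸ h ▸ RK_onc M.K3 j),
        Or.inr (hy (by rw [hwx]; exact y0x)).1⟩)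
      have h3 := hjv.trans (hH M.t le_rfl hj1)
      have hG := PG (Or.inr ⟨fun j _ _ h => xA1 (hwx ▸ h ▸ RK_onc M.K2 j), Or.inl h3⟩)
      exact ⟨hG, hH, hjp.trans (hG (M.K2.n - 2) (by omega) (by omega))⟩
    · have h0 := (hx (Ne.symm hwx)).1
      have h1 := hjp.symm.trans h0
      by_cases hwy : w₀ = M.K3.c j0
      · have hG := PG (Or.inr ⟨fun j _ _ h => y0A1 (hwy ▸ h ▸ RK_onc M.K2 j), Or.inr h1⟩)
        have h3 := hjv.symm.trans (hG M.i le_rfl (by omega))
        have hH := PH (Or.inr ⟨fun j h1 h2 h => by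
          have h4 : M.K3.c j = M.K3.c j0 := by rw [h, hwy]
          have := RK_inj M.K3 (by omega) (by omega) h4
          omega, Or.inl h3⟩)
        exact ⟨hG, hH, h0⟩
      · have h2 := (hy (Ne.symm hwy)).1
        by_cases hwA : OnQ A2 w₀
        · have hG := PG (Or.inr ⟨fun j h3 h4 h => by
            rcases M.only _ (RK_onc M.K2 j) (h ▸ hwA) with h5 | h5
            · rw [← M.k2i] at h5
              have := RK_inj M.K2 (by omega) (by omega) h5
              omega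
            · rw [← M.k20] at h5
              have := RK_inj M.K2 (by omega) (by omega) h5
              omega, Or.inr h1⟩)
          have h3 := hjv.symm.trans (hG M.i le_rfl (by omega))
          have hH := PH (Or.inl ⟨h3, h2⟩)
          exact ⟨hG, hH, h0⟩
        · have hH := PH (Or.inr ⟨fun j _ _ h => hwA (h ▸ RK_onc M.K3 j), Or.inr h2⟩)
          have h3 := hjv.trans (hH M.t le_rfl hj1)
          have hG := PG (Or.inl ⟨h3, h1⟩)
          exact ⟨hG, hH, h0⟩
  have key : ∀ e ∈ H.edgeSet \ M.Q, (κ e ↔ β) := by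
    rintro e ⟨he, hq⟩
    rw [M.R.cover] at he
    rcases he with he | he | he | he
    · rw [M.K1.edge] at he
      obtain ⟨j, hj, rfl⟩ := he
      by_cases h0 : j = 0
      · rw [h0]; exact claimII.2.2
      · by_cases h1 : j = 1
        · exfalso; apply hq; left; rw [M.RK_epq, h1]
        · exact claimI.1 j (by omega) hj
    · rw [M.K2.edge] at he
      obtain ⟨j, hj, rfl⟩ := he
      by_cases h0 : j = 0
      · rw [h0]; exact claimI.2.2
      · by_cases h1 : j < M.i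
        · exfalso; apply hq
          exact Or.inr (Or.inr (Or.inl ⟨j, by omega, h1, rfl⟩))
        · by_cases h2 : j = M.K2.n - 1
          · exfalso; apply hq
            right; left; rw [M.RK_epw, h2]
          · exact claimII.1 j (by omega) (by omega)
    · rw [M.K3.edge] at he
      obtain ⟨j, hj, rfl⟩ := he
      by_cases h0 : j < M.t
      · exfalso; apply hq
        exact Or.inr (Or.inr (Or.inr ⟨j, h0, rfl⟩))
      · by_cases h1 : j < j0
        · exact claimII.2.1 j (by omega) h1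
        · exact claimI.2.1 j (by omega) hj
    · exact hβ e he
  intro e he e' he'
  rw [key e he, key e' he']

theorem moeb_good [Finite V] (h2 : TwoReg H red) (M : Moeb H red x E1 A1 A2 S) :
    HasGood H red :=
  ⟨M.Q, moeb_alt h2 M, moeb_solid h2 M⟩

end Pool.Agent.GD
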