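import Pool.Agent.GD.RL2

set_option autoImplicit false

/-! Module RL: the x-pole (only two classes) has a good set. -/

namespace Pool.Agent.GD

variable {V : Type} {H : SimpleGraph V} {red : Set (Sym2 V)} {x : V} {E1 E2 : Set (Sym2 V)}

theorem xpole_good [Finite V] (h2 : TwoReg H red) (hp : PrimeH H) (A : XPole H red x E1 E2)
    (h6 : 6 ≤ Nat.card V) : HasGood H red := by
  obtain ⟨F, e1, e2, e3, e4, e5, e6, hP, hfull, hmark, hc1, hcL⟩ := xpole_frame h2 A
  have hprime := xpole_prime h2 hp A F e5 e6 hP (by omega)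
  have hcard : F.P.ncard + 1 = Nat.card V := by
    have h1 := Set.ncard_add_ncard_compl ({x} : Set V)
    rw [Set.ncard_singleton] at h1
    have h3 : ({x} : Set V)ᶜ = F.P := by
      rw [hP]
      ext v
      simp
    rw [h3] at h1
    omega
  rcases T1' (s := F.sg) hprime (by omega) with ⟨k, J, hJ, hlink⟩ | h
  · refine Frame.frame_theorem h2 F hfull hmark hc1 hcL (k := k) (J := J) ?_ (Or.inl hlink)
    exact good_congr (fun _ _ _ _ => Iff.rfl) (fun _ _ => Iff.rfl) (fun y' => y'.elim) hJ
  · exact xpole_single h2 A F e5 e6 e3 e4 e1 e2 hP h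

end Pool.Agent.GD
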