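import Pool.Agent.GD.RC
import Pool.Agent.GD.RE
import Pool.Agent.GD.RJ
import Pool.Agent.GD.RK
import Pool.Agent.GD.RL

set_option autoImplicit false

/-! Module RM: prime graphs with an odd number of vertices. -/

namespace Pool.Agent.GD

open Pool.Agent.MP_1fb45e

variable {V : Type} {H : SimpleGraph V} {red : Set (Sym2 V)} {x : V} {c : Sym2 V → Bool}

lemma RM_cls [Fintype V] (h2 : TwoReg H red) (hc : LabX H red x c)
    (hall : ∀ D ∈ NT H c, D = clsAt H c false x ∨ D = clsAt H c true x) (i : Bool) (v : V) :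
    clsAt H c i v = clsAt H c i x := by
  rcases hall _ (clsAt_mem h2 hc i v) with h | h
  · have h1 : i = false := congrArg Sigma.fst h
    subst h1; exact h
  · have h1 : i = true := congrArg Sigma.fst h
    subst h1; exact h

lemma RM_on [Fintype V] (h2 : TwoReg H red) (hc : LabX H red x c)
    (hall : ∀ D ∈ NT H c, D = clsAt H c false x ∨ D = clsAt H c true x) (i : Bool) (v : V) :
    OnQ (ClsGraph H c (clsAt H c i x)).edgeSet v := by
  have h3 : 0 < ((CG H c i).neighborSet v).ncard := by rw [cls_two h2 hc i v]; norm_num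
  obtain ⟨a, ha⟩ := (Set.ncard_pos (Set.toFinite _)).mp h3
  have ha' : (CG H c i).Adj v a := ha
  refine ⟨a, ?_⟩
  rw [mem_cls_iff]
  refine ⟨ha'.1, ?_⟩
  rw [ha'.2]
  exact (RM_cls h2 hc hall i v).symm

lemma RM_lab {i : Bool} {e : Sym2 V} (h : e ∈ (ClsGraph H c (clsAt H c i x)).edgeSet) :
    c e = i := by
  induction e using Sym2.ind with
  | _ v a =>
    rw [mem_cls_iff] at h
    exact (congrArg Sigma.fst h.2).symm

lemma RM_cg {i : Bool} {v a : V} (h : s(v, a) ∈ (ClsGraph H c (clsAt H c i x)).edgeSet) :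
    (CG H c i).Adj v a :=
  ⟨((mem_cls_iff).mp h).1, RM_lab h⟩

theorem xpole_of_two [Fintype V] (h2 : TwoReg H red) (hc : LabX H red x c)
    (hall : ∀ D ∈ NT H c, D = clsAt H c false x ∨ D = clsAt H c true x) :
    ∃ E1 E2, Nonempty (XPole H red x E1 E2) := by
  have hK : ∀ i : Bool, ∃ K : Cyc H (ClsGraph H c (clsAt H c i x)).edgeSet,
      (∀ v, K.on v) ∧ K.c 0 = x := by
    intro i
    obtain ⟨K⟩ := cyc_of_class (clsAt H c i x) (clsAt_mem h2 hc i x)
      (fun v _ => cls_two h2 hc i v)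
    obtain ⟨K', -, -, h0, -⟩ := K.shift (z := x) (K.on_iff.mpr (RM_on h2 hc hall i x))
    exact ⟨K', fun v => K'.on_iff.mpr (RM_on h2 hc hall i v), h0⟩
  obtain ⟨K, hK1, hK0⟩ := hK false
  obtain ⟨L, hL1, hL0⟩ := hK true
  refine ⟨_, _, ⟨⟨K, L, hK1, hL1, ?_, ?_, hK0, hL0, ?_, ?_, ?_, ?_⟩⟩⟩
  · intro e
    induction e using Sym2.ind with
    | _ v a =>
      rw [mem_cls_iff, mem_cls_iff, SimpleGraph.mem_edgeSet]
      constructor
      · intro h
        cases hca : c s(v, a) with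
        | false => exact Or.inl ⟨h, (RM_cls h2 hc hall false v).symm⟩
        | true => exact Or.inr ⟨h, (RM_cls h2 hc hall true v).symm⟩
      · rintro (h | h)
        · exact h.1
        · exact h.1
  · intro e he he'
    have h3 := RM_lab he
    have h4 := RM_lab he'
    rw [h3] at h4
    exact absurd h4 (by decide)
  · intro v hv a b hab ha hb
    exact cls_alt h2 hc false hv (RM_cg ha) (RM_cg hb) hab
  · intro v hv a b hab ha hb
    exact cls_alt h2 hc true hv (RM_cg ha) (RM_cg hb) hab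
  · intro a ha
    have h3 := RM_cg ha
    exact (hc.atx a h3.1).mp h3.2
  · intro a ha h5
    have h3 := RM_cg ha
    have h6 := (hc.atx a h3.1).mpr h5
    have h7 : c s(x, a) = true := h3.2
    rw [h7] at h6
    exact absurd h6 (by decide)

theorem odd_prime [Fintype V] [DecidableEq V] (H : SimpleGraph V) {x y : V} (C₁ : H.Walk x x)
    (C₂ : H.Walk y y) (hC₁ : C₁.IsHamiltonianCycle) (hC₂ : C₂.IsHamiltonianCycle)
    (hdec : ∀ e ∈ H.edgeSet, (e ∈ C₁.edges ↔ e ∉ C₂.edges))
    (h2 : TwoReg H {e | e ∈ C₁.edges}) (hodd : Odd (Fintype.card V)) (h6 : 6 ≤ Fintype.card V)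
    (hp : PrimeH H) : HasGood H {e | e ∈ C₁.edges} := by
  by_contra hng
  obtain ⟨c, hc⟩ := exists_labX H C₁ C₂ hC₁ hC₂ hdec hodd x
  rcases ring_or h2 hc (noTwoCut_of_prime h2 hp) hng with h | ⟨E1, A1, A2, S, R⟩
  · obtain ⟨E1, E2, ⟨A⟩⟩ := xpole_of_two h2 hc h
    exact hng (xpole_good h2 hp A (by rw [Nat.card_eq_fintype_card]; exact h6))
  · obtain ⟨M⟩ := ring_moeb h2 hp hng R
    exact hng (moeb_good h2 M)

end Pool.Agent.GD
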