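import Pool.Agent.GD.FA
import Pool.Agent.GD.RM
import Pool.Agent.GD.NH

set_option autoImplicit false

/-! Final assembly for MP_1fb45e. -/

open SimpleGraph Pool.Agent.MP_1fb45e

namespace Pool.Agent.GD

variable {V : Type}

/-- a 4-regular graph on five vertices is complete -/
lemma iso_of_card_five [Fintype V] [DecidableEq V] (H : SimpleGraph V) [DecidableRel H.Adj]
    (hreg : H.IsRegularOfDegree 4) (h5 : Fintype.card V = 5) :
    Nonempty (H ≃g (⊤ : SimpleGraph (Fin 5))) := by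
  have hadj : ∀ u v : V, H.Adj u v ↔ u ≠ v := by
    intro u v
    refine ⟨fun h => h.ne, fun huv => ?_⟩
    have h1 : H.neighborFinset u = Finset.univ.erase u := by
      apply Finset.eq_of_subset_of_card_le
      · intro w hw
        rw [SimpleGraph.mem_neighborFinset] at hw
        exact Finset.mem_erase.mpr ⟨hw.ne', Finset.mem_univ _⟩
      · rw [Finset.card_erase_of_mem (Finset.mem_univ _), Finset.card_univ, h5,
          SimpleGraph.card_neighborFinset_eq_degree, hreg u]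
    have h2 : v ∈ H.neighborFinset u := by
      rw [h1]
      exact Finset.mem_erase.mpr ⟨huv.symm, Finset.mem_univ _⟩
    exact (SimpleGraph.mem_neighborFinset _ _ _).mp h2
  let e : V ≃ Fin 5 := Fintype.equivFinOfCardEq h5
  exact ⟨⟨e, by
    intro a b
    rw [SimpleGraph.top_adj, hadj]
    exact e.injective.ne_iff⟩⟩

/-- a 4-regular graph has at least five vertices -/
lemma five_le_card [Fintype V] [DecidableEq V] (H : SimpleGraph V) [DecidableRel H.Adj]
    (hreg : H.IsRegularOfDegree 4) (x : V) : 5 ≤ Fintype.card V := by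
  have h1 : (H.neighborFinset x).card < Fintype.card V := by
    rw [← Finset.card_univ]
    apply Finset.card_lt_card
    rw [Finset.ssubset_univ_iff]
    intro h
    have h2 : x ∈ H.neighborFinset x := by rw [h]; exact Finset.mem_univ x
    rw [SimpleGraph.mem_neighborFinset] at h2
    exact h2.ne rfl
  rw [SimpleGraph.card_neighborFinset_eq_degree, hreg x] at h1
  omega

/-- `H` not prime -/
theorem nonprime_of_walks [Fintype V] [DecidableEq V] (H : SimpleGraph V) {x y : V} (C₁ : H.Walk x x)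
    (C₂ : H.Walk y y) (hC₁ : C₁.IsHamiltonianCycle) (hC₂ : C₂.IsHamiltonianCycle)
    (hdec : ∀ e ∈ H.edgeSet, (e ∈ C₁.edges ↔ e ∉ C₂.edges))
    (h2 : TwoReg H {e | e ∈ C₁.edges}) (hnp : ¬ PrimeH H) : HasGood H {e | e ∈ C₁.edges} := by
  obtain ⟨K, -, -, hK⟩ := cyc_of_walk C₁ hC₁.isCycle
  obtain ⟨L, -, -, hL⟩ := cyc_of_walk C₂ hC₂.isCycle
  have e1 : {e | e ∈ C₁.edges} = RedE H {e | e ∈ C₁.edges} := by
    ext e
    exact ⟨fun h => ⟨C₁.edges_subset_edgeSet h, h⟩, fun h => h.2⟩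
  have e2 : {e | e ∈ C₂.edges} = BlueE H {e | e ∈ C₁.edges} := by
    ext e
    constructor
    · intro h
      have he := C₂.edges_subset_edgeSet h
      exact ⟨he, fun h' => (hdec e he).mp h' h⟩
    · rintro ⟨he, h⟩
      by_contra h'
      exact h ((hdec e he).mpr h')
  have hK' : ∃ K' : Cyc H (RedE H {e | e ∈ C₁.edges}), ∀ v, K'.on v := by
    rw [← e1]
    exact ⟨K, fun v => (hK v).mpr (hC₁.mem_support v)⟩
  have hL' : ∃ L' : Cyc H (BlueE H {e | e ∈ C₁.edges}), ∀ v, L'.on v := by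
    rw [← e2]
    exact ⟨L, fun v => (hL v).mpr (hC₂.mem_support v)⟩
  obtain ⟨K', hK1⟩ := hK'
  obtain ⟨L', hL1⟩ := hL'
  exact nonprime h2 K' L' hK1 hL1 hnp

/-- the main theorem: at least six vertices -/
theorem good_circuit [Fintype V] [DecidableEq V] (H : SimpleGraph V) [DecidableRel H.Adj]
    (hreg : H.IsRegularOfDegree 4) {x y : V} (C₁ : H.Walk x x) (C₂ : H.Walk y y)
    (hC₁ : C₁.IsHamiltonianCycle) (hC₂ : C₂.IsHamiltonianCycle)
    (hdec : ∀ e ∈ H.edgeSet, (e ∈ C₁.edges ↔ e ∉ C₂.edges)) (h6 : 6 ≤ Fintype.card V) :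
    ∃ (u : V) (D : H.Walk u u), IsAlternatingCircuit C₁ D ∧
      ∀ w, ¬ IsCutVertex (H.deleteEdges {e | e ∈ D.edges}) w := by
  obtain ⟨hR, hB, hnb⟩ := basic_facts H hreg C₁ C₂ hC₁ hC₂ hdec
  have h2 : TwoReg H {e | e ∈ C₁.edges} := ⟨hR, hB⟩
  by_cases hp : PrimeH H
  · rcases Nat.even_or_odd (Fintype.card V) with heven | hodd
    · obtain ⟨c, hc, -, -⟩ := colouring_at H C₁ C₂ hC₁ hC₂ hdec x
      exact colourable_case C₁ (noTwoCut_of_prime h2 hp) ⟨x, hnb x⟩ hR hB
        ⟨c, fun _ => 2, fun v w hw => hc v (Or.inr heven) w hw⟩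
    · exact circuit_of_good C₁ h2 (odd_prime H C₁ C₂ hC₁ hC₂ hdec h2 hodd h6 hp)
  · exact circuit_of_good C₁ h2 (nonprime_of_walks H C₁ C₂ hC₁ hC₂ hdec h2 hp)

end Pool.Agent.GD
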