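import Pool.Agent.GD.NDefs
import Pool.Agent.GD.RB

set_option autoImplicit false

/-! Module NA: a minimal small cut is an interval of both Hamilton circuits. -/

namespace Pool.Agent.GD

variable {V : Type} {H : SimpleGraph V} {red : Set (Sym2 V)}

/-- boundary pairs with edge in `E` -/
def NABd (H : SimpleGraph V) (E : Set (Sym2 V)) (A : Set V) : Set (V × V) :=
  {p | p ∈ Bd H A ∧ s(p.1, p.2) ∈ E}

lemma NA_edge {E : Set (Sym2 V)} (K : Cyc H E) (i : ℕ) : s(K.c i, K.c (i + 1)) ∈ E := by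
  rw [K.edge]
  refine ⟨i % K.n, Nat.mod_lt _ K.RB_pos, ?_⟩
  have h1 : K.c (i % K.n) = K.c i := K.c_mod i
  have h2 : K.c (i % K.n + 1) = K.c (i + 1) := by
    rw [K.c_eq]
    simp [Nat.add_mod]
  rw [h1, h2]

lemma NA_up {E : Set (Sym2 V)} (K : Cyc H E) (hon : ∀ v, K.on v) (A : Set V)
    (h1 : A.Nonempty) (h2 : Aᶜ.Nonempty) : ∃ i, K.c i ∉ A ∧ K.c (i + 1) ∈ A := by
  by_contra hcon
  push Not at hcon
  obtain ⟨w, hw⟩ := h1
  obtain ⟨v, hv⟩ := h2
  obtain ⟨hv1, hv2⟩ := hon v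
  obtain ⟨hw1, hw2⟩ := hon w
  have h3 : ∀ j, K.c (K.r v + j) ∉ A := by
    intro j
    induction j with
    | zero =>
      rw [Nat.add_zero, hv2]
      exact hv
    | succ j ih => exact hcon _ ih
  have h4 := h3 (K.r w + K.n - K.r v)
  have h5 : K.r v + (K.r w + K.n - K.r v) = K.r w + K.n := by omega
  rw [h5, K.per, hw2] at h4
  exact h4 hw

lemma NA_down {E : Set (Sym2 V)} (K : Cyc H E) (hon : ∀ v, K.on v) (A : Set V)
    (h1 : A.Nonempty) (h2 : Aᶜ.Nonempty) : ∃ i, K.c i ∈ A ∧ K.c (i + 1) ∉ A := by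
  obtain ⟨i, h3, h4⟩ := NA_up K hon Aᶜ h2 (by rw [compl_compl]; exact h1)
  exact ⟨i, by
    by_contra h
    exact h3 h, h4⟩

lemma NA_pu {E : Set (Sym2 V)} (K : Cyc H E) {A : Set V} {i : ℕ} (h1 : K.c i ∉ A)
    (h2 : K.c (i + 1) ∈ A) : (K.c (i + 1), K.c i) ∈ NABd H E A := by
  have h3 := NA_edge K i
  have h4 : s(K.c (i + 1), K.c i) ∈ E := by
    rw [Sym2.eq_swap]
    exact h3
  exact ⟨⟨h2, h1, K.sub h4⟩, h4⟩

lemma NA_pd {E : Set (Sym2 V)} (K : Cyc H E) {A : Set V} {i : ℕ} (h1 : K.c i ∈ A)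
    (h2 : K.c (i + 1) ∉ A) : (K.c i, K.c (i + 1)) ∈ NABd H E A := by
  have h3 := NA_edge K i
  exact ⟨⟨h1, h2, K.sub h3⟩, h3⟩

lemma NA_two [Finite V] {E : Set (Sym2 V)} (K : Cyc H E) (hon : ∀ v, K.on v) (A : Set V)
    (h1 : A.Nonempty) (h2 : Aᶜ.Nonempty) : 2 ≤ (NABd H E A).ncard := by
  obtain ⟨i, hi1, hi2⟩ := NA_up K hon A h1 h2
  obtain ⟨j, hj1, hj2⟩ := NA_down K hon A h1 h2
  have hn := K.hn
  have h3 : 1 < (NABd H E A).ncard := by
    rw [Set.one_lt_ncard (Set.toFinite _)]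
    refine ⟨_, NA_pu K hi1 hi2, _, NA_pd K hj1 hj2, fun h => ?_⟩
    have h4 : K.c (i + 1) = K.c j := (Prod.ext_iff.1 h).1
    have h5 : K.c i = K.c (j + 1) := (Prod.ext_iff.1 h).2
    rw [K.c_eq] at h4 h5
    have h6 : (i + 1 + 1) % K.n = (j + 1) % K.n := Nat.ModEq.add_right 1 h4
    have h7 : i % K.n = (i + 2) % K.n := by
      rw [h5, ← h6]
    have h8 : K.n ∣ (i + 2) - i := (Nat.modEq_iff_dvd' (by omega)).mp h7
    have h9 : (i + 2) - i = 2 := by omega
    rw [h9] at h8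
    have := Nat.le_of_dvd (by norm_num) h8
    omega
  omega

lemma NA_int [Finite V] {E : Set (Sym2 V)} (K : Cyc H E) (hon : ∀ v, K.on v) (A : Set V)
    (h1 : A.Nonempty) (h2 : Aᶜ.Nonempty) (hfew : (NABd H E A).ncard ≤ 2) :
    ∃ K' : Cyc H E, K'.n = K.n ∧ (∀ v, K'.on v) ∧
      ∃ k, k < K'.n ∧ ∀ i < K'.n, (K'.c i ∈ A ↔ 1 ≤ i ∧ i ≤ k) := by
  classical
  obtain ⟨i0, hi1, hi2⟩ := NA_up K hon A h1 h2
  obtain ⟨K', hn', hc', hc0, -⟩ := K.shift (K.on_c i0)
  have hn := K'.hn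
  have hon' : ∀ v, K'.on v := fun v => by
    rw [K'.on_iff, ← K.on_iff]
    exact hon v
  have hc0A : K'.c 0 ∉ A := by
    rw [hc0]
    exact hi1
  have hc1A : K'.c 1 ∈ A := by
    rw [hc', K.r_c]
    have h3 : K.c (i0 % K.n + 1) = K.c (i0 + 1) := by
      rw [K.c_eq]
      simp [Nat.add_mod]
    rw [h3]
    exact hi2
  have hex : ∃ m, K'.c (m + 2) ∉ A := by
    refine ⟨K'.n - 2, ?_⟩
    have h3 : K'.n - 2 + 2 = 0 + K'.n := by omega
    rw [h3, K'.per]
    exact hc0A
  obtain ⟨m, hm1, hm2⟩ : ∃ m, K'.c (m + 2) ∉ A ∧ ∀ j < m, K'.c (j + 2) ∈ A :=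
    ⟨Nat.find hex, Nat.find_spec hex, fun j hj => by
      by_contra h
      exact Nat.find_min hex hj h⟩
  have hmn : m + 2 ≤ K'.n := by
    by_contra h
    have h3 := hm2 (K'.n - 2) (by omega)
    have h4 : K'.n - 2 + 2 = 0 + K'.n := by omega
    rw [h4, K'.per] at h3
    exact hc0A h3
  have hmA : K'.c (m + 1) ∈ A := by
    rcases Nat.eq_zero_or_pos m with h3 | h3
    · rw [h3]
      exact hc1A
    · have h4 := hm2 (m - 1) (by omega)
      have h5 : m - 1 + 2 = m + 1 := by omega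
      rw [h5] at h4
      exact h4
  refine ⟨K', hn', hon', m + 1, by omega, fun i hi => ?_⟩
  constructor
  · intro hiA
    have hi1' : 1 ≤ i := by
      by_contra h
      have : i = 0 := by omega
      rw [this] at hiA
      exact hc0A hiA
    refine ⟨hi1', ?_⟩
    by_contra hik
    push Not at hik
    -- a second up transition
    have hj : ∃ j, m + 2 ≤ j ∧ j < i ∧ K'.c j ∉ A ∧ K'.c (j + 1) ∈ A := by
      by_contra hcon
      push Not at hcon
      have h3 : ∀ l, m + 2 + l ≤ i → K'.c (m + 2 + l) ∉ A := by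
        intro l
        induction l with
        | zero =>
          intro _
          exact hm1
        | succ l ih =>
          intro hl
          have h4 := ih (by omega)
          exact hcon (m + 2 + l) (by omega) (by omega) h4
      have h4 := h3 (i - (m + 2)) (by omega)
      have h5 : m + 2 + (i - (m + 2)) = i := by omega
      rw [h5] at h4
      exact h4 hiA
    obtain ⟨j, hj1, hj2, hj3, hj4⟩ := hj
    have h3 : 2 < (NABd H E A).ncard := by
      rw [Set.two_lt_ncard (Set.toFinite _)]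
      refine ⟨_, NA_pu K' hc0A hc1A, _, NA_pu K' hj3 hj4, _, NA_pd K' hmA hm1, ?_, ?_, ?_⟩
      · intro h
        have h4 : K'.c (0 + 1) = K'.c (j + 1) := (Prod.ext_iff.1 h).1
        rw [K'.c_eq, Nat.mod_eq_of_lt (by omega), Nat.mod_eq_of_lt (by omega)] at h4
        omega
      · intro h
        have h4 : K'.c (0 + 1) = K'.c (m + 1) := (Prod.ext_iff.1 h).1
        have h5 : K'.c 0 = K'.c (m + 1 + 1) := (Prod.ext_iff.1 h).2
        rw [K'.c_eq, Nat.mod_eq_of_lt (by omega), Nat.mod_eq_of_lt (by omega)] at h4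
        have h6 : m = 0 := by omega
        rw [h6, K'.c_eq, Nat.mod_eq_of_lt (by omega), Nat.mod_eq_of_lt (by omega)] at h5
        omega
      · intro h
        have h4 : K'.c (j + 1) = K'.c (m + 1) := (Prod.ext_iff.1 h).1
        rw [K'.c_eq, Nat.mod_eq_of_lt (by omega), Nat.mod_eq_of_lt (by omega)] at h4
        omega
    omega
  · rintro ⟨h3, h4⟩
    rcases Nat.lt_or_ge i 2 with h5 | h5
    · have : i = 1 := by omega
      rw [this]
      exact hc1A
    · have h6 := hm2 (i - 2) (by omega)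
      have h7 : i - 2 + 2 = i := by omega
      rw [h7] at h6
      exact h6

lemma NA_card_image {E : Set (Sym2 V)} (K : Cyc H E) (S : Set ℕ) (hS : ∀ i ∈ S, i < K.n) :
    (K.c '' S).ncard = S.ncard := by
  apply Set.InjOn.ncard_image
  intro i hi j hj hij
  rw [K.c_eq, Nat.mod_eq_of_lt (hS i hi), Nat.mod_eq_of_lt (hS j hj)] at hij
  exact hij

lemma NA_card_univ {E : Set (Sym2 V)} (K : Cyc H E) (hon : ∀ v, K.on v) :
    Nat.card V = K.n := by
  have h1 : (Set.univ : Set V) = K.c '' (Set.Iio K.n) := by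
    ext v
    simp only [Set.mem_univ, true_iff]
    exact ⟨K.r v, (hon v).1, (hon v).2⟩
  have h2 := NA_card_image K (Set.Iio K.n) (fun i hi => hi)
  rw [← Set.ncard_univ, h1, h2]
  rw [← Finset.coe_range, Set.ncard_coe_finset, Finset.card_range]

lemma NA_card_A {E : Set (Sym2 V)} (K : Cyc H E) (hon : ∀ v, K.on v) (A : Set V) (k : ℕ)
    (hk : k < K.n) (h : ∀ i < K.n, (K.c i ∈ A ↔ 1 ≤ i ∧ i ≤ k)) : A.ncard = k := by
  have h1 : A = K.c '' (Set.Icc 1 k) := by
    ext v
    constructor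
    · intro hv
      have h2 := (hon v)
      rw [← h2.2] at hv
      exact ⟨K.r v, (h _ h2.1).1 hv, h2.2⟩
    · rintro ⟨i, hi, rfl⟩
      exact (h i (lt_of_le_of_lt hi.2 hk)).2 hi
  rw [h1, NA_card_image K _ (fun i hi => lt_of_le_of_lt hi.2 hk)]
  rw [← Finset.coe_Icc, Set.ncard_coe_finset, Nat.card_Icc]
  omega

lemma NA_nbr [Finite V] (h2 : TwoReg H red) (v : V) : {w | H.Adj v w}.ncard = 4 := by
  have h3 : {w | H.Adj v w} = {w | H.Adj v w ∧ s(v, w) ∈ red} ∪ {w | H.Adj v w ∧ s(v, w) ∉ red} := by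
    ext w
    simp only [Set.mem_ofPred_eq, Set.mem_union]
    tauto
  rw [h3, Set.ncard_union_eq, h2.r2, h2.b2]
  rw [Set.disjoint_left]
  intro w hw hw'
  exact hw'.2 hw.2

lemma NA_four [Finite V] (h2 : TwoReg H red) (A : Set V) (hA : SmallCut H A) : 4 ≤ A.ncard := by
  classical
  have : Fintype V := Fintype.ofFinite V
  obtain ⟨hA1, -, hA3⟩ := hA
  by_contra hcon
  push Not at hcon
  -- at least `5 - |A|` boundary pairs at each vertex of `A`
  have hfib : ∀ a ∈ A.toFinset, 5 - A.ncard ≤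
      ((Bd H A).toFinset.filter (fun p => p.1 = a)).card := by
    intro a ha
    rw [Set.mem_toFinset] at ha
    have h3 : {w | H.Adj a w}.ncard ≤ ({w | H.Adj a w} \ A).ncard + (A \ {a}).ncard := by
      have h4 : {w | H.Adj a w} ⊆ ({w | H.Adj a w} \ A) ∪ (A \ {a}) := by
        intro w hw
        by_cases hwA : w ∈ A
        · right
          refine ⟨hwA, fun h => ?_⟩
          rw [Set.mem_singleton_iff.1 h] at hw
          exact H.loopless.irrefl a hw
        · left
          exact ⟨hw, hwA⟩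
      exact (Set.ncard_le_ncard h4).trans (Set.ncard_union_le _ _)
    rw [NA_nbr h2, Set.ncard_sdiff_singleton_of_mem ha] at h3
    have h5 : ({w | H.Adj a w} \ A).ncard ≤
        ((Bd H A).toFinset.filter (fun p => p.1 = a)).card := by
      rw [Set.ncard_eq_toFinset_card']
      refine Finset.card_le_card_of_injOn (fun w => (a, w)) ?_ ?_
      · intro w hw
        simp only [Set.coe_toFinset] at hw
        simp only [Finset.coe_filter, Set.mem_toFinset, Set.mem_ofPred_eq, and_true]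
        exact ⟨ha, hw.2, hw.1⟩
      · intro w _ w' _ h
        exact (Prod.ext_iff.1 h).2
    omega
  have hmaps : Set.MapsTo (fun p : V × V => p.1) ((Bd H A).toFinset : Set (V × V))
      (A.toFinset : Set V) := by
    intro p hp
    simp only [Set.coe_toFinset] at hp ⊢
    exact hp.1
  have hsum := Finset.card_eq_sum_card_fiberwise hmaps
  have h3 : A.toFinset.card * (5 - A.ncard) ≤ (Bd H A).toFinset.card := by
    rw [hsum, ← smul_eq_mul]
    exact Finset.card_nsmul_le_sum _ _ _ hfib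
  rw [← Set.ncard_eq_toFinset_card', ← Set.ncard_eq_toFinset_card'] at h3
  have h4 : A.ncard = 2 ∨ A.ncard = 3 := by omega
  rcases h4 with h4 | h4 <;> rw [h4] at h3 <;> omega

theorem exists_pole [Finite V] (h2 : TwoReg H red) (KR : Cyc H (RedE H red))
    (KB : Cyc H (BlueE H red)) (hR : ∀ v, KR.on v) (hB : ∀ v, KB.on v) (hnp : ¬ PrimeH H) :
    ∃ A, Nonempty (Pole H red A) := by
  classical
  have hex : ∃ k, ∃ A, SmallCut H A ∧ A.ncard = k := by
    unfold PrimeH at hnp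
    push Not at hnp
    obtain ⟨X, hX⟩ := hnp
    exact ⟨_, X, hX, rfl⟩
  obtain ⟨A, hA, hAk⟩ := Nat.find_spec hex
  have hmin : ∀ X ⊆ A, X ≠ A → ¬ SmallCut H X := by
    intro X hXA hne hX
    have h3 : X.ncard < A.ncard := Set.ncard_lt_ncard (hXA.ssubset_of_ne hne)
    have h4 := Nat.find_min' hex ⟨X, hX, rfl⟩
    omega
  obtain ⟨hA1, hA2, hA3⟩ := id hA
  have hne : A.Nonempty := by
    rw [Set.nonempty_iff_ne_empty]
    intro h
    rw [h, Set.ncard_empty] at hA1
    omega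
  have hne' : Aᶜ.Nonempty := by
    rw [Set.nonempty_iff_ne_empty]
    intro h
    rw [h, Set.ncard_empty] at hA2
    omega
  have hsum : (NABd H (RedE H red) A).ncard + (NABd H (BlueE H red) A).ncard ≤
      (Bd H A).ncard := by
    rw [← Set.ncard_union_eq]
    · refine Set.ncard_le_ncard ?_ (Set.toFinite _)
      rintro p (hp | hp)
      · exact hp.1
      · exact hp.1
    · rw [Set.disjoint_left]
      intro p hp hp'
      exact hp'.2.2 hp.2.2
  have hr2 := NA_two KR hR A hne hne'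
  have hb2 := NA_two KB hB A hne hne'
  obtain ⟨KR', hRn, hRon, k, hk, hRk⟩ := NA_int KR hR A hne hne' (by omega)
  obtain ⟨KB', hBn, hBon, k', hk', hBk⟩ := NA_int KB hB A hne hne' (by omega)
  have hcR := NA_card_A KR' hRon A k hk hRk
  have hcB := NA_card_A KB' hBon A k' hk' hBk
  have hnR := NA_card_univ KR' hRon
  have hnB := NA_card_univ KB' hBon
  have hkk : k' = k := by omega
  have h4 := NA_four h2 A hA
  have hcompl := Set.ncard_add_ncard_compl A
  refine ⟨A, ⟨⟨KR', KB', k, by omega, hRon, hBon, hRk, fun i hi => ?_, by omega, by omega,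
    hmin⟩⟩⟩
  rw [hBk i (by omega), hkk]

end Pool.Agent.GD
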