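import Pool.Agent.GD.NDefs
import Pool.Agent.GD.RB

set_option autoImplicit false

/-! Module NB: the outside of a minimal small cut (harmless pairings). -/

namespace Pool.Agent.GD

variable {V : Type} {H : SimpleGraph V} {red : Set (Sym2 V)} {A : Set V}

/-- a circuit through all vertices on which `A` is the interval `1, .., k` -/
structure NBc {E : Set (Sym2 V)} (K : Cyc H E) (A : Set V) (k : ℕ) : Prop where
  on : ∀ v, K.on v
  inA : ∀ i < K.n, (K.c i ∈ A ↔ 1 ≤ i ∧ i ≤ k)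
  hk : 4 ≤ k
  hkn : k + 2 ≤ K.n

/-- position outside -/
def NBq {E : Set (Sym2 V)} (K : Cyc H E) (v : V) : ℕ := if K.r v = 0 then K.n else K.r v

namespace NBc

variable {E : Set (Sym2 V)} {K : Cyc H E} {k : ℕ}

lemma cn (K : Cyc H E) : K.c K.n = K.c 0 := by
  have := K.per 0
  rwa [Nat.zero_add] at this

lemma cn1 (K : Cyc H E) : K.c (K.n + 1) = K.c 1 := by
  have := K.per 1
  rwa [Nat.add_comm] at this

lemma hc {K : Cyc H E} (h : NBc K A k) (v : V) : K.c (K.r v) = v := (h.on v).2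

lemma out {K : Cyc H E} (h : NBc K A k) {j : ℕ} (h1 : k < j) (h2 : j ≤ K.n) : K.c j ∉ A := by
  by_cases hj : j = K.n
  · rw [hj, cn, h.inA 0 (by have := K.hn; omega)]
    omega
  · rw [h.inA j (by omega)]
    omega

lemma q_c {K : Cyc H E} (h : NBc K A k) {j : ℕ} (h1 : k < j) (h2 : j ≤ K.n) :
    NBq K (K.c j) = j := by
  have h3 := K.hn
  have h4 := h.hk
  unfold NBq
  by_cases hj : j = K.n
  · rw [hj, cn, K.inj 0 (by omega), if_pos rfl]
  · rw [K.inj j (by omega), if_neg (by omega)]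

lemma q_pos {K : Cyc H E} (h : NBc K A k) {v : V} (hv : v ∉ A) :
    k < NBq K v ∧ NBq K v ≤ K.n ∧ K.c (NBq K v) = v := by
  have h1 := h.on v
  have h5 := h.hkn
  obtain ⟨h1, h2⟩ := h1
  unfold NBq
  by_cases h0 : K.r v = 0
  · rw [if_pos h0]
    refine ⟨by omega, le_rfl, ?_⟩
    rw [cn, ← h0, h2]
  · rw [if_neg h0]
    have h3 := h.inA _ h1
    rw [h2] at h3
    refine ⟨?_, by omega, h2⟩
    by_contra h4
    exact hv (h3.2 ⟨by omega, by omega⟩)

lemma q_inj {K : Cyc H E} (h : NBc K A k) {v w : V} (hv : v ∉ A) (hw : w ∉ A)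
    (hq : NBq K v = NBq K w) : v = w := by
  rw [← (h.q_pos hv).2.2, hq, (h.q_pos hw).2.2]

lemma mem (K : Cyc H E) (j : ℕ) : s(K.c j, K.c (j + 1)) ∈ E := by
  rw [K.edge]
  have h0 : 0 < K.n := by have := K.hn; omega
  refine ⟨j % K.n, Nat.mod_lt _ h0, ?_⟩
  rw [K.c_mod]
  have : K.c (j % K.n + 1) = K.c (j + 1) := by
    rw [K.c_eq, Nat.mod_add_mod]
  rw [this]

lemma segl (g : ℕ → Prop) (a b : ℕ) (h : ∀ j, a < j → j < b → (g (j - 1) ↔ g j)) :
    ∀ j, a ≤ j → j < b → (g j ↔ g a) := by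
  intro j
  induction j with
  | zero =>
    intro h1 _
    have : a = 0 := by omega
    rw [this]
  | succ j ih =>
    intro h1 h2
    by_cases hj : a = j + 1
    · rw [hj]
    · rw [← ih (by omega) (by omega)]
      have := h (j + 1) (by omega) h2
      simpa using this.symm

lemma step {K : Cyc H E} (_h : NBc K A k) {κ : Sym2 V → Prop} {j : ℕ} (h1 : k < j)
    (_h2 : j ≤ K.n) (hag : AgreeOn H.edgeSet κ (K.c j)) :
    (κ s(K.c (j - 1), K.c (j - 1 + 1)) ↔ κ s(K.c j, K.c (j + 1))) := by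
  have h3 := K.sub (mem K (j - 1))
  have h4 := K.sub (mem K j)
  have e1 : j - 1 + 1 = j := by omega
  rw [e1, Sym2.eq_swap] at h3 ⊢
  exact hag _ _ h3 h4

lemma low {K : Cyc H E} (h : NBc K A k) {w : V} {κ : Sym2 V → Prop} (hw : w ∉ A)
    (hag : AgB H A w κ) {j : ℕ} (h1 : k ≤ j) (h2 : j < NBq K w) :
    (κ s(K.c j, K.c (j + 1)) ↔ κ s(K.c k, K.c (k + 1))) := by
  have hq := h.q_pos hw
  refine segl (fun j => κ s(K.c j, K.c (j + 1))) k (NBq K w) ?_ j h1 h2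
  intro j h3 h4
  refine h.step h3 (by omega) (hag _ (h.out h3 (by omega)) ?_)
  intro h5
  have h6 := h.q_c h3 (show j ≤ K.n by omega)
  rw [h5] at h6
  omega

lemma high {K : Cyc H E} (h : NBc K A k) {w : V} {κ : Sym2 V → Prop} (hw : w ∉ A)
    (hag : AgB H A w κ) {j : ℕ} (h1 : NBq K w ≤ j) (h2 : j ≤ K.n) :
    (κ s(K.c j, K.c (j + 1)) ↔ κ s(K.c 0, K.c 1)) := by
  have hq := h.q_pos hw
  have hs := segl (fun j => κ s(K.c j, K.c (j + 1))) (NBq K w) (K.n + 1) (by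
    intro j h3 h4
    refine h.step (by omega) (by omega) (hag _ (h.out (by omega) (by omega)) ?_)
    intro h5
    have h6 := h.q_c (j := j) (by omega) (by omega)
    rw [h5] at h6
    omega)
  have h3 := hs j h1 (by omega)
  have h4 := hs K.n (by omega) (by omega)
  rw [← cn, ← cn1]
  exact h3.trans h4.symm

/-- an `E`-edge at an outside vertex -/
lemma edge_out {K : Cyc H E} (h : NBc K A k) {v a : V} (hv : v ∉ A) (ha : s(v, a) ∈ E) :
    ∃ j, k ≤ j ∧ j ≤ K.n ∧ s(v, a) = s(K.c j, K.c (j + 1)) := by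
  obtain ⟨h1, h2, h3⟩ := h.q_pos hv
  have h5 := h.hk
  have h6 := h.hkn
  rw [K.edge_at (h.on v)] at ha
  have hr : K.c (K.r v) = v := h.hc v
  rcases ha with ha | ha
  · refine ⟨NBq K v, by omega, h2, ?_⟩
    rw [h3, ha]
    have e3 : K.c (K.r v + 1) = K.c (NBq K v + 1) := by
      unfold NBq
      by_cases h0 : K.r v = 0
      · rw [if_pos h0, h0, cn1]
      · rw [if_neg h0]
    rw [e3]
  · refine ⟨NBq K v - 1, by omega, by omega, ?_⟩
    have e1 : NBq K v - 1 + 1 = NBq K v := by omega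
    have e3 : K.c (K.r v + K.n - 1) = K.c (NBq K v - 1) := by
      unfold NBq
      by_cases h0 : K.r v = 0
      · rw [if_pos h0, h0, Nat.zero_add]
      · rw [if_neg h0]
        have e2 : K.r v + K.n - 1 = K.r v - 1 + K.n := by omega
        rw [e2, K.per]
    rw [e1, h3, ha, Sym2.eq_swap, e3]

/-- the edge after an outside vertex -/
lemma after {K : Cyc H E} (h : NBc K A k) {v : V} (hv : v ∉ A) :
    s(v, K.c (NBq K v + 1)) ∈ H.edgeSet ∧
      s(v, K.c (NBq K v + 1)) = s(K.c (NBq K v), K.c (NBq K v + 1)) := by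
  obtain ⟨h1, h2, h3⟩ := h.q_pos hv
  have h4 := K.sub (mem K (NBq K v))
  rw [h3] at h4
  exact ⟨h4, by rw [h3]⟩

end NBc

namespace Pole

lemma NBR (P : Pole H red A) : NBc P.KR A P.k := ⟨P.onR, P.inR, P.hk, P.hkn⟩

lemma NBB (P : Pole H red A) : NBc P.KB A P.k :=
  ⟨P.onB, fun i hi => P.inB i (by rw [← P.hn]; exact hi), P.hk, by rw [P.hn]; exact P.hkn⟩

lemma NBqR (P : Pole H red A) (v : V) : P.qR v = NBq P.KR v := rfl
lemma NBqB (P : Pole H red A) (v : V) : P.qB v = NBq P.KB v := by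
  unfold qB NBq
  rfl

/-- red and blue value at an outside vertex -/
lemma NB_rb (P : Pole H red A) {κ : Sym2 V → Prop} {v : V} (hv : v ∉ A)
    (hag : AgreeOn H.edgeSet κ v) :
    (κ s(P.KR.c (P.qR v), P.KR.c (P.qR v + 1)) ↔ κ s(P.KB.c (P.qB v), P.KB.c (P.qB v + 1))) := by
  rw [P.NBqR, P.NBqB]
  obtain ⟨h1, h2⟩ := P.NBR.after hv
  obtain ⟨h3, h4⟩ := P.NBB.after hv
  rw [← h2, ← h4]
  exact hag _ _ h1 h3

/-- another outside vertex -/
lemma NB_other (P : Pole H red A) (w : V) : ∃ v, v ∉ A ∧ v ≠ w := by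
  have h1 := P.hkn
  have h2 := P.NBR.out (j := P.KR.n) (by omega) le_rfl
  have h3 := P.NBR.out (j := P.KR.n - 1) (by omega) (by omega)
  by_cases hw : P.KR.c P.KR.n = w
  · refine ⟨_, h3, ?_⟩
    intro h4
    have h5 := P.NBR.q_c (j := P.KR.n) (by omega) le_rfl
    have h6 := P.NBR.q_c (j := P.KR.n - 1) (by omega) (by omega)
    rw [h4] at h6
    rw [hw] at h5
    omega
  · exact ⟨_, h2, hw⟩

/-- all edges touching the outside -/
lemma NB_all (P : Pole H red A) {κ : Sym2 V → Prop} (γ : Prop)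
    (hr : ∀ j, P.k ≤ j → j ≤ P.KR.n → (κ s(P.KR.c j, P.KR.c (j + 1)) ↔ γ))
    (hb : ∀ j, P.k ≤ j → j ≤ P.KB.n → (κ s(P.KB.c j, P.KB.c (j + 1)) ↔ γ)) :
    ConstOn (EB H A) κ := by
  have key : ∀ e ∈ EB H A, (κ e ↔ γ) := by
    rintro e ⟨he, v, hve, hv⟩
    obtain ⟨a, rfl⟩ := hve
    by_cases hred : s(v, a) ∈ red
    · obtain ⟨j, h1, h2, h3⟩ := P.NBR.edge_out hv (a := a) ⟨he, hred⟩
      rw [h3]
      exact hr j h1 h2
    · obtain ⟨j, h1, h2, h3⟩ := P.NBB.edge_out hv (a := a) ⟨he, hred⟩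
      rw [h3]
      exact hb j h1 h2
  intro e he e' he'
  rw [key e he, key e' he']

theorem nb_L (P : Pole H red A) {w : V} {κ : Sym2 V → Prop} (hw : w ∉ A) (h : AgB H A w κ)
    (hr : κ P.r1 ↔ κ P.r2) (hb : κ P.b1 ↔ κ P.b2) : ConstOn (EB H A) κ := by
  have hR : ∀ j, P.k ≤ j → j ≤ P.KR.n → (κ s(P.KR.c j, P.KR.c (j + 1)) ↔ κ P.r1) := by
    intro j h1 h2
    by_cases hj : j < NBq P.KR w
    · rw [hr]
      exact P.NBR.low hw h h1 hj
    · exact P.NBR.high hw h (by omega) h2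
  have hB : ∀ j, P.k ≤ j → j ≤ P.KB.n → (κ s(P.KB.c j, P.KB.c (j + 1)) ↔ κ P.b1) := by
    intro j h1 h2
    by_cases hj : j < NBq P.KB w
    · rw [hb]
      exact P.NBB.low hw h h1 hj
    · exact P.NBB.high hw h (by omega) h2
  obtain ⟨v, hv, hvw⟩ := P.NB_other w
  have h3 := P.NB_rb hv (h v hv hvw)
  obtain ⟨a1, a2, -⟩ := P.NBR.q_pos hv
  obtain ⟨b1, b2, -⟩ := P.NBB.q_pos hv
  have h4 := hR (P.qR v) (by rw [P.NBqR]; omega) (by rw [P.NBqR]; omega)
  have h5 := hB (P.qB v) (by rw [P.NBqB]; omega) (by rw [P.NBqB]; omega)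
  have h6 : κ P.b1 ↔ κ P.r1 := (h5.symm.trans h3.symm).trans h4
  exact P.NB_all (κ P.r1) hR (fun j h1 h2 => (hB j h1 h2).trans h6)

theorem nb_0 (P : Pole H red A) (κ : Sym2 V → Prop) (h : ∀ v, v ∉ A → AgreeOn H.edgeSet κ v) :
    ConstOn (EB H A) κ := by
  have seg : ∀ {E : Set (Sym2 V)} (K : Cyc H E), NBc K A P.k →
      (κ s(K.c 0, K.c 1) ↔ κ s(K.c P.k, K.c (P.k + 1))) := by
    intro E K hK
    have h1 := hK.hkn
    have hs := NBc.segl (fun j => κ s(K.c j, K.c (j + 1))) P.k (K.n + 1) (by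
      intro j h3 h4
      exact hK.step (by omega) (by omega) (h _ (hK.out (by omega) (by omega)))) K.n (by omega)
      (by omega)
    rw [← NBc.cn, ← NBc.cn1]
    exact hs
  obtain ⟨w, hw, -⟩ := P.NB_other (P.KR.c 0)
  exact P.nb_L hw (fun v hv _ => h v hv) (seg P.KR P.NBR) (seg P.KB P.NBB)

theorem nb_1 (P : Pole H red A) (hh : ¬ P.Harm1) {w : V} {κ : Sym2 V → Prop} (hw : w ∉ A)
    (h : AgB H A w κ) (h1 : κ P.r1 ↔ κ P.b1) (h2 : κ P.r2 ↔ κ P.b2) : ConstOn (EB H A) κ := by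
  by_cases hr : (κ P.r1 ↔ κ P.r2)
  · exact P.nb_L hw h hr ((h1.symm.trans hr).trans h2)
  · exfalso
    apply hh
    refine ⟨w, hw, fun v hv hvw => ?_⟩
    have h3 := P.NB_rb hv (h v hv hvw)
    obtain ⟨a1, a2, -⟩ := P.NBR.q_pos hv
    obtain ⟨b1, b2, -⟩ := P.NBB.q_pos hv
    have lR : P.qR v < P.qR w → (κ s(P.KR.c (P.qR v), P.KR.c (P.qR v + 1)) ↔ κ P.r2) := fun h5 =>
      P.NBR.low hw h (by rw [P.NBqR]; omega) (by rw [P.NBqR, P.NBqR] at h5; exact h5)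
    have hR : ¬ P.qR v < P.qR w → (κ s(P.KR.c (P.qR v), P.KR.c (P.qR v + 1)) ↔ κ P.r1) := fun h5 =>
      P.NBR.high hw h (by rw [P.NBqR, P.NBqR] at h5; rw [P.NBqR]; omega)
        (by rw [P.NBqR]; omega)
    have lB : P.qB v < P.qB w → (κ s(P.KB.c (P.qB v), P.KB.c (P.qB v + 1)) ↔ κ P.b2) := fun h5 =>
      P.NBB.low hw h (by rw [P.NBqB]; omega) (by rw [P.NBqB, P.NBqB] at h5; exact h5)
    have hB : ¬ P.qB v < P.qB w → (κ s(P.KB.c (P.qB v), P.KB.c (P.qB v + 1)) ↔ κ P.b1) := fun h5 =>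
      P.NBB.high hw h (by rw [P.NBqB, P.NBqB] at h5; rw [P.NBqB]; omega)
        (by rw [P.NBqB]; omega)
    by_cases c1 : P.qR v < P.qR w <;> by_cases c2 : P.qB v < P.qB w
    · simp only [c1, c2]
    · exfalso
      have e1 := lR c1
      have e2 := hB c2
      exact hr ((h1.trans (e2.symm.trans h3.symm)).trans e1)
    · exfalso
      have e1 := hR c1
      have e2 := lB c2
      exact hr (((e1.symm.trans h3).trans e2).trans h2.symm)
    · simp only [c1, c2]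

theorem nb_2 (P : Pole H red A) (hh : ¬ P.Harm2) {w : V} {κ : Sym2 V → Prop} (hw : w ∉ A)
    (h : AgB H A w κ) (h1 : κ P.r1 ↔ κ P.b2) (h2 : κ P.r2 ↔ κ P.b1) : ConstOn (EB H A) κ := by
  by_cases hr : (κ P.r1 ↔ κ P.r2)
  · exact P.nb_L hw h hr ((h2.symm.trans hr.symm).trans h1)
  · exfalso
    apply hh
    refine ⟨w, hw, fun v hv hvw => ?_⟩
    have h3 := P.NB_rb hv (h v hv hvw)
    obtain ⟨a1, a2, -⟩ := P.NBR.q_pos hv
    obtain ⟨b1, b2, -⟩ := P.NBB.q_pos hv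
    have lR : P.qR v < P.qR w → (κ s(P.KR.c (P.qR v), P.KR.c (P.qR v + 1)) ↔ κ P.r2) := fun h5 =>
      P.NBR.low hw h (by rw [P.NBqR]; omega) (by rw [P.NBqR, P.NBqR] at h5; exact h5)
    have hR : ¬ P.qR v < P.qR w → (κ s(P.KR.c (P.qR v), P.KR.c (P.qR v + 1)) ↔ κ P.r1) := fun h5 =>
      P.NBR.high hw h (by rw [P.NBqR, P.NBqR] at h5; rw [P.NBqR]; omega)
        (by rw [P.NBqR]; omega)
    have lB : P.qB v < P.qB w → (κ s(P.KB.c (P.qB v), P.KB.c (P.qB v + 1)) ↔ κ P.b2) := fun h5 =>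
      P.NBB.low hw h (by rw [P.NBqB]; omega) (by rw [P.NBqB, P.NBqB] at h5; exact h5)
    have hB : ¬ P.qB v < P.qB w → (κ s(P.KB.c (P.qB v), P.KB.c (P.qB v + 1)) ↔ κ P.b1) := fun h5 =>
      P.NBB.high hw h (by rw [P.NBqB, P.NBqB] at h5; rw [P.NBqB]; omega)
        (by rw [P.NBqB]; omega)
    have hne : P.qB v ≠ P.qB w := by
      rw [P.NBqB, P.NBqB]
      exact fun h5 => hvw (P.NBB.q_inj hv hw h5)
    by_cases c1 : P.qR v < P.qR w <;> by_cases c2 : P.qB v < P.qB w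
    · exfalso
      have e1 := lR c1
      have e2 := lB c2
      exact hr ((h1.trans (e2.symm.trans h3.symm)).trans e1)
    · have : P.qB w < P.qB v := by omega
      simp only [c1, this]
    · have : ¬ P.qB w < P.qB v := by omega
      simp only [c1, this]
    · exfalso
      have e1 := hR c1
      have e2 := hB c2
      exact hr (((e1.symm.trans h3).trans e2).trans h2.symm)

theorem not_both (P : Pole H red A) : ¬ (P.Harm1 ∧ P.Harm2) := by
  rintro ⟨⟨w1, hw1, h1⟩, ⟨w2, hw2, h2⟩⟩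
  have iR : ∀ {v w : V}, v ∉ A → w ∉ A → v ≠ w → P.qR v ≠ P.qR w := by
    intro v w hv hw hne h5
    rw [P.NBqR, P.NBqR] at h5
    exact hne (P.NBR.q_inj hv hw h5)
  have iB : ∀ {v w : V}, v ∉ A → w ∉ A → v ≠ w → P.qB v ≠ P.qB w := by
    intro v w hv hw hne h5
    rw [P.NBqB, P.NBqB] at h5
    exact hne (P.NBB.q_inj hv hw h5)
  by_cases hw : w1 = w2
  · subst hw
    obtain ⟨v, hv, hvw⟩ := P.NB_other w1
    have h3 := h1 v hv hvw
    have h4 := h2 v hv hvw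
    have h5 := iB hv hw1 hvw
    omega
  · have h3 := h1 w2 hw2 (Ne.symm hw)
    have h4 := h2 w1 hw1 hw
    have h5 := iR hw1 hw2 hw
    omega

/-- the outside is connected (through the red path) -/
theorem nb_con (P : Pole H red A) (C : Set V) (hne : ∃ v ∈ C, v ∉ A)
    (hcl : ∀ u ∈ C, ∀ v, u ∉ A → v ∉ A → H.Adj u v → v ∈ C) : ∀ v, v ∉ A → v ∈ C := by
  have h1 := P.hkn
  have hs := NBc.segl (fun j => P.KR.c j ∈ C) (P.k + 1) (P.KR.n + 1) (by
    intro j h3 h4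
    have o1 := P.NBR.out (j := j - 1) (by omega) (by omega)
    have o2 := P.NBR.out (j := j) (by omega) (by omega)
    have e1 : j - 1 + 1 = j := by omega
    have h5 := P.KR.sub (NBc.mem P.KR (j - 1))
    rw [e1, SimpleGraph.mem_edgeSet] at h5
    exact ⟨fun h => hcl _ h _ o1 o2 h5, fun h => hcl _ h _ o2 o1 h5.symm⟩)
  obtain ⟨v0, hv0, hv0A⟩ := hne
  intro v hv
  obtain ⟨a1, a2, a3⟩ := P.NBR.q_pos hv
  obtain ⟨b1, b2, b3⟩ := P.NBR.q_pos hv0A
  have h2 := hs _ (show P.k + 1 ≤ NBq P.KR v by omega) (by omega)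
  have h3 := hs _ (show P.k + 1 ≤ NBq P.KR v0 by omega) (by omega)
  simp only [a3, b3] at h2 h3
  exact h2.2 (h3.1 hv0)

end Pole

end Pool.Agent.GD
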