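import Pool.Agent.GD.NB

set_option autoImplicit false

/-! Module NC: reversing the blue circuit exchanges `Harm1` and `Harm2`.

New blue circuit c'(i) = c (k+1-i mod n) (Cyc.reverse and Cyc.shift): c'(0) = c (k+1), c'(k+1) = c 0,
A is again the interval 1..k. The position order of the outside vertices is reversed, so
P'.Harm1 <-> P.Harm2. With not_both: P or P' has no Harm1. -/

namespace Pool.Agent.GD.Pole

variable {V : Type} {H : SimpleGraph V} {red : Set (Sym2 V)} {A : Set V}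

theorem exists_noHarm1 (P : Pole H red A) : ∃ P' : Pole H red A, ¬ P'.Harm1 := by
  classical
  by_cases h1 : P.Harm1
  swap
  · exact ⟨P, h1⟩
  have h2 : ¬ P.Harm2 := fun h => P.not_both ⟨h1, h⟩
  have hk := P.hk
  have hkn : P.k + 2 ≤ P.KB.n := by rw [P.hn]; exact P.hkn
  have inB : ∀ i < P.KB.n, (P.KB.c i ∈ A ↔ 1 ≤ i ∧ i ≤ P.k) := by
    intro i hi; exact P.inB i (by rw [← P.hn]; exact hi)
  obtain ⟨K', hn', hc', -, hr'⟩ := P.KB.reverse
  have hrz : P.KB.r (P.KB.c (P.k + 1)) = P.k + 1 := by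
    rw [P.KB.r_c]; exact Nat.mod_eq_of_lt (by omega)
  have hrz' : K'.r (P.KB.c (P.k + 1)) = P.KB.n - (P.k + 1) := by
    rw [hr' _ (P.onB _), hrz, if_neg (by omega)]
  have hon' : ∀ v, K'.on v := fun v => K'.on_iff.2 (P.KB.on_iff.1 (P.onB v))
  obtain ⟨K2, hn2, hc2, -, hr2⟩ := K'.shift (hon' (P.KB.c (P.k + 1)))
  have hon2 : ∀ v, K2.on v := fun v => K2.on_iff.2 (P.KB.on_iff.1 (P.onB v))
  have in2 : ∀ i < P.KR.n, (K2.c i ∈ A ↔ 1 ≤ i ∧ i ≤ P.k) := by
    intro i hi
    rw [← P.hn] at hi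
    rw [hc2, hrz']
    by_cases hik : i ≤ P.k + 1
    · rw [hc' _ (by omega)]
      have e : P.KB.n - (P.KB.n - (P.k + 1) + i) = P.k + 1 - i := by omega
      rw [e, inB _ (by omega)]
      omega
    · have e : P.KB.n - (P.k + 1) + i = (i - (P.k + 1)) + K'.n := by omega
      rw [e, K'.per, hc' _ (by omega), inB _ (by omega)]
      omega
  let P' : Pole H red A :=
    { KR := P.KR, KB := K2, k := P.k, hn := by rw [hn2, hn', P.hn], onR := P.onR, onB := hon2,
      inR := P.inR, inB := in2, hk := P.hk, hkn := P.hkn, min := P.min }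
  refine ⟨P', ?_⟩
  have hqR : ∀ v, P'.qR v = P.qR v := fun v => rfl
  have hqB : ∀ v, v ∉ A → P'.qB v + P.qB v = P.KB.n + P.k + 1 ∧ P.qB v ≤ P.KB.n := by
    intro v hv
    have hon := P.onB v
    have hlt := hon.1
    have hin := inB _ hlt
    rw [hon.2] at hin
    have hK2r : K2.r v = cpos P.KB.n (P.KB.n - (P.k + 1)) (if P.KB.r v = 0 then 0 else P.KB.n - P.KB.r v) := by
      rw [hr2 v (hon' v), hn', hrz', hr' v hon]
    have e1 : P'.qB v = if K2.r v = 0 then K2.n else K2.r v := rfl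
    have e2 : P.qB v = if P.KB.r v = 0 then P.KB.n else P.KB.r v := rfl
    have hj : P.KB.r v = 0 ∨ P.k + 1 ≤ P.KB.r v := by
      by_contra hcon
      push Not at hcon
      exact hv (hin.2 ⟨by omega, by omega⟩)
    rw [e1, e2, hn2, hn']
    by_cases h0 : P.KB.r v = 0
    · rw [if_pos h0] at hK2r
      rw [if_pos h0]
      unfold cpos at hK2r
      rw [if_neg (by omega)] at hK2r
      rw [if_neg (by omega)]
      omega
    · rw [if_neg h0] at hK2r
      rw [if_neg h0]
      unfold cpos at hK2r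
      by_cases hj1 : P.KB.r v = P.k + 1
      · rw [if_pos (by omega)] at hK2r
        rw [if_pos (by omega)]
        omega
      · rw [if_neg (by omega)] at hK2r
        rw [if_neg (by omega)]
        omega
  rintro ⟨w, hw, h⟩
  refine h2 ⟨w, hw, fun v hv hvw => ?_⟩
  have hh := h v hv hvw
  rw [hqR, hqR] at hh
  have a1 := hqB v hv
  have a2 := hqB w hw
  rw [hh]
  omega

end Pool.Agent.GD.Pole
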