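import Pool.Agent.GD.RDefs

set_option autoImplicit false

/-! Group N (the graph `H` is not prime): definitions. -/

namespace Pool.Agent.GD

variable {V : Type}

/-- red edges of `H` -/
def RedE (H : SimpleGraph V) (red : Set (Sym2 V)) : Set (Sym2 V) := {e | e ∈ H.edgeSet ∧ e ∈ red}

/-- blue edges of `H` -/
def BlueE (H : SimpleGraph V) (red : Set (Sym2 V)) : Set (Sym2 V) := {e | e ∈ H.edgeSet ∧ e ∉ red}

/-- A minimal small cut `A` and the two Hamilton circuits, cut so that `A` is the interval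
`1, .., k` on both of them. -/
structure Pole (H : SimpleGraph V) (red : Set (Sym2 V)) (A : Set V) where
  KR : Cyc H (RedE H red)
  KB : Cyc H (BlueE H red)
  k : ℕ
  hn : KB.n = KR.n
  onR : ∀ v, KR.on v
  onB : ∀ v, KB.on v
  inR : ∀ i < KR.n, (KR.c i ∈ A ↔ 1 ≤ i ∧ i ≤ k)
  inB : ∀ i < KR.n, (KB.c i ∈ A ↔ 1 ≤ i ∧ i ≤ k)
  hk : 4 ≤ k
  hkn : k + 2 ≤ KR.n
  min : ∀ X ⊆ A, X ≠ A → ¬ SmallCut H X

namespace Pole

variable {H : SimpleGraph V} {red : Set (Sym2 V)} {A : Set V} (P : Pole H red A)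

/-- the four boundary edges -/
def r1 : Sym2 V := s(P.KR.c 0, P.KR.c 1)
def r2 : Sym2 V := s(P.KR.c P.k, P.KR.c (P.k + 1))
def b1 : Sym2 V := s(P.KB.c 0, P.KB.c 1)
def b2 : Sym2 V := s(P.KB.c P.k, P.KB.c (P.k + 1))

/-- position of a vertex outside `A` on the red path `k + 1, .., n` -/
def qR (v : V) : ℕ := if P.KR.r v = 0 then P.KR.n else P.KR.r v
def qB (v : V) : ℕ := if P.KB.r v = 0 then P.KB.n else P.KB.r v

/-- `r1 b1 | r2 b2` is harmful -/
def Harm1 : Prop := ∃ w, w ∉ A ∧ ∀ v, v ∉ A → v ≠ w → (P.qR v < P.qR w ↔ P.qB v < P.qB w)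
/-- `r1 b2 | r2 b1` is harmful -/
def Harm2 : Prop := ∃ w, w ∉ A ∧ ∀ v, v ∉ A → v ≠ w → (P.qR v < P.qR w ↔ P.qB w < P.qB v)

end Pole

/-- edges touching the complement of `A` -/
def EB (H : SimpleGraph V) (A : Set V) : Set (Sym2 V) := {e | e ∈ H.edgeSet ∧ ∃ v ∈ e, v ∉ A}

/-- `κ` agrees at all vertices outside `A` except possibly `w` -/
def AgB (H : SimpleGraph V) (A : Set V) (w : V) (κ : Sym2 V → Prop) : Prop :=
  ∀ v, v ∉ A → v ≠ w → AgreeOn H.edgeSet κ v

/-- One of the two label classes of edges touching `A`. -/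
structure Half (H : SimpleGraph V) (red : Set (Sym2 V)) (A : Set V) (T : SimpleGraph V) where
  /-- outer and inner ends of the two boundary edges -/
  o : Bool → V
  i : Bool → V
  hi : ∀ b, i b ∈ A
  ho : ∀ b, o b ∉ A
  adj : ∀ b, T.Adj (o b) (i b)
  out : ∀ u v, T.Adj u v → u ∈ A → v ∉ A → ∃ b, u = i b ∧ v = o b
  ne : ¬ (i false = i true ∧ o false = o true)
  le : ∀ u v, T.Adj u v → H.Adj u v
  touch : ∀ u v, T.Adj u v → u ∈ A ∨ v ∈ A
  deg : ∀ u ∈ A, ∃ a b, (∀ v, T.Adj u v ↔ v = a ∨ v = b) ∧ s(u, a) ∈ red ∧ s(u, b) ∉ red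

/-- The trail of a half from the boundary edge `false` to the boundary edge `true`. -/
structure Trail {H : SimpleGraph V} {red : Set (Sym2 V)} {A : Set V} {T : SimpleGraph V}
    (hf : Half H red A T) where
  l : ℕ
  d : ℕ → V
  pd : V → ℕ
  hl : 2 ≤ l
  d0 : d 0 = hf.o false
  d1 : d 1 = hf.i false
  dl1 : d (l - 1) = hf.i true
  dl : d l = hf.o true
  adj : ∀ i < l, T.Adj (d i) (d (i + 1))
  inA : ∀ i, 0 < i → i < l → d i ∈ A
  hpd : ∀ i, 0 < i → i < l → pd (d i) = i
  ne2 : ∀ i, 0 < i → i < l → d (i - 1) ≠ d (i + 1)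

/-- `v` is an interior vertex of the trail -/
def Trail.on {H : SimpleGraph V} {red : Set (Sym2 V)} {A : Set V} {T : SimpleGraph V}
    {hf : Half H red A T} (t : Trail hf) (v : V) : Prop :=
  0 < t.pd v ∧ t.pd v < t.l ∧ t.d (t.pd v) = v

/-- The two halves at a minimal small cut, with the properties of the outside. -/
structure TwoHalf (H : SimpleGraph V) (red : Set (Sym2 V)) (A : Set V) where
  T : Bool → SimpleGraph V
  hf : ∀ j, Half H red A (T j)
  cover : ∀ u v, H.Adj u v → (u ∈ A ∨ v ∈ A) → (T false).Adj u v ∨ (T true).Adj u v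
  disj : ∀ u v, (T false).Adj u v → ¬ (T true).Adj u v
  cardA : 4 ≤ A.ncard
  cardB : 2 ≤ Aᶜ.ncard
  min : ∀ X ⊆ A, X ≠ A → ¬ SmallCut H X
  /-- the outside is connected: every set of outside vertices closed under adjacency inside the
  outside is empty or everything -/
  conB : ∀ C : Set V, (∃ v ∈ C, v ∉ A) → (∀ u ∈ C, ∀ v, u ∉ A → v ∉ A → H.Adj u v → v ∈ C) →
    ∀ v, v ∉ A → v ∈ C
  /-- exceptional vertex inside `A` -/
  b0 : ∀ κ : Sym2 V → Prop, (∀ v, v ∉ A → AgreeOn H.edgeSet κ v) → ConstOn (EB H A) κ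
  /-- all four boundary edges equal -/
  bL : ∀ w κ, w ∉ A → AgB H A w κ →
    (κ s((hf false).o false, (hf false).i false) ↔ κ s((hf false).o true, (hf false).i true)) →
    (κ s((hf true).o false, (hf true).i false) ↔ κ s((hf true).o true, (hf true).i true)) →
    (κ s((hf false).o false, (hf false).i false) ↔ κ s((hf true).o false, (hf true).i false)) →
    ConstOn (EB H A) κ
  /-- the pairing by the trails is harmless -/
  bP : ∀ w κ, w ∉ A → AgB H A w κ →
    (κ s((hf false).o false, (hf false).i false) ↔ κ s((hf false).o true, (hf false).i true)) →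
    (κ s((hf true).o false, (hf true).i false) ↔ κ s((hf true).o true, (hf true).i true)) →
    ConstOn (EB H A) κ
  /-- one of the two other pairings is harmless -/
  bZO : (∀ w κ, w ∉ A → AgB H A w κ →
      (κ s((hf false).o false, (hf false).i false) ↔ κ s((hf true).o false, (hf true).i false)) →
      (κ s((hf false).o true, (hf false).i true) ↔ κ s((hf true).o true, (hf true).i true)) →
      ConstOn (EB H A) κ) ∨
    (∀ w κ, w ∉ A → AgB H A w κ →
      (κ s((hf false).o false, (hf false).i false) ↔ κ s((hf true).o true, (hf true).i true)) →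
      (κ s((hf false).o true, (hf false).i true) ↔ κ s((hf true).o false, (hf true).i false)) →
      ConstOn (EB H A) κ)

end Pool.Agent.GD
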