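import Pool.Agent.GD.NDefs
import Pool.Agent.GD.RB

set_option autoImplicit false

/-! Module NE: the trail of a half.

Direct recursion (next vertex = the other T-neighbour): the vertices are different as long as they
lie in A, and the first vertex outside A is o true. -/

namespace Pool.Agent.GD

variable {V : Type} {H : SimpleGraph V} {red : Set (Sym2 V)} {A : Set V} {T : SimpleGraph V}

/-- the sequence with a given next vertex function -/
def NE_seq (nx : V → V → V) (p u : V) : ℕ → V
  | 0 => p
  | 1 => u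
  | (n + 2) => nx (NE_seq nx p u n) (NE_seq nx p u (n + 1))

theorem exists_trail [Finite V] (hf : Half H red A T) : Nonempty (Trail hf) := by
  classical
  -- the next vertex
  have hnx : ∀ p u, ∃ w, u ∈ A → T.Adj p u →
      (T.Adj u w ∧ w ≠ p ∧ ∀ v, T.Adj u v → v = p ∨ v = w) := by
    intro p u
    by_cases h : u ∈ A ∧ T.Adj p u
    · obtain ⟨a, b, h1, h2, h3⟩ := hf.deg u h.1
      have hab : a ≠ b := fun e => h3 (e ▸ h2)
      rcases (h1 p).1 h.2.symm with hp | hp
      · subst hp
        exact ⟨b, fun _ _ => ⟨(h1 b).2 (Or.inr rfl), hab.symm, fun v hv => (h1 v).1 hv⟩⟩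
      · subst hp
        exact ⟨a, fun _ _ => ⟨(h1 a).2 (Or.inl rfl), hab, fun v hv => ((h1 v).1 hv).symm⟩⟩
    · exact ⟨u, fun h1 h2 => absurd ⟨h1, h2⟩ h⟩
  choose nx hnx using hnx
  obtain ⟨d, hd0, hd1, hd2⟩ : ∃ d : ℕ → V, d 0 = hf.o false ∧ d 1 = hf.i false ∧
      ∀ n, d (n + 2) = nx (d n) (d (n + 1)) :=
    ⟨NE_seq nx (hf.o false) (hf.i false), rfl, rfl, fun n => rfl⟩
  have hadj : ∀ n, (∀ j, 1 ≤ j → j ≤ n → d j ∈ A) → T.Adj (d n) (d (n + 1)) := by
    intro n
    induction n with
    | zero =>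
      intro _
      rw [hd0, Nat.zero_add, hd1]
      exact hf.adj false
    | succ n ih =>
      intro h
      have h1 := ih (fun j hj hj' => h j hj (by omega))
      have h2 := (hnx (d n) (d (n + 1)) (h (n + 1) (by omega) le_rfl) h1).1
      rw [← hd2] at h2
      exact h2
  have hne2 : ∀ n, (∀ j, 1 ≤ j → j ≤ n + 1 → d j ∈ A) → d (n + 2) ≠ d n := by
    intro n h
    have h1 := hadj n (fun j hj hj' => h j hj (by omega))
    have h2 := (hnx (d n) (d (n + 1)) (h (n + 1) (by omega) le_rfl) h1).2.1
    rw [← hd2] at h2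
    exact h2
  have hnb : ∀ n, (∀ j, 1 ≤ j → j ≤ n + 1 → d j ∈ A) → ∀ v, T.Adj (d (n + 1)) v →
      v = d n ∨ v = d (n + 2) := by
    intro n h
    have h1 := hadj n (fun j hj hj' => h j hj (by omega))
    have h2 := (hnx (d n) (d (n + 1)) (h (n + 1) (by omega) le_rfl) h1).2.2
    rw [← hd2] at h2
    exact h2
  have hinj : ∀ n, (∀ j, 1 ≤ j → j ≤ n → d j ∈ A) →
      ∀ j i, 1 ≤ i → i < j → j ≤ n → d i ≠ d j := by
    intro n hA j
    induction j using Nat.strong_induction_on with
    | _ j ih =>
      intro i hi hij hjn heq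
      obtain ⟨j', rfl⟩ : ∃ j', j = j' + 1 := ⟨j - 1, by omega⟩
      obtain ⟨i', rfl⟩ : ∃ i', i = i' + 1 := ⟨i - 1, by omega⟩
      have h1 := hadj j' (fun m hm hm' => hA m hm (by omega))
      rw [← heq] at h1
      rcases Nat.lt_or_ge (i' + 1) j' with h5 | h5
      · rcases hnb i' (fun m hm hm' => hA m hm (by omega)) _ h1.symm with h2 | h2
        · rcases Nat.eq_zero_or_pos i' with h3 | h3
          · subst h3
            have h4 := hA j' (by omega) (by omega)
            rw [h2, hd0] at h4
            exact hf.ho false h4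
          · exact ih j' (by omega) i' h3 (by omega) (by omega) h2.symm
        · rcases Nat.lt_or_ge (i' + 2) j' with h6 | h6
          · exact ih j' (by omega) (i' + 2) (by omega) h6 (by omega) h2.symm
          · have h7 : j' + 1 = (i' + 1) + 2 := by omega
            rw [h7] at heq
            exact hne2 (i' + 1) (fun m hm hm' => hA m hm (by omega)) heq.symm
      · have h6 : j' = i' + 1 := by omega
        rw [h6] at h1
        exact T.irrefl h1
  have hex : ∃ j, 1 ≤ j ∧ d j ∉ A := by
    by_contra hcon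
    push Not at hcon
    have h1 : Function.Injective (fun j => d (j + 1)) := by
      intro i j hij
      rcases Nat.lt_trichotomy i j with h | h | h
      · exact absurd hij (hinj (j + 1) (fun m hm _ => hcon m hm) (j + 1) (i + 1) (by omega)
          (by omega) le_rfl)
      · exact h
      · exact absurd hij.symm (hinj (i + 1) (fun m hm _ => hcon m hm) (i + 1) (j + 1) (by omega)
          (by omega) le_rfl)
    have := Finite.of_injective _ h1
    exact not_finite ℕ
  obtain ⟨hl1, hlA⟩ := Nat.find_spec hex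
  have hmin : ∀ j, 1 ≤ j → j < Nat.find hex → d j ∈ A := by
    intro j hj hj'
    by_contra h
    exact Nat.find_min hex hj' ⟨hj, h⟩
  generalize Nat.find hex = l at hl1 hlA hmin
  have hl2 : 2 ≤ l := by
    rcases Nat.lt_or_ge l 2 with h | h
    · exfalso
      have h1 : l = 1 := by omega
      rw [h1, hd1] at hlA
      exact hlA (hf.hi false)
    · exact h
  obtain ⟨m, rfl⟩ : ∃ m, l = m + 2 := ⟨l - 2, by omega⟩
  have hA1 : ∀ j, 1 ≤ j → j ≤ m + 1 → d j ∈ A := fun j hj hj' => hmin j hj (by omega)
  obtain ⟨b, hb1, hb2⟩ := hf.out _ _ (hadj (m + 1) hA1) (hA1 (m + 1) (by omega) le_rfl) hlA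
  have hb : b = true := by
    cases b with
    | true => rfl
    | false =>
      exfalso
      rcases Nat.eq_zero_or_pos m with h | h
      · subst h
        apply hne2 0 hA1
        rw [hd0]
        exact hb2
      · apply hinj (m + 1) hA1 (m + 1) 1 le_rfl (by omega) le_rfl
        rw [hd1, hb1]
  subst hb
  refine ⟨{
    l := m + 2
    d := d
    pd := fun v => if h : ∃ i, 0 < i ∧ i < m + 2 ∧ d i = v then h.choose else 0
    hl := by omega
    d0 := hd0
    d1 := hd1
    dl1 := hb1
    dl := hb2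
    adj := fun i hi => hadj i (fun j hj hj' => hA1 j hj (by omega))
    inA := fun i hi hi' => hmin i hi hi'
    hpd := ?_
    ne2 := ?_ }⟩
  · intro i hi hi'
    have h : ∃ j, 0 < j ∧ j < m + 2 ∧ d j = d i := ⟨i, hi, hi', rfl⟩
    change (if h : ∃ j, 0 < j ∧ j < m + 2 ∧ d j = d i then h.choose else 0) = i
    rw [dif_pos h]
    obtain ⟨h1, h2, h3⟩ := h.choose_spec
    rcases Nat.lt_trichotomy h.choose i with h4 | h4 | h4
    · exact absurd h3 (hinj (m + 1) hA1 i _ h1 h4 (by omega))
    · exact h4
    · exact absurd h3.symm (hinj (m + 1) hA1 _ i hi h4 (by omega))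
  · intro i hi hi'
    obtain ⟨i', rfl⟩ : ∃ i', i = i' + 1 := ⟨i - 1, by omega⟩
    exact (hne2 i' (fun j hj hj' => hA1 j hj (by omega))).symm

end Pool.Agent.GD
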