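import Pool.Agent.MP_1fb45e.Uncross

set_option autoImplicit false

/-! Module RA: the abstract ring lemma (PROOF.md section 5). -/

namespace Pool.Agent.GD

open Pool.Agent.MP_1fb45e

/-- `(w, K)` is a separation of the classes different from `D` -/
def SepI {ι W : Type} (N : Set ι) (inc : W → ι → Prop) (D : ι) (w : W) (K : Set ι) : Prop :=
  K ⊆ N ∧ D ∉ K ∧ K.Nonempty ∧ (∃ E ∈ N, E ∉ K ∧ E ≠ D) ∧
  ∀ v, ∀ A ∈ K, ∀ B ∈ N, B ∉ K → B ≠ D → inc v A → inc v B → v = w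

/-- hypotheses of the ring lemma -/
structure RingHyp {ι W : Type} (N : Set ι) (inc : W → ι → Prop) (lab : ι → Bool) (c1 c2 : ι)
    (x : W) : Prop where
  two : ∀ v, ∀ A ∈ N, ∀ B ∈ N, ∀ C ∈ N, inc v A → inc v B → inc v C → A = B ∨ A = C ∨ B = C
  ex2 : ∀ v, ∀ A ∈ N, inc v A → ∃ B ∈ N, B ≠ A ∧ inc v B
  lab_ne : ∀ v, ∀ A ∈ N, ∀ B ∈ N, inc v A → inc v B → A ≠ B → lab A ≠ lab B
  three : ∀ (Y : Set ι) (e e' : W), (∃ D ∈ N, D ∈ Y) → (∃ D ∈ N, D ∉ Y) →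
      ∃ v, v ≠ e ∧ v ≠ e' ∧ ∃ D₁ ∈ N, ∃ D₂ ∈ N, inc v D₁ ∧ inc v D₂ ∧ D₁ ∈ Y ∧ D₂ ∉ Y
  h1 : c1 ∈ N
  h2 : c2 ∈ N
  ne : c1 ≠ c2
  x1 : inc x c1
  x2 : inc x c2

lemma SepI.compl {ι W : Type} {N : Set ι} {inc : W → ι → Prop} {D : ι} {w : W} {K : Set ι}
    (h : SepI N inc D w K) : SepI N inc D w {B | B ∈ N ∧ B ∉ K ∧ B ≠ D} := by
  obtain ⟨hN, hD, ⟨A, hA⟩, ⟨E, hE, hEK, hED⟩, hs⟩ := h
  refine ⟨fun B hB => hB.1, fun hB => hB.2.2 rfl, ⟨E, hE, hEK, hED⟩,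
    ⟨A, hN hA, fun hB => hB.2.1 hA, fun h => hD (h ▸ hA)⟩, ?_⟩
  intro v A' hA' B hB hBK hBD h1 h2
  have hBK' : B ∈ K := by
    by_contra hcon
    exact hBK ⟨hB, hcon, hBD⟩
  exact hs v B hBK' A' hA'.1 hA'.2.1 hA'.2.2 h2 h1

/-- (A) of section 5 -/
lemma sep_sub {ι W : Type} [Finite ι] {N : Set ι} {inc : W → ι → Prop} {lab : ι → Bool}
    {c1 c2 : ι} {x : W} (h : RingHyp N inc lab c1 c2 x) {D1 : ι} (hD1 : D1 ∈ N)
    (hg : ∀ w K, SepI N inc D1 w K → (c1 ∈ K ↔ c2 ∉ K)) {K1 : Set ι}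
    (hK1 : SepI N inc D1 x K1) (h11 : c1 ∈ K1) (h12 : c2 ∉ K1) {D' : ι} (hD' : D' ∈ K1)
    {w : W} {K : Set ι} (hK : SepI N inc D' w K) (h2K : c2 ∉ K) : K ⊆ K1 := by
  obtain ⟨hK1N, hD1K1, -, ⟨E, hEN, hEK1, hED1⟩, hs1⟩ := hK1
  obtain ⟨hKN, hD'K, hKne, hKc, hs⟩ := hK
  have hc1D1 : c1 ≠ D1 := fun hh => hD1K1 (hh ▸ h11)
  -- the part of `K` outside `K1` and `D1` is empty
  have hL : ∀ B ∈ K, B ∉ K1 → B = D1 := by
    intro B hB hBK1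
    by_contra hBD1
    have hsep : SepI N inc D1 w {A | A ∈ K ∧ A ∉ K1 ∧ A ≠ D1} := by
      refine ⟨fun A hA => hKN hA.1, fun hA => hA.2.2 rfl, ⟨B, hB, hBK1, hBD1⟩,
        ⟨c1, h.h1, fun hA => hA.2.1 h11, hc1D1⟩, ?_⟩
      intro v A hA B' hB' hB'L hB'D1 hvA hvB'
      by_cases hB'K1 : B' ∈ K1
      · exfalso
        have hvx : v = x := hs1 v B' hB'K1 A (hKN hA.1) hA.2.1 hA.2.2 hvB' hvA
        subst hvx
        rcases h.two v A (hKN hA.1) c1 h.h1 c2 h.h2 hvA h.x1 h.x2 with h3 | h3 | h3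
        · exact hA.2.1 (h3 ▸ h11)
        · exact h2K (h3 ▸ hA.1)
        · exact h.ne h3
      · have hB'K : B' ∉ K := fun hcon => hB'L ⟨hcon, hB'K1, hB'D1⟩
        exact hs v A hA.1 B' hB' hB'K (fun hh => hB'K1 (hh ▸ hD')) hvA hvB'
    have h3 := hg w _ hsep
    have h4 : c1 ∈ {A | A ∈ K ∧ A ∉ K1 ∧ A ≠ D1} := h3.2 (fun hh => h2K hh.1)
    exact h4.2.1 h11
  intro B hB
  by_contra hBK1
  have hBD1 := hL B hB hBK1
  subst hBD1
  -- now everything outside `K1` and `D1` is joined to the rest by `x` and `w` only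
  obtain ⟨v, hvx, hvw, A, hA, C, hC, hvA, hvC, hAY, hCY⟩ :=
    h.three {A | A ∈ N ∧ A ∉ K1 ∧ A ≠ B} x w ⟨E, hEN, hEN, hEK1, hED1⟩
      ⟨c1, h.h1, fun hh => hh.2.1 h11⟩
  obtain ⟨-, hAK1, hAB⟩ := hAY
  by_cases hCK1 : C ∈ K1
  · exact hvx (hs1 v C hCK1 A hA hAK1 hAB hvC hvA)
  · have hCB : C = B := by
      by_contra hcon
      exact hCY ⟨hC, hCK1, hcon⟩
    subst hCB
    have hAK : A ∉ K := fun hcon => hAB (hL A hcon hAK1)
    exact hvw (hs v C hB A hA hAK (fun hh => hAK1 (hh ▸ hD')) hvC hvA)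

/-- `uncross` with two merged sets of classes -/
lemma merge_uncross {ι W : Type} [Finite ι] {N : Set ι} {inc : W → ι → Prop} {lab : ι → Bool}
    {c1 c2 : ι} {x : W} (h : RingHyp N inc lab c1 c2 x) (P1 P2 : Set ι)
    (hP1 : c1 ∈ P1) (hP2 : c2 ∈ P2) (hdis : ∀ B ∈ P1, B ∉ P2)
    (hne : ∃ D ∈ N, D ∉ P1 ∧ D ∉ P2) :
    ∃ D ∈ N, D ∉ P1 ∧ D ∉ P2 ∧
      ∀ w K, SepI N inc D w K → (∀ B ∈ K, B ∉ P1 ∧ B ∉ P2) → False := by
  classical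
  by_contra hcon
  push Not at hcon
  let π : ι → ι := fun B => if B ∈ P1 then c1 else if B ∈ P2 then c2 else B
  have hπ1 : ∀ B ∈ P1, π B = c1 := fun B hB => if_pos hB
  have hπ2 : ∀ B ∈ P2, π B = c2 := fun B hB => by
    have hB1 : B ∉ P1 := fun h1 => hdis B h1 hB
    show (if B ∈ P1 then c1 else if B ∈ P2 then c2 else B) = c2
    rw [if_neg hB1, if_pos hB]
  have hπ3 : ∀ B, B ∉ P1 → B ∉ P2 → π B = B := fun B hB1 hB2 => by
    show (if B ∈ P1 then c1 else if B ∈ P2 then c2 else B) = B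
    rw [if_neg hB1, if_neg hB2]
  have hπ0 : ∀ B, π B ≠ c1 → π B ≠ c2 → π B = B ∧ B ∉ P1 ∧ B ∉ P2 := by
    intro B hB1 hB2
    have h1 : B ∉ P1 := fun hh => hB1 (hπ1 B hh)
    have h2 : B ∉ P2 := fun hh => hB2 (hπ2 B hh)
    exact ⟨hπ3 B h1 h2, h1, h2⟩
  have hπc : ∀ B, B ∉ P1 → B ∉ P2 → B ≠ c1 ∧ B ≠ c2 := fun B h1 h2 =>
    ⟨fun hh => h1 (hh ▸ hP1), fun hh => h2 (hh ▸ hP2)⟩
  refine uncross (π '' N) (fun v A => ∃ B ∈ N, π B = A ∧ inc v B) {c1, c2} ?_ ?_ ?_ ?_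
  · intro B hB
    rcases hB with hB | hB
    · rw [hB]
      exact ⟨c1, h.h1, hπ1 c1 hP1⟩
    · rw [Set.mem_singleton_iff.1 hB]
      exact ⟨c2, h.h2, hπ2 c2 hP2⟩
  · intro Y e e' h1 h2
    obtain ⟨_, ⟨D, hD, rfl⟩, hDY⟩ := h1
    obtain ⟨_, ⟨E, hE, rfl⟩, hEY⟩ := h2
    obtain ⟨v, hve, hve', A, hA, B, hB, hvA, hvB, hAY, hBY⟩ :=
      h.three {A | π A ∈ Y} e e' ⟨D, hD, hDY⟩ ⟨E, hE, hEY⟩
    exact ⟨v, hve, hve', π A, ⟨A, hA, rfl⟩, π B, ⟨B, hB, rfl⟩, ⟨A, hA, rfl, hvA⟩,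
      ⟨B, hB, rfl, hvB⟩, hAY, hBY⟩
  · obtain ⟨D, hD, hD1, hD2⟩ := hne
    obtain ⟨h3, h4⟩ := hπc D hD1 hD2
    refine ⟨D, ⟨D, hD, hπ3 D hD1 hD2⟩, fun hh => ?_⟩
    rcases hh with hh | hh
    · exact h3 hh
    · exact h4 (Set.mem_singleton_iff.1 hh)
  · rintro _ ⟨D, hD, rfl⟩ hDX
    have hDc1 : π D ≠ c1 := fun hh => hDX (Or.inl hh)
    have hDc2 : π D ≠ c2 := fun hh => hDX (Or.inr hh)
    obtain ⟨hπD, hD1, hD2⟩ := hπ0 D hDc1 hDc2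
    rw [hπD]
    obtain ⟨w, K, ⟨hKN, hDK, hKne, ⟨E, hE, hEK, hED⟩, hs⟩, hKP, -⟩ := hcon D hD hD1 hD2
    have hKπ : ∀ B ∈ K, π B = B := fun B hB => hπ3 B (hKP B hB).1 (hKP B hB).2
    have hmem : ∀ B, π B ∈ K → π B = B := by
      intro B hB
      have h5 := hKP _ hB
      obtain ⟨h6, h7⟩ := hπc _ h5.1 h5.2
      exact (hπ0 B h6 h7).1
    refine ⟨w, K, fun B hB => ⟨B, hKN hB, hKπ B hB⟩, hKne, hDK, ?_, ?_, ?_⟩
    · intro B hB hBX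
      obtain ⟨h6, h7⟩ := hπc _ (hKP B hB).1 (hKP B hB).2
      rcases hBX with hh | hh
      · exact h6 hh
      · exact h7 (Set.mem_singleton_iff.1 hh)
    · refine ⟨π E, ⟨E, hE, rfl⟩, fun hh => ?_, fun hh => ?_⟩
      · have h5 := hmem E hh
        rw [h5] at hh
        exact hEK hh
      · have h5 : π E ≠ c1 := by
          rw [hh, ← hπD]
          exact hDc1
        have h6 : π E ≠ c2 := by
          rw [hh, ← hπD]
          exact hDc2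
        exact hED ((hπ0 E h5 h6).1.symm.trans hh)
    · rintro v A hA _ ⟨B', hB', rfl⟩ hBK hBD ⟨A', hA', hA'A, hvA'⟩ ⟨B, hB, hBB', hvB⟩
      have hAA : A' = A := by
        have h5 : π A' ∈ K := by
          rw [hA'A]
          exact hA
        have h6 := hmem A' h5
        exact h6.symm.trans hA'A
      subst hAA
      have hBnK : B ∉ K := by
        intro hBK'
        have h5 := hKπ B hBK'
        rw [← hBB', h5] at hBK
        exact hBK hBK'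
      have hBnD : B ≠ D := by
        rintro rfl
        exact hBD (hBB'.symm.trans hπD)
      exact hs v A' hA B hB hBnK hBnD hvA' hvB

lemma exists_min_ncard {ι α : Type} (Q : α → Set ι → Prop) (h : ∃ D K, Q D K) :
    ∃ D K, Q D K ∧ ∀ D' K', Q D' K' → K.ncard ≤ K'.ncard := by
  classical
  have hex : ∃ k, ∃ D K, Q D K ∧ K.ncard = k := by
    obtain ⟨D, K, hQ⟩ := h
    exact ⟨_, D, K, hQ, rfl⟩
  obtain ⟨D, K, hQ, hk⟩ := Nat.find_spec hex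
  refine ⟨D, K, hQ, fun D' K' hQ' => ?_⟩
  rw [hk]
  exact Nat.find_min' hex ⟨D', K', hQ', rfl⟩

/-- all separations separate `c1` from `c2` -/
def DDp {ι W : Type} (N : Set ι) (inc : W → ι → Prop) (c1 c2 D : ι) : Prop :=
  D ∈ N ∧ D ≠ c1 ∧ D ≠ c2 ∧ ∀ w K, SepI N inc D w K → (c1 ∈ K ↔ c2 ∉ K)

lemma toDD {ι W : Type} {N : Set ι} {inc : W → ι → Prop} {c1 c2 D : ι} (h1 : c1 ∈ N)
    (h2 : c2 ∈ N) (hD : D ∈ N) (hD1 : D ≠ c1) (hD2 : D ≠ c2)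
    (h : ∀ w K, SepI N inc D w K → c1 ∉ K → c2 ∉ K → False) : DDp N inc c1 c2 D := by
  refine ⟨hD, hD1, hD2, fun w K hK => ⟨fun hc1 hc2 => ?_, fun hc2 => ?_⟩⟩
  · exact h w _ hK.compl (fun hh => hh.2.1 hc1) (fun hh => hh.2.1 hc2)
  · by_contra hc1
    exact h w K hK hc1 hc2

lemma DDp.exists_sep {ι W : Type} {N : Set ι} {inc : W → ι → Prop} {lab : ι → Bool}
    {c1 c2 : ι} {x : W} (h : RingHyp N inc lab c1 c2 x)
    (hbad : ∀ D ∈ N, D ≠ c1 → D ≠ c2 → ∃ w K, SepI N inc D w K) {D : ι}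
    (hD : DDp N inc c1 c2 D) : ∃ K, SepI N inc D x K ∧ c1 ∈ K ∧ c2 ∉ K := by
  obtain ⟨w, K, hK⟩ := hbad D hD.1 hD.2.1 hD.2.2.1
  have key : ∀ K, SepI N inc D w K → c1 ∈ K → ∃ K, SepI N inc D x K ∧ c1 ∈ K ∧ c2 ∉ K := by
    intro K hK hc1
    have hc2 : c2 ∉ K := (hD.2.2.2 w K hK).1 hc1
    have hxw : x = w := hK.2.2.2.2 x c1 hc1 c2 h.h2 hc2 (Ne.symm hD.2.2.1) h.x1 h.x2
    subst hxw
    exact ⟨K, hK, hc1, hc2⟩
  by_cases hc1 : c1 ∈ K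
  · exact key K hK hc1
  · exact key _ hK.compl ⟨h.h1, hc1, Ne.symm hD.2.1⟩

/-- the ring lemma -/
theorem ring_lemma {ι W : Type} [Finite ι] {N : Set ι} {inc : W → ι → Prop} {lab : ι → Bool}
    {c1 c2 : ι} {x : W} (h : RingHyp N inc lab c1 c2 x) (hex : ∃ D ∈ N, D ≠ c1 ∧ D ≠ c2)
    (hbad : ∀ D ∈ N, D ≠ c1 → D ≠ c2 → ∃ w K, SepI N inc D w K) :
    ∃ D1 ∈ N, ∃ D2 ∈ N, D1 ≠ c1 ∧ D1 ≠ c2 ∧ D2 ≠ c1 ∧ D2 ≠ c2 ∧ D1 ≠ D2 ∧
      (∀ v, inc v c1 → v = x ∨ inc v D1) ∧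
      (∀ v, inc v D1 → inc v c1 ∨ inc v D2) ∧
      (∀ w, ∀ K ⊆ N, c1 ∉ K → D1 ∉ K → D2 ∉ K → K.Nonempty →
        (∃ E ∈ N, E ∉ K ∧ E ≠ c1 ∧ E ≠ D1 ∧ E ≠ D2) →
        ∃ v, v ≠ w ∧ ∃ A ∈ K, ∃ B ∈ N, B ∉ K ∧ B ≠ c1 ∧ B ≠ D1 ∧ B ≠ D2 ∧ inc v A ∧ inc v B) := by
  classical
  -- step 1: a goodish class
  have hDD : ∃ D, DDp N inc c1 c2 D := by
    obtain ⟨D, hD, hDc1, hDc2⟩ := hex
    obtain ⟨D, hD, hD1, hD2, hD3⟩ := merge_uncross h {c1} {c2} rfl rfl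
      (fun B hB hB' => h.ne (by
        rw [← Set.mem_singleton_iff.1 hB, ← Set.mem_singleton_iff.1 hB']))
      ⟨D, hD, hDc1, hDc2⟩
    refine ⟨D, toDD h.h1 h.h2 hD hD1 hD2 (fun w K hK hc1 hc2 => ?_)⟩
    exact hD3 w K hK (fun B hB => ⟨fun hh => hc1 (Set.mem_singleton_iff.1 hh ▸ hB),
      fun hh => hc2 (Set.mem_singleton_iff.1 hh ▸ hB)⟩)
  -- step 2: minimal choice
  obtain ⟨D1, K1, ⟨hDD1, hK1, h11, h12⟩, hmin1⟩ := exists_min_ncard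
    (fun D K => DDp N inc c1 c2 D ∧ SepI N inc D x K ∧ c1 ∈ K ∧ c2 ∉ K) (by
      obtain ⟨D, hD⟩ := hDD
      obtain ⟨K, hK⟩ := hD.exists_sep h hbad
      exact ⟨D, K, hD, hK⟩)
  have hD1N := hDD1.1
  have hD1c1 := hDD1.2.1
  have hD1c2 := hDD1.2.2.1
  have hK1c : ∀ B ∈ K1, B = c1 := by
    by_contra hcon
    push Not at hcon
    obtain ⟨D0, hD0, hD0c⟩ := hcon
    obtain ⟨D', hD', hD'1, hD'2, hD'3⟩ := merge_uncross h {c1} {B | B ∉ K1} rfl h12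
      (fun B hB hB' => hB' (by rw [Set.mem_singleton_iff.1 hB]; exact h11))
      ⟨D0, hK1.1 hD0, hD0c, fun hh => hh hD0⟩
    have hD'K1 : D' ∈ K1 := by
      by_contra hh
      exact hD'2 hh
    have hD'c1 : D' ≠ c1 := hD'1
    have hD'c2 : D' ≠ c2 := fun hh => h12 (hh ▸ hD'K1)
    have hDD' : DDp N inc c1 c2 D' := by
      refine toDD h.h1 h.h2 hD' hD'c1 hD'c2 (fun w K hK hc1 hc2 => ?_)
      have hsub := sep_sub h hD1N hDD1.2.2.2 hK1 h11 h12 hD'K1 hK hc2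
      exact hD'3 w K hK (fun B hB => ⟨fun hh => hc1 (Set.mem_singleton_iff.1 hh ▸ hB),
        fun hh => hh (hsub hB)⟩)
    obtain ⟨K', hK', h1', h2'⟩ := hDD'.exists_sep h hbad
    have hsub := sep_sub h hD1N hDD1.2.2.2 hK1 h11 h12 hD'K1 hK' h2'
    have hlt : K'.ncard < K1.ncard :=
      Set.ncard_lt_ncard ⟨hsub, fun hh => hK'.2.1 (hh hD'K1)⟩
    exact absurd (hmin1 D' K' ⟨hDD', hK', h1', h2'⟩) (not_le.2 hlt)
  have hon1 : ∀ v, inc v c1 → v = x ∨ inc v D1 := by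
    intro v hv
    obtain ⟨B, hB, hBc, hvB⟩ := h.ex2 v c1 h.h1 hv
    by_cases hBD : B = D1
    · right
      rw [← hBD]
      exact hvB
    · left
      exact hK1.2.2.2.2 v c1 h11 B hB (fun hh => hBc (hK1c B hh)) hBD hv hvB
  -- `c1` and `D1` have a common vertex different from any given one
  have hcom : ∀ w, ∃ v, v ≠ w ∧ v ≠ x ∧ inc v c1 ∧ inc v D1 := by
    intro w
    obtain ⟨v, hvx, hvw, A, hA, B, hB, hvA, hvB, hAY, hBY⟩ :=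
      h.three {c1} x w ⟨c1, h.h1, rfl⟩ ⟨c2, h.h2, fun hh => h.ne (Set.mem_singleton_iff.1 hh).symm⟩
    rw [Set.mem_singleton_iff.1 hAY] at hvA
    exact ⟨v, hvw, hvx, hvA, (hon1 v hvA).resolve_left hvx⟩
  have hxD1 : ¬ inc x D1 := by
    intro hh
    rcases h.two x c1 h.h1 c2 h.h2 D1 hD1N h.x1 h.x2 hh with h3 | h3 | h3
    · exact h.ne h3
    · exact hD1c1 h3.symm
    · exact hD1c2 h3.symm
  have hnsep : ∀ D w K, SepI N inc D w K → D ≠ c1 → D ≠ D1 → (c1 ∈ K ↔ D1 ∈ K) := by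
    intro D w K hK hDc1 hDD1
    obtain ⟨v, hvw, hvx, hv1, hvD⟩ := hcom w
    constructor
    · intro hc1
      by_contra hD1K
      exact hvw (hK.2.2.2.2 v c1 hc1 D1 hD1N hD1K (Ne.symm hDD1) hv1 hvD)
    · intro hD1K
      by_contra hc1
      exact hvw (hK.2.2.2.2 v D1 hD1K c1 h.h1 hc1 (Ne.symm hDc1) hvD hv1)
  -- step 3: a class outside `c1, D1, c2`
  have hE : ∃ E ∈ N, E ≠ c1 ∧ E ≠ D1 ∧ E ≠ c2 := by
    obtain ⟨v0, -, -, hv01, hv0D⟩ := hcom x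
    have hl1 : lab c1 ≠ lab D1 := h.lab_ne v0 c1 h.h1 D1 hD1N hv01 hv0D (Ne.symm hD1c1)
    have hl2 : lab c1 ≠ lab c2 := h.lab_ne x c1 h.h1 c2 h.h2 h.x1 h.x2 h.ne
    obtain ⟨v, hvx, -, A, hA, B, hB, hvA, hvB, hAY, hBY⟩ :=
      h.three {c1, D1} x x ⟨c1, h.h1, Or.inl rfl⟩ ⟨c2, h.h2, fun hh => by
        rcases hh with hh | hh
        · exact h.ne hh.symm
        · exact hD1c2 (Set.mem_singleton_iff.1 hh).symm⟩
    have hBc1 : B ≠ c1 := fun hh => hBY (Or.inl hh)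
    have hBD1 : B ≠ D1 := fun hh => hBY (Or.inr hh)
    have hvD1 : inc v D1 := by
      rcases hAY with hh | hh
      · rw [hh] at hvA
        exact (hon1 v hvA).resolve_left hvx
      · rw [Set.mem_singleton_iff.1 hh] at hvA
        exact hvA
    have hl3 : lab D1 ≠ lab B := h.lab_ne v D1 hD1N B hB hvD1 hvB (Ne.symm hBD1)
    refine ⟨B, hB, hBc1, hBD1, ?_⟩
    rintro rfl
    revert hl1 hl2 hl3
    generalize lab c1 = p
    generalize lab D1 = q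
    generalize lab B = s
    cases p <;> cases q <;> cases s <;> simp
  -- step 4: goodish classes different from `D1`
  have hDD2 : ∃ D, DDp N inc c1 c2 D ∧ D ≠ D1 := by
    obtain ⟨E, hEN, hE1, hE2, hE3⟩ := hE
    obtain ⟨D, hD, hD1, hD2, hD3⟩ := merge_uncross h {c1, D1} {c2} (Or.inl rfl) rfl
      (fun B hB hB' => by
        rcases hB with hB | hB
        · exact h.ne (hB.symm.trans (Set.mem_singleton_iff.1 hB'))
        · exact hD1c2 ((Set.mem_singleton_iff.1 hB).symm.trans (Set.mem_singleton_iff.1 hB')))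
      ⟨E, hEN, fun hh => by
        rcases hh with hh | hh
        · exact hE1 hh
        · exact hE2 (Set.mem_singleton_iff.1 hh), hE3⟩
    have hDc1 : D ≠ c1 := fun hh => hD1 (Or.inl hh)
    have hDD1' : D ≠ D1 := fun hh => hD1 (Or.inr hh)
    refine ⟨D, toDD h.h1 h.h2 hD hDc1 hD2 (fun w K hK hc1 hc2 => ?_), hDD1'⟩
    have hD1K : D1 ∉ K := fun hh => hc1 ((hnsep D w K hK hDc1 hDD1').2 hh)
    exact hD3 w K hK (fun B hB => ⟨fun hh => by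
      rcases hh with hh | hh
      · exact hc1 (hh ▸ hB)
      · exact hD1K (Set.mem_singleton_iff.1 hh ▸ hB),
      fun hh => hc2 (Set.mem_singleton_iff.1 hh ▸ hB)⟩)
  obtain ⟨D2, K2, ⟨⟨hDD2, hD21⟩, hK2, h21, h22⟩, hmin2⟩ := exists_min_ncard
    (fun D K => (DDp N inc c1 c2 D ∧ D ≠ D1) ∧ SepI N inc D x K ∧ c1 ∈ K ∧ c2 ∉ K) (by
      obtain ⟨D, hD, hDne⟩ := hDD2
      obtain ⟨K, hK⟩ := hD.exists_sep h hbad
      exact ⟨D, K, ⟨hD, hDne⟩, hK⟩)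
  have hD2N := hDD2.1
  have hD2c1 := hDD2.2.1
  have hD2c2 := hDD2.2.2.1
  have hD1K2 : D1 ∈ K2 := (hnsep D2 x K2 hK2 hD2c1 hD21).1 h21
  have hK2c : ∀ B ∈ K2, B = c1 ∨ B = D1 := by
    by_contra hcon
    push Not at hcon
    obtain ⟨D0, hD0, hD0c, hD0D⟩ := hcon
    obtain ⟨D', hD', hD'1, hD'2, hD'3⟩ := merge_uncross h {c1, D1} {B | B ∉ K2} (Or.inl rfl) h22
      (fun B hB hB' => hB' (by
        rcases hB with hB | hB
        · rw [hB]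
          exact h21
        · rw [Set.mem_singleton_iff.1 hB]
          exact hD1K2))
      ⟨D0, hK2.1 hD0, fun hh => by
        rcases hh with hh | hh
        · exact hD0c hh
        · exact hD0D (Set.mem_singleton_iff.1 hh), fun hh => hh hD0⟩
    have hD'K2 : D' ∈ K2 := by
      by_contra hh
      exact hD'2 hh
    have hD'c1 : D' ≠ c1 := fun hh => hD'1 (Or.inl hh)
    have hD'D1 : D' ≠ D1 := fun hh => hD'1 (Or.inr hh)
    have hD'c2 : D' ≠ c2 := fun hh => h22 (hh ▸ hD'K2)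
    have hDD' : DDp N inc c1 c2 D' := by
      refine toDD h.h1 h.h2 hD' hD'c1 hD'c2 (fun w K hK hc1 hc2 => ?_)
      have hsub := sep_sub h hD2N hDD2.2.2.2 hK2 h21 h22 hD'K2 hK hc2
      have hD1K : D1 ∉ K := fun hh => hc1 ((hnsep D' w K hK hD'c1 hD'D1).2 hh)
      exact hD'3 w K hK (fun B hB => ⟨fun hh => by
        rcases hh with hh | hh
        · exact hc1 (hh ▸ hB)
        · exact hD1K (Set.mem_singleton_iff.1 hh ▸ hB),
        fun hh => hh (hsub hB)⟩)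
    obtain ⟨K', hK', h1', h2'⟩ := hDD'.exists_sep h hbad
    have hsub := sep_sub h hD2N hDD2.2.2.2 hK2 h21 h22 hD'K2 hK' h2'
    have hlt : K'.ncard < K2.ncard :=
      Set.ncard_lt_ncard ⟨hsub, fun hh => hK'.2.1 (hh hD'K2)⟩
    exact absurd (hmin2 D' K' ⟨⟨hDD', hD'D1⟩, hK', h1', h2'⟩) (not_le.2 hlt)
  have hon2 : ∀ v, inc v D1 → inc v c1 ∨ inc v D2 := by
    intro v hv
    obtain ⟨B, hB, hBD, hvB⟩ := h.ex2 v D1 hD1N hv
    by_cases hBc1 : B = c1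
    · left
      rw [← hBc1]
      exact hvB
    · by_cases hBD2 : B = D2
      · right
        rw [← hBD2]
        exact hvB
      · exfalso
        have hvx : v = x := hK2.2.2.2.2 v D1 hD1K2 B hB (fun hh => by
          rcases hK2c B hh with h3 | h3
          · exact hBc1 h3
          · exact hBD h3) hBD2 hv hvB
        rw [hvx] at hv
        exact hxD1 hv
  refine ⟨D1, hD1N, D2, hD2N, hD1c1, hD1c2, hD2c1, hD2c2, Ne.symm hD21, hon1, hon2, ?_⟩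
  -- the last claim
  have key : ∀ w, ∀ K ⊆ N, c1 ∉ K → D1 ∉ K → D2 ∉ K → K.Nonempty → c2 ∉ K →
      (∀ v, v ≠ w → ∀ A ∈ K, ∀ B ∈ N, B ∉ K → B ≠ c1 → B ≠ D1 → B ≠ D2 → inc v A →
        ¬ inc v B) → False := by
    intro w K hKN hc1 hD1K hD2K hKne hc2 hno
    have hsep : SepI N inc D2 w K := by
      refine ⟨hKN, hD2K, hKne, ⟨c1, h.h1, hc1, Ne.symm hD2c1⟩, ?_⟩
      intro v A hA B hB hBK hBD2 hvA hvB
      have hAc1 : A ≠ c1 := fun hh => hc1 (hh ▸ hA)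
      have hAc2 : A ≠ c2 := fun hh => hc2 (hh ▸ hA)
      have hAD1 : A ≠ D1 := fun hh => hD1K (hh ▸ hA)
      have hAD2 : A ≠ D2 := fun hh => hD2K (hh ▸ hA)
      by_cases hBc1 : B = c1
      · exfalso
        rw [hBc1] at hvB
        rcases hon1 v hvB with hvx | hvD1
        · rw [hvx] at hvA
          rcases h.two x A (hKN hA) c1 h.h1 c2 h.h2 hvA h.x1 h.x2 with h3 | h3 | h3
          · exact hAc1 h3
          · exact hAc2 h3
          · exact h.ne h3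
        · rcases h.two v A (hKN hA) c1 h.h1 D1 hD1N hvA hvB hvD1 with h3 | h3 | h3
          · exact hAc1 h3
          · exact hAD1 h3
          · exact hD1c1 h3.symm
      · by_cases hBD1 : B = D1
        · exfalso
          rw [hBD1] at hvB
          rcases hon2 v hvB with hv1 | hv2
          · rcases h.two v A (hKN hA) c1 h.h1 D1 hD1N hvA hv1 hvB with h3 | h3 | h3
            · exact hAc1 h3
            · exact hAD1 h3
            · exact hD1c1 h3.symm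
          · rcases h.two v A (hKN hA) D2 hD2N D1 hD1N hvA hv2 hvB with h3 | h3 | h3
            · exact hAD2 h3
            · exact hAD1 h3
            · exact hD21 h3
        · by_contra hvw
          exact hno v hvw A hA B hB hBK hBc1 hBD1 hBD2 hvA hvB
    have h3 := hDD2.2.2.2 w K hsep
    exact hc1 (h3.2 hc2)
  intro w K hKN hc1 hD1K hD2K hKne hEx
  by_contra hcon
  push Not at hcon
  by_cases hc2 : c2 ∈ K
  · obtain ⟨E, hEN, hEK, hE1, hE2, hE3⟩ := hEx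
    refine key w {B | B ∈ N ∧ B ∉ K ∧ B ≠ c1 ∧ B ≠ D1 ∧ B ≠ D2} (fun B hB => hB.1)
      (fun hh => hh.2.2.1 rfl) (fun hh => hh.2.2.2.1 rfl) (fun hh => hh.2.2.2.2 rfl)
      ⟨E, hEN, hEK, hE1, hE2, hE3⟩ (fun hh => hh.2.1 hc2) ?_
    intro v hvw A hA B hB hBK hB1 hB2 hB3 hvA hvB
    have hBK' : B ∈ K := by
      by_contra hh
      exact hBK ⟨hB, hh, hB1, hB2, hB3⟩
    exact hcon v hvw B hBK' A hA.1 hA.2.1 hA.2.2.1 hA.2.2.2.1 hA.2.2.2.2 hvB hvA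
  · refine key w K hKN hc1 hD1K hD2K hKne hc2 ?_
    intro v hvw A hA B hB hBK hB1 hB2 hB3 hvA hvB
    exact hcon v hvw A hA B hB hBK hB1 hB2 hB3 hvA hvB

end Pool.Agent.GD
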