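import Pool.Agent.GD.RDefs

set_option autoImplicit false

/-! Module RC: existence of the labels of type ab; prime graphs are 3-connected. -/

namespace Pool.Agent.GD

open Pool.Agent.MP_1fb45e

variable {V : Type}

private lemma rc_fin3 (α β : Fin 3) (h1 : α ≠ 2) (h2 : β ≠ 2) (h : α ≠ β) :
    (decide (α = 1) ≠ decide (β = 1)) ∧ (decide (α = 0) ≠ decide (β = 0)) := by
  revert α β; decide

theorem exists_labX [Fintype V] [DecidableEq V] (H : SimpleGraph V) {x y : V} (C₁ : H.Walk x x)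
    (C₂ : H.Walk y y) (hC₁ : C₁.IsHamiltonianCycle) (hC₂ : C₂.IsHamiltonianCycle)
    (hdec : ∀ e ∈ H.edgeSet, (e ∈ C₁.edges ↔ e ∉ C₂.edges)) (hodd : Odd (Fintype.card V)) (z : V) :
    ∃ c : Sym2 V → Bool, LabX H {e | e ∈ C₁.edges} z c := by
  classical
  obtain ⟨c, hc, hcz, -⟩ := colouring_at H C₁ C₂ hC₁ hC₂ hdec z
  have hcz := hcz hodd
  refine ⟨fun e => if e ∈ C₁.edges then decide (c e = 1) else decide (c e = 0), ?_, ?_⟩
  · intro v hv w w' hw hw' hne hiff
    have h1 := hc v (Or.inl hv) w hw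
    have h2 := hc v (Or.inl hv) w' hw'
    have h3 := h1.2 w' hw' hne hiff
    have h4 := rc_fin3 _ _ h1.1 h2.1 h3
    simp only [Set.mem_ofPred_eq] at hiff
    by_cases hR : s(v, w) ∈ C₁.edges
    · rw [if_pos hR, if_pos (hiff.mp hR)]
      exact h4.1
    · rw [if_neg hR, if_neg (fun h => hR (hiff.mpr h))]
      exact h4.2
  · intro w hw
    have h0 := hcz w hw
    simp only [Set.mem_ofPred_eq]
    by_cases hR : s(z, w) ∈ C₁.edges
    · rw [if_pos hR, h0]
      simp [hR]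
    · rw [if_neg hR, h0]
      simp [hR]

private lemma rc_nb4 [Finite V] {H : SimpleGraph V} {red : Set (Sym2 V)} (h2 : TwoReg H red)
    (v : V) : {w | H.Adj v w}.ncard = 4 := by
  have : {w | H.Adj v w} = {w | H.Adj v w ∧ s(v, w) ∈ red} ∪ {w | H.Adj v w ∧ s(v, w) ∉ red} := by
    ext w
    simp only [Set.mem_ofPred_eq, Set.mem_union]
    tauto
  rw [this, Set.ncard_union_eq, h2.r2 v, h2.b2 v]
  rw [Set.disjoint_left]
  rintro w ⟨_, h⟩ ⟨_, h'⟩
  exact h' h

private lemma rc_bd_le [Finite V] {H : SimpleGraph V} {u v : V} {X : Set V}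
    (hX : ∀ x ∈ X, ∀ y, y ∉ X → H.Adj x y → y = u ∨ y = v) :
    (Bd H X).ncard ≤ ({w | H.Adj u w} ∩ X).ncard + ({w | H.Adj v w} ∩ X).ncard := by
  have hsub : Bd H X ⊆ (fun w => (w, u)) '' ({w | H.Adj u w} ∩ X) ∪
      (fun w => (w, v)) '' ({w | H.Adj v w} ∩ X) := by
    rintro ⟨a, b⟩ ⟨h1, h2, h3⟩
    rcases hX a h1 b h2 h3 with h | h
    · left
      exact ⟨a, ⟨h ▸ h3.symm, h1⟩, by rw [h]⟩
    · right
      exact ⟨a, ⟨h ▸ h3.symm, h1⟩, by rw [h]⟩
  refine (Set.ncard_le_ncard hsub (Set.toFinite _)).trans ((Set.ncard_union_le _ _).trans ?_)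
  exact Nat.add_le_add (Set.ncard_image_le (Set.toFinite _)) (Set.ncard_image_le (Set.toFinite _))

private lemma rc_two_le [Finite V] {H : SimpleGraph V} {red : Set (Sym2 V)} (h2 : TwoReg H red)
    {u v a : V} {X : Set V} (ha : a ∈ X)
    (hX : ∀ x ∈ X, ∀ y, y ∉ X → H.Adj x y → y = u ∨ y = v) : 2 ≤ X.ncard := by
  have hsub : {w | H.Adj a w} ⊆ X ∪ {u, v} := by
    intro w hw
    by_cases h : w ∈ X
    · exact Or.inl h
    · exact Or.inr (hX a ha w h hw)
  have h1 := Set.ncard_le_ncard hsub (Set.toFinite _)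
  rw [rc_nb4 h2] at h1
  have h3 : (X ∪ {u, v}).ncard ≤ X.ncard + ({u, v} : Set V).ncard := Set.ncard_union_le _ _
  have h4 : ({u, v} : Set V).ncard ≤ 2 := Set.ncard_insert_le _ _ |>.trans (by simp)
  omega

theorem noTwoCut_of_prime [Finite V] {H : SimpleGraph V} {red : Set (Sym2 V)}
    (h2 : TwoReg H red) (hp : PrimeH H) : NoTwoCut H := by
  intro u v a b hau hav hbu hbv
  by_contra hno
  set X : Set V := {y | ∃ p : H.Walk a y, u ∉ p.support ∧ v ∉ p.support} with hXdef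
  have haX : a ∈ X := ⟨SimpleGraph.Walk.nil, by simpa using Ne.symm hau, by simpa using Ne.symm hav⟩
  have hbX : b ∉ X := hno
  have hX : ∀ x ∈ X, ∀ y, y ∉ X → H.Adj x y → y = u ∨ y = v := by
    rintro x ⟨p, hpu, hpv⟩ y hy hxy
    by_contra hne
    push Not at hne
    apply hy
    refine ⟨p.concat hxy, ?_, ?_⟩
    · rw [SimpleGraph.Walk.support_concat]
      simp only [List.mem_append, List.mem_singleton, not_or]
      exact ⟨hpu, fun h => hne.1 h.symm⟩
    · rw [SimpleGraph.Walk.support_concat]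
      simp only [List.mem_append, List.mem_singleton, not_or]
      exact ⟨hpv, fun h => hne.2 h.symm⟩
  set Y : Set V := {y | y ∉ X ∧ y ≠ u ∧ y ≠ v} with hYdef
  have hbY : b ∈ Y := ⟨hbX, hbu, hbv⟩
  have hY : ∀ x ∈ Y, ∀ y, y ∉ Y → H.Adj x y → y = u ∨ y = v := by
    rintro x ⟨hx1, hx2, hx3⟩ y hy hxy
    by_contra hne
    push Not at hne
    have hyX : y ∈ X := by
      by_contra h
      exact hy ⟨h, hne.1, hne.2⟩
    rcases hX y hyX x hx1 hxy.symm with h | h
    · exact hx2 h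
    · exact hx3 h
  have hdis : ∀ t : V, ({w | H.Adj t w} ∩ X).ncard + ({w | H.Adj t w} ∩ Y).ncard ≤ 4 := by
    intro t
    rw [← rc_nb4 h2 t, ← Set.ncard_union_eq _ (Set.toFinite _) (Set.toFinite _)]
    · apply Set.ncard_le_ncard _ (Set.toFinite _)
      rintro w (h | h)
      · exact h.1
      · exact h.1
    · rw [Set.disjoint_left]
      rintro w ⟨_, h⟩ ⟨_, h'⟩
      exact h'.1 h
  have h3 := rc_bd_le hX
  have h4 := rc_bd_le hY
  have h5 := hdis u
  have h6 := hdis v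
  have h7 := rc_two_le h2 haX hX
  have h8 := rc_two_le h2 hbY hY
  by_cases hc : (Bd H X).ncard ≤ 4
  · refine hp X ⟨h7, h8.trans (Set.ncard_le_ncard ?_ (Set.toFinite _)), hc⟩
    intro y hy
    exact hy.1
  · refine hp Y ⟨h8, h7.trans (Set.ncard_le_ncard ?_ (Set.toFinite _)), by omega⟩
    intro y hy h
    exact h.1 hy

end Pool.Agent.GD
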