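import Pool.Agent.GD.RA
import Pool.Agent.GD.RB

set_option autoImplicit false

/-! Module RD: the classes of a labelling of type ab. -/

namespace Pool.Agent.GD

open Pool.Agent.MP_1fb45e

variable {V : Type} {H : SimpleGraph V} {red : Set (Sym2 V)} {x : V} {c : Sym2 V → Bool}

/-- among two different vertices with different labels exactly one has label `i` -/
lemma RD_pick {P : V → Prop} {lab : V → Bool} (h : {w | P w}.ncard = 2)
    (hl : ∀ a b, P a → P b → a ≠ b → lab a ≠ lab b) (i : Bool) :
    ∃ a, P a ∧ lab a = i ∧ ∀ b, P b → lab b = i → b = a := by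
  obtain ⟨a, b, hab, hs⟩ := Set.ncard_eq_two.1 h
  have ha : P a := by
    have : a ∈ {w | P w} := by rw [hs]; exact Set.mem_insert _ _
    exact this
  have hb : P b := by
    have : b ∈ {w | P w} := by rw [hs]; exact Set.mem_insert_of_mem _ rfl
    exact this
  have hne := hl a b ha hb hab
  have hall : ∀ d, P d → d = a ∨ d = b := by
    intro d hd
    have : d ∈ {w | P w} := hd
    rw [hs] at this
    exact this
  by_cases hi : lab a = i
  · refine ⟨a, ha, hi, fun d hd hdi => ?_⟩
    rcases hall d hd with h1 | h1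
    · exact h1
    · subst h1
      exact absurd (hi.trans hdi.symm) hne
  · have hbi : lab b = i := by
      cases h1 : lab a <;> cases h2 : lab b <;> cases i <;> simp_all
    refine ⟨b, hb, hbi, fun d hd hdi => ?_⟩
    rcases hall d hd with h1 | h1
    · subst h1
      exact absurd hdi hi
    · exact h1

lemma cls_two [Finite V] (h2 : TwoReg H red) (hc : LabX H red x c) (i : Bool) (v : V) :
    ((CG H c i).neighborSet v).ncard = 2 := by
  by_cases hv : v = x
  · subst hv
    cases i with
    | false =>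
      have : (CG H c false).neighborSet v = {w | H.Adj v w ∧ s(v, w) ∈ red} := by
        ext w
        simp only [SimpleGraph.mem_neighborSet, Set.mem_ofPred_eq]
        constructor
        · rintro ⟨h, h'⟩
          exact ⟨h, (hc.atx w h).1 h'⟩
        · rintro ⟨h, h'⟩
          exact ⟨h, (hc.atx w h).2 h'⟩
      rw [this]
      exact h2.r2 v
    | true =>
      have : (CG H c true).neighborSet v = {w | H.Adj v w ∧ s(v, w) ∉ red} := by
        ext w
        simp only [SimpleGraph.mem_neighborSet, Set.mem_ofPred_eq]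
        constructor
        · rintro ⟨h, h'⟩
          refine ⟨h, fun hr => ?_⟩
          have := (hc.atx w h).2 hr
          rw [h'] at this
          exact Bool.noConfusion this
        · rintro ⟨h, h'⟩
          refine ⟨h, ?_⟩
          by_contra hr
          have : c s(v, w) = false := by
            cases h1 : c s(v, w)
            · rfl
            · exact absurd h1 hr
          exact h' ((hc.atx w h).1 this)
      rw [this]
      exact h2.b2 v
  · obtain ⟨r, ⟨hr1, hr2⟩, hr3, hr4⟩ := RD_pick (P := fun w => H.Adj v w ∧ s(v, w) ∈ red)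
      (lab := fun w => c s(v, w)) (h2.r2 v)
      (fun a b ha hb hab => hc.other v hv a b ha.1 hb.1 hab
        ⟨fun _ => hb.2, fun _ => ha.2⟩) i
    obtain ⟨b, ⟨hb1, hb2⟩, hb3, hb4⟩ := RD_pick (P := fun w => H.Adj v w ∧ s(v, w) ∉ red)
      (lab := fun w => c s(v, w)) (h2.b2 v)
      (fun a b ha hb hab => hc.other v hv a b ha.1 hb.1 hab
        ⟨fun h => absurd h ha.2, fun h => absurd h hb.2⟩) i
    rw [Set.ncard_eq_two]
    refine ⟨r, b, fun h => hb2 (h ▸ hr2), ?_⟩
    ext w
    simp only [SimpleGraph.mem_neighborSet, Set.mem_insert_iff, Set.mem_singleton_iff]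
    constructor
    · rintro ⟨h, h'⟩
      by_cases hw : s(v, w) ∈ red
      · exact Or.inl (hr4 w ⟨h, hw⟩ h')
      · exact Or.inr (hb4 w ⟨h, hw⟩ h')
    · rintro (h | h)
      · subst h
        exact ⟨hr1, hr3⟩
      · subst h
        exact ⟨hb1, hb3⟩

/-- different edges of a class at a vertex different from `x` have different colours -/
lemma cls_alt [Finite V] (h2 : TwoReg H red) (hc : LabX H red x c) (i : Bool) {v a b : V}
    (hv : v ≠ x) (ha : (CG H c i).Adj v a) (hb : (CG H c i).Adj v b) (hab : a ≠ b) :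
    s(v, a) ∈ red ↔ s(v, b) ∉ red := by
  by_contra hcon
  have h : s(v, a) ∈ red ↔ s(v, b) ∈ red := by tauto
  exact hc.other v hv a b ha.1 hb.1 hab h (ha.2.trans hb.2.symm)

/-- the class of label `i` through `v` -/
def clsAt (H : SimpleGraph V) (c : Sym2 V → Bool) (i : Bool) (v : V) : Cls H c :=
  ⟨i, (CG H c i).connectedComponentMk v⟩

lemma RD_inc_clsAt [Finite V] (h2 : TwoReg H red) (hc : LabX H red x c) (i : Bool) (v : V) :
    Inc H c v (clsAt H c i v) := by
  refine ⟨?_, rfl⟩
  have h := cls_two h2 hc i v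
  obtain ⟨a, b, -, hs⟩ := Set.ncard_eq_two.1 h
  refine ⟨a, ?_⟩
  have : a ∈ (CG H c i).neighborSet v := by
    rw [hs]
    exact Set.mem_insert _ _
  exact this

lemma inc_iff [Finite V] (h2 : TwoReg H red) (hc : LabX H red x c) {v : V} {D : Cls H c} :
    Inc H c v D ↔ D = clsAt H c false v ∨ D = clsAt H c true v := by
  constructor
  · rintro ⟨-, h⟩
    obtain ⟨i, C⟩ := D
    have h' : (CG H c i).connectedComponentMk v = C := h
    subst h'
    cases i
    · exact Or.inl rfl
    · exact Or.inr rfl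
  · rintro (h | h)
    · rw [h]
      exact RD_inc_clsAt h2 hc false v
    · rw [h]
      exact RD_inc_clsAt h2 hc true v

lemma clsAt_mem [Finite V] (h2 : TwoReg H red) (hc : LabX H red x c) (i : Bool) (v : V) :
    clsAt H c i v ∈ NT H c := ⟨v, RD_inc_clsAt h2 hc i v⟩

/-- the edge `v a` belongs to the class of its label through `v` -/
lemma mem_cls_iff {D : Cls H c} {v a : V} :
    s(v, a) ∈ (ClsGraph H c D).edgeSet ↔ H.Adj v a ∧ D = clsAt H c (c s(v, a)) v := by
  rw [SimpleGraph.mem_edgeSet]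
  constructor
  · intro h
    exact ⟨h.1.1, cls_eq h⟩
  · rintro ⟨h1, h2⟩
    exact adj_of_eq h1 h2.symm

/-- the ring hypotheses hold -/
theorem ringHyp [Fintype V] (h2 : TwoReg H red) (hc : LabX H red x c) (h3 : NoTwoCut H) :
    RingHyp (NT H c) (Inc H c) (fun D => D.1) (clsAt H c false x) (clsAt H c true x) x := by
  refine ⟨?_, ?_, ?_, ?_, clsAt_mem h2 hc _ _, clsAt_mem h2 hc _ _, ?_,
    RD_inc_clsAt h2 hc _ _, RD_inc_clsAt h2 hc _ _⟩
  · intro v A _ B _ C _ hA hB hC
    rcases (inc_iff h2 hc).1 hA with hA | hA <;> rcases (inc_iff h2 hc).1 hB with hB | hB <;>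
      rcases (inc_iff h2 hc).1 hC with hC | hC
    · exact Or.inl (hA.trans hB.symm)
    · exact Or.inl (hA.trans hB.symm)
    · exact Or.inr (Or.inl (hA.trans hC.symm))
    · exact Or.inr (Or.inr (hB.trans hC.symm))
    · exact Or.inr (Or.inr (hB.trans hC.symm))
    · exact Or.inr (Or.inl (hA.trans hC.symm))
    · exact Or.inl (hA.trans hB.symm)
    · exact Or.inl (hA.trans hB.symm)
  · intro v A _ hA
    rcases (inc_iff h2 hc).1 hA with hA | hA
    · refine ⟨clsAt H c true v, clsAt_mem h2 hc _ _, fun h => ?_, RD_inc_clsAt h2 hc _ _⟩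
      rw [hA] at h
      exact Bool.noConfusion (congrArg Sigma.fst h)
    · refine ⟨clsAt H c false v, clsAt_mem h2 hc _ _, fun h => ?_, RD_inc_clsAt h2 hc _ _⟩
      rw [hA] at h
      exact Bool.noConfusion (congrArg Sigma.fst h)
  · intro v A _ B _ hA hB hne hl
    apply hne
    rcases (inc_iff h2 hc).1 hA with hA | hA <;> rcases (inc_iff h2 hc).1 hB with hB | hB
    · exact hA.trans hB.symm
    · rw [hA, hB] at hl
      exact Bool.noConfusion hl
    · rw [hA, hB] at hl
      exact Bool.noConfusion hl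
    · exact hA.trans hB.symm
  · intro Y e e' hY hY'
    exact no_small_cut h3 (fun i v => by rw [cls_two h2 hc i v]; exact even_two) Y e e' hY hY'
  · intro h
    exact Bool.noConfusion (congrArg Sigma.fst h)

/-- a class not through `x` without separation is a good set -/
theorem good_of_noSep [Fintype V] (h2 : TwoReg H red) (hc : LabX H red x c) {D : Cls H c}
    (hD : D ∈ NT H c) (h1 : D ≠ clsAt H c false x) (h2' : D ≠ clsAt H c true x)
    (hno : ∀ w K, ¬ SepI (NT H c) (Inc H c) D w K) : HasGood H red := by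
  classical
  refine ⟨(ClsGraph H c D).edgeSet, ⟨?_, ?_, ?_⟩, ?_⟩
  · intro e
    induction e with
    | h a b =>
      intro h
      exact (mem_cls_iff.1 h).1
  · obtain ⟨v, ⟨w, hw⟩, hv⟩ := hD
    exact ⟨s(v, w), ⟨hw, hv⟩⟩
  · rintro v ⟨a', ha'⟩
    have hva' : (ClsGraph H c D).Adj v a' := ha'
    have hvx : v ≠ x := by
      intro hvx
      subst hvx
      have h := (mem_cls_iff.1 ha').2
      cases hcc : c s(v, a')
      · rw [hcc] at h
        exact h1 h
      · rw [hcc] at h
        exact h2' h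
    obtain ⟨a, b, hab, hs⟩ := Set.ncard_eq_two.1 (cls_two h2 hc D.1 v)
    have hmem : ∀ d, s(v, d) ∈ (ClsGraph H c D).edgeSet ↔ d = a ∨ d = b := by
      intro d
      have h3 : d ∈ (CG H c D.1).neighborSet v ↔ d = a ∨ d = b := by
        rw [hs]
        exact Iff.rfl
      rw [← h3]
      constructor
      · intro h
        exact h.1
      · intro h
        exact ⟨h, hva'.2⟩
    have ha : (CG H c D.1).Adj v a := ((hmem a).2 (Or.inl rfl)).1
    have hb : (CG H c D.1).Adj v b := ((hmem b).2 (Or.inr rfl)).1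
    exact ⟨a, b, hab, hmem, cls_alt h2 hc D.1 hvx ha hb hab⟩
  · intro w κ hκ
    -- `κ` is constant on the other classes
    have hsub : ∀ E : Cls H c, E ≠ D → ∀ e ∈ (ClsGraph H c E).edgeSet,
        e ∈ H.edgeSet \ (ClsGraph H c D).edgeSet := by
      intro E hE e
      induction e with
      | h a b =>
        intro he
        have h3 := mem_cls_iff.1 he
        refine ⟨h3.1, fun h4 => hE ?_⟩
        rw [h3.2, (mem_cls_iff.1 h4).2]
    have hconst : ∀ E ∈ NT H c, E ≠ D → ConstOn (ClsGraph H c E).edgeSet κ := by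
      intro E hE hED
      obtain ⟨K⟩ := cyc_of_class E hE (fun v _ => cls_two h2 hc E.1 v)
      refine K.const w κ (fun v hv a b ha hb => ?_)
      exact hκ v (Or.inl hv) a b (hsub E hED _ ha) (hsub E hED _ hb)
    by_contra hcon
    unfold ConstOn at hcon
    push Not at hcon
    obtain ⟨e, he, e', he', hne⟩ := hcon
    have hcls : ∀ e ∈ H.edgeSet \ (ClsGraph H c D).edgeSet, ∃ E ∈ NT H c, E ≠ D ∧
        e ∈ (ClsGraph H c E).edgeSet := by
      intro e
      induction e with
      | h a b =>
        rintro ⟨h3, h4⟩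
        have h5 : s(a, b) ∈ (ClsGraph H c (clsAt H c (c s(a, b)) a)).edgeSet :=
          mem_cls_iff.2 ⟨h3, rfl⟩
        exact ⟨_, clsAt_mem h2 hc _ _, fun h6 => h4 (h6 ▸ h5), h5⟩
    -- a separation
    have key : ∀ e ∈ H.edgeSet \ (ClsGraph H c D).edgeSet,
        ∀ e' ∈ H.edgeSet \ (ClsGraph H c D).edgeSet, κ e → ¬ κ e' → False := by
      intro e he e' he' hke hke'
      obtain ⟨E, hE, hED, heE⟩ := hcls e he
      obtain ⟨E', hE', hED', heE'⟩ := hcls e' he'
      refine hno w {A | A ∈ NT H c ∧ A ≠ D ∧ ∃ f ∈ (ClsGraph H c A).edgeSet, κ f}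
        ⟨fun A hA => hA.1, fun h => h.2.1 rfl, ⟨E, hE, hED, e, heE, hke⟩, ⟨E', hE', ?_, hED'⟩, ?_⟩
      · rintro ⟨-, -, f, hf, hkf⟩
        exact hke' ((hconst E' hE' hED' f hf e' heE').1 hkf)
      · rintro v A ⟨hA, hAD, f, hf, hkf⟩ B hB hBK hBD hvA hvB
        by_contra hvw
        apply hBK
        obtain ⟨⟨a, ha⟩, hvA2⟩ := hvA
        obtain ⟨⟨b, hb⟩, hvB2⟩ := hvB
        have ha' : s(v, a) ∈ (ClsGraph H c A).edgeSet := ⟨ha, hvA2⟩
        have hb' : s(v, b) ∈ (ClsGraph H c B).edgeSet := ⟨hb, hvB2⟩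
        have hka : κ s(v, a) := (hconst A hA hAD f hf _ ha').1 hkf
        have hkb : κ s(v, b) :=
          (hκ v (Or.inl hvw) a b (hsub A hAD _ ha') (hsub B hBD _ hb')).1 hka
        exact ⟨hB, hBD, _, hb', hkb⟩
    rcases hne with ⟨hke, hke'⟩ | ⟨hke, hke'⟩
    · exact key e he e' he' hke hke'
    · exact key e' he' e he hke' hke

end Pool.Agent.GD
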