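import Pool.Agent.GD.FDefs
import Pool.Agent.MP_1fb45e.Setup

set_option autoImplicit false

/-! Groups R and N: definitions (circuits with positions, prime graphs, windows in `H`, the 4-ring). -/

namespace Pool.Agent.GD

variable {V : Type}

/-- boundary edges of `X` (as ordered pairs) -/
def Bd (H : SimpleGraph V) (X : Set V) : Set (V × V) :=
  {p | p.1 ∈ X ∧ p.2 ∉ X ∧ H.Adj p.1 p.2}

/-- a nontrivial set with at most four boundary edges -/
def SmallCut (H : SimpleGraph V) (X : Set V) : Prop :=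
  2 ≤ X.ncard ∧ 2 ≤ Xᶜ.ncard ∧ (Bd H X).ncard ≤ 4

/-- `H` has no nontrivial set with at most four boundary edges -/
def PrimeH (H : SimpleGraph V) : Prop := ∀ X, ¬ SmallCut H X

/-- A circuit of `H` with edge set `E` and its vertices in cyclic order `c 0, c 1, ..`
(period `n`); `r v` is the position of `v`. -/
structure Cyc (H : SimpleGraph V) (E : Set (Sym2 V)) where
  n : ℕ
  c : ℕ → V
  r : V → ℕ
  hn : 3 ≤ n
  per : ∀ i, c (i + n) = c i
  inj : ∀ i < n, r (c i) = i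
  edge : ∀ e, e ∈ E ↔ ∃ i < n, e = s(c i, c (i + 1))
  sub : E ⊆ H.edgeSet

/-- `v` lies on the circuit -/
def Cyc.on {H : SimpleGraph V} {E : Set (Sym2 V)} (K : Cyc H E) (v : V) : Prop :=
  K.r v < K.n ∧ K.c (K.r v) = v

/-- position of `b` after cutting the cyclic order of length `n` at `a` -/
def cpos (n a b : ℕ) : ℕ := if a ≤ b then b - a else b + n - a

/-- A window in `H`: two edge-disjoint circuits with common vertices. -/
structure HWin (H : SimpleGraph V) (red : Set (Sym2 V)) (ED EF : Set (Sym2 V)) where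
  K : Cyc H ED
  L : Cyc H EF
  disj : ∀ e ∈ ED, e ∉ EF
  /-- colours alternate at every vertex different from a given mark -/
  altK : ∀ z, K.on z → ¬ L.on z → ∀ i, K.c (i + 1) ≠ z →
    (s(K.c i, K.c (i + 1)) ∈ red ↔ s(K.c (i + 1), K.c (i + 2)) ∉ red)
  altL : ∀ z, L.on z → ¬ K.on z → ∀ i, L.c (i + 1) ≠ z →
    (s(L.c i, L.c (i + 1)) ∈ red ↔ s(L.c (i + 1), L.c (i + 2)) ∉ red)

namespace HWin

variable {H : SimpleGraph V} {red ED EF : Set (Sym2 V)} (A : HWin H red ED EF)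

/-- the common vertices -/
def P : Set V := {v | A.K.on v ∧ A.L.on v}

/-- the edges outside the two circuits -/
def O (_ : HWin H red ED EF) : Set (Sym2 V) := {e | e ∈ H.edgeSet ∧ e ∉ ED ∧ e ∉ EF}

/-- hypothesis on the rest of the graph -/
def WH : Prop := ∀ (w : V) (κ : Sym2 V → Prop), (∀ v, v ≠ w → AgreeOn A.O κ v) →
  ∃ gD gF : Prop,
    (∀ v a, A.K.on v → s(v, a) ∈ A.O → (κ s(v, a) ↔ gD)) ∧
    (∀ v a, A.L.on v → s(v, a) ∈ A.O → (κ s(v, a) ↔ gF)) ∧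
    (∀ e ∈ A.O, (κ e ↔ gD) ∨ (κ e ↔ gF)) ∧
    (A.K.on w ∨ A.L.on w → (gD ↔ gF))

/-- sign of a common vertex -/
def sg (v : V) : Prop :=
  (s(A.K.c (A.K.r v + A.K.n - 1), v) ∈ red ↔ s(A.L.c (A.L.r v + A.L.n - 1), v) ∈ red)

/-- position on the first circuit, cut at `z` -/
def pD (z v : V) : ℕ := cpos A.K.n (A.K.r z) (A.K.r v)

/-- position on the second circuit, cut at `z` -/
def pF (z v : V) : ℕ := cpos A.L.n (A.L.r z) (A.L.r v)

/-- the inversion graph at the cut `(z, z')` -/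
def G (z z' : V) : SimpleGraph V where
  Adj u v := u ∈ A.P ∧ v ∈ A.P ∧
    ((A.pD z u < A.pD z v ∧ A.pF z' v < A.pF z' u) ∨
      (A.pD z v < A.pD z u ∧ A.pF z' u < A.pF z' v))
  symm := ⟨fun _ _ h => ⟨h.2.1, h.1, h.2.2.symm⟩⟩
  loopless := ⟨fun _ h => by
    rcases h.2.2 with h | h <;> exact absurd h.1 (lt_irrefl _)⟩

/-- the observers at the cut `(z, z')`: all marks -/
def ob (z z' : V) : V → V × Bool → Prop := fun v y =>
  (y.2 = true ∧ A.K.on y.1 ∧ ¬ A.L.on y.1 ∧ A.pD z v < A.pD z y.1) ∨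
  (y.2 = false ∧ A.L.on y.1 ∧ ¬ A.K.on y.1 ∧ A.pF z' v < A.pF z' y.1)

end HWin

/-- Labels of type ab at `x` (number of vertices odd): at every other vertex the two red edges have
different labels and so have the two blue ones; at `x` red edges have label `false`, blue ones
label `true`. -/
structure LabX (H : SimpleGraph V) (red : Set (Sym2 V)) (x : V) (c : Sym2 V → Bool) : Prop where
  other : ∀ v, v ≠ x → ∀ w w', H.Adj v w → H.Adj v w' → w ≠ w' →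
    (s(v, w) ∈ red ↔ s(v, w') ∈ red) → c s(v, w) ≠ c s(v, w')
  atx : ∀ w, H.Adj x w → (c s(x, w) = false ↔ s(x, w) ∈ red)

/-- The 4-ring `E1` (through `x`), `A1`, `A2`, `S`. -/
structure Ring4 (H : SimpleGraph V) (red : Set (Sym2 V)) (x : V)
    (E1 A1 A2 S : Set (Sym2 V)) : Prop where
  cover : ∀ e, e ∈ H.edgeSet ↔ (e ∈ E1 ∨ e ∈ A1 ∨ e ∈ A2 ∨ e ∈ S)
  d12 : ∀ e ∈ E1, e ∉ A1 ∧ e ∉ A2 ∧ e ∉ S
  d23 : ∀ e ∈ A1, e ∉ A2 ∧ e ∉ S
  d34 : ∀ e ∈ A2, e ∉ S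
  /-- `x` lies on `E1` and `S` only -/
  x1 : OnQ E1 x
  xS : OnQ S x
  x2 : ¬ OnQ A1 x
  x3 : ¬ OnQ A2 x
  /-- other vertices of `E1` lie on `A1` only -/
  on1 : ∀ v, OnQ E1 v → v ≠ x → OnQ A1 v ∧ ¬ OnQ A2 v ∧ ¬ OnQ S v
  /-- vertices of `A1` lie on `E1` or `A2` -/
  on2 : ∀ v, OnQ A1 v → (OnQ E1 v ∨ OnQ A2 v) ∧ ¬ OnQ S v
  /-- vertices of `A2` lie on `A1` or `S` -/
  on3 : ∀ v, OnQ A2 v → OnQ A1 v ∨ OnQ S v
  /-- the three circuits -/
  K1 : Nonempty (Cyc H E1)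
  K2 : Nonempty (Cyc H A1)
  K3 : Nonempty (Cyc H A2)
  /-- two red and two blue edges, alternation -/
  alt1 : ∀ v, v ≠ x → ∀ a b, a ≠ b → s(v, a) ∈ E1 → s(v, b) ∈ E1 → (s(v, a) ∈ red ↔ s(v, b) ∉ red)
  alt2 : ∀ v a b, a ≠ b → s(v, a) ∈ A1 → s(v, b) ∈ A1 → (s(v, a) ∈ red ↔ s(v, b) ∉ red)
  alt3 : ∀ v a b, a ≠ b → s(v, a) ∈ A2 → s(v, b) ∈ A2 → (s(v, a) ∈ red ↔ s(v, b) ∉ red)
  /-- `S` is solid by itself -/
  solidS : ∀ (w : V) (κ : Sym2 V → Prop), (∀ v, v ≠ w → AgreeOn S κ v) → ConstOn S κ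

end Pool.Agent.GD
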