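import Pool.Agent.GD.RB
import Pool.Agent.GD.FF

set_option autoImplicit false

/-! Module RF: the frame of a window at a cut; a window without good set in `H` has no
`P`-good set at any cut. -/

namespace Pool.Agent.GD

variable {V : Type} {H : SimpleGraph V} {red E : Set (Sym2 V)}

/-! ### cut circuits -/

lemma cpos_lt {n a b : ℕ} (ha : a < n) (hb : b < n) : cpos n a b < n := by
  unfold cpos; split_ifs <;> omega

lemma cpos_self {n a : ℕ} : cpos n a a = 0 := by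
  unfold cpos; simp

namespace Cyc

lemma pos_n (K : Cyc H E) : 0 < K.n := by have := K.hn; omega

lemma mem_edge (K : Cyc H E) (i : ℕ) : s(K.c i, K.c (i + 1)) ∈ E := by
  rw [K.edge]
  refine ⟨i % K.n, Nat.mod_lt _ K.pos_n, ?_⟩
  have h1 : K.c (i + 1) = K.c (i % K.n + 1) := by rw [K.c_eq, Nat.mod_add_mod]
  rw [h1, K.c_mod]

lemma adj_c (K : Cyc H E) (i : ℕ) : H.Adj (K.c i) (K.c (i + 1)) := K.sub (K.mem_edge i)

lemma cpos_c (K : Cyc H E) {a : ℕ} (ha : a < K.n) {i : ℕ} (hi : i < K.n) :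
    cpos K.n a (K.r (K.c (a + i))) = i := by
  rw [K.r_c]
  unfold cpos
  rcases lt_or_ge (a + i) K.n with h | h
  · rw [Nat.mod_eq_of_lt h]
    split_ifs <;> omega
  · rw [Nat.mod_eq_sub_mod h, Nat.mod_eq_of_lt (by omega)]
    split_ifs <;> omega

lemma c_cpos (K : Cyc H E) {a : ℕ} (ha : a < K.n) {v : V} (hv : K.on v) :
    K.c (a + cpos K.n a (K.r v)) = v := by
  have h1 : K.c (a + cpos K.n a (K.r v)) = K.c (K.r v) := by
    rw [K.c_eq]
    unfold cpos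
    split_ifs with h
    · congr 1; omega
    · have : a + (K.r v + K.n - a) = K.r v + K.n := by omega
      rw [this, Nat.add_mod_right]
  rw [h1, hv.2]

lemma c_start (K : Cyc H E) {z : V} (hz : K.on z) : K.c (K.r z + 0) = z := hz.2

lemma c_end (K : Cyc H E) {z : V} (hz : K.on z) : K.c (K.r z + K.n) = z := by
  rw [K.per, hz.2]

lemma cut_ne (K : Cyc H E) {z : V} (hz : K.on z) {i : ℕ} (h0 : 0 < i) (hi : i < K.n) :
    K.c (K.r z + i) ≠ z := by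
  intro h
  have h1 := K.cpos_c hz.1 hi
  rw [h, cpos_self] at h1
  omega

lemma int_iff (K : Cyc H E) {z : V} (hz : K.on z) (v : V) :
    (0 < cpos K.n (K.r z) (K.r v) ∧ cpos K.n (K.r z) (K.r v) < K.n ∧
      K.c (K.r z + cpos K.n (K.r z) (K.r v)) = v) ↔ K.on v ∧ v ≠ z := by
  constructor
  · rintro ⟨h1, -, h3⟩
    refine ⟨?_, ?_⟩
    · rw [← h3]
      exact K.on_c _
    · rintro rfl
      rw [cpos_self] at h1
      omega
  · rintro ⟨h1, h2⟩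
    refine ⟨?_, cpos_lt hz.1 h1.1, K.c_cpos hz.1 h1⟩
    by_contra h0
    have h3 := K.c_cpos hz.1 h1
    have h4 : cpos K.n (K.r z) (K.r v) = 0 := by omega
    rw [h4, K.c_start hz] at h3
    exact h2 h3.symm

lemma cut_edges (K : Cyc H E) {a : ℕ} (ha : a < K.n) (e : Sym2 V) :
    (∃ i < K.n, e = s(K.c (a + i), K.c (a + (i + 1)))) ↔ e ∈ E := by
  constructor
  · rintro ⟨i, -, rfl⟩
    exact K.mem_edge (a + i)
  · intro he
    obtain ⟨i, hi, rfl⟩ := (K.edge e).1 he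
    refine ⟨cpos K.n a i, cpos_lt ha hi, ?_⟩
    have h1 : K.c (a + cpos K.n a i) = K.c i := by
      have := K.c_cpos ha (K.on_c i)
      rw [K.r_c, Nat.mod_eq_of_lt hi] at this
      exact this
    have h2 : K.c (a + (cpos K.n a i + 1)) = K.c (i + 1) := by
      rw [K.c_eq] at h1 ⊢
      have e1 : a + (cpos K.n a i + 1) = (a + cpos K.n a i) + 1 := by omega
      rw [e1, Nat.add_mod, h1, ← Nat.add_mod]
    rw [h1, h2]

lemma cut_edge_inj (K : Cyc H E) {a : ℕ} {i j : ℕ} (ha : a < K.n) (hi : i < K.n) (hj : j < K.n)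
    (h : s(K.c (a + i), K.c (a + (i + 1))) = s(K.c (a + j), K.c (a + (j + 1)))) : i = j := by
  have key : ∀ t, s(K.c (a + t), K.c (a + (t + 1))) =
      s(K.c ((a + t) % K.n), K.c ((a + t) % K.n + 1)) := by
    intro t
    have h1 : K.c (a + (t + 1)) = K.c ((a + t) % K.n + 1) := by
      rw [K.c_eq, Nat.mod_add_mod]
      rfl
    rw [h1, K.c_mod]
  rw [key, key] at h
  have h2 := K.edge_inj (Nat.mod_lt _ K.pos_n) (Nat.mod_lt _ K.pos_n) h
  have h3 : K.c (a + i) = K.c (a + j) := by rw [K.c_eq, h2]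
  have h4 := K.cpos_c ha hi
  rw [h3, K.cpos_c ha hj] at h4
  exact h4.symm

/-- the two neighbours on the circuit -/
lemma nbrs_eq (K : Cyc H E) {v : V} (hv : K.on v) :
    {a | s(v, a) ∈ E} = {K.c (K.r v + 1), K.c (K.r v + K.n - 1)} := by
  ext a
  rw [Set.mem_ofPred_eq, K.edge_at hv]
  rfl

lemma nbrs_ncard (K : Cyc H E) {v : V} (hv : K.on v) : {a | s(v, a) ∈ E}.ncard = 2 := by
  rw [K.nbrs_eq hv]
  exact Set.ncard_pair (K.two_ne _)

end Cyc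

lemma deg4 [Finite V] (h2 : TwoReg H red) (v : V) : {w | H.Adj v w}.ncard = 4 := by
  have h1 : {w | H.Adj v w} = {w | H.Adj v w ∧ s(v, w) ∈ red} ∪ {w | H.Adj v w ∧ s(v, w) ∉ red} := by
    ext w
    simp only [Set.mem_union, Set.mem_ofPred_eq]
    tauto
  rw [h1, Set.ncard_union_eq, h2.r2, h2.b2]
  rw [Set.disjoint_left]
  intro w hw hw'
  exact hw'.2 hw.2

namespace HWin

variable {ED EF : Set (Sym2 V)}

/-- the frame at the cut `(z, z')` -/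
theorem exists_frame [Finite V] (A : HWin H red ED EF) {z z' : V} (hz : A.K.on z)
    (hz1 : ¬ A.L.on z) (hz' : A.L.on z') (hz1' : ¬ A.K.on z') :
    ∃ F : Frame H red, F.l = A.K.n ∧ F.m = A.L.n ∧ (∀ i, F.d i = A.K.c (A.K.r z + i)) ∧
      (∀ i, F.f i = A.L.c (A.L.r z' + i)) ∧ (∀ v, F.pd v = A.pD z v) ∧ (∀ v, F.pf v = A.pF z' v) ∧
      F.P = A.P ∧ (∀ v, F.IntD v ↔ A.K.on v ∧ v ≠ z) ∧ (∀ v, F.IntF v ↔ A.L.on v ∧ v ≠ z') ∧
      F.ED = ED ∧ F.EF = EF := by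
  have e1 : ∀ i, 0 < i → i < A.K.n → A.K.c (A.K.r z + i) ≠ A.K.c (A.K.r z + 0) ∧
      A.K.c (A.K.r z + i) ≠ A.K.c (A.K.r z + A.K.n) ∧
      A.K.c (A.K.r z + i) ≠ A.L.c (A.L.r z' + 0) ∧
      A.K.c (A.K.r z + i) ≠ A.L.c (A.L.r z' + A.L.n) := by
    intro i h0 hi
    rw [A.K.c_start hz, A.K.c_end hz, A.L.c_start hz', A.L.c_end hz']
    refine ⟨A.K.cut_ne hz h0 hi, A.K.cut_ne hz h0 hi, ?_, ?_⟩
    · intro h
      exact hz1' (h ▸ A.K.on_c _)
    · intro h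
      exact hz1' (h ▸ A.K.on_c _)
  have e2 : ∀ i, 0 < i → i < A.L.n → A.L.c (A.L.r z' + i) ≠ A.K.c (A.K.r z + 0) ∧
      A.L.c (A.L.r z' + i) ≠ A.K.c (A.K.r z + A.K.n) ∧
      A.L.c (A.L.r z' + i) ≠ A.L.c (A.L.r z' + 0) ∧
      A.L.c (A.L.r z' + i) ≠ A.L.c (A.L.r z' + A.L.n) := by
    intro i h0 hi
    rw [A.K.c_start hz, A.K.c_end hz, A.L.c_start hz', A.L.c_end hz']
    refine ⟨?_, ?_, A.L.cut_ne hz' h0 hi, A.L.cut_ne hz' h0 hi⟩
    · intro h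
      exact hz1 (h ▸ A.L.on_c _)
    · intro h
      exact hz1 (h ▸ A.L.on_c _)
  let F : Frame H red :=
    { l := A.K.n
      m := A.L.n
      d := fun i => A.K.c (A.K.r z + i)
      f := fun i => A.L.c (A.L.r z' + i)
      pd := fun v => A.pD z v
      pf := fun v => A.pF z' v
      hl := by have := A.K.hn; omega
      hm := by have := A.L.hn; omega
      adjd := fun i _ => A.K.adj_c (A.K.r z + i)
      adjf := fun i _ => A.L.adj_c (A.L.r z' + i)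
      hpd := fun i _ hi => A.K.cpos_c hz.1 hi
      hpf := fun i _ hi => A.L.cpos_c hz'.1 hi
      d0D := e1
      f0F := e2
      edd := fun i hi j hj h => A.K.cut_edge_inj hz.1 hi hj h
      eff := fun i hi j hj h => A.L.cut_edge_inj hz'.1 hi hj h
      edf := by
        intro i _ j _ h
        apply A.disj _ (A.K.mem_edge (A.K.r z + i))
        show s(A.K.c (A.K.r z + i), A.K.c (A.K.r z + (i + 1))) ∈ EF
        rw [h]
        exact A.L.mem_edge (A.L.r z' + j)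
      altd := by
        intro i h0 hi
        obtain ⟨j, rfl⟩ : ∃ j, i = j + 1 := ⟨i - 1, by omega⟩
        exact A.altK z hz hz1 (A.K.r z + j) (A.K.cut_ne hz h0 hi)
      altf := by
        intro i h0 hi
        obtain ⟨j, rfl⟩ : ∃ j, i = j + 1 := ⟨i - 1, by omega⟩
        exact A.altL z' hz' hz1' (A.L.r z' + j) (A.L.cut_ne hz' h0 hi) }
  have iD : ∀ v, F.IntD v ↔ A.K.on v ∧ v ≠ z := fun v => A.K.int_iff hz v
  have iF : ∀ v, F.IntF v ↔ A.L.on v ∧ v ≠ z' := fun v => A.L.int_iff hz' v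
  refine ⟨F, rfl, rfl, fun _ => rfl, fun _ => rfl, fun _ => rfl, fun _ => rfl, ?_, iD, iF, ?_, ?_⟩
  · ext v
    show (F.IntD v ∧ F.IntF v) ↔ (A.K.on v ∧ A.L.on v)
    rw [iD, iF]
    constructor
    · rintro ⟨h1, h2⟩
      exact ⟨h1.1, h2.1⟩
    · rintro ⟨h1, h2⟩
      exact ⟨⟨h1, fun h => hz1 (h ▸ h2)⟩, ⟨h2, fun h => hz1' (h ▸ h1)⟩⟩
  · ext e
    exact A.K.cut_edges hz.1 e
  · ext e
    exact A.L.cut_edges hz'.1 e

lemma no_EF {A : HWin H red ED EF} {v : V} (hv : ¬ A.L.on v) (a : V) : s(v, a) ∉ EF := by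
  intro h
  exact hv (A.L.on_iff.2 ⟨a, h⟩)

lemma no_ED {A : HWin H red ED EF} {v : V} (hv : ¬ A.K.on v) (a : V) : s(v, a) ∉ ED := by
  intro h
  exact hv (A.K.on_iff.2 ⟨a, h⟩)

/-- a mark of the first circuit has an edge outside -/
lemma out_K [Finite V] (h2 : TwoReg H red) (A : HWin H red ED EF) {v : V} (hv : A.K.on v)
    (hv1 : ¬ A.L.on v) : ∃ a, H.Adj v a ∧ s(v, a) ∉ ED ∧ s(v, a) ∉ EF := by
  by_contra hcon
  push Not at hcon
  have h4 := deg4 h2 v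
  have h3 := A.K.nbrs_ncard hv
  have hsub : {w | H.Adj v w} ⊆ {a | s(v, a) ∈ ED} := by
    intro w hw
    by_contra hc
    exact no_EF (A := A) hv1 w (hcon w hw hc)
  have := Set.ncard_le_ncard hsub (Set.toFinite _)
  omega

lemma out_L [Finite V] (h2 : TwoReg H red) (A : HWin H red ED EF) {v : V} (hv : A.L.on v)
    (hv1 : ¬ A.K.on v) : ∃ a, H.Adj v a ∧ s(v, a) ∉ ED ∧ s(v, a) ∉ EF := by
  by_contra hcon
  push Not at hcon
  have h4 := deg4 h2 v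
  have h3 := A.L.nbrs_ncard hv
  have hsub : {w | H.Adj v w} ⊆ {a | s(v, a) ∈ EF} := by
    intro w hw
    exact hcon w hw (no_ED (A := A) hv1 w)
  have := Set.ncard_le_ncard hsub (Set.toFinite _)
  omega

/-- all edges at a common vertex belong to the two circuits -/
lemma full_P [Finite V] (h2 : TwoReg H red) (A : HWin H red ED EF) {v : V} (hv : A.K.on v)
    (hv1 : A.L.on v) (a : V) (ha : H.Adj v a) : s(v, a) ∈ ED ∨ s(v, a) ∈ EF := by
  have h4 := deg4 h2 v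
  have h3 := A.K.nbrs_ncard hv
  have h5 := A.L.nbrs_ncard hv1
  have hd : Disjoint {a | s(v, a) ∈ ED} {a | s(v, a) ∈ EF} := by
    rw [Set.disjoint_left]
    intro w hw hw'
    exact A.disj _ hw hw'
  have h6 := Set.ncard_union_eq hd (Set.toFinite _) (Set.toFinite _)
  have hsub : {a | s(v, a) ∈ ED} ∪ {a | s(v, a) ∈ EF} ⊆ {w | H.Adj v w} := by
    rintro w (hw | hw)
    · exact A.K.sub hw
    · exact A.L.sub hw
  have h7 := Set.eq_of_subset_of_ncard_le hsub (by omega) (Set.toFinite _)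
  have h8 : a ∈ {a | s(v, a) ∈ ED} ∪ {a | s(v, a) ∈ EF} := by rw [h7]; exact ha
  exact h8

lemma rel_a {a b c d g : Prop} (h : ((a ↔ b) ∧ (c ↔ d) ∧ (a ↔ c)) ∨ ((a ↔ c) ∧ (b ↔ d)) ∨
    ((a ↔ d) ∧ (b ↔ c))) (hc : c ↔ g) (hd : d ↔ g) : (a ↔ g) ∧ (b ↔ g) := by
  rcases h with ⟨h1, h2, h3⟩ | ⟨h1, h2⟩ | ⟨h1, h2⟩
  · exact ⟨h3.trans hc, h1.symm.trans (h3.trans hc)⟩
  · exact ⟨h1.trans hc, h2.trans hd⟩
  · exact ⟨h1.trans hd, h2.trans hc⟩

lemma rel_b {a b c d g : Prop} (h : ((a ↔ b) ∧ (c ↔ d) ∧ (a ↔ c)) ∨ ((a ↔ c) ∧ (b ↔ d)) ∨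
    ((a ↔ d) ∧ (b ↔ c))) (ha : a ↔ g) (hb : b ↔ g) : (c ↔ g) ∧ (d ↔ g) := by
  rcases h with ⟨h1, h2, h3⟩ | ⟨h1, h2⟩ | ⟨h1, h2⟩
  · exact ⟨h3.symm.trans ha, h2.symm.trans (h3.symm.trans ha)⟩
  · exact ⟨h1.symm.trans ha, h2.symm.trans hb⟩
  · exact ⟨h2.symm.trans hb, h1.symm.trans ha⟩

/-- the context conditions -/
theorem frame_ctx [Finite V] (h2 : TwoReg H red) (A : HWin H red ED EF) (hWH : A.WH) {z z' : V}
    (hz : A.K.on z) (hz1 : ¬ A.L.on z) (hz' : A.L.on z') (hz1' : ¬ A.K.on z') (F : Frame H red)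
    (h0 : F.d 0 = z) (hl : F.d F.l = z) (h0' : F.f 0 = z') (hm : F.f F.m = z')
    (hD : ∀ v, F.IntD v ↔ A.K.on v ∧ v ≠ z) (hF : ∀ v, F.IntF v ↔ A.L.on v ∧ v ≠ z')
    (hED : F.ED = ED) (hEF : F.EF = EF) :
    F.Full ∧ F.Marked ∧ F.Ctx1 ∧ F.CtxL ∧ F.CtxK Kd.Z ∧ F.CtxK Kd.O := by
  have hzz : z ≠ z' := fun h => hz1 (h ▸ hz')
  have hlp := F.hl
  have hmp := F.hm
  have md0 : F.ed0 ∈ F.Out := by
    refine ⟨F.adjd 0 (by omega), ?_⟩
    exact Or.inr (Or.inl rfl)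
  have mdl : F.edl ∈ F.Out := by
    refine ⟨?_, ?_⟩
    · have := F.adjd (F.l - 1) (by omega)
      rw [Nat.sub_add_cancel (by omega)] at this
      exact this
    · exact Or.inr (Or.inr (Or.inl rfl))
  have mf0 : F.ef0 ∈ F.Out := by
    refine ⟨F.adjf 0 (by omega), ?_⟩
    exact Or.inr (Or.inr (Or.inr (Or.inl rfl)))
  have mfm : F.efm ∈ F.Out := by
    refine ⟨?_, ?_⟩
    · have := F.adjf (F.m - 1) (by omega)
      rw [Nat.sub_add_cancel (by omega)] at this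
      exact this
    · exact Or.inr (Or.inr (Or.inr (Or.inr rfl)))
  have hsub : A.O ⊆ F.Out := by
    rintro e ⟨he1, he2, he3⟩
    refine ⟨he1, Or.inl ?_⟩
    rw [hED, hEF]
    exact ⟨he2, he3⟩
  have hout : ∀ e ∈ F.Out, e ∈ A.O ∨ e = F.ed0 ∨ e = F.edl ∨ e = F.ef0 ∨ e = F.efm := by
    rintro e ⟨he1, ⟨he2, he3⟩ | he⟩
    · rw [hED] at he2
      rw [hEF] at he3
      exact Or.inl ⟨he1, he2, he3⟩
    · exact Or.inr he
  have ed0' : F.ed0 = s(z, F.d 1) := by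
    show s(F.d 0, F.d 1) = _
    rw [h0]
  have edl' : F.edl = s(z, F.d (F.l - 1)) := by
    show s(F.d (F.l - 1), F.d F.l) = _
    rw [hl, Sym2.eq_swap]
  have ef0' : F.ef0 = s(z', F.f 1) := by
    show s(F.f 0, F.f 1) = _
    rw [h0']
  have efm' : F.efm = s(z', F.f (F.m - 1)) := by
    show s(F.f (F.m - 1), F.f F.m) = _
    rw [hm, Sym2.eq_swap]
  -- the values given by the hypothesis on the rest
  have key : ∀ (w : V) (κ : Sym2 V → Prop), (∀ v, v ≠ w → AgreeOn F.Out κ v) →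
      ∃ gD gF : Prop, (z ≠ w → (κ F.ed0 ↔ gD) ∧ (κ F.edl ↔ gD)) ∧
        (z' ≠ w → (κ F.ef0 ↔ gF) ∧ (κ F.efm ↔ gF)) ∧
        (∀ e ∈ A.O, (κ e ↔ gD) ∨ (κ e ↔ gF)) ∧ (A.K.on w ∨ A.L.on w → (gD ↔ gF)) := by
    intro w κ hκ
    obtain ⟨gD, gF, g1, g2, g3, g4⟩ := hWH w κ (fun v hv a b ha hb => hκ v hv a b (hsub ha) (hsub hb))
    refine ⟨gD, gF, ?_, ?_, g3, g4⟩
    · intro hzw
      obtain ⟨a, ha1, ha2, ha3⟩ := out_K h2 A hz hz1
      have hmem : s(z, a) ∈ A.O := ⟨ha1, ha2, ha3⟩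
      have h5 := g1 z a hz hmem
      constructor
      · rw [← h5, ed0']
        exact hκ z hzw _ _ (ed0' ▸ md0) (hsub hmem)
      · rw [← h5, edl']
        exact hκ z hzw _ _ (edl' ▸ mdl) (hsub hmem)
    · intro hzw
      obtain ⟨a, ha1, ha2, ha3⟩ := out_L h2 A hz' hz1'
      have hmem : s(z', a) ∈ A.O := ⟨ha1, ha2, ha3⟩
      have h5 := g2 z' a hz' hmem
      constructor
      · rw [← h5, ef0']
        exact hκ z' hzw _ _ (ef0' ▸ mf0) (hsub hmem)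
      · rw [← h5, efm']
        exact hκ z' hzw _ _ (efm' ▸ mfm) (hsub hmem)
  -- constancy from a common value
  have fin : ∀ (κ : Sym2 V → Prop) (g : Prop), (∀ e ∈ A.O, (κ e ↔ g)) → (κ F.ed0 ↔ g) →
      (κ F.edl ↔ g) → (κ F.ef0 ↔ g) → (κ F.efm ↔ g) → ConstOn F.Out κ := by
    intro κ g k1 k2 k3 k4 k5
    have : ∀ e ∈ F.Out, (κ e ↔ g) := by
      intro e he
      rcases hout e he with h | h | h | h | h
      · exact k1 e h
      · rw [h]; exact k2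
      · rw [h]; exact k3
      · rw [h]; exact k4
      · rw [h]; exact k5
    intro e he e' he'
    rw [this e he, this e' he']
  -- the three relations for an exceptional vertex which is not interior
  have main : ∀ (w : V), ¬ F.IntD w → ¬ F.IntF w → ∀ κ : Sym2 V → Prop,
      (∀ v, v ≠ w → AgreeOn F.Out κ v) →
      (((κ F.ed0 ↔ κ F.edl) ∧ (κ F.ef0 ↔ κ F.efm) ∧ (κ F.ed0 ↔ κ F.ef0)) ∨
        ((κ F.ed0 ↔ κ F.ef0) ∧ (κ F.edl ↔ κ F.efm)) ∨
        ((κ F.ed0 ↔ κ F.efm) ∧ (κ F.edl ↔ κ F.ef0))) → ConstOn F.Out κ := by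
    intro w hw1 hw2 κ hκ hrel
    obtain ⟨gD, gF, g1, g2, g3, g4⟩ := key w κ hκ
    rw [hD] at hw1
    rw [hF] at hw2
    by_cases hzw : z = w
    · have h5 := g2 (fun h => hzz (hzw.trans h.symm))
      have h6 := g4 (Or.inl (hzw ▸ hz))
      have h7 := rel_a hrel h5.1 h5.2
      refine fin κ gF (fun e he => ?_) h7.1 h7.2 h5.1 h5.2
      rcases g3 e he with h | h
      · rw [h, h6]
      · exact h
    · by_cases hzw' : z' = w
      · have h5 := g1 hzw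
        have h6 := g4 (Or.inr (hzw' ▸ hz'))
        have h7 := rel_b hrel h5.1 h5.2
        refine fin κ gD (fun e he => ?_) h5.1 h5.2 h7.1 h7.2
        rcases g3 e he with h | h
        · exact h
        · rw [h, h6]
      · have h5 := g1 hzw
        have h6 := g2 hzw'
        have h8 := rel_b hrel h5.1 h5.2
        have h7 : gD ↔ gF := h8.1.symm.trans h6.1
        refine fin κ gD (fun e he => ?_) h5.1 h5.2 h8.1 h8.2
        rcases g3 e he with h | h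
        · exact h
        · rw [h, h7]
  refine ⟨?_, ⟨?_, ?_⟩, ?_, ?_, ?_, ?_⟩
  · intro v hv a ha
    rw [hED, hEF]
    exact full_P h2 A ((hD v).1 hv.1).1 ((hF v).1 hv.2).1 a ha
  · intro v hv hv'
    rw [hED, hEF]
    rw [hD] at hv
    rw [hF] at hv'
    refine out_K h2 A hv.1 (fun h => hv' ⟨h, ?_⟩)
    rintro rfl
    exact hz1' hv.1
  · intro v hv hv'
    rw [hED, hEF]
    rw [hF] at hv
    rw [hD] at hv'
    refine out_L h2 A hv.1 (fun h => hv' ⟨h, ?_⟩)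
    rintro rfl
    exact hz1 hv.1
  · intro w hw κ hκ
    obtain ⟨gD, gF, g1, g2, g3, g4⟩ := key w κ hκ
    have hw' : (A.K.on w ∨ A.L.on w) ∧ z ≠ w ∧ z' ≠ w := by
      rcases hw with hw | hw
      · rw [hD] at hw
        exact ⟨Or.inl hw.1, hw.2.symm, fun h => hz1' (h ▸ hw.1)⟩
      · rw [hF] at hw
        exact ⟨Or.inr hw.1, fun h => hz1 (h ▸ hw.1), hw.2.symm⟩
    have h5 := g1 hw'.2.1
    have h6 := g2 hw'.2.2
    have h7 := g4 hw'.1
    refine fin κ gD (fun e he => ?_) h5.1 h5.2 ?_ ?_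
    · rcases g3 e he with h | h
      · exact h
      · rw [h, h7]
    · rw [h7]; exact h6.1
    · rw [h7]; exact h6.2
  · intro w hw1 hw2 κ hκ k1 k2 k3
    exact main w hw1 hw2 κ hκ (Or.inl ⟨k1, k2, k3⟩)
  · intro w hw1 hw2 κ hκ k1 k2
    exact main w hw1 hw2 κ hκ (Or.inr (Or.inl ⟨k1, k2⟩))
  · intro w hw1 hw2 κ hκ k1 k2
    exact main w hw1 hw2 κ hκ (Or.inr (Or.inr ⟨k1, k2⟩))

theorem noCGood [Finite V] (h2 : TwoReg H red) (A : HWin H red ED EF) (hWH : A.WH)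
    (hng : ¬ HasGood H red) {z z' : V} (hz : A.K.on z) (hz1 : ¬ A.L.on z) (hz' : A.L.on z')
    (hz1' : ¬ A.K.on z') :
    ∀ k J, ¬ CGood (A.G z z') A.sg A.P (A.ob z z') Kd.P k J := by
  intro k J hJ
  obtain ⟨F, el, em, ed, ef, epd, epf, eP, iD, iF, eED, eEF⟩ := A.exists_frame hz hz1 hz' hz1'
  have h0 : F.d 0 = z := by rw [ed]; exact A.K.c_start hz
  have hl : F.d F.l = z := by rw [ed, el]; exact A.K.c_end hz
  have h0' : F.f 0 = z' := by rw [ef]; exact A.L.c_start hz'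
  have hm : F.f F.m = z' := by rw [ef, em]; exact A.L.c_end hz'
  obtain ⟨c1, c2, c3, c4, c5, c6⟩ := A.frame_ctx h2 hWH hz hz1 hz' hz1' F h0 hl h0' hm iD iF eED eEF
  apply hng
  have hG : ∀ u ∈ A.P, ∀ v ∈ A.P, (F.G.Adj u v ↔ (A.G z z').Adj u v) := by
    intro u hu v hv
    show (u ∈ F.P ∧ v ∈ F.P ∧
      ((F.pd u < F.pd v ∧ F.pf v < F.pf u) ∨ (F.pd v < F.pd u ∧ F.pf u < F.pf v))) ↔
      (u ∈ A.P ∧ v ∈ A.P ∧ ((A.pD z u < A.pD z v ∧ A.pF z' v < A.pF z' u) ∨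
      (A.pD z v < A.pD z u ∧ A.pF z' u < A.pF z' v)))
    rw [eP, epd, epd, epf, epf]
  have cpred : ∀ {E : Set (Sym2 V)} (K : Cyc H E) {a : V} (ha : K.on a) {v : V} (hv : K.on v)
      (hne : v ≠ a), K.c (K.r a + (cpos K.n (K.r a) (K.r v) - 1)) = K.c (K.r v + K.n - 1) := by
    intro E K a ha v hv hne
    have h3 := (K.int_iff ha v).2 ⟨hv, hne⟩
    have h4 := hv.1
    have h5 := ha.1
    rw [K.c_eq]
    unfold cpos at h3 ⊢
    split_ifs at h3 ⊢ with h6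
    · have : K.r v + K.n - 1 = (K.r a + (K.r v - K.r a - 1)) + K.n := by omega
      rw [this, Nat.add_mod_right]
    · congr 1
      omega
  have hs : ∀ v ∈ A.P, (F.sg v ↔ A.sg v) := by
    intro v hv
    have hvz : v ≠ z := fun h => hz1 (h ▸ hv.2)
    have hvz' : v ≠ z' := fun h => hz1' (h ▸ hv.1)
    have h3 : F.d (F.pd v) = v := ((iD v).2 ⟨hv.1, hvz⟩).2.2
    have h4 : F.f (F.pf v) = v := ((iF v).2 ⟨hv.2, hvz'⟩).2.2
    show (s(F.d (F.pd v - 1), F.d (F.pd v)) ∈ red ↔ s(F.f (F.pf v - 1), F.f (F.pf v)) ∈ red) ↔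
      (s(A.K.c (A.K.r v + A.K.n - 1), v) ∈ red ↔ s(A.L.c (A.L.r v + A.L.n - 1), v) ∈ red)
    rw [h3, h4, ed, ef, epd, epf]
    have h5 := cpred A.K hz hv.1 hvz
    have h6 := cpred A.L hz' hv.2 hvz'
    have h7 : A.pD z v = cpos A.K.n (A.K.r z) (A.K.r v) := rfl
    have h8 : A.pF z' v = cpos A.L.n (A.L.r z') (A.L.r v) := rfl
    rw [h7, h8, h5, h6]
  refine Frame.frame_theorem h2 F c1 c2 c3 c4 (k := k) (J := J) ?_ ?_
  · rw [eP]
    refine good_congr hG hs ?_ hJ.1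
    intro y'
    refine Or.inr ⟨y', Or.inl ?_⟩
    intro v hv
    have hvz : v ≠ z := fun h => hz1 (h ▸ hv.2)
    have hvz' : v ≠ z' := fun h => hz1' (h ▸ hv.1)
    show ((y'.2 = true ∧ A.K.on y'.1 ∧ ¬ A.L.on y'.1 ∧ A.pD z v < A.pD z y'.1) ∨
      (y'.2 = false ∧ A.L.on y'.1 ∧ ¬ A.K.on y'.1 ∧ A.pF z' v < A.pF z' y'.1)) ↔
      ((y'.2 = true ∧ F.IntD y'.1 ∧ ¬ F.IntF y'.1 ∧ F.pd v < F.pd y'.1) ∨
      (y'.2 = false ∧ F.IntF y'.1 ∧ ¬ F.IntD y'.1 ∧ F.pf v < F.pf y'.1))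
    rw [iD, iF, epd, epd, epf, epf]
    have n1 : ¬ A.pD z v < A.pD z z := by
      have : A.pD z z = 0 := cpos_self
      omega
    have n2 : ¬ A.pF z' v < A.pF z' z' := by
      have : A.pF z' z' = 0 := cpos_self
      omega
    constructor
    · rintro (⟨k1, k2, k3, k4⟩ | ⟨k1, k2, k3, k4⟩)
      · exact Or.inl ⟨k1, ⟨k2, fun h => n1 (h ▸ k4)⟩, fun h => k3 h.1, k4⟩
      · exact Or.inr ⟨k1, ⟨k2, fun h => n2 (h ▸ k4)⟩, fun h => k3 h.1, k4⟩
    · rintro (⟨k1, k2, k3, k4⟩ | ⟨k1, k2, k3, k4⟩)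
      · exact Or.inl ⟨k1, k2.1, fun h => k3 ⟨h, fun h' => hz1' (h' ▸ k2.1)⟩, k4⟩
      · exact Or.inr ⟨k1, k2.1, fun h => k3 ⟨h, fun h' => hz1 (h' ▸ k2.1)⟩, k4⟩
  · cases k with
    | Z => exact Or.inr c5
    | O => exact Or.inr c6
    | P =>
      left
      rw [eP]
      exact linked_congr hG hs (tc_isK hJ.1.1).1 (hJ.2 rfl)

end HWin

end Pool.Agent.GD
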