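import Pool.Agent.GD.RDefs

set_option autoImplicit false

/-! The configuration of the Moebius circuit. -/

namespace Pool.Agent.GD

variable {V : Type}

/-- The Moebius configuration in a 4-ring: `x, p, q` consecutive on `E1`; `p, w, q` consecutive
on `A1`; `v`, `w` are the only common vertices of `A1` and `A2`. -/
structure Moeb (H : SimpleGraph V) (red : Set (Sym2 V)) (x : V) (E1 A1 A2 S : Set (Sym2 V)) where
  R : Ring4 H red x E1 A1 A2 S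
  K1 : Cyc H E1
  K2 : Cyc H A1
  K3 : Cyc H A2
  p : V
  q : V
  v : V
  w : V
  i : ℕ
  t : ℕ
  k10 : K1.c 0 = x
  k11 : K1.c 1 = p
  k12 : K1.c 2 = q
  k20 : K2.c 0 = w
  k21 : K2.c 1 = q
  k2i : K2.c i = v
  hi1 : 1 < i
  hi2 : i + 1 < K2.n
  k2n : K2.c (K2.n - 1) = p
  k30 : K3.c 0 = w
  k3t : K3.c t = v
  ht0 : 0 < t
  htn : t < K3.n
  wA1 : OnQ A1 w
  wA2 : OnQ A2 w
  vA1 : OnQ A1 v
  vA2 : OnQ A2 v
  hvw : v ≠ w
  only : ∀ y, OnQ A1 y → OnQ A2 y → y = v ∨ y = w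
  /-- the other arc of `A2` meets `S` -/
  far : ∃ j, t < j ∧ j < K3.n ∧ OnQ S (K3.c j)
  /-- colours -/
  col1 : s(p, q) ∈ red ↔ s(w, q) ∈ red
  col2 : s(w, K3.c 1) ∈ red ↔ s(p, w) ∉ red
  col3 : s(K3.c (t - 1), v) ∈ red ↔ s(K2.c (i - 1), v) ∉ red

end Pool.Agent.GD
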