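import Pool.Agent.GD.RB
import Pool.Agent.GD.FF
import Pool.Agent.GD.TL
import Pool.Agent.GD.PR
import Pool.Agent.GD.RG

set_option autoImplicit false

/-! Module RL1: the x-pole (only two classes): frame and primality. -/

namespace Pool.Agent.GD

variable {V : Type} {H : SimpleGraph V} {red : Set (Sym2 V)} {x : V} {E1 E2 : Set (Sym2 V)}

/-- two circuits through all vertices, cut at `x` -/
structure XPole (H : SimpleGraph V) (red : Set (Sym2 V)) (x : V) (E1 E2 : Set (Sym2 V)) where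
  K : Cyc H E1
  L : Cyc H E2
  onK : ∀ v, K.on v
  onL : ∀ v, L.on v
  cover : ∀ e, e ∈ H.edgeSet ↔ e ∈ E1 ∨ e ∈ E2
  disj : ∀ e ∈ E1, e ∉ E2
  k0 : K.c 0 = x
  l0 : L.c 0 = x
  alt1 : ∀ v, v ≠ x → ∀ a b, a ≠ b → s(v, a) ∈ E1 → s(v, b) ∈ E1 → (s(v, a) ∈ red ↔ s(v, b) ∉ red)
  alt2 : ∀ v, v ≠ x → ∀ a b, a ≠ b → s(v, a) ∈ E2 → s(v, b) ∈ E2 → (s(v, a) ∈ red ↔ s(v, b) ∉ red)
  red1 : ∀ a, s(x, a) ∈ E1 → s(x, a) ∈ red
  red2 : ∀ a, s(x, a) ∈ E2 → s(x, a) ∉ red

namespace Cyc

lemma r_zero {E : Set (Sym2 V)} (K : Cyc H E) (h : K.c 0 = x) : K.r x = 0 := by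
  rw [← h]
  exact K.inj 0 K.pos_n

lemma r_pos {E : Set (Sym2 V)} (K : Cyc H E) (h : K.c 0 = x) {v : V} (hv : K.on v) (hx : v ≠ x) :
    0 < K.r v := by
  rcases Nat.eq_zero_or_pos (K.r v) with h1 | h1
  · exfalso
    apply hx
    rw [← hv.2, h1, h]
  · exact h1

lemma int_x {E : Set (Sym2 V)} (K : Cyc H E) (h : K.c 0 = x) (hon : ∀ v, K.on v) (v : V) :
    (0 < K.r v ∧ K.r v < K.n ∧ K.c (K.r v) = v) ↔ v ≠ x := by
  constructor
  · rintro ⟨h1, -, -⟩ rfl
    rw [K.r_zero h] at h1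
    omega
  · intro hx
    exact ⟨K.r_pos h (hon v) hx, (hon v).1, (hon v).2⟩

lemma c_ne_x {E : Set (Sym2 V)} (K : Cyc H E) (h : K.c 0 = x) {i : ℕ} (h0 : 0 < i) (hi : i < K.n) :
    K.c i ≠ x := by
  intro h1
  have h2 := K.inj i hi
  rw [h1, K.r_zero h] at h2
  omega

lemma c_n {E : Set (Sym2 V)} (K : Cyc H E) (h : K.c 0 = x) : K.c K.n = x := by
  have := K.per 0
  rw [zero_add] at this
  rw [this, h]

end Cyc

/-- the frame at `x` -/
theorem xpole_frame [Finite V] (h2 : TwoReg H red) (A : XPole H red x E1 E2) :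
    ∃ F : Frame H red, F.l = A.K.n ∧ F.m = A.L.n ∧ (∀ i, F.d i = A.K.c i) ∧
      (∀ i, F.f i = A.L.c i) ∧ (∀ v, F.pd v = A.K.r v) ∧ (∀ v, F.pf v = A.L.r v) ∧
      F.P = {v | v ≠ x} ∧ F.Full ∧ F.Marked ∧ F.Ctx1 ∧ F.CtxL := by
  have _ := h2
  let F : Frame H red :=
    { l := A.K.n
      m := A.L.n
      d := A.K.c
      f := A.L.c
      pd := A.K.r
      pf := A.L.r
      hl := by have := A.K.hn; omega
      hm := by have := A.L.hn; omega
      adjd := fun i _ => A.K.adj_c i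
      adjf := fun i _ => A.L.adj_c i
      hpd := fun i _ hi => A.K.inj i hi
      hpf := fun i _ hi => A.L.inj i hi
      d0D := by
        intro i h0 hi
        rw [A.K.c_n A.k0, A.L.c_n A.l0, A.k0, A.l0]
        have := A.K.c_ne_x A.k0 h0 hi
        exact ⟨this, this, this, this⟩
      f0F := by
        intro i h0 hi
        rw [A.K.c_n A.k0, A.L.c_n A.l0, A.k0, A.l0]
        have := A.L.c_ne_x A.l0 h0 hi
        exact ⟨this, this, this, this⟩
      edd := fun i hi j hj h => A.K.edge_inj hi hj h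
      eff := fun i hi j hj h => A.L.edge_inj hi hj h
      edf := by
        intro i _ j _ h
        apply A.disj _ (A.K.mem_edge i)
        rw [h]
        exact A.L.mem_edge j
      altd := by
        intro i h0 hi
        obtain ⟨j, rfl⟩ : ∃ j, i = j + 1 := ⟨i - 1, by omega⟩
        have h1 := A.K.mem_edge j
        rw [Sym2.eq_swap] at h1
        have h3 : A.K.c j ≠ A.K.c (j + 1 + 1) := by
          intro h
          have h4 := A.K.two_ne (j + 1)
          apply h4
          rw [← h]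
          have : j + 1 + A.K.n - 1 = j + A.K.n := by omega
          rw [this, A.K.per]
        have h5 := A.alt1 _ (A.K.c_ne_x A.k0 h0 hi) _ _ h3 h1 (A.K.mem_edge (j + 1))
        show s(A.K.c j, A.K.c (j + 1)) ∈ red ↔ s(A.K.c (j + 1), A.K.c (j + 1 + 1)) ∉ red
        rw [← h5, Sym2.eq_swap]
      altf := by
        intro i h0 hi
        obtain ⟨j, rfl⟩ : ∃ j, i = j + 1 := ⟨i - 1, by omega⟩
        have h1 := A.L.mem_edge j
        rw [Sym2.eq_swap] at h1
        have h3 : A.L.c j ≠ A.L.c (j + 1 + 1) := by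
          intro h
          have h4 := A.L.two_ne (j + 1)
          apply h4
          rw [← h]
          have : j + 1 + A.L.n - 1 = j + A.L.n := by omega
          rw [this, A.L.per]
        have h5 := A.alt2 _ (A.L.c_ne_x A.l0 h0 hi) _ _ h3 h1 (A.L.mem_edge (j + 1))
        show s(A.L.c j, A.L.c (j + 1)) ∈ red ↔ s(A.L.c (j + 1), A.L.c (j + 1 + 1)) ∉ red
        rw [← h5, Sym2.eq_swap] }
  have iD : ∀ v, F.IntD v ↔ v ≠ x := fun v => A.K.int_x A.k0 A.onK v
  have iF : ∀ v, F.IntF v ↔ v ≠ x := fun v => A.L.int_x A.l0 A.onL v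
  have eED : ∀ e, e ∈ F.ED ↔ e ∈ E1 := fun e => (A.K.edge e).symm
  have eEF : ∀ e, e ∈ F.EF ↔ e ∈ E2 := fun e => (A.L.edge e).symm
  have hout : ∀ e ∈ F.Out, ∃ a, e = s(x, a) := by
    rintro e ⟨he1, ⟨he2, he3⟩ | he | he | he | he⟩
    · rw [eED] at he2
      rw [eEF] at he3
      rcases (A.cover e).1 he1 with h | h
      · exact absurd h he2
      · exact absurd h he3
    · refine ⟨A.K.c 1, ?_⟩
      rw [he]
      show s(A.K.c 0, A.K.c 1) = _
      rw [A.k0]
    · refine ⟨A.K.c (A.K.n - 1), ?_⟩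
      rw [he]
      show s(A.K.c (A.K.n - 1), A.K.c A.K.n) = _
      rw [A.K.c_n A.k0, Sym2.eq_swap]
    · refine ⟨A.L.c 1, ?_⟩
      rw [he]
      show s(A.L.c 0, A.L.c 1) = _
      rw [A.l0]
    · refine ⟨A.L.c (A.L.n - 1), ?_⟩
      rw [he]
      show s(A.L.c (A.L.n - 1), A.L.c A.L.n) = _
      rw [A.L.c_n A.l0, Sym2.eq_swap]
  have hout' : ∀ e ∈ F.Out, e = F.ed0 ∨ e = F.edl ∨ e = F.ef0 ∨ e = F.efm := by
    rintro e ⟨he1, ⟨he2, he3⟩ | he⟩
    · rw [eED] at he2
      rw [eEF] at he3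
      rcases (A.cover e).1 he1 with h | h
      · exact absurd h he2
      · exact absurd h he3
    · exact he
  refine ⟨F, rfl, rfl, fun _ => rfl, fun _ => rfl, fun _ => rfl, fun _ => rfl, ?_, ?_, ⟨?_, ?_⟩,
    ?_, ?_⟩
  · ext v
    show (F.IntD v ∧ F.IntF v) ↔ v ≠ x
    rw [iD, iF, and_self]
  · intro v _ a ha
    rw [eED, eEF]
    exact (A.cover _).1 ha
  · intro v h1 h3
    rw [iD] at h1
    rw [iF] at h3
    exact absurd h1 h3
  · intro v h1 h3
    rw [iF] at h1
    rw [iD] at h3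
    exact absurd h1 h3
  · intro w hw κ hκ e he e' he'
    have hwx : x ≠ w := by
      rcases hw with hw | hw
      · rw [iD] at hw
        exact hw.symm
      · rw [iF] at hw
        exact hw.symm
    obtain ⟨a, rfl⟩ := hout e he
    obtain ⟨b, rfl⟩ := hout e' he'
    exact hκ x hwx a b he he'
  · intro w _ _ κ _ k1 k2 k3 e he e' he'
    have key : ∀ e ∈ F.Out, (κ e ↔ κ F.ed0) := by
      intro e he
      rcases hout' e he with h | h | h | h
      · rw [h]
      · rw [h]; exact k1.symm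
      · rw [h]; exact k3.symm
      · rw [h]; exact k2.symm.trans k3.symm
    rw [key e he, key e' he']

/-- the inversion graph is prime -/
theorem xpole_prime [Finite V] (h2 : TwoReg H red) (hp : PrimeH H) (A : XPole H red x E1 E2)
    (F : Frame H red) (hpd : ∀ v, F.pd v = A.K.r v) (hpf : ∀ v, F.pf v = A.L.r v)
    (hP : F.P = {v | v ≠ x}) (h5 : 5 ≤ Nat.card V) : PrimeOn F.G F.P := by
  have _ := h2
  have hcard : ({v | v ≠ x} : Set V).ncard + 1 = Nat.card V := by
    have h1 := Set.ncard_add_ncard_compl ({x} : Set V)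
    rw [Set.ncard_singleton] at h1
    have h3 : ({x} : Set V)ᶜ = {v | v ≠ x} := by
      ext v
      simp
    rw [h3] at h1
    omega
  refine primeOn_of_noInterval F.inv (by rw [hP]; omega) ?_
  intro X hX hX2 hXa hXb
  by_contra hne
  have hxX : x ∉ X := by
    intro h
    have := hX h
    rw [hP] at this
    exact this rfl
  obtain ⟨y, hyP, hyX⟩ : ∃ y ∈ F.P, y ∉ X := by
    by_contra hcon
    push Not at hcon
    exact hne (Set.Subset.antisymm hX hcon)
  have hyx : y ≠ x := by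
    rw [hP] at hyP
    exact hyP
  have hXne : X.Nonempty := Set.nonempty_of_ncard_ne_zero (by omega)
  -- the set is an arc of both circuits
  have arc : ∀ {E : Set (Sym2 V)} (K : Cyc H E) (k0 : K.c 0 = x) (hon : ∀ v, K.on v)
      (hconv : ∀ u ∈ X, ∀ v ∈ X, ∀ y, y ≠ x → K.r u < K.r y → K.r y < K.r v → y ∈ X),
      ∃ e1 e2 : V × V, ∀ u ∈ X, ∀ w, w ∉ X → s(u, w) ∈ E → (u, w) = e1 ∨ (u, w) = e2 := by
    intro E K k0 hon hconv
    obtain ⟨u₁, hu₁, hmin⟩ := Set.exists_min_image X K.r (Set.toFinite X) hXne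
    obtain ⟨u₂, hu₂, hmax⟩ := Set.exists_max_image X K.r (Set.toFinite X) hXne
    have hpos : ∀ u ∈ X, 0 < K.r u := fun u hu => K.r_pos k0 (hon u) (fun h => hxX (h ▸ hu))
    have e0 : ∀ b, cpos K.n 0 b = b := fun b => by unfold cpos; simp
    have hab : ∀ i, (K.r u₁ ≤ i ∧ i ≤ K.r u₂) ↔ ∃ x ∈ X, cpos K.n 0 (K.r x) = i := by
      intro i
      constructor
      · rintro ⟨h3, h4⟩
        have h6 := (hon u₂).1
        have h7 : K.r (K.c i) = i := K.inj i (by omega)
        refine ⟨K.c i, ?_, by rw [e0, h7]⟩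
        by_cases e1 : i = K.r u₁
        · rw [e1, (hon u₁).2]
          exact hu₁
        · by_cases e2 : i = K.r u₂
          · rw [e2, (hon u₂).2]
            exact hu₂
          · refine hconv u₁ hu₁ u₂ hu₂ _ ?_ ?_ ?_
            · have := hpos u₁ hu₁
              exact K.c_ne_x k0 (by omega) (by omega)
            · rw [h7]; omega
            · rw [h7]; omega
      · rintro ⟨v, hv, rfl⟩
        rw [e0]
        exact ⟨hmin v hv, hmax v hv⟩
    refine ⟨_, _, fun u hu w hw huw => K.arc_bd K.pos_n (fun x _ => hon x) hab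
      (fun x hx => by rw [e0]; exact hpos x hx) hu hw huw⟩
  obtain ⟨e1, e2, hK⟩ := arc A.K A.k0 A.onK (by
    intro u hu v hv y hy h3 h4
    refine hXa u hu v hv y (by rw [hP]; exact hy) ?_ ?_
    · rw [hpd, hpd]; exact h3
    · rw [hpd, hpd]; exact h4)
  obtain ⟨e3, e4, hL⟩ := arc A.L A.l0 A.onL (by
    intro u hu v hv y hy h3 h4
    refine hXb u hu v hv y (by rw [hP]; exact hy) ?_ ?_
    · rw [hpf, hpf]; exact h3
    · rw [hpf, hpf]; exact h4)
  apply hp X
  refine ⟨hX2, ?_, ?_⟩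
  · have hsub : ({x, y} : Set V) ⊆ Xᶜ := by
      rintro w (rfl | rfl)
      · exact hxX
      · exact hyX
    have := Set.ncard_le_ncard hsub (Set.toFinite _)
    rw [Set.ncard_pair hyx.symm] at this
    exact this
  · have hsub : Bd H X ⊆ {e1, e2, e3, e4} := by
      rintro ⟨u, w⟩ ⟨hu, hw, huw⟩
      simp only [Set.mem_insert_iff, Set.mem_singleton_iff]
      rcases (A.cover s(u, w)).1 huw with h | h
      · have := hK u hu w hw h
        tauto
      · have := hL u hu w hw h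
        tauto
    refine le_trans (Set.ncard_le_ncard hsub (Set.toFinite _)) ?_
    refine le_trans (Set.ncard_insert_le _ _) ?_
    have h6 := Set.ncard_insert_le e2 {e3, e4}
    have h7 := Set.ncard_insert_le e3 {e4}
    rw [Set.ncard_singleton] at h7
    omega

end Pool.Agent.GD
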