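import Pool.Agent.GD.RL1

set_option autoImplicit false

/-! Module RL2: the x-pole, circuits crossing at `x` and at one more vertex. -/

namespace Pool.Agent.GD

variable {V : Type} {H : SimpleGraph V} {red : Set (Sym2 V)} {x : V} {E1 E2 : Set (Sym2 V)}

/-- edges of a circuit with number less than `b` -/
def Cyc.low {E : Set (Sym2 V)} (K : Cyc H E) (b : ℕ) : Set (Sym2 V) :=
  {e | ∃ i < b, e = s(K.c i, K.c (i + 1))}

namespace Cyc

variable {E : Set (Sym2 V)}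

lemma low_sub (K : Cyc H E) (b : ℕ) : K.low b ⊆ E := by
  rintro e ⟨i, -, rfl⟩
  exact K.mem_edge i

/-- the low edges at a vertex which is not the starting point -/
lemma low_at (K : Cyc H E) (h0 : K.c 0 = x) {b : ℕ} (hb : b < K.n) {v a : V} (hv : K.on v)
    (hx : v ≠ x) : s(v, a) ∈ K.low b ↔
      (a = K.c (K.r v + 1) ∧ K.r v < b) ∨ (a = K.c (K.r v - 1) ∧ K.r v ≤ b) := by
  have hpos := K.r_pos h0 hv hx
  have hlt := hv.1
  constructor
  · rintro ⟨i, hi, h⟩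
    rw [Sym2.eq_iff] at h
    rcases h with ⟨h1, h2⟩ | ⟨h1, h2⟩
    · left
      have h3 : K.r v = i := by
        rw [h1]
        exact K.inj i (by omega)
      rw [h3]
      exact ⟨h2, hi⟩
    · right
      have h3 : K.r v = i + 1 := by
        rw [h1]
        exact K.inj (i + 1) (by omega)
      rw [h3]
      exact ⟨h2, by omega⟩
  · rintro (⟨h1, h2⟩ | ⟨h1, h2⟩)
    · refine ⟨K.r v, h2, ?_⟩
      rw [hv.2, h1]
    · refine ⟨K.r v - 1, by omega, ?_⟩
      have : K.r v - 1 + 1 = K.r v := by omega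
      rw [this, hv.2, h1, Sym2.eq_swap]

lemma low_x (K : Cyc H E) (h0 : K.c 0 = x) {b : ℕ} (hb : b < K.n) (hb0 : 0 < b) {a : V} :
    s(x, a) ∈ K.low b ↔ a = K.c 1 := by
  constructor
  · rintro ⟨i, hi, h⟩
    rw [Sym2.eq_iff] at h
    rcases h with ⟨h1, h2⟩ | ⟨h1, h2⟩
    · have h3 : i = 0 := by
        have h4 := K.inj i (by omega)
        rw [← h1, K.r_zero h0] at h4
        exact h4.symm
      rw [h3] at h2
      exact h2
    · exfalso
      exact K.c_ne_x h0 (by omega) (by omega) h1.symm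
  · rintro rfl
    exact ⟨0, hb0, by rw [h0]⟩

/-- propagation along a stretch of a circuit -/
lemma prop (K : Cyc H E) (κ : Sym2 V → Prop) {lo hi : ℕ} (hlo : lo ≤ hi)
    (h : ∀ t, lo ≤ t → t < hi →
      (κ s(K.c t, K.c (t + 1)) ↔ κ s(K.c (t + 1), K.c (t + 1 + 1)))) :
    κ s(K.c lo, K.c (lo + 1)) ↔ κ s(K.c hi, K.c (hi + 1)) := by
  induction hi, hlo using Nat.le_induction with
  | base => exact Iff.rfl
  | succ n hn ih =>
    rw [ih (fun t h1 h2 => h t h1 (by omega))]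
    exact h n hn (by omega)

lemma pred_ne_succ (K : Cyc H E) {v : V} (h : 0 < K.r v) : K.c (K.r v + 1) ≠ K.c (K.r v - 1) := by
  intro h1
  apply K.two_ne (K.r v)
  rw [h1]
  have : K.r v + K.n - 1 = K.r v - 1 + K.n := by omega
  rw [this, K.per]

lemma mem_pred (K : Cyc H E) {v : V} (hv : K.on v) (h : 0 < K.r v) : s(v, K.c (K.r v - 1)) ∈ E := by
  have h1 := K.mem_edge (K.r v - 1)
  have : K.r v - 1 + 1 = K.r v := by omega
  rw [this, hv.2, Sym2.eq_swap] at h1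
  exact h1

lemma mem_succ (K : Cyc H E) {v : V} (hv : K.on v) : s(v, K.c (K.r v + 1)) ∈ E := by
  have h1 := K.mem_edge (K.r v)
  rw [hv.2] at h1
  exact h1

end Cyc

/-- The main case: no vertex before `p` on both circuits. -/
theorem xs0 (A : XPole H red x E1 E2) {p : V} (hpx : p ≠ x)
    (hs : s(p, A.K.c (A.K.r p - 1)) ∈ red ↔ s(p, A.L.c (A.L.r p - 1)) ∉ red)
    (h1 : ∀ v, v ≠ x → ¬ (A.K.r v < A.K.r p ∧ A.L.r v < A.L.r p))
    (hC : ∀ w, w ≠ x → A.K.r p < A.K.r w → A.L.r p < A.L.r w →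
      ∃ y, y ≠ x ∧ A.K.r p < A.K.r y ∧ A.L.r p < A.L.r y ∧
        ((A.K.r y < A.K.r w ∧ A.L.r w < A.L.r y) ∨ (A.K.r w < A.K.r y ∧ A.L.r y < A.L.r w))) :
    HasGood H red := by
  classical
  have hk := A.K.r_pos A.k0 (A.onK p) hpx
  have hl := A.L.r_pos A.l0 (A.onL p) hpx
  have hkn := (A.onK p).1
  have hln := (A.onL p).1
  set Q : Set (Sym2 V) := A.K.low (A.K.r p) ∪ A.L.low (A.L.r p) with hQ
  have mQ : ∀ e, e ∈ Q ↔ e ∈ A.K.low (A.K.r p) ∨ e ∈ A.L.low (A.L.r p) := fun e => Iff.rfl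
  -- the `Q`-edges at the vertices
  have kat : ∀ v, v ≠ x → ∀ a, s(v, a) ∈ A.K.low (A.K.r p) ↔
      (a = A.K.c (A.K.r v + 1) ∧ A.K.r v < A.K.r p) ∨
        (a = A.K.c (A.K.r v - 1) ∧ A.K.r v ≤ A.K.r p) :=
    fun v hv a => A.K.low_at A.k0 hkn (A.onK v) hv
  have lat : ∀ v, v ≠ x → ∀ a, s(v, a) ∈ A.L.low (A.L.r p) ↔
      (a = A.L.c (A.L.r v + 1) ∧ A.L.r v < A.L.r p) ∨
        (a = A.L.c (A.L.r v - 1) ∧ A.L.r v ≤ A.L.r p) :=
    fun v hv a => A.L.low_at A.l0 hln (A.onL v) hv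
  have hxQ : OnQ Q x := ⟨A.K.c 1, (mQ _).2 (Or.inl ((A.K.low_x A.k0 hkn hk).2 rfl))⟩
  have onQ : ∀ v, v ≠ x → (A.K.r v ≤ A.K.r p ∨ A.L.r v ≤ A.L.r p) → OnQ Q v := by
    rintro v hv (h | h)
    · exact ⟨A.K.c (A.K.r v - 1), (mQ _).2 (Or.inl ((kat v hv _).2 (Or.inr ⟨rfl, h⟩)))⟩
    · exact ⟨A.L.c (A.L.r v - 1), (mQ _).2 (Or.inr ((lat v hv _).2 (Or.inr ⟨rfl, h⟩)))⟩
  refine ⟨Q, ⟨?_, ?_, ?_⟩, ?_⟩
  · -- edges
    intro e he
    rcases (mQ e).1 he with h | h
    · exact (A.cover e).2 (Or.inl (A.K.low_sub _ h))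
    · exact (A.cover e).2 (Or.inr (A.L.low_sub _ h))
  · exact ⟨s(x, A.K.c 1), (mQ _).2 (Or.inl ((A.K.low_x A.k0 hkn hk).2 rfl))⟩
  · -- degrees and colours
    intro v hv
    by_cases hvx : v = x
    · subst hvx
      have e1 : s(v, A.K.c 1) ∈ E1 := A.K.low_sub _ ((A.K.low_x A.k0 hkn hk).2 rfl)
      have e2 : s(v, A.L.c 1) ∈ E2 := A.L.low_sub _ ((A.L.low_x A.l0 hln hl).2 rfl)
      refine ⟨A.K.c 1, A.L.c 1, ?_, ?_, ?_⟩
      · intro h
        exact A.disj _ e1 (h ▸ e2)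
      · intro c
        rw [mQ, A.K.low_x A.k0 hkn hk, A.L.low_x A.l0 hln hl]
      · exact iff_of_true (A.red1 _ e1) (A.red2 _ e2)
    · obtain ⟨c₀, hc₀⟩ := hv
      rw [mQ, kat v hvx, lat v hvx] at hc₀
      have hkv := A.K.r_pos A.k0 (A.onK v) hvx
      have hlv := A.L.r_pos A.l0 (A.onL v) hvx
      by_cases hvp : v = p
      · subst hvp
        refine ⟨A.K.c (A.K.r v - 1), A.L.c (A.L.r v - 1), ?_, ?_, hs⟩
        · intro h
          refine A.disj _ (A.K.mem_pred (A.onK v) hk) ?_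
          rw [h]
          exact A.L.mem_pred (A.onL v) hl
        · intro c
          rw [mQ, kat v hvx, lat v hvx]
          constructor
          · rintro ((⟨-, h⟩ | ⟨h, -⟩) | (⟨-, h⟩ | ⟨h, -⟩))
            · exact absurd h (lt_irrefl _)
            · exact Or.inl h
            · exact absurd h (lt_irrefl _)
            · exact Or.inr h
          · rintro (h | h)
            · exact Or.inl (Or.inr ⟨h, le_rfl⟩)
            · exact Or.inr (Or.inr ⟨h, le_rfl⟩)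
      · have nk : A.K.r v ≠ A.K.r p := fun h => hvp (A.K.r_inj (A.onK v) (A.onK p) h)
        have nl : A.L.r v ≠ A.L.r p := fun h => hvp (A.L.r_inj (A.onL v) (A.onL p) h)
        have hnot := h1 v hvx
        by_cases hlt : A.K.r v < A.K.r p
        · have hL : ¬ A.L.r v ≤ A.L.r p := by omega
          refine ⟨A.K.c (A.K.r v + 1), A.K.c (A.K.r v - 1), A.K.pred_ne_succ hkv, ?_,
            A.alt1 v hvx _ _ (A.K.pred_ne_succ hkv) (A.K.mem_succ (A.onK v))
              (A.K.mem_pred (A.onK v) hkv)⟩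
          intro c
          rw [mQ, kat v hvx, lat v hvx]
          constructor
          · rintro ((⟨h, -⟩ | ⟨h, -⟩) | (⟨-, h⟩ | ⟨-, h⟩))
            · exact Or.inl h
            · exact Or.inr h
            · omega
            · omega
          · rintro (h | h)
            · exact Or.inl (Or.inl ⟨h, hlt⟩)
            · exact Or.inl (Or.inr ⟨h, hlt.le⟩)
        · have hK : ¬ A.K.r v ≤ A.K.r p := by omega
          have hlt' : A.L.r v < A.L.r p := by
            rcases hc₀ with (⟨-, h⟩ | ⟨-, h⟩) | (⟨-, h⟩ | ⟨-, h⟩) <;> omega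
          refine ⟨A.L.c (A.L.r v + 1), A.L.c (A.L.r v - 1), A.L.pred_ne_succ hlv, ?_,
            A.alt2 v hvx _ _ (A.L.pred_ne_succ hlv) (A.L.mem_succ (A.onL v))
              (A.L.mem_pred (A.onL v) hlv)⟩
          intro c
          rw [mQ, kat v hvx, lat v hvx]
          constructor
          · rintro ((⟨-, h⟩ | ⟨-, h⟩) | (⟨h, -⟩ | ⟨h, -⟩))
            · omega
            · omega
            · exact Or.inl h
            · exact Or.inr h
          · rintro (h | h)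
            · exact Or.inr (Or.inl ⟨h, hlt'⟩)
            · exact Or.inr (Or.inr ⟨h, hlt'.le⟩)
  · -- solid
    intro w κ hκ
    -- edges with high numbers are not in `Q`
    have kR : ∀ t, A.K.r p ≤ t → t < A.K.n → s(A.K.c t, A.K.c (t + 1)) ∈ H.edgeSet \ Q := by
      intro t h3 h4
      refine ⟨(A.cover _).2 (Or.inl (A.K.mem_edge t)), ?_⟩
      rintro (⟨i, hi, h⟩ | ⟨i, hi, h⟩)
      · have := A.K.edge_inj h4 (by omega) h
        omega
      · exact A.disj _ (A.K.mem_edge t) (h ▸ A.L.mem_edge i)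
    have lR : ∀ t, A.L.r p ≤ t → t < A.L.n → s(A.L.c t, A.L.c (t + 1)) ∈ H.edgeSet \ Q := by
      intro t h3 h4
      refine ⟨(A.cover _).2 (Or.inr (A.L.mem_edge t)), ?_⟩
      rintro (⟨i, hi, h⟩ | ⟨i, hi, h⟩)
      · exact A.disj _ (A.K.mem_edge i) (h ▸ A.L.mem_edge t)
      · have := A.L.edge_inj h4 (by omega) h
        omega
    have kstep : ∀ t, A.K.r p ≤ t → t + 1 < A.K.n →
        (A.K.c (t + 1) ≠ w ∨ OnQ Q (A.K.c (t + 1))) →
        (κ s(A.K.c t, A.K.c (t + 1)) ↔ κ s(A.K.c (t + 1), A.K.c (t + 1 + 1))) := by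
      intro t h3 h4 h5
      have h6 := kR t h3 (by omega)
      rw [Sym2.eq_swap] at h6
      have h7 := hκ _ h5 _ _ h6 (kR (t + 1) (by omega) h4)
      rw [← h7, Sym2.eq_swap]
    have lstep : ∀ t, A.L.r p ≤ t → t + 1 < A.L.n →
        (A.L.c (t + 1) ≠ w ∨ OnQ Q (A.L.c (t + 1))) →
        (κ s(A.L.c t, A.L.c (t + 1)) ↔ κ s(A.L.c (t + 1), A.L.c (t + 1 + 1))) := by
      intro t h3 h4 h5
      have h6 := lR t h3 (by omega)
      rw [Sym2.eq_swap] at h6
      have h7 := hκ _ h5 _ _ h6 (lR (t + 1) (by omega) h4)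
      rw [← h7, Sym2.eq_swap]
    -- at `p`
    have hpp : κ s(A.K.c (A.K.r p), A.K.c (A.K.r p + 1)) ↔ κ s(A.L.c (A.L.r p), A.L.c (A.L.r p + 1)) := by
      have h3 := kR (A.K.r p) le_rfl hkn
      have h4 := lR (A.L.r p) le_rfl hln
      rw [(A.onK p).2] at h3 ⊢
      rw [(A.onL p).2] at h4 ⊢
      exact hκ p (Or.inr (onQ p hpx (Or.inl le_rfl))) _ _ h3 h4
    -- at `x`
    have s1 : s(A.K.c (A.K.n - 1), A.K.c (A.K.n - 1 + 1)) = s(x, A.K.c (A.K.n - 1)) := by
      have e1 : A.K.n - 1 + 1 = A.K.n := by omega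
      rw [e1, A.K.c_n A.k0, Sym2.eq_swap]
    have s2 : s(A.L.c (A.L.n - 1), A.L.c (A.L.n - 1 + 1)) = s(x, A.L.c (A.L.n - 1)) := by
      have e1 : A.L.n - 1 + 1 = A.L.n := by omega
      rw [e1, A.L.c_n A.l0, Sym2.eq_swap]
    have hxx : κ s(A.K.c (A.K.n - 1), A.K.c (A.K.n - 1 + 1)) ↔
        κ s(A.L.c (A.L.n - 1), A.L.c (A.L.n - 1 + 1)) := by
      have h3 := kR (A.K.n - 1) (by omega) (by omega)
      have h4 := lR (A.L.n - 1) (by omega) (by omega)
      rw [s1] at h3 ⊢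
      rw [s2] at h4 ⊢
      exact hκ x (Or.inr hxQ) _ _ h3 h4
    -- every edge is a high edge
    have hedge : ∀ e ∈ H.edgeSet \ Q, (∃ t, A.K.r p ≤ t ∧ t < A.K.n ∧ e = s(A.K.c t, A.K.c (t + 1))) ∨
        (∃ t, A.L.r p ≤ t ∧ t < A.L.n ∧ e = s(A.L.c t, A.L.c (t + 1))) := by
      rintro e ⟨he, hq⟩
      rcases (A.cover e).1 he with h | h
      · left
        obtain ⟨t, ht, rfl⟩ := (A.K.edge e).1 h
        refine ⟨t, ?_, ht, rfl⟩
        by_contra hc
        exact hq (Or.inl ⟨t, by omega, rfl⟩)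
      · right
        obtain ⟨t, ht, rfl⟩ := (A.L.edge e).1 h
        refine ⟨t, ?_, ht, rfl⟩
        by_contra hc
        exact hq (Or.inr ⟨t, by omega, rfl⟩)
    -- both circuits are constant
    have main : (∀ t, A.K.r p ≤ t → t < A.K.n → (κ s(A.K.c (A.K.r p), A.K.c (A.K.r p + 1)) ↔
        κ s(A.K.c t, A.K.c (t + 1)))) ∧ (∀ t, A.L.r p ≤ t → t < A.L.n →
        (κ s(A.L.c (A.L.r p), A.L.c (A.L.r p + 1)) ↔ κ s(A.L.c t, A.L.c (t + 1)))) := by
      have rK : ∀ t, t < A.K.n → A.K.r (A.K.c t) = t := fun t ht => A.K.inj t ht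
      have rL : ∀ t, t < A.L.n → A.L.r (A.L.c t) = t := fun t ht => A.L.inj t ht
      by_cases hw : w ≠ x ∧ A.K.r p < A.K.r w ∧ A.L.r p < A.L.r w
      · obtain ⟨hwx, hw1, hw2⟩ := hw
        have hwk := (A.onK w).1
        have hwl := (A.onL w).1
        -- before `w`
        have k1 : ∀ t, A.K.r p ≤ t → t < A.K.r w → (κ s(A.K.c (A.K.r p), A.K.c (A.K.r p + 1)) ↔
            κ s(A.K.c t, A.K.c (t + 1))) := by
          intro t h3 h4
          refine A.K.prop κ h3 (fun t' h5 h6 => kstep t' h5 (by omega) (Or.inl ?_))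
          intro h7
          have := rK (t' + 1) (by omega)
          rw [h7] at this
          omega
        have l1 : ∀ t, A.L.r p ≤ t → t < A.L.r w → (κ s(A.L.c (A.L.r p), A.L.c (A.L.r p + 1)) ↔
            κ s(A.L.c t, A.L.c (t + 1))) := by
          intro t h3 h4
          refine A.L.prop κ h3 (fun t' h5 h6 => lstep t' h5 (by omega) (Or.inl ?_))
          intro h7
          have := rL (t' + 1) (by omega)
          rw [h7] at this
          omega
        -- after `w`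
        have k2 : ∀ t, A.K.r w ≤ t → t < A.K.n → (κ s(A.K.c t, A.K.c (t + 1)) ↔
            κ s(A.K.c (A.K.n - 1), A.K.c (A.K.n - 1 + 1))) := by
          intro t h3 h4
          refine A.K.prop κ (by omega) (fun t' h5 h6 => kstep t' (by omega) (by omega) (Or.inl ?_))
          intro h7
          have := rK (t' + 1) (by omega)
          rw [h7] at this
          omega
        have l2 : ∀ t, A.L.r w ≤ t → t < A.L.n → (κ s(A.L.c t, A.L.c (t + 1)) ↔
            κ s(A.L.c (A.L.n - 1), A.L.c (A.L.n - 1 + 1))) := by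
          intro t h3 h4
          refine A.L.prop κ (by omega) (fun t' h5 h6 => lstep t' (by omega) (by omega) (Or.inl ?_))
          intro h7
          have := rL (t' + 1) (by omega)
          rw [h7] at this
          omega
        -- the two values are equal
        have hjoin : κ s(A.K.c (A.K.r p), A.K.c (A.K.r p + 1)) ↔
            κ s(A.K.c (A.K.n - 1), A.K.c (A.K.n - 1 + 1)) := by
          obtain ⟨y, hyx, hy1, hy2, hy3⟩ := hC w hwx hw1 hw2
          have hyk := (A.onK y).1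
          have hyl := (A.onL y).1
          have hyw : y ≠ w := by
            rintro rfl
            omega
          have h3 := kR (A.K.r y) (by omega) hyk
          have h4 := lR (A.L.r y) (by omega) hyl
          have h5 : κ s(A.K.c (A.K.r y), A.K.c (A.K.r y + 1)) ↔
              κ s(A.L.c (A.L.r y), A.L.c (A.L.r y + 1)) := by
            rw [(A.onK y).2] at h3 ⊢
            rw [(A.onL y).2] at h4 ⊢
            exact hκ y (Or.inl hyw) _ _ h3 h4
          rcases hy3 with ⟨h6, h7⟩ | ⟨h6, h7⟩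
          · exact (k1 _ (by omega) h6).trans (h5.trans ((l2 _ (by omega) hyl).trans hxx.symm))
          · exact hpp.trans ((l1 _ (by omega) h7).trans (h5.symm.trans (k2 _ (by omega) hyk)))
        have hjoin' : κ s(A.L.c (A.L.r p), A.L.c (A.L.r p + 1)) ↔
            κ s(A.L.c (A.L.n - 1), A.L.c (A.L.n - 1 + 1)) := hpp.symm.trans (hjoin.trans hxx)
        constructor
        · intro t h3 h4
          rcases lt_or_ge t (A.K.r w) with h5 | h5
          · exact k1 t h3 h5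
          · exact hjoin.trans (k2 t h5 h4).symm
        · intro t h3 h4
          rcases lt_or_ge t (A.L.r w) with h5 | h5
          · exact l1 t h3 h5
          · exact hjoin'.trans (l2 t h5 h4).symm
      · constructor
        · intro t h3 h4
          refine A.K.prop κ h3 (fun t' h5 h6 => kstep t' h5 (by omega) ?_)
          by_cases h7 : A.K.c (t' + 1) = w
          · right
            have h8 : A.K.c (t' + 1) ≠ x := A.K.c_ne_x A.k0 (by omega) (by omega)
            refine onQ _ h8 (Or.inr ?_)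
            by_contra h9
            apply hw
            rw [← h7]
            refine ⟨h8, ?_, by omega⟩
            rw [rK (t' + 1) (by omega)]
            omega
          · exact Or.inl h7
        · intro t h3 h4
          refine A.L.prop κ h3 (fun t' h5 h6 => lstep t' h5 (by omega) ?_)
          by_cases h7 : A.L.c (t' + 1) = w
          · right
            have h8 : A.L.c (t' + 1) ≠ x := A.L.c_ne_x A.l0 (by omega) (by omega)
            refine onQ _ h8 (Or.inl ?_)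
            by_contra h9
            apply hw
            rw [← h7]
            refine ⟨h8, by omega, ?_⟩
            rw [rL (t' + 1) (by omega)]
            omega
          · exact Or.inl h7
    have hall : ∀ e ∈ H.edgeSet \ Q, (κ e ↔ κ s(A.K.c (A.K.r p), A.K.c (A.K.r p + 1))) := by
      intro e he
      rcases hedge e he with ⟨t, h3, h4, rfl⟩ | ⟨t, h3, h4, rfl⟩
      · exact (main.1 t h3 h4).symm
      · exact (hpp.trans (main.2 t h3 h4)).symm
    intro e he e' he'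
    rw [hall e he, hall e' he']

/-- reversing the first circuit -/
lemma XPole.revK (A : XPole H red x E1 E2) : ∃ B : XPole H red x E1 E2, B.L = A.L ∧
    B.K.n = A.K.n ∧ (∀ i ≤ A.K.n, B.K.c i = A.K.c (A.K.n - i)) ∧
    (∀ v, v ≠ x → B.K.r v = A.K.n - A.K.r v) := by
  obtain ⟨K', e1, e2, e3, e4⟩ := A.K.reverse
  refine ⟨{ K := K', L := A.L, onK := fun v => K'.on_iff.2 (A.K.on_iff.1 (A.onK v)),
            onL := A.onL, cover := A.cover, disj := A.disj, k0 := e3.trans A.k0, l0 := A.l0,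
            alt1 := A.alt1, alt2 := A.alt2, red1 := A.red1, red2 := A.red2 }, rfl, e1, e2, ?_⟩
  intro v hv
  have h1 := A.K.r_pos A.k0 (A.onK v) hv
  show K'.r v = A.K.n - A.K.r v
  rw [e4 v (A.onK v), if_neg (by omega)]

/-- reversing the second circuit -/
lemma XPole.revL (A : XPole H red x E1 E2) : ∃ B : XPole H red x E1 E2, B.K = A.K ∧
    B.L.n = A.L.n ∧ (∀ i ≤ A.L.n, B.L.c i = A.L.c (A.L.n - i)) ∧
    (∀ v, v ≠ x → B.L.r v = A.L.n - A.L.r v) := by
  obtain ⟨K', e1, e2, e3, e4⟩ := A.L.reverse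
  refine ⟨{ K := A.K, L := K', onK := A.onK, onL := fun v => K'.on_iff.2 (A.L.on_iff.1 (A.onL v)),
            cover := A.cover, disj := A.disj, k0 := A.k0, l0 := e3.trans A.l0,
            alt1 := A.alt1, alt2 := A.alt2, red1 := A.red1, red2 := A.red2 }, rfl, e1, e2, ?_⟩
  intro v hv
  have h1 := A.L.r_pos A.l0 (A.onL v) hv
  show K'.r v = A.L.n - A.L.r v
  rw [e4 v (A.onL v), if_neg (by omega)]

lemma XPole.flipK (A : XPole H red x E1 E2) {p : V} (hp : p ≠ x) :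
    s(p, A.K.c (A.K.r p + 1)) ∈ red ↔ s(p, A.K.c (A.K.r p - 1)) ∉ red := by
  have h := A.K.r_pos A.k0 (A.onK p) hp
  exact A.alt1 p hp _ _ (A.K.pred_ne_succ h) (A.K.mem_succ (A.onK p)) (A.K.mem_pred (A.onK p) h)

lemma XPole.flipL (A : XPole H red x E1 E2) {p : V} (hp : p ≠ x) :
    s(p, A.L.c (A.L.r p + 1)) ∈ red ↔ s(p, A.L.c (A.L.r p - 1)) ∉ red := by
  have h := A.L.r_pos A.l0 (A.onL p) hp
  exact A.alt2 p hp _ _ (A.L.pred_ne_succ h) (A.L.mem_succ (A.onL p)) (A.L.mem_pred (A.onL p) h)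

/-- the main case with the second circuit reversed -/
theorem xs1 (A : XPole H red x E1 E2) {p : V} (hpx : p ≠ x)
    (hs : s(p, A.K.c (A.K.r p - 1)) ∈ red ↔ s(p, A.L.c (A.L.r p - 1)) ∈ red)
    (h1 : ∀ v, v ≠ x → ¬ (A.K.r v < A.K.r p ∧ A.L.r p < A.L.r v))
    (hC : ∀ w, w ≠ x → A.K.r p < A.K.r w → A.L.r w < A.L.r p →
      ∃ y, y ≠ x ∧ A.K.r p < A.K.r y ∧ A.L.r y < A.L.r p ∧
        ((A.K.r y < A.K.r w ∧ A.L.r y < A.L.r w) ∨ (A.K.r w < A.K.r y ∧ A.L.r w < A.L.r y))) :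
    HasGood H red := by
  obtain ⟨B, eK, en, ec, er⟩ := A.revL
  have hpl := (A.onL p).1
  have hpl0 := A.L.r_pos A.l0 (A.onL p) hpx
  refine xs0 B hpx ?_ ?_ ?_
  · rw [eK, er p hpx, ec _ (by omega)]
    have e : A.L.n - (A.L.n - A.L.r p - 1) = A.L.r p + 1 := by omega
    rw [e, hs, A.flipL hpx, not_not]
  · intro v hv
    rw [eK, er v hv, er p hpx]
    have h3 := h1 v hv
    have h4 := (A.onL v).1
    omega
  · intro w hw
    rw [eK, er w hw, er p hpx]
    intro h3 h4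
    have h5 := (A.onL w).1
    obtain ⟨y, hy, g1, g2, g3⟩ := hC w hw h3 (by omega)
    refine ⟨y, hy, g1, ?_, ?_⟩
    · rw [er y hy]; omega
    · rw [er y hy]; omega

/-- the main case with the first circuit reversed -/
theorem xs2 (A : XPole H red x E1 E2) {p : V} (hpx : p ≠ x)
    (hs : s(p, A.K.c (A.K.r p - 1)) ∈ red ↔ s(p, A.L.c (A.L.r p - 1)) ∈ red)
    (h1 : ∀ v, v ≠ x → ¬ (A.K.r p < A.K.r v ∧ A.L.r v < A.L.r p))
    (hC : ∀ w, w ≠ x → A.K.r w < A.K.r p → A.L.r p < A.L.r w →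
      ∃ y, y ≠ x ∧ A.K.r y < A.K.r p ∧ A.L.r p < A.L.r y ∧
        ((A.K.r y < A.K.r w ∧ A.L.r y < A.L.r w) ∨ (A.K.r w < A.K.r y ∧ A.L.r w < A.L.r y))) :
    HasGood H red := by
  obtain ⟨B, eK, en, ec, er⟩ := A.revK
  have hpl := (A.onK p).1
  have hpl0 := A.K.r_pos A.k0 (A.onK p) hpx
  refine xs0 B hpx ?_ ?_ ?_
  · rw [eK, er p hpx, ec _ (by omega)]
    have e : A.K.n - (A.K.n - A.K.r p - 1) = A.K.r p + 1 := by omega
    rw [e, ← hs]
    exact A.flipK hpx
  · intro v hv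
    rw [eK, er v hv, er p hpx]
    have h3 := h1 v hv
    have h4 := (A.onK v).1
    omega
  · intro w hw
    rw [eK, er w hw, er p hpx]
    intro h3 h4
    have h5 := (A.onK w).1
    obtain ⟨y, hy, g1, g2, g3⟩ := hC w hw (by omega) h4
    have h6 := (A.onK y).1
    refine ⟨y, hy, ?_, g2, ?_⟩
    · rw [er y hy]; omega
    · rw [er y hy]; omega

/-- the main case with both circuits reversed -/
theorem xs3 (A : XPole H red x E1 E2) {p : V} (hpx : p ≠ x)
    (hs : s(p, A.K.c (A.K.r p - 1)) ∈ red ↔ s(p, A.L.c (A.L.r p - 1)) ∉ red)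
    (h1 : ∀ v, v ≠ x → ¬ (A.K.r p < A.K.r v ∧ A.L.r p < A.L.r v))
    (hC : ∀ w, w ≠ x → A.K.r w < A.K.r p → A.L.r w < A.L.r p →
      ∃ y, y ≠ x ∧ A.K.r y < A.K.r p ∧ A.L.r y < A.L.r p ∧
        ((A.K.r y < A.K.r w ∧ A.L.r w < A.L.r y) ∨ (A.K.r w < A.K.r y ∧ A.L.r y < A.L.r w))) :
    HasGood H red := by
  obtain ⟨B, eK, en, ec, er⟩ := A.revL
  have hpl := (A.onL p).1
  have hpl0 := A.L.r_pos A.l0 (A.onL p) hpx
  refine xs2 B hpx ?_ ?_ ?_
  · rw [eK, er p hpx, ec _ (by omega)]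
    have e : A.L.n - (A.L.n - A.L.r p - 1) = A.L.r p + 1 := by omega
    rw [e, hs]
    exact (A.flipL hpx).symm
  · intro v hv
    rw [eK, er v hv, er p hpx]
    have h3 := h1 v hv
    have h4 := (A.onL v).1
    omega
  · intro w hw
    rw [eK, er w hw, er p hpx]
    intro h3 h4
    have h5 := (A.onL w).1
    obtain ⟨y, hy, g1, g2, g3⟩ := hC w hw h3 (by omega)
    have h6 := (A.onL y).1
    refine ⟨y, hy, g1, ?_, ?_⟩
    · rw [er y hy]; omega
    · rw [er y hy]; omega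

lemma exists_nb {G : SimpleGraph V} {C : Set V} (h2 : 2 ≤ C.ncard) (hd : ¬ Disc G C) {w : V}
    (hw : w ∈ C) : ∃ y ∈ C, y ≠ w ∧ G.Adj w y := by
  by_contra hcon
  push Not at hcon
  apply hd
  refine ⟨{w}, by simpa using hw, ⟨w, rfl⟩, ?_, ?_⟩
  · obtain ⟨y, hy, hyw⟩ := Set.exists_ne_of_one_lt_ncard (s := C) (by omega) w
    exact ⟨y, hy, hyw⟩
  · rintro u rfl y ⟨hy, hyw⟩
    exact hcon y hy hyw

lemma exists_conb {G : SimpleGraph V} {C : Set V} (h2 : 2 ≤ C.ncard) (hd : ¬ CoDisc G C) {w : V}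
    (hw : w ∈ C) : ∃ y ∈ C, y ≠ w ∧ ¬ G.Adj w y := by
  by_contra hcon
  push Not at hcon
  apply hd
  refine ⟨{w}, by simpa using hw, ⟨w, rfl⟩, ?_, ?_⟩
  · obtain ⟨y, hy, hyw⟩ := Set.exists_ne_of_one_lt_ncard (s := C) (by omega) w
    exact ⟨y, hy, hyw⟩
  · rintro u rfl y ⟨hy, hyw⟩
    exact hcon y hy hyw

/-- the circuit crossing at `x` and at one vertex `p` (XS) -/
theorem xpole_single [Finite V] (h2 : TwoReg H red) (A : XPole H red x E1 E2)
    (F : Frame H red) (hpd : ∀ v, F.pd v = A.K.r v) (hpf : ∀ v, F.pf v = A.L.r v)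
    (hd : ∀ i, F.d i = A.K.c i) (hf : ∀ i, F.f i = A.L.c i) (hl : F.l = A.K.n) (hm : F.m = A.L.n)
    (hP : F.P = {v | v ≠ x}) (h : GoodSingle F.G F.sg F.P) : HasGood H red := by
  have _ := h2
  have _ := hl
  have _ := hm
  have mP : ∀ v, v ∈ F.P ↔ v ≠ x := fun v => by rw [hP]; rfl
  have hadj : ∀ u v, u ≠ x → v ≠ x → (F.G.Adj u v ↔
      (A.K.r u < A.K.r v ∧ A.L.r v < A.L.r u) ∨ (A.K.r v < A.K.r u ∧ A.L.r u < A.L.r v)) := by
    intro u v hu hv
    rw [← hpd, ← hpd, ← hpf, ← hpf]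
    constructor
    · intro h
      exact h.2.2
    · intro h
      exact ⟨(mP u).2 hu, (mP v).2 hv, h⟩
  have hsg : ∀ p, p ≠ x → (F.sg p ↔
      (s(p, A.K.c (A.K.r p - 1)) ∈ red ↔ s(p, A.L.c (A.L.r p - 1)) ∈ red)) := by
    intro p _
    show (s(F.d (F.pd p - 1), F.d (F.pd p)) ∈ red ↔ s(F.f (F.pf p - 1), F.f (F.pf p)) ∈ red) ↔ _
    rw [hd, hd, hf, hf, hpd, hpf, (A.onK p).2, (A.onL p).2, Sym2.eq_swap,
      Sym2.eq_swap (a := A.L.c (A.L.r p - 1))]
  have kinj : ∀ u v, A.K.r u = A.K.r v → u = v := fun u v h => A.K.r_inj (A.onK u) (A.onK v) h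
  have linj : ∀ u v, A.L.r u = A.L.r v → u = v := fun u v h => A.L.r_inj (A.onL u) (A.onL v) h
  rcases h with ⟨p, hp, hs, hC2, hC⟩ | ⟨p, hp, hs, hC2, hC⟩
  · have hpx := (mP p).1 hp
    rw [hsg p hpx] at hs
    have hs' : s(p, A.K.c (A.K.r p - 1)) ∈ red ↔ s(p, A.L.c (A.L.r p - 1)) ∉ red := by tauto
    have mC : ∀ v, v ∈ {v ∈ F.P | v ≠ p ∧ ¬ F.G.Adj p v} ↔ v ≠ x ∧ ((A.K.r v < A.K.r p ∧
        A.L.r v < A.L.r p) ∨ (A.K.r p < A.K.r v ∧ A.L.r p < A.L.r v)) := by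
      intro v
      rw [Set.mem_ofPred_eq, mP]
      constructor
      · rintro ⟨h1, h3, h4⟩
        rw [hadj p v hpx h1] at h4
        have h5 : A.K.r v ≠ A.K.r p := fun h => h3 (kinj _ _ h)
        have h6 : A.L.r v ≠ A.L.r p := fun h => h3 (linj _ _ h)
        exact ⟨h1, by omega⟩
      · rintro ⟨h1, h3⟩
        refine ⟨h1, ?_, ?_⟩
        · rintro rfl
          omega
        · rw [hadj p v hpx h1]
          omega
    by_cases hA : ∀ v, v ≠ x → ¬ (A.K.r v < A.K.r p ∧ A.L.r v < A.L.r p)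
    · refine xs0 A hpx hs' hA ?_
      intro w hw h3 h4
      obtain ⟨y, hy, hyw, hya⟩ := exists_nb hC2 hC ((mC w).2 ⟨hw, Or.inr ⟨h3, h4⟩⟩)
      rw [mC] at hy
      rw [hadj w y hw hy.1] at hya
      have h5 := hA y hy.1
      refine ⟨y, hy.1, by omega, by omega, by omega⟩
    · push Not at hA
      obtain ⟨a, hax, ha1, ha2⟩ := hA
      have hB : ∀ v, v ≠ x → ¬ (A.K.r p < A.K.r v ∧ A.L.r p < A.L.r v) := by
        rintro b hbx ⟨hb1, hb2⟩
        apply hC
        refine ⟨{v | v ≠ x ∧ A.K.r v < A.K.r p ∧ A.L.r v < A.L.r p}, ?_, ⟨a, hax, ha1, ha2⟩,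
          ⟨b, (mC b).2 ⟨hbx, Or.inr ⟨hb1, hb2⟩⟩, ?_⟩, ?_⟩
        · rintro v ⟨h1, h3, h4⟩
          exact (mC v).2 ⟨h1, Or.inl ⟨h3, h4⟩⟩
        · rintro ⟨-, h1, -⟩
          omega
        · rintro u ⟨hux, hu1, hu2⟩ v ⟨hv, hv'⟩
          rw [mC] at hv
          rw [hadj u v hux hv.1]
          have h6 : ¬ (A.K.r v < A.K.r p ∧ A.L.r v < A.L.r p) := fun h => hv' ⟨hv.1, h⟩
          omega
      refine xs3 A hpx hs' hB ?_
      intro w hw h3 h4
      obtain ⟨y, hy, hyw, hya⟩ := exists_nb hC2 hC ((mC w).2 ⟨hw, Or.inl ⟨h3, h4⟩⟩)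
      rw [mC] at hy
      rw [hadj w y hw hy.1] at hya
      have h5 := hB y hy.1
      refine ⟨y, hy.1, by omega, by omega, by omega⟩
  · have hpx := (mP p).1 hp
    rw [hsg p hpx] at hs
    have mC : ∀ v, v ∈ {v ∈ F.P | F.G.Adj p v} ↔ v ≠ x ∧ ((A.K.r v < A.K.r p ∧
        A.L.r p < A.L.r v) ∨ (A.K.r p < A.K.r v ∧ A.L.r v < A.L.r p)) := by
      intro v
      rw [Set.mem_ofPred_eq, mP]
      constructor
      · rintro ⟨h1, h4⟩
        rw [hadj p v hpx h1] at h4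
        exact ⟨h1, by omega⟩
      · rintro ⟨h1, h3⟩
        refine ⟨h1, ?_⟩
        rw [hadj p v hpx h1]
        omega
    by_cases hA : ∀ v, v ≠ x → ¬ (A.K.r v < A.K.r p ∧ A.L.r p < A.L.r v)
    · refine xs1 A hpx hs hA ?_
      intro w hw h3 h4
      obtain ⟨y, hy, hyw, hya⟩ := exists_conb hC2 hC ((mC w).2 ⟨hw, Or.inr ⟨h3, h4⟩⟩)
      rw [mC] at hy
      rw [hadj w y hw hy.1] at hya
      have h5 := hA y hy.1
      have h6 : A.K.r y ≠ A.K.r w := fun h => hyw (kinj _ _ h)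
      have h7 : A.L.r y ≠ A.L.r w := fun h => hyw (linj _ _ h)
      refine ⟨y, hy.1, by omega, by omega, by omega⟩
    · push Not at hA
      obtain ⟨a, hax, ha1, ha2⟩ := hA
      have hB : ∀ v, v ≠ x → ¬ (A.K.r p < A.K.r v ∧ A.L.r v < A.L.r p) := by
        rintro b hbx ⟨hb1, hb2⟩
        apply hC
        refine ⟨{v | v ≠ x ∧ A.K.r v < A.K.r p ∧ A.L.r p < A.L.r v}, ?_, ⟨a, hax, ha1, ha2⟩,
          ⟨b, (mC b).2 ⟨hbx, Or.inr ⟨hb1, hb2⟩⟩, ?_⟩, ?_⟩
        · rintro v ⟨h1, h3, h4⟩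
          exact (mC v).2 ⟨h1, Or.inl ⟨h3, h4⟩⟩
        · rintro ⟨-, h1, -⟩
          omega
        · rintro u ⟨hux, hu1, hu2⟩ v ⟨hv, hv'⟩
          rw [mC] at hv
          rw [hadj u v hux hv.1]
          have h6 : ¬ (A.K.r v < A.K.r p ∧ A.L.r p < A.L.r v) := fun h => hv' ⟨hv.1, h⟩
          omega
      refine xs2 A hpx hs hB ?_
      intro w hw h3 h4
      obtain ⟨y, hy, hyw, hya⟩ := exists_conb hC2 hC ((mC w).2 ⟨hw, Or.inl ⟨h3, h4⟩⟩)
      rw [mC] at hy
      rw [hadj w y hw hy.1] at hya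
      have h5 := hB y hy.1
      have h6 : A.K.r y ≠ A.K.r w := fun h => hyw (kinj _ _ h)
      have h7 : A.L.r y ≠ A.L.r w := fun h => hyw (linj _ _ h)
      refine ⟨y, hy.1, by omega, by omega, by omega⟩

end Pool.Agent.GD
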